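import Pool.Agent.X287.Level2

/-!
# Growth exponents and half planes
-/

set_option autoImplicit false

open MeasureTheory Filter Topology Set Complex
open Pool.Agent.TH942.SL
open Pool.Agent.TH942.ES

namespace Pool.Agent.X287.RS

variable {X : Type} {d : ℕ} {N : X → ℕ} {α : X → Fin d → ℂ} {F : ℂ → ℂ} {ρ ρ' κ : ℝ}

theorem cos_pow {ρ φ : ℝ} (hρ : 1 < ρ) (hφ : |φ * ρ| < Real.pi / 2) :
    Real.cos (φ * ρ) ≤ Real.cos φ ^ ρ := by
  have hρ0 : 0 < ρ := by linarith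
  have hpi := Real.pi_pos
  obtain ⟨h1, h2⟩ := abs_lt.1 hφ
  have hc0 : 0 < Real.cos (φ * ρ) := Real.cos_pos_of_mem_Ioo ⟨by linarith, h2⟩
  have hw : 0 ≤ ρ⁻¹ := by positivity
  have hw1 : 0 ≤ 1 - ρ⁻¹ := by
    have := inv_lt_one_of_one_lt₀ hρ
    linarith
  have e1 := strictConcaveOn_cos_Icc.concaveOn.2 (x := φ * ρ) (y := 0)
    ⟨by linarith, by linarith⟩ ⟨by linarith, by linarith⟩ hw hw1 (by ring)
  have e2 : ρ⁻¹ • (φ * ρ) + (1 - ρ⁻¹) • (0 : ℝ) = φ := by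
    simp only [smul_eq_mul, mul_zero, add_zero]
    field_simp
  rw [e2] at e1
  simp only [smul_eq_mul, Real.cos_zero, mul_one] at e1
  have e3 := Real.geom_mean_le_arith_mean2_weighted hw hw1 hc0.le zero_le_one (by ring)
  rw [Real.one_rpow, mul_one, mul_one] at e3
  have e4 : Real.cos (φ * ρ) ^ ρ⁻¹ ≤ Real.cos φ := e3.trans e1
  have e5 := Real.rpow_le_rpow (by positivity) e4 hρ0.le
  rwa [← Real.rpow_mul hc0.le, inv_mul_cancel₀ hρ0.ne', Real.rpow_one] at e5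

theorem hyp_half (hρ : 1 < ρ) (hκ : 0 ≤ κ) {s : ℂ} (hs : s ∈ Hyp ρ (κ ^ ρ)) : κ < s.re := by
  have hρ0 : 0 < ρ := by linarith
  have hre := sect_re hρ hs.1
  have h1 : |arg s * ρ| < Real.pi / 2 := by
    rw [abs_mul, abs_of_pos hρ0]
    calc |arg s| * ρ < Real.pi / (2 * ρ) * ρ := mul_lt_mul_of_pos_right hs.1.2 hρ0
      _ = Real.pi / 2 := by field_simp
  have h2 := hs.2
  rw [re_pow] at h2
  have h3 : s.re ^ ρ = ‖s‖ ^ ρ * Real.cos (arg s) ^ ρ := by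
    have e1 : s.re = ‖s‖ * Real.cos (arg s) := (Complex.norm_mul_cos_arg s).symm
    have e2 : 0 ≤ Real.cos (arg s) := by
      by_contra hcon
      have := norm_pos' hre
      nlinarith [not_le.1 hcon]
    conv_lhs => rw [e1]
    exact Real.mul_rpow (norm_nonneg _) e2
  have h4 : κ ^ ρ < s.re ^ ρ := by
    rw [h3]
    refine h2.trans_le ?_
    exact mul_le_mul_of_nonneg_left (cos_pow hρ h1) (by positivity)
  by_contra hcon
  exact absurd (Real.rpow_le_rpow hre.le (not_lt.1 hcon) hρ0.le) (not_le.2 h4)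

theorem half_hyp (hκ : 0 ≤ κ) {s : ℂ} (hs : κ < s.re) : ∃ ρ : ℝ, 1 < ρ ∧ s ∈ Hyp ρ (κ ^ ρ) := by
  have hre : 0 < s.re := lt_of_le_of_lt hκ hs
  have hs0 : s ≠ 0 := ne_zero' hre
  have h1 : Tendsto (fun ρ : ℝ => (s ^ (ρ : ℂ)).re) (𝓝[>] 1) (𝓝 s.re) := by
    have h2 : Tendsto (fun ρ : ℝ => (s ^ (ρ : ℂ)).re) (𝓝 1) (𝓝 ((s ^ ((1 : ℝ) : ℂ)).re)) := by
      have h3 : Continuous fun ρ : ℝ => s ^ (ρ : ℂ) :=
        Continuous.const_cpow (by fun_prop) (Or.inl hs0)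
      exact (Complex.continuous_re.comp h3).tendsto 1
    rw [Complex.ofReal_one, Complex.cpow_one] at h2
    exact h2.mono_left nhdsWithin_le_nhds
  have h2 : Tendsto (fun ρ : ℝ => κ ^ ρ) (𝓝[>] 1) (𝓝 κ) := by
    rcases hκ.lt_or_eq with h | h
    · have h3 : Tendsto (fun ρ : ℝ => κ ^ ρ) (𝓝 1) (𝓝 (κ ^ (1 : ℝ))) :=
        (Real.continuous_const_rpow h.ne').tendsto 1
      rw [Real.rpow_one] at h3
      exact h3.mono_left nhdsWithin_le_nhds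
    · rw [← h]
      refine tendsto_const_nhds.congr' ?_
      filter_upwards [self_mem_nhdsWithin] with ρ hρ
      have hρ' : 1 < ρ := hρ
      rw [Real.zero_rpow (by linarith)]
  have h3 : Tendsto (fun ρ : ℝ => Real.pi / (2 * ρ)) (𝓝[>] 1) (𝓝 (Real.pi / 2)) := by
    have : ContinuousAt (fun ρ : ℝ => Real.pi / (2 * ρ)) 1 := by
      refine ContinuousAt.div continuousAt_const (by fun_prop) (by norm_num)
    have h4 := this.tendsto.mono_left (nhdsWithin_le_nhds (s := Ioi 1))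
    simpa using h4
  have h4 : |arg s| < Real.pi / 2 := Complex.abs_arg_lt_pi_div_two_iff.2 (Or.inl hre)
  obtain ⟨ρ, ⟨e1, e2⟩, e3⟩ := (((h2.eventually_lt h1 hs).and (h3.eventually (lt_mem_nhds h4))).and
    self_mem_nhdsWithin).exists
  exact ⟨ρ, e3, ⟨hs0, e2⟩, e1⟩

/-- two continuations agree -/
theorem ExtH.agree (E : Sys N α) {ρ₁ ρ₂ θ₁ θ₂ : ℝ} (h1 : 1 < ρ₁) (h2 : 1 < ρ₂) (t1 : 0 ≤ θ₁) (t2 : 0 ≤ θ₂)
    {G₁ G₂ : ℂ → ℂ} (hG₁ : ExtH N α ρ₁ θ₁ G₁) (hG₂ : ExtH N α ρ₂ θ₂ G₂) {s : ℂ}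
    (hs₁ : s ∈ Hyp ρ₁ θ₁) (hs₂ : s ∈ Hyp ρ₂ θ₂) : G₁ s = G₂ s := by
  have hre := sect_re h1 hs₁.1
  have ho : IsOpen {z : ℂ | 1 / 2 < z.re} := isOpen_lt continuous_const Complex.continuous_re
  have hT : Tendsto (fun t : ℝ => t * s.re) atTop atTop := tendsto_id.atTop_mul_const hre
  obtain ⟨t₁, h3, h4⟩ := ((hT.eventually_gt_atTop (1 / 2)).and (eventually_ge_atTop 1)).exists
  refine ray_id (s := s) (fun t ht => ?_) (fun t ht => ?_) h4 ?_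
  · have h5 : DifferentiableOn ℂ G₁ (Hyp ρ₁ θ₁) := fun z hz =>
      (hG₁.diff z (Or.inl hz)).differentiableWithinAt
    exact h5.analyticAt ((hyp_open h1).mem_nhds (hyp_scale h1 t1 ht hs₁))
  · have h5 : DifferentiableOn ℂ G₂ (Hyp ρ₂ θ₂) := fun z hz =>
      (hG₂.diff z (Or.inl hz)).differentiableWithinAt
    exact h5.analyticAt ((hyp_open h2).mem_nhds (hyp_scale h2 t2 ht hs₂))
  · filter_upwards [ho.mem_nhds (show 1 / 2 < ((t₁ : ℂ) * s).re by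
      rw [Complex.re_ofReal_mul]; exact h3)] with z hz
    rw [hG₁.eq z hz, hG₂.eq z hz]

/-- `G` is a continuation without zeros to the half plane `κ < Re s` -/
structure ExtP (N : X → ℕ) (α : X → Fin d → ℂ) (κ : ℝ) (G : ℂ → ℂ) : Prop where
  diff : ∀ s : ℂ, κ < s.re ∨ 1 / 2 < s.re → DifferentiableAt ℂ G s
  ne : ∀ s : ℂ, κ < s.re ∨ 1 / 2 < s.re → G s ≠ 0
  eq : ∀ s : ℂ, 1 / 2 < s.re → G s = LE N α s

/-- **half planes**: the gluing -/
theorem ExtP.glue (E : Sys N α) (hκ : 0 ≤ κ) :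
    (∃ G : ℂ → ℂ, ExtP N α κ G) ↔ ∀ ρ : ℝ, 1 < ρ → ∃ G : ℂ → ℂ, ExtH N α ρ (κ ^ ρ) G := by
  classical
  constructor
  · rintro ⟨G, hG⟩ ρ hρ
    have hconv : ∀ s : ℂ, s ∈ Hyp ρ (κ ^ ρ) ∨ 1 / 2 < s.re → κ < s.re ∨ 1 / 2 < s.re := by
      rintro s (hs | hs)
      · exact Or.inl (hyp_half hρ hκ hs)
      · exact Or.inr hs
    exact ⟨G, fun s hs => hG.diff s (hconv s hs), fun s hs => hG.ne s (hconv s hs), hG.eq⟩
  · intro h
    choose! g hg using h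
    choose! r hr1 hr2 using fun (s : ℂ) (hs : κ < s.re) => half_hyp hκ hs
    set G : ℂ → ℂ := fun s => if 1 / 2 < s.re then LE N α s else g (r s) s with hGdef
    have hG1 : ∀ s : ℂ, 1 / 2 < s.re → G s = LE N α s := fun s hs => by
      rw [hGdef]
      simp only
      rw [if_pos hs]
    have hθ : ∀ ρ : ℝ, 0 ≤ κ ^ ρ := fun ρ => Real.rpow_nonneg hκ ρ
    have hG2 : ∀ ρ : ℝ, 1 < ρ → ∀ s : ℂ, s ∈ Hyp ρ (κ ^ ρ) → G s = g ρ s := by
      intro ρ hρ s hs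
      have hk := hyp_half hρ hκ hs
      by_cases h2 : 1 / 2 < s.re
      · rw [hG1 s h2, (hg ρ hρ).eq s h2]
      · rw [hGdef]
        simp only
        rw [if_neg h2]
        exact (hg _ (hr1 s hk)).agree E (hr1 s hk) hρ (hθ _) (hθ _) (hg ρ hρ) (hr2 s hk) hs
    have ho : IsOpen {z : ℂ | 1 / 2 < z.re} := isOpen_lt continuous_const Complex.continuous_re
    refine ⟨G, fun s hs => ?_, fun s hs => ?_, hG1⟩
    · rcases hs with hs | hs
      · refine ((hg _ (hr1 s hs)).diff s (Or.inl (hr2 s hs))).congr_of_eventuallyEq ?_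
        filter_upwards [(hyp_open (hr1 s hs)).mem_nhds (hr2 s hs)] with z hz
        exact hG2 _ (hr1 s hs) z hz
      · refine (E.LE_diff hs).1.congr_of_eventuallyEq ?_
        filter_upwards [ho.mem_nhds hs] with z hz
        exact hG1 z hz
    · rcases hs with hs | hs
      · rw [hG2 _ (hr1 s hs) s (hr2 s hs)]
        exact (hg _ (hr1 s hs)).ne s (Or.inl (hr2 s hs))
      · rw [hG1 s hs]
        exact (E.LE_diff hs).2

/-- **half planes and growth** -/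
theorem half_iff (E : Sys N α) (hreal : Re N α) (H : RCon N α F) (hκ : 0 ≤ κ) {t : ℝ → ℝ}
    (ht : ∀ ρ, ρ < t ρ) :
    (∃ G : ℂ → ℂ, ExtP N α κ G) ↔ ∀ ρ : ℝ, 1 < ρ → ∀ ε : ℝ, 0 < ε → ∀ᶠ Y : ℝ in atTop,
      -StE N α ρ (t ρ) Y ≤ Real.exp ((κ ^ ρ + ε) * Real.log Y ^ ρ) := by
  rw [ExtP.glue E hκ]
  refine forall_congr' fun ρ => imp_congr_right fun hρ => ?_
  exact (level_iff E hreal H hρ (ht ρ) (Real.rpow_nonneg hκ ρ)).1

end Pool.Agent.X287.RS
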