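import Pool.Agent.X287.Kit
import Pool.Agent.X287.Level3

/-!
# Dictionary for regions
-/

set_option autoImplicit false

open Filter Topology Complex
open Pool.Agent.TH942.SL
open Pool.Agent.TH942.ES

namespace Pool.Agent.X287.Kit

open Pool.Agent.X287.RS

variable {X : Type} {d : ℕ} {N : X → ℕ} {α : X → Fin d → ℂ} {F G : ℂ → ℂ} {c : ℂ} {c₀ a₀ : ℝ}
  {lf : X → ℂ → ℂ}

theorem zgen_iff (E : Sys N α) (hlf : Loc N α c lf) (hc : c = c₀) (ha : a₀ = c₀ + 1 / 2)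
    {P P' : ℂ → Prop} (hP : ∀ z, P (c + z) ↔ P' z) :
    (∃ G : ℂ → ℂ, IsL a₀ lf G ∧ ∀ s : ℂ, P s ∨ a₀ < s.re → DifferentiableAt ℂ G s ∧ G s ≠ 0) ↔
    ∃ G : ℂ → ℂ, (∀ z : ℂ, P' z ∨ 1 / 2 < z.re → DifferentiableAt ℂ G z) ∧
      (∀ z : ℂ, P' z ∨ 1 / 2 < z.re → G z ≠ 0) ∧ ∀ z : ℂ, 1 / 2 < z.re → G z = LE N α z := by
  constructor
  · rintro ⟨G, h1, h2⟩
    have hconv : ∀ s : ℂ, P' s ∨ 1 / 2 < s.re → P (c + s) ∨ a₀ < (c + s).re := by
      intro s hs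
      rcases hs with hs | hs
      · exact Or.inl ((hP s).2 hs)
      · right
        rw [Complex.add_re, hc, Complex.ofReal_re]
        linarith
    refine ⟨fun s => G (c + s), fun s hs => ?_, fun s hs => (h2 _ (hconv s hs)).2, fun s hs => ?_⟩
    · exact (h2 _ (hconv s hs)).1.comp s (differentiableAt_id.const_add c)
    · exact (isL_iff E hlf hc ha).1 h1 s hs
  · rintro ⟨G, hd, hn, he⟩
    refine ⟨fun s => G (s - c), ?_, fun s hs => ?_⟩
    · rw [isL_iff E hlf hc ha]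
      intro s hs
      simp only [add_sub_cancel_left]
      exact he s hs
    · have h4 : P' (s - c) ∨ 1 / 2 < (s - c).re := by
        rcases hs with hs | hs
        · left
          rw [← hP]
          have e1 : c + (s - c) = s := by ring
          rw [e1]
          exact hs
        · right
          rw [Complex.sub_re, hc, Complex.ofReal_re]
          linarith
      exact ⟨(hd _ h4).comp s (differentiableAt_id.sub_const c), hn _ h4⟩

/-- the region at `c` -/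
def InHyp (c : ℂ) (ρ θ : ℝ) (s : ℂ) : Prop :=
  s ≠ c ∧ |Complex.arg (s - c)| < Real.pi / (2 * ρ) ∧ θ < ((s - c) ^ (ρ : ℂ)).re

theorem inHyp_iff (c : ℂ) (ρ θ : ℝ) (s : ℂ) : InHyp c ρ θ (c + s) ↔ s ∈ Hyp ρ θ := by
  have h := inSec_iff c ρ s
  unfold InSec at h
  unfold InHyp Hyp
  rw [Set.mem_ofPred_eq, ← h, add_sub_cancel_left, and_assoc]

theorem zh_iff (E : Sys N α) (hlf : Loc N α c lf) (hc : c = c₀) (ha : a₀ = c₀ + 1 / 2) (ρ θ : ℝ) :
    (∃ G : ℂ → ℂ, IsL a₀ lf G ∧ ∀ s : ℂ, InHyp c ρ θ s ∨ a₀ < s.re →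
      DifferentiableAt ℂ G s ∧ G s ≠ 0) ↔ ∃ G : ℂ → ℂ, ExtH N α ρ θ G := by
  rw [zgen_iff E hlf hc ha (P' := fun z => z ∈ Hyp ρ θ) (inHyp_iff c ρ θ)]
  exact ⟨fun ⟨G, h1, h2, h3⟩ => ⟨G, h1, h2, h3⟩, fun ⟨G, hG⟩ => ⟨G, hG.diff, hG.ne, hG.eq⟩⟩

theorem zp_iff (E : Sys N α) (hlf : Loc N α c lf) (hc : c = c₀) (ha : a₀ = c₀ + 1 / 2) (κ : ℝ) :
    (∃ G : ℂ → ℂ, IsL a₀ lf G ∧ ∀ s : ℂ, c₀ + κ < s.re ∨ a₀ < s.re →
      DifferentiableAt ℂ G s ∧ G s ≠ 0) ↔ ∃ G : ℂ → ℂ, ExtP N α κ G := by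
  rw [zgen_iff E hlf hc ha (P' := fun z => κ < z.re) (fun z => by
    rw [Complex.add_re, hc, Complex.ofReal_re]
    constructor <;> intro h <;> linarith)]
  exact ⟨fun ⟨G, h1, h2, h3⟩ => ⟨G, h1, h2, h3⟩, fun ⟨G, hG⟩ => ⟨G, hG.diff, hG.ne, hG.eq⟩⟩

/-- analytic at the positive real points -/
theorem rcon_open (E : Sys N α) (hlf : Loc N α c lf) (hc : c = c₀) (ha : a₀ = c₀ + 1 / 2)
    (hF : IsL a₀ lf F) (hr : ∀ x : ℝ, c₀ < x → x ≤ a₀ → AnalyticAt ℂ F (x : ℂ)) :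
    RCon N α (fun s => F (c + s)) where
  an := by
    intro x hx
    have h1 := (isL_iff E hlf hc ha).1 hF
    rcases le_or_gt x (1 / 2) with h2 | h2
    · have h3 : AnalyticAt ℂ F (c + (x : ℂ)) := by
        have := hr (c₀ + x) (by linarith) (by linarith)
        rw [hc]
        push_cast at this
        exact this
      exact AnalyticAt.comp (f := fun s : ℂ => c + s) h3 (by fun_prop)
    · have ho : IsOpen {z : ℂ | 1 / 2 < z.re} := isOpen_lt continuous_const Complex.continuous_re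
      have h3 : DifferentiableOn ℂ (fun s => F (c + s)) {z : ℂ | 1 / 2 < z.re} := by
        intro s hs
        have hs' : 1 / 2 < s.re := hs
        refine ((E.LE_diff hs').1.congr_of_eventuallyEq ?_).differentiableWithinAt
        filter_upwards [ho.mem_nhds hs] with z hz
        exact h1 z hz
      exact h3.analyticAt (ho.mem_nhds (show 1 / 2 < ((x : ℂ)).re by rwa [Complex.ofReal_re]))
  eq := (isL_iff E hlf hc ha).1 hF

end Pool.Agent.X287.Kit
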