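import Pool.Agent.X287.STW

/-!
# Partial zeta functions for a modulus and its multiple by a prime
-/

set_option autoImplicit false
set_option linter.unusedSectionVars false

open NumberField Filter Topology Asymptotics
open IsDedekindDomain

namespace Pool.Agent.X287.ST

variable {K : Type} [Field K] [NumberField K] {G : Type} [CommGroup G] [Fintype G]
variable {𝔪 : Ideal (𝓞 K)} {c : Ideal (𝓞 K) → G}

lemma cop_prime_iff (v : HeightOneSpectrum (𝓞 K)) (I : Ideal (𝓞 K)) :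
    IsCoprime I v.asIdeal ↔ ¬ v.asIdeal ∣ I := by
  rw [Ideal.isCoprime_iff_sup_eq, Ideal.dvd_iff_le]
  have hv : v.asIdeal.IsMaximal := v.isMaximal
  constructor
  · intro h h1
    rw [sup_eq_right.2 h1] at h
    exact hv.ne_top h
  · intro h
    by_contra h2
    have h3 : v.asIdeal = I ⊔ v.asIdeal := hv.eq_of_le h2 le_sup_right
    exact h (le_sup_left.trans h3.ge)

lemma absNorm_prime_ne (v : HeightOneSpectrum (𝓞 K)) : ((Ideal.absNorm v.asIdeal : ℕ) : ℂ) ≠ 0 := by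
  have h1 : Ideal.absNorm v.asIdeal ≠ 0 := Ideal.absNorm_eq_zero_iff.not.2 v.ne_bot
  exact_mod_cast h1

/-- the ideals divisible by `v` -/
lemma hasSum_dvd (hc : IsClassMap 𝔪 c) {Z : G → ℂ → ℂ} (hZ : IsPZ 𝔪 c Z) {v : HeightOneSpectrum (𝓞 K)}
    (hv : IsCoprime v.asIdeal 𝔪) (g : G) {s : ℂ} (hs : 1 < s.re) :
    HasSum (Set.indicator {I : Ideal (𝓞 K) | v.asIdeal ∣ I ∧ IsCoprime I 𝔪 ∧ c I = g}
      (fun I => ((Ideal.absNorm I : ℕ) : ℂ) ^ (-s)))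
      (((Ideal.absNorm v.asIdeal : ℕ) : ℂ) ^ (-s) * Z (g * (c v.asIdeal)⁻¹) s) := by
  classical
  set F : Ideal (𝓞 K) → ℂ := fun I => ((Ideal.absNorm I : ℕ) : ℂ) ^ (-s) with hF
  have hinj : Function.Injective (fun J : Ideal (𝓞 K) => v.asIdeal * J) := by
    intro I J h
    exact mul_left_cancel₀ (show v.asIdeal ≠ 0 from v.ne_bot) h
  have h0 : HasSum (Set.indicator {I : Ideal (𝓞 K) | IsCoprime I 𝔪 ∧ c I = g * (c v.asIdeal)⁻¹} F)
      (Z (g * (c v.asIdeal)⁻¹) s) :=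
    (hasSum_subtype_iff_indicator (f := F) (s := {I | IsCoprime I 𝔪 ∧ c I = g * (c v.asIdeal)⁻¹})).1
      (hZ.sum _ s hs)
  have h1 := h0.mul_left (((Ideal.absNorm v.asIdeal : ℕ) : ℂ) ^ (-s))
  refine (hinj.hasSum_iff (fun I hI => ?_)).1 (h1.congr_fun fun J => ?_)
  · refine Set.indicator_of_notMem (fun h => hI ?_) _
    obtain ⟨J, hJ⟩ := h.1
    exact ⟨J, hJ.symm⟩
  · simp only [Function.comp]
    by_cases hJ : IsCoprime J 𝔪 ∧ c J = g * (c v.asIdeal)⁻¹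
    · rw [Set.indicator_of_mem (show J ∈ {I : Ideal (𝓞 K) | IsCoprime I 𝔪 ∧ c I = g * (c v.asIdeal)⁻¹} from hJ),
        Set.indicator_of_mem (show v.asIdeal * J ∈ {I : Ideal (𝓞 K) | v.asIdeal ∣ I ∧ IsCoprime I 𝔪 ∧ c I = g} from
          ⟨dvd_mul_right _ _, hv.mul_left hJ.1, by
            rw [hc.mul _ _ hv hJ.1, hJ.2, mul_comm g, mul_inv_cancel_left]⟩)]
      simp only [hF]
      rw [map_mul, Nat.cast_mul, Complex.natCast_mul_natCast_cpow]
    · rw [Set.indicator_of_notMem (show J ∉ {I : Ideal (𝓞 K) | IsCoprime I 𝔪 ∧ c I = g * (c v.asIdeal)⁻¹} from hJ),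
        mul_zero, Set.indicator_of_notMem]
      rintro ⟨-, h2, h3⟩
      have h4 : IsCoprime J 𝔪 := h2.of_mul_left_right
      refine hJ ⟨h4, ?_⟩
      rw [hc.mul _ _ hv h4] at h3
      rw [← h3, mul_comm (c v.asIdeal), mul_inv_cancel_right]

/-- **the modulus and its multiple by a prime** -/
theorem euler_step (h𝔪 : 𝔪 ≠ ⊤) (hc : IsClassMap 𝔪 c) {Z : G → ℂ → ℂ} (hZ : IsPZ 𝔪 c Z)
    {v : HeightOneSpectrum (𝓞 K)} (hv : IsCoprime v.asIdeal 𝔪) {G' : Type} [CommGroup G'] [Fintype G']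
    {c' : Ideal (𝓞 K) → G'} (hc' : IsClassMap (𝔪 * v.asIdeal) c') (π : G' →* G)
    (hπ : ∀ I, IsCoprime I (𝔪 * v.asIdeal) → π (c' I) = c I) {Z' : G' → ℂ → ℂ} (hZ' : IsPZ (𝔪 * v.asIdeal) c' Z')
    [DecidableEq G] (g : G) {s : ℂ} (hs : s ≠ 1) :
    ∑ g' ∈ Finset.univ.filter (fun g' => π g' = g), Z' g' s =
      Z g s - ((Ideal.absNorm v.asIdeal : ℕ) : ℂ) ^ (-s) * Z (g * (c v.asIdeal)⁻¹) s := by
  have h𝔪' : 𝔪 * v.asIdeal ≠ ⊤ := by
    intro h
    exact h𝔪 (eq_top_iff.2 (h ▸ (Ideal.mul_le_inf.trans inf_le_left)))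
  have h1 := PZ_push h𝔪' hc' hZ' π
  have h2 : IsPZ (𝔪 * v.asIdeal) (fun I => π (c' I)) (fun g s =>
      Z g s - ((Ideal.absNorm v.asIdeal : ℕ) : ℂ) ^ (-s) * Z (g * (c v.asIdeal)⁻¹) s) := by
    have hne := absNorm_prime_ne v
    refine ⟨fun g s hs => ?_, fun g s hs => ?_, fun g => ?_⟩
    · set F : Ideal (𝓞 K) → ℂ := fun I => ((Ideal.absNorm I : ℕ) : ℂ) ^ (-s) with hF
      have h3 : HasSum (Set.indicator {I : Ideal (𝓞 K) | IsCoprime I 𝔪 ∧ c I = g} F) (Z g s) :=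
        (hasSum_subtype_iff_indicator (f := F) (s := {I | IsCoprime I 𝔪 ∧ c I = g})).1 (hZ.sum _ s hs)
      have h4 := h3.sub (hasSum_dvd hc hZ hv g hs)
      refine (hasSum_subtype_iff_indicator (f := F) (s := {I | IsCoprime I (𝔪 * v.asIdeal) ∧ π (c' I) = g})).2
        (h4.congr_fun fun I => ?_)
      by_cases hI : IsCoprime I 𝔪 ∧ c I = g
      · by_cases hd : v.asIdeal ∣ I
        · rw [Set.indicator_of_mem (show I ∈ {I : Ideal (𝓞 K) | IsCoprime I 𝔪 ∧ c I = g} from hI),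
            Set.indicator_of_mem (show I ∈ {I : Ideal (𝓞 K) | v.asIdeal ∣ I ∧ IsCoprime I 𝔪 ∧ c I = g} from
              ⟨hd, hI⟩), Set.indicator_of_notMem, sub_self]
          rintro ⟨h5, -⟩
          exact (cop_prime_iff v I).1 h5.of_mul_right_right hd
        · have hcop : IsCoprime I (𝔪 * v.asIdeal) := hI.1.mul_right ((cop_prime_iff v I).2 hd)
          rw [Set.indicator_of_mem (show I ∈ {I : Ideal (𝓞 K) | IsCoprime I 𝔪 ∧ c I = g} from hI),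
            Set.indicator_of_notMem (show I ∉ {I : Ideal (𝓞 K) | v.asIdeal ∣ I ∧ IsCoprime I 𝔪 ∧ c I = g} from
              fun h => hd h.1), sub_zero, Set.indicator_of_mem]
          exact ⟨hcop, by rw [hπ I hcop, hI.2]⟩
      · rw [Set.indicator_of_notMem (show I ∉ {I : Ideal (𝓞 K) | IsCoprime I 𝔪 ∧ c I = g} from hI),
          Set.indicator_of_notMem (show I ∉ {I : Ideal (𝓞 K) | v.asIdeal ∣ I ∧ IsCoprime I 𝔪 ∧ c I = g} from
              fun h => hI h.2), Set.indicator_of_notMem, sub_zero]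
        rintro ⟨h5, h6⟩
        exact hI ⟨h5.of_mul_right_left, by rw [← hπ I h5, h6]⟩
    · refine (hZ.an g s hs).sub (AnalyticAt.mul ?_ (hZ.an _ s hs))
      have h5 : Differentiable ℂ (fun s : ℂ => ((Ideal.absNorm v.asIdeal : ℕ) : ℂ) ^ (-s)) := fun s =>
        (differentiable_id.neg s).const_cpow (Or.inl hne)
      exact h5.analyticAt s
    · have h5 : Differentiable ℂ (fun s : ℂ => ((Ideal.absNorm v.asIdeal : ℕ) : ℂ) ^ (-s)) := fun s =>
        (differentiable_id.neg s).const_cpow (Or.inl hne)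
      exact (hZ.mer g).sub ((h5.analyticAt 1).meromorphicAt.mul (hZ.mer _))
  exact PZ_unique h1 h2 g hs

/-- the derivatives at `0` -/
theorem euler_deriv (h𝔪 : 𝔪 ≠ ⊤) (hc : IsClassMap 𝔪 c) {Z : G → ℂ → ℂ} (hZ : IsPZ 𝔪 c Z) (hZ0 : ∀ g, Z g 0 = 0)
    {v : HeightOneSpectrum (𝓞 K)} (hv : IsCoprime v.asIdeal 𝔪) {G' : Type} [CommGroup G'] [Fintype G']
    {c' : Ideal (𝓞 K) → G'} (hc' : IsClassMap (𝔪 * v.asIdeal) c') (π : G' →* G)
    (hπ : ∀ I, IsCoprime I (𝔪 * v.asIdeal) → π (c' I) = c I) {Z' : G' → ℂ → ℂ} (hZ' : IsPZ (𝔪 * v.asIdeal) c' Z')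
    [DecidableEq G] (g : G) :
    ∑ g' ∈ Finset.univ.filter (fun g' => π g' = g), deriv (Z' g') 0 =
      deriv (Z g) 0 - deriv (Z (g * (c v.asIdeal)⁻¹)) 0 := by
  have hne := absNorm_prime_ne v
  have h1 : (fun s : ℂ => ∑ g' ∈ Finset.univ.filter (fun g' => π g' = g), Z' g' s) =ᶠ[𝓝 0] (fun s : ℂ =>
      Z g s - ((Ideal.absNorm v.asIdeal : ℕ) : ℂ) ^ (-s) * Z (g * (c v.asIdeal)⁻¹) s) := by
    have h2 : ∀ᶠ s : ℂ in 𝓝 0, s ≠ 1 := isOpen_ne.mem_nhds (by norm_num)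
    filter_upwards [h2] with s hs
    exact euler_step h𝔪 hc hZ hv hc' π hπ hZ' g hs
  have h3 := h1.deriv_eq
  have h5 : DifferentiableAt ℂ (fun s : ℂ => ((Ideal.absNorm v.asIdeal : ℕ) : ℂ) ^ (-s)) 0 :=
    (differentiable_id.neg 0).const_cpow (Or.inl hne)
  have h6 : DifferentiableAt ℂ (Z g) 0 := (hZ.an g 0 (by norm_num)).differentiableAt
  have h7 : DifferentiableAt ℂ (Z (g * (c v.asIdeal)⁻¹)) 0 := (hZ.an _ 0 (by norm_num)).differentiableAt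
  rw [deriv_fun_sum fun g' _ => (hZ'.an g' 0 (by norm_num)).differentiableAt, deriv_fun_sub h6 (h5.fun_mul h7),
    deriv_fun_mul h5 h7, hZ0] at h3
  rw [h3]
  simp

end Pool.Agent.X287.ST
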