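import Pool.Agent.X287.ST7

/-!
# Reality; push forward to quotients
-/

set_option autoImplicit false
set_option linter.unusedSectionVars false

open NumberField Complex Filter Topology Asymptotics
open IsDedekindDomain

namespace Pool.Agent.X287.ST

open Pool.Agent.X287.CR

variable {K : Type} [Field K] [NumberField K] {G : Type} [CommGroup G] [Fintype G]
variable {𝔪 : Ideal (𝓞 K)} {c : Ideal (𝓞 K) → G}

/-- reality of the partial zeta functions -/
theorem PZ_conj (h𝔪 : 𝔪 ≠ ⊤) {Z : G → ℂ → ℂ} (hZ : IsPZ 𝔪 c Z) (g : G) {s : ℂ} (hs : s ≠ 1) :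
    (starRingEnd ℂ) (Z g ((starRingEnd ℂ) s)) = Z g s := by
  have hpre : IsPreconnected ({1}ᶜ : Set ℂ) := by
    refine (isConnected_compl_singleton_of_one_lt_rank ?_ 1).isPreconnected
    rw [Complex.rank_real_complex]
    norm_num
  have hopen1 : IsOpen ({1}ᶜ : Set ℂ) := isOpen_compl_singleton
  have h1 : AnalyticOnNhd ℂ (Z g) {1}ᶜ := fun z hz => hZ.an g z hz
  have h2 : AnalyticOnNhd ℂ (fun s => (starRingEnd ℂ) (Z g ((starRingEnd ℂ) s))) {1}ᶜ := by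
    refine DifferentiableOn.analyticOnNhd (fun z hz => ?_) hopen1
    have hz' : (starRingEnd ℂ) z ≠ 1 := by
      intro h
      apply hz
      have := congrArg (starRingEnd ℂ) h
      simpa using this
    have h3 : DifferentiableAt ℂ (Z g) ((starRingEnd ℂ) z) := (hZ.an g _ hz').differentiableAt
    have h4 := h3.conj_conj
    rw [Complex.conj_conj] at h4
    exact h4.differentiableWithinAt
  have h3 : (fun s => (starRingEnd ℂ) (Z g ((starRingEnd ℂ) s))) =ᶠ[𝓝 (2 : ℂ)] Z g := by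
    have hopen : IsOpen {z : ℂ | 1 < z.re} := isOpen_lt continuous_const Complex.continuous_re
    filter_upwards [hopen.mem_nhds (show (2 : ℂ) ∈ {z : ℂ | 1 < z.re} by simp)] with z hz
    have hz2 : 1 < ((starRingEnd ℂ) z).re := by rw [Complex.conj_re]; exact hz
    have h4 := (hZ.sum g _ hz2).map (starRingEnd ℂ) Complex.continuous_conj
    refine HasSum.unique ?_ (hZ.sum g z hz)
    refine h4.congr_fun fun I => ?_
    simp only [Function.comp]
    have h5 : ((Ideal.absNorm I.1 : ℕ) : ℂ).arg ≠ Real.pi := by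
      rw [Complex.natCast_arg]
      exact Real.pi_pos.ne
    rw [← map_neg, ← Complex.conj_cpow _ _ h5, Complex.conj_natCast]
  exact h2.eqOn_of_preconnected_of_eventuallyEq h1 hpre (z₀ := (2 : ℂ)) (by simp) h3 hs

/-- limits at `0` are real -/
theorem lim_real (h𝔪 : 𝔪 ≠ ⊤) {Z : G → ℂ → ℂ} (hZ : IsPZ 𝔪 c Z) (g : G) {r : ℕ} {a : ℂ}
    (ha : Tendsto (fun s : ℂ => Z g s / s ^ r) (𝓝[≠] 0) (𝓝 a)) : a.im = 0 := by
  have h1 : Tendsto (fun s : ℂ => (starRingEnd ℂ) s) (𝓝[≠] 0) (𝓝[≠] 0) := by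
    rw [tendsto_nhdsWithin_iff]
    refine ⟨?_, ?_⟩
    · have := (Complex.continuous_conj.tendsto 0).mono_left (nhdsWithin_le_nhds (s := {(0 : ℂ)}ᶜ))
      rwa [map_zero] at this
    · filter_upwards [self_mem_nhdsWithin] with s hs
      intro h
      exact hs (by simpa using h)
  have h2 := (Complex.continuous_conj.tendsto a).comp (ha.comp h1)
  have h3 : Tendsto (fun s : ℂ => Z g s / s ^ r) (𝓝[≠] 0) (𝓝 ((starRingEnd ℂ) a)) := by
    refine h2.congr' ?_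
    have hev : ∀ᶠ s : ℂ in 𝓝 0, s ≠ 1 := isOpen_ne.mem_nhds (by norm_num)
    filter_upwards [hev.filter_mono nhdsWithin_le_nhds] with s hs
    simp only [Function.comp]
    rw [map_div₀, PZ_conj h𝔪 hZ g hs, map_pow, Complex.conj_conj]
  have h4 := tendsto_nhds_unique ha h3
  exact Complex.conj_eq_iff_im.1 h4.symm

/-- the push forward of the partial zeta functions -/
theorem PZ_push (h𝔪 : 𝔪 ≠ ⊤) (hc : IsClassMap 𝔪 c) {Z : G → ℂ → ℂ} (hZ : IsPZ 𝔪 c Z) {G' : Type}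
    [CommGroup G'] [Fintype G'] [DecidableEq G'] (f : G →* G') :
    IsPZ 𝔪 (fun I => f (c I)) (fun g' s => ∑ g ∈ Finset.univ.filter (fun g => f g = g'), Z g s) where
  sum g' s hs := by
    classical
    set F : Ideal (𝓞 K) → ℂ := fun I => ((Ideal.absNorm I : ℕ) : ℂ) ^ (-s) with hF
    have h0 : ∀ g, HasSum (Set.indicator {I : Ideal (𝓞 K) | IsCoprime I 𝔪 ∧ c I = g} F) (Z g s) := fun g =>
      (hasSum_subtype_iff_indicator (f := F) (s := {I | IsCoprime I 𝔪 ∧ c I = g})).1 (hZ.sum g s hs)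
    have h1 := hasSum_sum (s := Finset.univ.filter (fun g => f g = g')) (fun g _ => h0 g)
    have h2 : (fun I => ∑ g ∈ Finset.univ.filter (fun g => f g = g'),
        Set.indicator {I : Ideal (𝓞 K) | IsCoprime I 𝔪 ∧ c I = g} F I) =
        Set.indicator {I : Ideal (𝓞 K) | IsCoprime I 𝔪 ∧ f (c I) = g'} F := by
      funext I
      by_cases hI : IsCoprime I 𝔪 ∧ f (c I) = g'
      · rw [Set.indicator_of_mem (show I ∈ {I : Ideal (𝓞 K) | IsCoprime I 𝔪 ∧ f (c I) = g'} from hI),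
          Finset.sum_eq_single (c I)]
        · exact Set.indicator_of_mem (show I ∈ {J : Ideal (𝓞 K) | IsCoprime J 𝔪 ∧ c J = c I} from
            ⟨hI.1, rfl⟩) F
        · intro g _ hg
          exact Set.indicator_of_notMem (fun h => hg h.2.symm) F
        · intro h
          exact absurd (Finset.mem_filter.2 ⟨Finset.mem_univ (c I), hI.2⟩) h
      · rw [Set.indicator_of_notMem (show I ∉ {I : Ideal (𝓞 K) | IsCoprime I 𝔪 ∧ f (c I) = g'} from hI)]
        refine Finset.sum_eq_zero fun g hg => ?_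
        refine Set.indicator_of_notMem (fun h => hI ⟨h.1, ?_⟩) F
        rw [h.2]
        exact (Finset.mem_filter.1 hg).2
    rw [h2] at h1
    exact (hasSum_subtype_iff_indicator (f := F) (s := {I | IsCoprime I 𝔪 ∧ f (c I) = g'})).2 h1
  an g' s hs := Finset.analyticAt_fun_sum _ fun g _ => hZ.an g s hs
  mer g' := MeromorphicAt.fun_sum fun g _ => hZ.mer g

/-- the order of vanishing of the sums over the fibres of a quotient -/
theorem push_ord {R' : Finset (K →+* ℝ)} (h𝔪 : 𝔪 ≠ ⊤) (h0 : 𝔪 ≠ ⊥) (hc : IsClassMap 𝔪 c)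
    {Z : G → ℂ → ℂ} (hZ : IsPZ 𝔪 c Z) {G' : Type} [CommGroup G'] [Fintype G'] [DecidableEq G'] (f : G →* G')
    (hf : ∀ x : 𝓞 K, x ≠ 0 → x - 1 ∈ 𝔪 → (∀ σ : K →+* ℝ, σ ∉ R' → 0 < σ (x : K)) →
      f (c (Ideal.span {x})) = 1) (g' : G') :
    ∃ a : ℂ, Tendsto (fun s : ℂ => (∑ g ∈ Finset.univ.filter (fun g => f g = g'), Z g s) /
      s ^ (R'.card + InfinitePlace.nrComplexPlaces K)) (𝓝[≠] 0) (𝓝 a) := by
  have h1 : IsClassMapR 𝔪 R' (fun I => f (c I)) :=
    ⟨fun I J hI hJ => by rw [hc.mul I J hI hJ, map_mul], hf⟩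
  obtain ⟨a, ha⟩ := PZ_ord h𝔪 h0 h1 (PZ_push h𝔪 hc hZ f)
  exact ⟨a g', ha g'⟩

/-- order at least two -/
theorem deriv_zero_of_two {f : ℂ → ℂ} {a : ℂ} {k : ℕ} (hk : 2 ≤ k) (hf : AnalyticAt ℂ f 0)
    (h : Tendsto (fun s : ℂ => f s / s ^ k) (𝓝[≠] 0) (𝓝 a)) : f 0 = 0 ∧ deriv f 0 = 0 := by
  have h1 : Tendsto (fun s : ℂ => f s / s ^ k * s ^ (k - 1)) (𝓝[≠] 0) (𝓝 (a * (0 : ℂ) ^ (k - 1))) :=
    h.mul ((continuous_pow (k - 1)).continuousAt.tendsto.mono_left nhdsWithin_le_nhds)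
  rw [zero_pow (by omega : k - 1 ≠ 0), mul_zero] at h1
  refine deriv_one hf (h1.congr' ?_)
  filter_upwards [self_mem_nhdsWithin] with s hs
  have hs0 : s ≠ 0 := hs
  have h2 : s ^ k = s ^ (k - 1) * s := by
    rw [← pow_succ, Nat.sub_add_cancel (by omega)]
  rw [h2]
  field_simp

/-- sums of derivatives over the fibres of a quotient in which two archimedean places split -/
theorem push_deriv {R' : Finset (K →+* ℝ)} (h𝔪 : 𝔪 ≠ ⊤) (h0 : 𝔪 ≠ ⊥) (hc : IsClassMap 𝔪 c)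
    (hR : 2 ≤ R'.card + InfinitePlace.nrComplexPlaces K)
    {Z : G → ℂ → ℂ} (hZ : IsPZ 𝔪 c Z) {G' : Type} [CommGroup G'] [Fintype G'] [DecidableEq G'] (f : G →* G')
    (hf : ∀ x : 𝓞 K, x ≠ 0 → x - 1 ∈ 𝔪 → (∀ σ : K →+* ℝ, σ ∉ R' → 0 < σ (x : K)) →
      f (c (Ideal.span {x})) = 1) (g' : G') :
    ∑ g ∈ Finset.univ.filter (fun g => f g = g'), deriv (Z g) 0 = 0 := by
  obtain ⟨a, ha⟩ := push_ord h𝔪 h0 hc hZ f hf g'
  have h1 : AnalyticAt ℂ (fun s => ∑ g ∈ Finset.univ.filter (fun g => f g = g'), Z g s) 0 :=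
    Finset.analyticAt_fun_sum _ fun g _ => hZ.an g 0 (by norm_num)
  have h2 := (deriv_zero_of_two hR h1 ha).2
  rw [deriv_fun_sum fun g _ => (hZ.an g 0 (by norm_num)).differentiableAt] at h2
  exact h2

/-- one split place: vanishing at `0` and the limit formula for the derivative -/
theorem one_place {R : Finset (K →+* ℝ)} (h𝔪 : 𝔪 ≠ ⊤) (h0 : 𝔪 ≠ ⊥) (hc : IsClassMapR 𝔪 R c)
    (hr : 1 ≤ R.card + InfinitePlace.nrComplexPlaces K) {Z : G → ℂ → ℂ} (hZ : IsPZ 𝔪 c Z) {γ : ℝ}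
    (hγ : Real.pi / 2 < γ) (g : G) : Z g 0 = 0 ∧ (deriv (Z g) 0).im = 0 ∧
      (fun T : ℝ => sc (Pool.Agent.W187.UR.Lam γ) (1 : ℤ) T * gexp (Sg 𝔪 c 0 γ T) g - deriv (Z g) 0) =O[atTop]
        (fun T : ℝ => 1 / T) := by
  obtain ⟨a, ha⟩ := PZ_ord h𝔪 h0 hc hZ
  have hone : ∀ g, ∃ b : ℂ, Tendsto (fun s : ℂ => Z g s / s) (𝓝[≠] 0) (𝓝 b) := by
    intro g
    obtain ⟨k, hk⟩ := Nat.exists_eq_add_of_le hr
    have h2 : Tendsto (fun s : ℂ => s ^ k) (𝓝[≠] 0) (𝓝 ((0 : ℂ) ^ k)) :=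
      (continuous_pow k).continuousAt.tendsto.mono_left nhdsWithin_le_nhds
    refine ⟨_, ((ha g).mul h2).congr' ?_⟩
    filter_upwards [self_mem_nhdsWithin] with s hs
    have hs0 : s ≠ 0 := hs
    rw [hk, pow_add, pow_one]
    field_simp
  choose b hb using hone
  have hder : ∀ g, Z g 0 = 0 ∧ deriv (Z g) 0 = b g := fun g =>
    deriv_one (hZ.an g 0 (by norm_num)) (hb g)
  refine ⟨(hder g).1, ?_, ?_⟩
  · rw [(hder g).2]
    refine lim_real h𝔪 hZ g (r := 1) ?_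
    simp only [pow_one]
    exact hb g
  · have h3 := lead_rate h𝔪 hc.toClass hZ (s₀ := 0) (by simp) hγ 1 b (fun g => by
      simp only [sub_zero, zpow_one]
      exact hb g) g
    rw [(hder g).2]
    exact h3

end Pool.Agent.X287.ST
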