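import Pool.Agent.X287.STY

/-!
# Norms of units, square roots, and two extensions
-/

set_option autoImplicit false
set_option linter.unusedSectionVars false

open NumberField Filter Topology Asymptotics
open IsDedekindDomain

namespace Pool.Agent.X287.ST

section norms
variable {K : Type} [Field K] [NumberField K] {G : Type} [CommGroup G] [Fintype G] {H : Type} [Field H]
  [NumberField H] [Algebra K H] [IsGalois K H] {G' : Type} [CommGroup G'] [Fintype G'] {H' : Type} [Field H']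
  [NumberField H'] [Algebra K H'] [Algebra H H'] [IsScalarTower K H H'] [IsGalois K H']

/-- elements which are fixed by the kernel -/
theorem mem_of_fixed (art : G ≃* Gal(H/K)) (art' : G' ≃* Gal(H'/K)) (π : G' →* G)
    (hcomp : ∀ (g' : G') (x : H), art' g' (algebraMap H H' x) = algebraMap H H' (art (π g') x)) {x : H'}
    (hx : ∀ κ : G', π κ = 1 → art' κ x = x) : ∃ y : H, algebraMap H H' y = x := by
  have _ : IsGalois H H' := IsGalois.tower_top_of_isGalois K H H'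
  have h1 : ∀ t : Gal(H'/H), t x = x := by
    intro t
    obtain ⟨κ, hκ⟩ := art'.surjective (t.restrictScalars K)
    have h2 : π κ = 1 := by
      apply art.injective
      rw [map_one]
      ext y
      apply (algebraMap H H').injective
      rw [← hcomp, hκ]
      simp
    have h3 := hx κ h2
    rw [hκ] at h3
    exact h3
  obtain ⟨b, hb⟩ := IntermediateField.mem_bot.1 ((IsGalois.mem_bot_iff_fixed (F := H) (E := H') x).2 h1)
  exact ⟨b, hb⟩

lemma prod_ker [DecidableEq G] (π : G' →* G) {M : Type} [CommMonoid M] (f : G' → M) (g₀ : G') :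
    ∏ κ ∈ Finset.univ.filter (fun κ => π κ = 1), f (g₀ * κ) =
      ∏ g' ∈ Finset.univ.filter (fun g' => π g' = π g₀), f g' := by
  refine Finset.prod_bij' (fun κ _ => g₀ * κ) (fun g' _ => g₀⁻¹ * g') ?_ ?_ ?_ ?_ ?_
  · intro κ hκ
    have h1 := (Finset.mem_filter.1 hκ).2
    exact Finset.mem_filter.2 ⟨Finset.mem_univ _, by rw [map_mul, h1, mul_one]⟩
  · intro g' hg'
    have h1 := (Finset.mem_filter.1 hg').2
    exact Finset.mem_filter.2 ⟨Finset.mem_univ _, by rw [map_mul, h1, map_inv, inv_mul_cancel]⟩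
  · intro κ _
    exact inv_mul_cancel_left _ _
  · intro g' _
    exact mul_inv_cancel_left _ _
  · intro κ _
    rfl

/-- the norm -/
noncomputable def nrm [DecidableEq G] (art' : G' ≃* Gal(H'/K)) (π : G' →* G) (u : H') : H' :=
  ∏ κ ∈ Finset.univ.filter (fun κ => π κ = 1), art' κ u

lemma art_nrm [DecidableEq G] (art' : G' ≃* Gal(H'/K)) (π : G' →* G) (u : H') (g₀ : G') :
    art' g₀ (nrm art' π u) = ∏ g' ∈ Finset.univ.filter (fun g' => π g' = π g₀), art' g' u := by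
  unfold nrm
  rw [map_prod, ← prod_ker π (fun g' => art' g' u) g₀]
  refine Finset.prod_congr rfl fun κ _ => ?_
  rw [map_mul]
  rfl

/-- the norm comes from `H` -/
theorem nrm_mem [DecidableEq G] (art : G ≃* Gal(H/K)) (art' : G' ≃* Gal(H'/K)) (π : G' →* G)
    (hcomp : ∀ (g' : G') (x : H), art' g' (algebraMap H H' x) = algebraMap H H' (art (π g') x)) (u : H') :
    ∃ y : H, algebraMap H H' y = nrm art' π u := by
  refine mem_of_fixed art art' π hcomp fun κ hκ => ?_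
  rw [art_nrm, hκ]
  rfl

lemma mk_unit {w : H} (hw : w ≠ 0) (h1 : IsIntegral ℤ w) (h2 : IsIntegral ℤ w⁻¹) :
    ∃ U : (𝓞 H)ˣ, ((U : 𝓞 H) : H) = w :=
  ⟨⟨⟨w, h1⟩, ⟨w⁻¹, h2⟩,
    RingOfIntegers.coe_injective (show (w * w⁻¹ : H) = 1 from mul_inv_cancel₀ hw),
    RingOfIntegers.coe_injective (show (w⁻¹ * w : H) = 1 from inv_mul_cancel₀ hw)⟩, rfl⟩

lemma unit_inv_integral (u : (𝓞 H)ˣ) : IsIntegral ℤ ((u : 𝓞 H) : H)⁻¹ := by
  have h1 : ((u : 𝓞 H) : H)⁻¹ = (((u⁻¹ : (𝓞 H)ˣ) : 𝓞 H) : H) := by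
    refine inv_eq_of_mul_eq_one_right ?_
    rw [← map_mul, ← Units.val_mul, mul_inv_cancel, Units.val_one, map_one]
  rw [h1]
  exact ((u⁻¹ : (𝓞 H)ˣ) : 𝓞 H).isIntegral_coe

/-- all the conjugates at the places which do not lie above `ι` have absolute value one -/
def Circ {H : Type} [Field H] [Algebra K H] (ι : K →+* ℂ) (w : H) : Prop :=
  ∀ φ : H →+* ℂ, φ.comp (algebraMap K H) ≠ ι → φ.comp (algebraMap K H) ≠ ComplexEmbedding.conjugate ι → ‖φ w‖ = 1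

/-- **the norm of a unit** -/
theorem norm_unit [DecidableEq G] {ι : K →+* ℂ} (art : G ≃* Gal(H/K)) (art' : G' ≃* Gal(H'/K)) {π : G' →* G}
    (hπ : Function.Surjective π)
    (hcomp : ∀ (g' : G') (x : H), art' g' (algebraMap H H' x) = algebraMap H H' (art (π g') x))
    {τ : H →+* ℂ} {τ' : H' →+* ℂ} (hτ' : τ'.comp (algebraMap H H') = τ) (u : (𝓞 H')ˣ)
    (hcirc : Circ ι ((u : 𝓞 H') : H')) :
    ∃ w : (𝓞 H)ˣ, algebraMap H H' ((w : 𝓞 H) : H) = nrm art' π ((u : 𝓞 H') : H') ∧ Circ ι ((w : 𝓞 H) : H) ∧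
      ∀ A, ‖τ (art A ((w : 𝓞 H) : H))‖ =
        ∏ g' ∈ Finset.univ.filter (fun g' => π g' = A), ‖τ' (art' g' ((u : 𝓞 H') : H'))‖ := by
  classical
  set x : H' := ((u : 𝓞 H') : H') with hx
  have hx0 : x ≠ 0 := by
    rw [hx]
    simp
  obtain ⟨y, hy⟩ := nrm_mem art art' π hcomp x
  have hint : ∀ g', IsIntegral ℤ (art' g' x) := fun g' =>
    (u : 𝓞 H').isIntegral_coe.map ((art' g' : H' ≃ₐ[K] H') : H' →+* H').toIntAlgHom
  have hint2 : ∀ g', IsIntegral ℤ (art' g' x)⁻¹ := fun g' => by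
    rw [← map_inv₀]
    exact (unit_inv_integral u).map ((art' g' : H' ≃ₐ[K] H') : H' →+* H').toIntAlgHom
  have hinj : Function.Injective (algebraMap H H') := (algebraMap H H').injective
  have h1 : IsIntegral ℤ (nrm art' π x) := IsIntegral.prod _ fun g' _ => hint g'
  have h2 : IsIntegral ℤ (nrm art' π x)⁻¹ := by
    unfold nrm
    rw [← Finset.prod_inv_distrib]
    exact IsIntegral.prod _ fun g' _ => hint2 g'
  have h3 : nrm art' π x ≠ 0 := by
    unfold nrm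
    rw [Finset.prod_ne_zero_iff]
    intro g' _
    exact (map_ne_zero_iff _ (art' g').injective).2 hx0
  have hy0 : y ≠ 0 := by
    rintro rfl
    rw [map_zero] at hy
    exact h3 hy.symm
  have hyi : IsIntegral ℤ y := by
    rw [← isIntegral_algebraMap_iff (B := H') hinj, hy]
    exact h1
  have hyi2 : IsIntegral ℤ y⁻¹ := by
    rw [← isIntegral_algebraMap_iff (B := H') hinj, map_inv₀, hy]
    exact h2
  obtain ⟨w, hw⟩ := mk_unit hy0 hyi hyi2
  refine ⟨w, by rw [hw, hy], ?_, fun A => ?_⟩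
  · rw [hw]
    intro φ hφ1 hφ2
    let _ : Algebra H ℂ := φ.toAlgebra
    have _ : Algebra.IsAlgebraic H H' := by
      have _ : Algebra.IsAlgebraic K H' := Algebra.IsAlgebraic.of_finite K H'
      exact Algebra.IsAlgebraic.tower_top (K := K) H
    let ψ : H' →ₐ[H] ℂ := IsAlgClosed.lift
    have hψ : (ψ : H' →+* ℂ).comp (algebraMap H H') = φ := by
      ext a
      exact ψ.commutes a
    have h4 : φ y = (ψ : H' →+* ℂ) (nrm art' π x) := by
      rw [← hy, ← hψ]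
      rfl
    rw [h4]
    unfold nrm
    rw [map_prod, norm_prod]
    refine Finset.prod_eq_one fun κ _ => ?_
    have h5 : ((ψ : H' →+* ℂ).comp ((art' κ : H' ≃ₐ[K] H') : H' →+* H')).comp (algebraMap K H') =
        φ.comp (algebraMap K H) := by
      rw [← hψ]
      ext a
      simp only [RingHom.comp_apply]
      congr 1
      rw [← IsScalarTower.algebraMap_apply K H H']
      exact (art' κ).commutes a
    exact hcirc ((ψ : H' →+* ℂ).comp ((art' κ : H' ≃ₐ[K] H') : H' →+* H')) (by rw [h5]; exact hφ1)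
      (by rw [h5]; exact hφ2)
  · obtain ⟨g₀, rfl⟩ := hπ A
    rw [hw, ← hτ', RingHom.comp_apply, ← hcomp, hy, art_nrm, map_prod, norm_prod]

/-- **square roots**: the norm is a square if the degree is even -/
theorem nrm_square [DecidableEq G] (art' : G' ≃* Gal(H'/K)) {π : G' →* G}
    (heven : Even (Finset.univ.filter (fun κ => π κ = 1)).card) {u : H'} (hu : u ≠ 0) {M : Type} [Field M]
    [NumberField M] [Algebra H' M] [Algebra K M] [IsScalarTower K H' M] [IsGalois K M]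
    (hcomm : ∀ a b : Gal(M/K), a * b = b * a) {α : M} (hα : α ^ 2 = algebraMap H' M u) :
    ∃ b : H', b ^ 2 = nrm art' π u := by
  have hroot : ∃ ζ : H', IsPrimitiveRoot ζ 2 := ⟨-1, IsPrimitiveRoot.neg_one 0 (by norm_num)⟩
  obtain ⟨b, hb⟩ := abelian_descent art' two_pos hroot hu hcomm hα (fun κ => if π κ = 1 then 1 else 0) (fun ζ hζ => by
    have h1 : ζ = 1 ∨ ζ = -1 := sq_eq_sq_iff_eq_or_eq_neg.1 (by rw [hζ, one_pow])
    have h2 : ∀ A : G', (art' A ζ) ^ (if π A = 1 then (1 : ℤ) else 0) = if π A = 1 then ζ else 1 := by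
      intro A
      have h3 : art' A ζ = ζ := by
        rcases h1 with rfl | rfl
        · rw [map_one]
        · rw [map_neg, map_one]
      rw [h3]
      split_ifs
      · rw [zpow_one]
      · rw [zpow_zero]
    rw [Finset.prod_congr rfl fun A _ => h2 A, Finset.prod_ite, Finset.prod_const_one, mul_one, Finset.prod_const]
    obtain ⟨m, hm⟩ := heven
    rw [hm, ← two_mul, pow_mul, hζ, one_pow])
  refine ⟨b, ?_⟩
  have h1 := hb 1
  have h2 : (art' 1) b = b := by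
    rw [map_one]
    rfl
  rw [h2] at h1
  rw [h1]
  have h3 : ∀ A : G', (art' (1 * A) u) ^ (if π A = 1 then (1 : ℤ) else 0) = if π A = 1 then art' A u else 1 := by
    intro A
    rw [one_mul]
    split_ifs
    · rw [zpow_one]
    · rw [zpow_zero]
  rw [Finset.prod_congr rfl fun A _ => h3 A, Finset.prod_ite, Finset.prod_const_one, mul_one]
  rfl

/-- two units with the same absolute values differ by a root of unity -/
theorem root_of_unity {ι : K →+* ℂ} (art : G ≃* Gal(H/K)) {τ : H →+* ℂ} (hτ : τ.comp (algebraMap K H) = ι)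
    {w₁ w₂ : (𝓞 H)ˣ} (h1 : Circ ι ((w₁ : 𝓞 H) : H)) (h2 : Circ ι ((w₂ : 𝓞 H) : H))
    (h : ∀ A, ‖τ (art A ((w₁ : 𝓞 H) : H))‖ = ‖τ (art A ((w₂ : 𝓞 H) : H))‖) :
    ∃ n : ℕ, 0 < n ∧ ((w₁ : 𝓞 H) : H) ^ n = ((w₂ : 𝓞 H) : H) ^ n := by
  have hw2 : ((w₂ : 𝓞 H) : H) ≠ 0 := by simp
  have habove : ∀ φ : H →+* ℂ, φ.comp (algebraMap K H) = ι → ‖φ ((w₁ : 𝓞 H) : H)‖ = ‖φ ((w₂ : 𝓞 H) : H)‖ := by
    intro φ hφ
    obtain ⟨σ, hσ⟩ := NumberField.ComplexEmbedding.exists_comp_symm_eq_of_comp_eq (k := K) τ φ (by rw [hτ, hφ])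
    obtain ⟨A, hA⟩ := art.surjective σ.symm
    rw [← hσ]
    have h3 := h A
    rw [hA] at h3
    exact h3
  have hall : ∀ φ : H →+* ℂ, ‖φ ((w₁ : 𝓞 H) : H)‖ = ‖φ ((w₂ : 𝓞 H) : H)‖ := by
    intro φ
    by_cases h3 : φ.comp (algebraMap K H) = ι
    · exact habove φ h3
    by_cases h4 : φ.comp (algebraMap K H) = ComplexEmbedding.conjugate ι
    · have h5 := habove (ComplexEmbedding.conjugate φ) (by
        ext x
        have h6 := congrArg (fun f : K →+* ℂ => f x) h4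
        simp only [RingHom.comp_apply, ComplexEmbedding.conjugate_coe_eq] at h6 ⊢
        rw [h6, Complex.conj_conj])
      rw [ComplexEmbedding.conjugate_coe_eq, ComplexEmbedding.conjugate_coe_eq, Complex.norm_conj, Complex.norm_conj] at h5
      exact h5
    · rw [h1 φ h3 h4, h2 φ h3 h4]
  have hint : IsIntegral ℤ (((w₁ : 𝓞 H) : H) * ((w₂ : 𝓞 H) : H)⁻¹) :=
    (w₁ : 𝓞 H).isIntegral_coe.mul (unit_inv_integral w₂)
  obtain ⟨n, hn, h3⟩ := NumberField.Embeddings.pow_eq_one_of_norm_eq_one H ℂ hint (fun φ => by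
    have h4 : φ ((w₂ : 𝓞 H) : H) ≠ 0 := (map_ne_zero φ).2 hw2
    rw [map_mul, map_inv₀, norm_mul, norm_inv, hall φ, mul_inv_cancel₀ (norm_ne_zero_iff.2 h4)])
  refine ⟨n, hn, ?_⟩
  rw [mul_pow, inv_pow, mul_inv_eq_one₀ (pow_ne_zero n hw2)] at h3
  exact h3

/-- two extensions whose intersection is `H` and whose compositum has no further roots of unity -/
structure Indep {H₁ H₂ : Type} [Field H₁] [Field H₂] (τ : H →+* ℂ) (τ₁ : H₁ →+* ℂ) (τ₂ : H₂ →+* ℂ) : Prop where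
  inter : ∀ (x₁ : H₁) (x₂ : H₂), τ₁ x₁ = τ₂ x₂ → ∃ x : H, τ x = τ₁ x₁
  roots : ∀ (x₁ : H₁) (x₂ : H₂) (n : ℕ), 0 < n → (τ₁ x₁ * τ₂ x₂) ^ n = 1 → ∃ x : H, τ x = τ₁ x₁ * τ₂ x₂

end norms

section two
variable {K : Type} [Field K] [NumberField K] {G : Type} [CommGroup G] [Fintype G] {H : Type} [Field H]
  [NumberField H] [Algebra K H] [IsGalois K H]
  {H₁ : Type} [Field H₁] [NumberField H₁] [Algebra H H₁] {H₂ : Type} [Field H₂] [NumberField H₂] [Algebra H H₂]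

/-- **two square roots** -/
theorem two_roots {ι : K →+* ℂ} (art : G ≃* Gal(H/K)) {τ : H →+* ℂ} (hτ : τ.comp (algebraMap K H) = ι)
    {τ₁ : H₁ →+* ℂ} {τ₂ : H₂ →+* ℂ} (hτ₁ : τ₁.comp (algebraMap H H₁) = τ) (hτ₂ : τ₂.comp (algebraMap H H₂) = τ)
    (hind : Indep τ τ₁ τ₂) {w₁ w₂ : (𝓞 H)ˣ} (h1 : Circ ι ((w₁ : 𝓞 H) : H)) (h2 : Circ ι ((w₂ : 𝓞 H) : H))
    (h : ∀ A, ‖τ (art A ((w₁ : 𝓞 H) : H))‖ = ‖τ (art A ((w₂ : 𝓞 H) : H))‖)
    {b₁ : H₁} {b₂ : H₂} (hb₁ : b₁ ^ 2 = algebraMap H H₁ ((w₁ : 𝓞 H) : H))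
    (hb₂ : b₂ ^ 2 = algebraMap H H₂ ((w₂ : 𝓞 H) : H)) :
    ∃ v : (𝓞 H)ˣ, (((v : 𝓞 H) : H)) ^ 2 = ((w₁ : 𝓞 H) : H) := by
  obtain ⟨n, hn, hn2⟩ := root_of_unity art hτ h1 h2 h
  have hw₁ : ((w₁ : 𝓞 H) : H) ≠ 0 := by simp
  have hw₂ : ((w₂ : 𝓞 H) : H) ≠ 0 := by simp
  have hb₂0 : b₂ ≠ 0 := by
    rintro rfl
    rw [zero_pow two_ne_zero] at hb₂
    exact hw₂ ((map_eq_zero _).1 hb₂.symm)
  have hτb₂ : τ₂ b₂ ≠ 0 := (map_ne_zero τ₂).2 hb₂0
  have e1 : (τ₁ b₁) ^ 2 = τ ((w₁ : 𝓞 H) : H) := by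
    rw [← map_pow, hb₁, ← hτ₁]
    rfl
  have e2 : (τ₂ b₂) ^ 2 = τ ((w₂ : 𝓞 H) : H) := by
    rw [← map_pow, hb₂, ← hτ₂]
    rfl
  have e3 : (τ ((w₁ : 𝓞 H) : H)) ^ n = (τ ((w₂ : 𝓞 H) : H)) ^ n := by
    rw [← map_pow τ, hn2, map_pow τ]
  have h3 : (τ₁ b₁ * τ₂ b₂⁻¹) ^ (2 * n) = 1 := by
    rw [map_inv₀, mul_pow, inv_pow, pow_mul, pow_mul, e1, e2, e3, mul_inv_cancel₀]
    exact pow_ne_zero n ((map_ne_zero τ).2 hw₂)
  obtain ⟨z, hz⟩ := hind.roots b₁ b₂⁻¹ (2 * n) (by omega) h3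
  have h4 : τ₁ b₁ = τ₂ (algebraMap H H₂ z * b₂) := by
    have h5 : τ₂ (algebraMap H H₂ z) = τ z := by
      rw [← hτ₂]
      rfl
    rw [map_mul, h5, hz, map_inv₀, mul_assoc, inv_mul_cancel₀ hτb₂, mul_one]
  obtain ⟨x, hx⟩ := hind.inter _ _ h4
  have hx2 : x ^ 2 = ((w₁ : 𝓞 H) : H) := by
    apply τ.injective
    rw [map_pow, hx, e1]
  have hx0 : x ≠ 0 := by
    rintro rfl
    rw [zero_pow two_ne_zero] at hx2
    exact hw₁ hx2.symm
  have hxi : IsIntegral ℤ x := by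
    refine IsIntegral.of_pow two_pos ?_
    rw [hx2]
    exact (w₁ : 𝓞 H).isIntegral_coe
  have hxi2 : IsIntegral ℤ x⁻¹ := by
    refine IsIntegral.of_pow two_pos ?_
    rw [inv_pow, hx2]
    exact unit_inv_integral w₁
  obtain ⟨v, hv⟩ := mk_unit hx0 hxi hxi2
  exact ⟨v, by rw [hv, hx2]⟩

end two

end Pool.Agent.X287.ST
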