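import Pool.Agent.X287.RSys

/-!
# One-sided laws for Euler products, comparison with a counting function
-/

set_option autoImplicit false

open MeasureTheory Filter Topology Set Complex
open Pool.Agent.TH942.LS (Dat P)
open Pool.Agent.TH942.SL
open Pool.Agent.TH942.ES
open Pool.Agent.X287.Sect

namespace Pool.Agent.X287.RS

variable {X : Type} {d : ℕ} {N : X → ℕ} {α : X → Fin d → ℂ} {F : ℂ → ℂ}

/-- the order and the leading coefficient exist -/
theorem exists_lead (E : Sys N α) (H : RCon N α F) (h0 : AnalyticAt ℂ F 0) :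
    ∃ (m : ℕ) (A : ℂ), Lead F m A := by
  have htop : analyticOrderAt F 0 ≠ ⊤ := by
    intro h
    rw [analyticOrderAt_eq_top] at h
    set U : Set ℂ := (fun t : ℝ => (t : ℂ)) '' Ici 0 with hU
    have hUc : IsPreconnected U := isPreconnected_Ici.image _ (by fun_prop)
    have a1 : AnalyticOnNhd ℂ F U := by
      rintro _ ⟨t, ht, rfl⟩
      rcases eq_or_lt_of_le (show (0 : ℝ) ≤ t from ht) with h2 | h2
      · rw [← h2]
        simpa using h0
      · exact H.an t h2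
    have a2 : AnalyticOnNhd ℂ (fun _ : ℂ => (0 : ℂ)) U := analyticOnNhd_const
    have a3 := a1.eqOn_of_preconnected_of_eventuallyEq a2 hUc
      (show (0 : ℂ) ∈ U from ⟨0, Set.self_mem_Ici, by simp⟩) h
    have h2 : ((1 : ℝ) : ℂ) ∈ U := ⟨1, by simp, rfl⟩
    have h3 : (1 : ℝ) / 2 < ((1 : ℝ) : ℂ).re := by
      rw [Complex.ofReal_re]
      norm_num
    have h4 := a3 h2
    rw [H.eq _ h3] at h4
    exact (E.LE_diff h3).2 h4
  obtain ⟨g, hg, hg0, hgF⟩ := h0.analyticOrderAt_ne_top.1 htop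
  refine ⟨analyticOrderNatAt F 0, g 0, h0, hg0, ?_⟩
  have h1 : Tendsto g (𝓝[≠] 0) (𝓝 (g 0)) := hg.continuousAt.tendsto.mono_left nhdsWithin_le_nhds
  refine h1.congr' ?_
  filter_upwards [nhdsWithin_le_nhds hgF, self_mem_nhdsWithin] with s hs hs2
  have hs0 : s ≠ 0 := hs2
  rw [hs, sub_zero, smul_eq_mul]
  field_simp

section compare

variable (E : Sys N α) (hreal : Re N α) (H : RCon N α F) {m : ℕ} {A : ℂ} (hA : Lead F m A)
  {ρ₀ : ℝ} (h : 1 ≤ ρ₀) {t : ℝ → ℝ} (ht : ∀ ρ, ρ < t ρ) {Q : ℝ → ℝ} {r : ℕ} {κ : ℝ}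
  (hQ : Tendsto (fun Y : ℝ => Q Y - r * Real.log (Real.log Y)) atTop (𝓝 κ))
include E hreal H hA h ht hQ

omit hQ in
/-- slow growth -/
theorem cont_slow : (∃ G : ℂ → ℂ, Ext N α ρ₀ G) ↔
    ∀ ρ : ℝ, ρ₀ < ρ → ∀ ε : ℝ, 0 < ε → ∀ᶠ Y : ℝ in atTop,
      -StE N α ρ (t ρ) Y ≤ Real.exp (ε * Real.log Y ^ ρ) := by
  constructor
  · rintro ⟨G, hG⟩ ρ hρ ε hε
    have hρ0 : 0 < ρ := by linarith
    have h2 := (order_one E hreal H hA h ht m).2 ⟨⟨G, hG⟩, le_rfl⟩ ρ hρ
    obtain ⟨C, hC⟩ := slow (ρ := ρ) (by linarith) (h2 1 one_pos) (ε := ε / 2) (by linarith)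
    have h3 : Tendsto (fun X : ℝ => Real.exp (ε / 2 * Real.log X ^ ρ)) atTop atTop :=
      Real.tendsto_exp_atTop.comp (((tendsto_rpow_atTop hρ0).comp
        Real.tendsto_log_atTop).const_mul_atTop (by linarith))
    filter_upwards [hC, h3.eventually_ge_atTop C] with Y e1 e2
    refine e1.trans ?_
    have e3 : Real.exp (ε * Real.log Y ^ ρ) =
        Real.exp (ε / 2 * Real.log Y ^ ρ) * Real.exp (ε / 2 * Real.log Y ^ ρ) := by
      rw [← Real.exp_add]
      congr 1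
      ring
    rw [e3]
    exact mul_le_mul_of_nonneg_right e2 (Real.exp_pos _).le
  · intro h1
    exact cont_one E hreal H h ht fun ρ hρ ε hε => ⟨1, by simpa using h1 ρ hρ ε hε⟩

/-- the comparison: upper bound -/
theorem rank_le : ((∃ G : ℂ → ℂ, Ext N α ρ₀ G) ∧ m ≤ r) ↔
    ∀ ρ : ℝ, ρ₀ < ρ → ∃ C : ℝ, ∀ᶠ Y : ℝ in atTop,
      -StE N α ρ (t ρ) Y ≤ Q Y + C := by
  constructor
  · rintro ⟨⟨G, hG⟩, hmr⟩ ρ hρ
    obtain ⟨-, -, hlim⟩ := limit_one E hreal H hA h hG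
    have h3 := hlim ρ (t ρ) hρ (ht ρ)
    set L : ℝ := Real.log A.re - m * Real.eulerMascheroniConstant / ρ with hL
    refine ⟨2 - L - κ, ?_⟩
    filter_upwards [h3.eventually (lt_mem_nhds (show L - 1 < L by linarith)),
      hQ.eventually (lt_mem_nhds (show κ - 1 < κ by linarith)),
      tendsto_loglog.eventually_ge_atTop 0] with Y e1 e2 e3
    have e4 : (m : ℝ) ≤ r := by exact_mod_cast hmr
    have e5 := mul_le_mul_of_nonneg_right e4 e3
    linarith
  · intro h1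
    have h2 : ∀ ρ : ℝ, ρ₀ < ρ → ∀ ε : ℝ, 0 < ε → ∀ᶠ Y : ℝ in atTop,
        -StE N α ρ (t ρ) Y ≤ (r + ε) * Real.log (Real.log Y) := by
      intro ρ hρ ε hε
      obtain ⟨C, hC⟩ := h1 ρ hρ
      filter_upwards [hC, hQ.eventually (gt_mem_nhds (show κ < κ + 1 by linarith)),
        (tendsto_loglog.const_mul_atTop hε).eventually_gt_atTop (κ + 1 + C)] with Y e1 e2 e3
      rw [add_mul]
      linarith
    obtain ⟨h3, h4⟩ := (order_one E hreal H hA h ht r).1 h2
    exact ⟨h3, by exact_mod_cast h4⟩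

/-- the comparison: both bounds -/
theorem rank_eq : ((∃ G : ℂ → ℂ, Ext N α ρ₀ G) ∧ m = r) ↔
    ∀ ρ : ℝ, ρ₀ < ρ → ∃ C : ℝ, ∀ᶠ Y : ℝ in atTop,
      |-StE N α ρ (t ρ) Y - Q Y| ≤ C := by
  constructor
  · rintro ⟨⟨G, hG⟩, rfl⟩ ρ hρ
    obtain ⟨-, -, hlim⟩ := limit_one E hreal H hA h hG
    have h3 := hlim ρ (t ρ) hρ (ht ρ)
    set L : ℝ := Real.log A.re - m * Real.eulerMascheroniConstant / ρ with hL
    refine ⟨|L| + |κ| + 2, ?_⟩
    filter_upwards [h3.eventually (lt_mem_nhds (show L - 1 < L by linarith)),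
      h3.eventually (gt_mem_nhds (show L < L + 1 by linarith)),
      hQ.eventually (lt_mem_nhds (show κ - 1 < κ by linarith)),
      hQ.eventually (gt_mem_nhds (show κ < κ + 1 by linarith))] with Y e1 e2 e3 e4
    have := abs_le.1 (le_refl |L|)
    have := abs_le.1 (le_refl |κ|)
    rw [abs_le]
    constructor <;> linarith
  · intro h1
    obtain ⟨⟨G, hG⟩, hmr⟩ := (rank_le E hreal H hA h ht hQ).2 (fun ρ hρ => by
      obtain ⟨C, hC⟩ := h1 ρ hρ
      refine ⟨C, ?_⟩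
      filter_upwards [hC] with Y e1
      linarith [(abs_le.1 e1).2])
    refine ⟨⟨G, hG⟩, ?_⟩
    obtain ⟨-, -, hlim⟩ := limit_one E hreal H hA h hG
    obtain ⟨C, hC⟩ := h1 (ρ₀ + 1) (by linarith)
    have h4 := hlim (ρ₀ + 1) (t (ρ₀ + 1)) (by linarith) (ht _)
    set L : ℝ := Real.log A.re - m * Real.eulerMascheroniConstant / (ρ₀ + 1) with hL
    rcases hmr.lt_or_eq with h5 | h5
    · exfalso
      obtain ⟨Y, e1, e2, e3, e4, e5⟩ := (hC.and ((h4.eventually (lt_mem_nhds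
        (show L - 1 < L by linarith))).and ((hQ.eventually (lt_mem_nhds
        (show κ - 1 < κ by linarith))).and ((tendsto_loglog.eventually_ge_atTop 0).and
        (tendsto_loglog.eventually_gt_atTop (C + 2 - L - κ)))))).exists
      have e6 := (abs_le.1 e1).1
      have e7 : (m : ℝ) + 1 ≤ r := by exact_mod_cast h5
      have e8 := mul_le_mul_of_nonneg_right e7 e4
      rw [add_mul, one_mul] at e8
      linarith
    · exact h5

/-- the comparison: the leading coefficient from below -/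
theorem coeff_le {B : ℝ} (hB : 0 < B) :
    ((∃ G : ℂ → ℂ, Ext N α ρ₀ G) ∧ (m < r ∨ m = r ∧ B ≤ A.re)) ↔
    ∀ ρ : ℝ, ρ₀ < ρ → ∀ ε : ℝ, 0 < ε → ∀ᶠ Y : ℝ in atTop,
      -StE N α ρ (t ρ) Y ≤ Q Y - κ - Real.log B + r * Real.eulerMascheroniConstant / ρ + ε := by
  rw [← coeff_one E hreal H hA h ht r hB]
  constructor
  · intro h1 ρ hρ ε hε
    filter_upwards [h1 ρ hρ (ε / 2) (by linarith), hQ.eventually (lt_mem_nhds
      (show κ - ε / 2 < κ by linarith))] with Y e1 e2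
    linarith
  · intro h1 ρ hρ ε hε
    filter_upwards [h1 ρ hρ (ε / 2) (by linarith), hQ.eventually (gt_mem_nhds
      (show κ < κ + ε / 2 by linarith))] with Y e1 e2
    linarith

/-- the comparison: the leading coefficient -/
theorem coeff_eq {B : ℝ} (hB : 0 < B) :
    ((∃ G : ℂ → ℂ, Ext N α ρ₀ G) ∧ m = r ∧ A = B) ↔
    ∀ ρ : ℝ, ρ₀ < ρ →
      Tendsto (fun Y : ℝ => -StE N α ρ (t ρ) Y - Q Y) atTop
        (𝓝 (-κ - Real.log B + r * Real.eulerMascheroniConstant / ρ)) := by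
  constructor
  · rintro ⟨⟨G, hG⟩, rfl, hAB⟩ ρ hρ
    obtain ⟨-, -, hlim⟩ := limit_one E hreal H hA h hG
    have h3 := (hlim ρ (t ρ) hρ (ht ρ)).neg.sub hQ
    rw [hAB, Complex.ofReal_re] at h3
    have e1 : -(Real.log B - m * Real.eulerMascheroniConstant / ρ) - κ =
        -κ - Real.log B + m * Real.eulerMascheroniConstant / ρ := by ring
    rw [e1] at h3
    refine h3.congr fun Y => ?_
    ring
  · intro h1
    obtain ⟨⟨G, hG⟩, hmr⟩ := (rank_eq E hreal H hA h ht hQ).2 (fun ρ hρ => by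
      obtain ⟨C, hC⟩ := (h1 ρ hρ).abs.isBoundedUnder_le
      rw [eventually_map] at hC
      exact ⟨C, hC⟩)
    refine ⟨⟨G, hG⟩, hmr, ?_⟩
    subst hmr
    obtain ⟨hp, hAe, hlim⟩ := limit_one E hreal H hA h hG
    have h4 := h1 (ρ₀ + 1) (by linarith)
    have h5 := (hlim (ρ₀ + 1) (t (ρ₀ + 1)) (by linarith) (ht _)).neg.sub hQ
    have h6 := tendsto_nhds_unique (h5.congr fun Y => by ring) h4
    have h7 : Real.log A.re = Real.log B := by linarith
    have h8 : A.re = B := Real.log_injOn_pos hp hB h7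
    rw [hAe, h8]

end compare

end Pool.Agent.X287.RS
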