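import Pool.Agent.X287.CR8

/-!
# Artin L-functions: class functions of a finite group and rotated sums over Frobenius elements
-/

set_option autoImplicit false

namespace Pool.Agent.X287.CR

open Complex Filter Topology Set Asymptotics
open Pool.Agent.W187.UR

/-- the mean value of `f` over the coset `φ_p^k I_p` -/
noncomputable def frob {G : Type} [Group G] [Fintype G] (I : Nat.Primes → Subgroup G) (φ : Nat.Primes → G)
    (f : G → ℂ) (p : Nat.Primes) (k : ℕ) : ℂ := by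
  classical
  exact (Fintype.card (I p) : ℂ)⁻¹ * ∑ h : I p, f (φ p ^ k * h)

theorem frob_sum {G : Type} [Group G] [Fintype G] (I : Nat.Primes → Subgroup G) (φ : Nat.Primes → G)
    {J : Type} [Fintype J] (χ : J → G → ℂ) (a : J → ℂ) (p : Nat.Primes) (k : ℕ) :
    frob I φ (fun g => ∑ j, a j * χ j g) p k = ∑ j, a j * frob I φ (χ j) p k := by
  classical
  unfold frob
  simp only [Finset.mul_sum]
  rw [Finset.sum_comm]
  refine Finset.sum_congr rfl fun j _ => Finset.sum_congr rfl fun h _ => ?_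
  ring

/-- the term of the sum of the class function `f` -/
noncomputable def tf {G : Type} [Group G] [Fintype G] (I : Nat.Primes → Subgroup G) (φ : Nat.Primes → G)
    (f : G → ℂ) (s₀ : ℂ) (γ T : ℝ) (x : Nat.Primes × ℕ) : ℂ :=
  -frob I φ f x.1 (x.2 + 1) * exp (-(s₀ * lam pq x)) * exp ((γ * (lam pq x / T) : ℝ) * Complex.I) /
    (((x.2 + 1) * Real.Gamma (1 + lam pq x / T) : ℝ) : ℂ)

/-- the sum of the class function `f` -/
noncomputable def Sf {G : Type} [Group G] [Fintype G] (I : Nat.Primes → Subgroup G) (φ : Nat.Primes → G)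
    (f : G → ℂ) (s₀ : ℂ) (γ T : ℝ) : ℂ := ∑' x, tf I φ f s₀ γ T x

/-- the local roots of the Artin L-function of `χ` -/
structure Artin {G : Type} [Group G] [Fintype G] (I : Nat.Primes → Subgroup G) (φ : Nat.Primes → G)
    (χ : G → ℂ) {d : ℕ} (α : Nat.Primes → Fin d → ℂ) : Prop where
  trace : ∀ p k, ∑ i, α p i ^ (k + 1) = frob I φ χ p (k + 1)
  le : ∀ p i, ‖α p i‖ ≤ 1

section

variable {G : Type} [Group G] [Fintype G] {I : Nat.Primes → Subgroup G} {φ : Nat.Primes → G}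

theorem Artin.sys {χ : G → ℂ} {d : ℕ} {α : Nat.Primes → Fin d → ℂ} (h : Artin I φ χ α) :
    CSys 0 pq α := q_csys α fun p i => by simpa using h.le p i

theorem Artin.tm_eq {χ : G → ℂ} {d : ℕ} {α : Nat.Primes → Fin d → ℂ} (h : Artin I φ χ α) (s₀ : ℂ)
    (γ T : ℝ) (x : Nat.Primes × ℕ) : tm pq α s₀ γ T x = tf I φ χ s₀ γ T x := by
  unfold tm tf
  rw [h.trace]

theorem tf_sum {J : Type} [Fintype J] (χ : J → G → ℂ) (a : J → ℂ) (s₀ : ℂ) (γ T : ℝ)
    (x : Nat.Primes × ℕ) : tf I φ (fun g => ∑ j, a j * χ j g) s₀ γ T x =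
      ∑ j, a j * tf I φ (χ j) s₀ γ T x := by
  unfold tf
  rw [frob_sum]
  simp only [Finset.sum_mul, Finset.sum_div, ← Finset.sum_neg_distrib]
  refine Finset.sum_congr rfl fun j _ => ?_
  ring

theorem Artin.tf_summable {χ : G → ℂ} {d : ℕ} {α : Nat.Primes → Fin d → ℂ} (h : Artin I φ χ α) {s₀ : ℂ}
    (hs₀ : 0 ≤ s₀.re) (γ : ℝ) {T : ℝ} (hT : 0 < T) : Summable fun x => ‖tf I φ χ s₀ γ T x‖ := by
  have h1 := h.sys.tm_summable hs₀ γ hT
  simpa only [h.tm_eq] using h1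

theorem Sf_sum {J : Type} [Fintype J] {χ : J → G → ℂ} {d : J → ℕ}
    {α : ∀ j, Nat.Primes → Fin (d j) → ℂ} (h : ∀ j, Artin I φ (χ j) (α j)) (a : J → ℂ) {s₀ : ℂ}
    (hs₀ : 0 ≤ s₀.re) (γ : ℝ) {T : ℝ} (hT : 0 < T) :
    Sf I φ (fun g => ∑ j, a j * χ j g) s₀ γ T = ∑ j, a j * Sf I φ (χ j) s₀ γ T := by
  unfold Sf
  simp only [tf_sum, ← tsum_mul_left]
  rw [Summable.tsum_finsetSum]
  intro j _
  exact (((h j).tf_summable hs₀ γ hT).of_norm).mul_left _

theorem tf_sum_summable {J : Type} [Fintype J] {χ : J → G → ℂ} {d : J → ℕ}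
    {α : ∀ j, Nat.Primes → Fin (d j) → ℂ} (h : ∀ j, Artin I φ (χ j) (α j)) (a : J → ℂ) {s₀ : ℂ}
    (hs₀ : 0 ≤ s₀.re) (γ : ℝ) {T : ℝ} (hT : 0 < T) :
    Summable fun x => ‖tf I φ (fun g => ∑ j, a j * χ j g) s₀ γ T x‖ := by
  simp only [tf_sum]
  refine Summable.of_nonneg_of_le (fun x => norm_nonneg _) (fun x => norm_sum_le _ _)
    (summable_sum (f := fun j x => ‖a j * tf I φ (χ j) s₀ γ T x‖) fun j _ => ?_)
  simp only [norm_mul]
  exact ((h j).tf_summable hs₀ γ hT).mul_left _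

/-- the law for one Artin L-function -/
theorem Artin.law {χ : G → ℂ} {d : ℕ} {α : Nat.Primes → Fin d → ℂ} (h : Artin I φ χ α) {L : ℂ → ℂ}
    (hprod : ∀ s : ℂ, 1 < s.re →
      HasProd (fun p : Nat.Primes => ∏ i, (1 - α p i * ((p : ℕ) : ℂ) ^ (-s))⁻¹) (L s))
    {s₀ : ℂ} (hs₀ : 0 ≤ s₀.re)
    (hmer : ∀ x : ℝ, 0 ≤ x → s₀.re + x ≤ 1 → MeromorphicAt L (s₀ + x)) {γ : ℝ}
    (hγ : Real.pi / 2 < γ) : ∃ (m : ℤ) (r₀ : ℂ), meromorphicOrderAt L s₀ = m ∧
      meromorphicTrailingCoeffAt L s₀ = exp r₀ ∧ Asy (Lam γ) (Sf I φ χ s₀ γ) m r₀ := by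
  obtain ⟨m, r₀, h1, h2, h3⟩ := h.sys.law (L := L) (fun s hs => by
      have := hprod s (by linarith)
      exact this) (s₀ := s₀) hs₀ (fun x h0 h1 => hmer x h0 (by linarith)) hγ
  refine ⟨m, r₀, h1, h2, ?_⟩
  have hS : ∀ T, Su pq α s₀ γ T = Sf I φ χ s₀ γ T := fun T => tsum_congr fun x => h.tm_eq s₀ γ T x
  simp only [hS] at h3
  exact h3

/-- linear combinations -/
theorem comb {J : Type} [Fintype J] {Λ : ℂ} {S : J → ℝ → ℂ} {m : J → ℤ} {r : J → ℂ}
    (h : ∀ j, Asy Λ (S j) (m j) (r j)) (a : J → ℂ) :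
    (fun T : ℝ => (∑ j, a j * S j T) - ∑ j, a j * (m j * (Real.log T - Λ) - r j)) =O[atTop]
      (fun T : ℝ => 1 / T) := by
  have h1 : (fun T : ℝ => ∑ j, a j * (S j T - (m j * (Real.log T - Λ) - r j))) =O[atTop]
      (fun T : ℝ => 1 / T) := by
    refine IsBigO.fun_sum fun j _ => ?_
    exact IsBigO.const_mul_left (h j) _
  refine h1.congr_left fun T => ?_
  rw [← Finset.sum_sub_distrib]
  refine Finset.sum_congr rfl fun j _ => ?_
  ring

/-- real linear combinations: the real part -/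
theorem comb_re {J : Type} [Fintype J] {Λ : ℂ} {S : J → ℝ → ℂ} {m : J → ℤ} {r : J → ℂ}
    (h : ∀ j, Asy Λ (S j) (m j) (r j)) (a : J → ℝ) : ∃ R : ℝ,
    Tendsto (fun T : ℝ => (∑ j, (a j : ℂ) * S j T).re - (∑ j, a j * m j) * Real.log T) atTop (𝓝 R) := by
  have h0 := comb h (fun j => (a j : ℂ))
  have hlim : Tendsto (fun T : ℝ => (1 : ℝ) / T) atTop (𝓝 0) :=
    tendsto_const_nhds.div_atTop tendsto_id
  have h1 := (Complex.continuous_re.tendsto 0).comp (h0.trans_tendsto hlim)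
  rw [Complex.zero_re] at h1
  have e : ∀ T : ℝ, (∑ j, (a j : ℂ) * (m j * (Real.log T - Λ) - r j)).re =
      (∑ j, a j * m j) * Real.log T - ∑ j, a j * (m j * Λ.re + (r j).re) := by
    intro T
    rw [Complex.re_sum, Finset.sum_mul, ← Finset.sum_sub_distrib]
    refine Finset.sum_congr rfl fun j _ => ?_
    rw [Complex.re_ofReal_mul]
    have : ((m j : ℂ) * (Real.log T - Λ) - r j).re = m j * (Real.log T - Λ.re) - (r j).re := by simp
    rw [this]
    ring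
  refine ⟨-∑ j, a j * (m j * Λ.re + (r j).re), ?_⟩
  have h2 := h1.add_const (-∑ j, a j * (m j * Λ.re + (r j).re))
  rw [zero_add] at h2
  refine h2.congr fun T => ?_
  simp only [Function.comp_apply, Complex.sub_re]
  rw [e T]
  ring

end

/-- facts on `Re S - c log T → R` -/
theorem lin_log {u : ℝ → ℝ} {c R : ℝ} (h : Tendsto (fun T : ℝ => u T - c * Real.log T) atTop (𝓝 R)) :
    Tendsto (fun T : ℝ => u T / Real.log T) atTop (𝓝 c) ∧
    ((∃ C : ℝ, ∀ᶠ T : ℝ in atTop, u T ≤ C) ↔ c ≤ 0) ∧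
    ((∃ C : ℝ, ∀ᶠ T : ℝ in atTop, C ≤ u T) ↔ 0 ≤ c) ∧
    ((∃ C : ℝ, ∀ᶠ T : ℝ in atTop, |u T| ≤ C) ↔ c = 0) := by
  have h1 : Tendsto (fun T : ℝ => u T / Real.log T) atTop (𝓝 c) := by
    have h2 : Tendsto (fun T : ℝ => (u T - c * Real.log T) / Real.log T) atTop (𝓝 0) :=
      h.div_atTop Real.tendsto_log_atTop
    have h3 := h2.add_const c
    rw [zero_add] at h3
    refine h3.congr' ?_
    filter_upwards [eventually_gt_atTop 1] with T hT
    have := Real.log_pos hT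
    field_simp
    ring
  have hup : ∀ {v : ℝ → ℝ} {b R : ℝ}, Tendsto (fun T : ℝ => v T - b * Real.log T) atTop (𝓝 R) →
      ((∃ C : ℝ, ∀ᶠ T : ℝ in atTop, v T ≤ C) ↔ b ≤ 0) := by
    intro v b R h
    constructor
    · rintro ⟨C, hC⟩
      by_contra hb
      push Not at hb
      have h2 : Tendsto (fun T : ℝ => b * Real.log T) atTop atTop :=
        Real.tendsto_log_atTop.const_mul_atTop hb
      have h3 := h.add_atTop h2
      obtain ⟨T, h4, h5⟩ := (hC.and (h3.eventually_gt_atTop C)).exists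
      linarith
    · intro hb
      refine ⟨R + 1, ?_⟩
      filter_upwards [h.eventually_lt_const (lt_add_one _), eventually_ge_atTop 1] with T hT hT1
      have := mul_nonpos_of_nonpos_of_nonneg hb (Real.log_nonneg hT1)
      linarith
  have hlo : (∃ C : ℝ, ∀ᶠ T : ℝ in atTop, C ≤ u T) ↔ 0 ≤ c := by
    have h2 : Tendsto (fun T : ℝ => -u T - (-c) * Real.log T) atTop (𝓝 (-R)) := by
      refine h.neg.congr fun T => ?_
      ring
    have h3 := hup h2
    rw [neg_nonpos] at h3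
    rw [← h3]
    constructor
    · rintro ⟨C, hC⟩
      exact ⟨-C, hC.mono fun T hT => neg_le_neg hT⟩
    · rintro ⟨C, hC⟩
      exact ⟨-C, hC.mono fun T hT => by linarith⟩
  refine ⟨h1, hup h, hlo, ?_⟩
  constructor
  · rintro ⟨C, hC⟩
    refine le_antisymm ((hup h).1 ⟨C, hC.mono fun T hT => (abs_le.1 hT).2⟩)
      (hlo.1 ⟨-C, hC.mono fun T hT => (abs_le.1 hT).1⟩)
  · intro hc
    obtain ⟨C, hC⟩ := (hup h).2 hc.le
    obtain ⟨D, hD⟩ := hlo.2 hc.ge
    refine ⟨max C (-D), ?_⟩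
    filter_upwards [hC, hD] with T h4 h5
    rw [abs_le]
    constructor
    · have := le_max_right C (-D)
      linarith
    · exact h4.trans (le_max_left _ _)

end Pool.Agent.X287.CR
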