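import Pool.Agent.X287.CR7
import Mathlib.NumberTheory.LSeries.DirichletContinuation
import Mathlib.NumberTheory.EulerProduct.DirichletLSeries

/-!
# Dirichlet L-functions: the rotated law at all points off the real axis, all characters of a modulus
-/

set_option autoImplicit false

namespace Pool.Agent.X287.CR

open Complex Filter Topology Set Asymptotics
open Pool.Agent.W187.UR

/-- the norms of the rational primes -/
def pq (p : Nat.Primes) : ℕ := p

/-- the roots of `ζ` -/
def on : Nat.Primes → Fin 1 → ℂ := fun _ _ => 1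

theorem on_sys : CSys 0 pq on := q_csys on fun p i => by simp [on]

/-- all the characters of a modulus -/
theorem dir_law (q : ℕ) [NeZero q] {γ : ℝ} (hγ : Real.pi / 2 < γ) {s₀ : ℂ} (h0 : 0 ≤ s₀.re)
    (him : s₀.im ≠ 0) : ∃ (m : DirichletCharacter ℂ q → ℕ) (r : DirichletCharacter ℂ q → ℂ),
    (∀ χ, AnalyticAt ℂ (DirichletCharacter.LFunction χ) s₀ ∧
      analyticOrderAt (DirichletCharacter.LFunction χ) s₀ = m χ) ∧
    ∀ χ, Asy (Lam γ) (Su pq (tw pq χ on) s₀ γ) (m χ) (r χ) := by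
  have hne : ∀ x : ℝ, s₀ + x ≠ 1 := by
    intro x h
    apply him
    have := congrArg Complex.im h
    simpa using this
  have han : ∀ (χ : DirichletCharacter ℂ q) (x : ℝ),
      AnalyticAt ℂ (DirichletCharacter.LFunction χ) (s₀ + x) := by
    intro χ x
    have hopen : IsOpen {s : ℂ | s ≠ 1} := isOpen_ne
    have h1 : DifferentiableOn ℂ (DirichletCharacter.LFunction χ) {s : ℂ | s ≠ 1} := fun s hs =>
      (DirichletCharacter.differentiableAt_LFunction χ s (Or.inl hs)).differentiableWithinAt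
    exact h1.analyticAt (hopen.mem_nhds (hne x))
  have hlaw : ∀ χ : DirichletCharacter ℂ q, ∃ (m : ℕ) (r₀ : ℂ),
      (AnalyticAt ℂ (DirichletCharacter.LFunction χ) s₀ ∧
        analyticOrderAt (DirichletCharacter.LFunction χ) s₀ = m) ∧
      Asy (Lam γ) (Su pq (tw pq χ on) s₀ γ) m r₀ := by
    intro χ
    obtain ⟨m, r₀, h1, h2, h3⟩ := (tw_sys on_sys χ).law (L := DirichletCharacter.LFunction χ)
      (fun s hs => by
        have hs' : 1 < s.re := by linarith
        have := DirichletCharacter.LSeries_eulerProduct_hasProd χ hs'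
        rw [← DirichletCharacter.LFunction_eq_LSeries χ hs'] at this
        unfold fac tw on pq
        simpa only [mul_one, Finset.univ_unique, Finset.prod_singleton] using this)
      (s₀ := s₀) h0 (fun x _ _ => (han χ x).meromorphicAt) hγ
    have ha : AnalyticAt ℂ (DirichletCharacter.LFunction χ) s₀ := by simpa using han χ 0
    have h4 := (value ha h1 h2).1
    obtain ⟨k, rfl⟩ := Int.eq_ofNat_of_zero_le h4
    exact ⟨k, r₀, ⟨ha, an_order ha h1⟩, h3⟩
  choose m r h1 h2 using hlaw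
  exact ⟨m, r, h1, h2⟩

/-- a zero is simple iff the order is one -/
theorem order_zero {f : ℂ → ℂ} {z : ℂ} {m : ℕ} (hf : AnalyticAt ℂ f z) (hm : analyticOrderAt f z = m) :
    (f z = 0 ↔ m ≠ 0) ∧ (f z = 0 → (deriv f z ≠ 0 ↔ m = 1)) := by
  have h1 : f z = 0 ↔ m ≠ 0 := by
    rw [← hf.analyticOrderAt_ne_zero, hm]
    exact_mod_cast Iff.rfl
  refine ⟨h1, fun h0 => ?_⟩
  constructor
  · intro h2
    have h3 := hf.analyticOrderAt_eq_one_of_zero_deriv_ne_zero h0 h2
    rw [hm] at h3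
    exact_mod_cast h3
  · intro h2 h3
    have h4 : analyticOrderAt (deriv f) z + 1 = analyticOrderAt f z := by
      have := hf.analyticOrderAt_deriv_add_one
      simpa [h0] using this
    rw [hm, h2] at h4
    have h5 : analyticOrderAt (deriv f) z ≠ 0 := (hf.deriv.analyticOrderAt_ne_zero).2 h3
    apply h5
    generalize analyticOrderAt (deriv f) z = x at h4
    induction x using ENat.recTopCoe with
    | top => simp at h4
    | coe k =>
      have h7 : k + 1 = 1 := by exact_mod_cast h4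
      have h8 : k = 0 := by omega
      rw [h8]
      rfl

/-- the real part of the sum over the prime powers `≡ 1`, for nonnegative orders -/
theorem class_one {X : Type} {d : ℕ} {θ : ℝ} {q : X → ℕ} {α : X → Fin d → ℂ} (G : CSys θ q α)
    {s₀ : ℂ} (hs₀ : θ ≤ s₀.re) (γ : ℝ) {N : ℕ} [NeZero N] {Λ : ℂ}
    (m : DirichletCharacter ℂ N → ℕ) (r : DirichletCharacter ℂ N → ℂ)
    (h : ∀ χ, Asy Λ (Su q (tw q χ α) s₀ γ) (m χ) (r χ)) : ∃ R : ℝ,
    Tendsto (fun T : ℝ => (Sc N q α s₀ γ T 1).re -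
      (((∑ χ, m χ : ℕ) : ℝ) / N.totient * Real.log T)) atTop (𝓝 R) := by
  have hlim : Tendsto (fun T : ℝ => (1 : ℝ) / T) atTop (𝓝 0) :=
    tendsto_const_nhds.div_atTop tendsto_id
  have h2 := (class_law G hs₀ γ (fun χ => ((m χ : ℕ) : ℤ)) r h 1).trans_tendsto hlim
  have h3 := (Complex.continuous_re.tendsto 0).comp h2
  rw [Complex.zero_re] at h3
  set M : ℝ := ((∑ χ, m χ : ℕ) : ℝ) with hM
  set R : ℝ := (∑ χ : DirichletCharacter ℂ N, r χ).re with hR
  have e : ∀ T : ℝ, ((N.totient : ℂ)⁻¹ * ∑ χ : DirichletCharacter ℂ N,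
      χ ((((1 : (ZMod N)ˣ) : ZMod N))⁻¹) * ((((m χ : ℕ) : ℤ) : ℂ) * (Real.log T - Λ) - r χ)).re =
      (N.totient : ℝ)⁻¹ * (M * (Real.log T - Λ.re) - R) := by
    intro T
    have e1 : ∀ χ : DirichletCharacter ℂ N, χ ((((1 : (ZMod N)ˣ) : ZMod N))⁻¹) = 1 := by
      intro χ
      have : ((1 : (ZMod N)ˣ) : ZMod N)⁻¹ = 1 := by
        rw [Units.val_one]
        exact ZMod.inv_one N
      rw [this, map_one]
    simp only [e1, one_mul, Finset.sum_sub_distrib, ← Finset.sum_mul]
    have e2 : (∑ χ : DirichletCharacter ℂ N, (((m χ : ℕ) : ℤ) : ℂ)) = ((M : ℝ) : ℂ) := by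
      rw [hM]; push_cast; rfl
    rw [e2]
    have e3 : ((N.totient : ℂ)⁻¹) = (((N.totient : ℝ)⁻¹ : ℝ) : ℂ) := by push_cast; rfl
    rw [e3, Complex.re_ofReal_mul, Complex.sub_re, Complex.re_ofReal_mul, Complex.sub_re,
      Complex.ofReal_re]
  refine ⟨(N.totient : ℝ)⁻¹ * (-(M * Λ.re) - R), ?_⟩
  have h4 := h3.add_const ((N.totient : ℝ)⁻¹ * (-(M * Λ.re) - R))
  rw [zero_add] at h4
  refine h4.congr fun T => ?_
  simp only [Function.comp_apply, Complex.sub_re]
  rw [e T]
  simp only [Units.val_one]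
  ring

end Pool.Agent.X287.CR
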