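import Pool.Agent.X287.Kit

/-!
# One-sided laws for Euler products: arbitrary centre
-/

set_option autoImplicit false

open Filter Topology Complex NumberField IsDedekindDomain
open Pool.Agent.TH942.SL
open Pool.Agent.TH942.ES
open Pool.Agent.H921R2.TatePole (nm two_le_nm)

namespace Pool.Agent.X287.Kit

open Pool.Agent.X287.RS

variable {X : Type} {d : ℕ} {N : X → ℕ} {β : X → Fin d → ℂ} {c₀ : ℝ}

/-- the normalised local roots, `β` the local roots, centre `c₀` -/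
noncomputable def al (N : X → ℕ) (β : X → Fin d → ℂ) (c₀ : ℝ) (v : X) (i : Fin d) : ℂ :=
  β v i * (((N v : ℝ) ^ (-(c₀ - 1 / 2)) : ℝ) : ℂ)

theorem zv_al {v : X} (hN : 2 ≤ N v) (i : Fin d) :
    zv N (al N β c₀) v i = β v i * (((N v : ℝ) ^ (-c₀) : ℝ) : ℂ) := by
  have h0 : (0 : ℝ) < N v := by
    have : (2 : ℝ) ≤ N v := by exact_mod_cast hN
    linarith
  unfold zv al
  have e1 : (N v : ℝ) ^ (-c₀) = (N v : ℝ) ^ (-(c₀ - 1 / 2)) / √(N v : ℝ) := by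
    rw [Real.sqrt_eq_rpow, ← Real.rpow_sub h0]
    congr 1
    ring
  rw [e1]
  push_cast
  ring

theorem norm_al {v : X} (hN : 2 ≤ N v) {i : Fin d} (h : ‖β v i‖ ≤ (N v : ℝ) ^ (c₀ - 1 / 2)) :
    ‖al N β c₀ v i‖ ≤ 1 := by
  have h0 : (0 : ℝ) < N v := by
    have : (2 : ℝ) ≤ N v := by exact_mod_cast hN
    linarith
  unfold al
  have h1 : 0 < (N v : ℝ) ^ (-(c₀ - 1 / 2)) := Real.rpow_pos_of_pos h0 _
  rw [norm_mul, Complex.norm_real, Real.norm_eq_abs, abs_of_pos h1]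
  calc ‖β v i‖ * (N v : ℝ) ^ (-(c₀ - 1 / 2)) ≤
      (N v : ℝ) ^ (c₀ - 1 / 2) * (N v : ℝ) ^ (-(c₀ - 1 / 2)) :=
        mul_le_mul_of_nonneg_right h h1.le
    _ = 1 := by
      rw [← Real.rpow_add h0, add_neg_cancel, Real.rpow_zero]

theorem sum_al {v : X} (hN : 2 ≤ N v) (k : ℕ) : ∑ i, zv N (al N β c₀) v i ^ k =
    (∑ i, β v i ^ k) * (((N v : ℝ) ^ (-(k * c₀)) : ℝ) : ℂ) := by
  have h0 : (0 : ℝ) < N v := by
    have : (2 : ℝ) ≤ N v := by exact_mod_cast hN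
    linarith
  rw [Finset.sum_mul]
  refine Finset.sum_congr rfl fun i _ => ?_
  rw [zv_al hN, mul_pow]
  congr 1
  rw [← Complex.ofReal_pow, ← Real.rpow_natCast ((N v : ℝ) ^ (-c₀)), ← Real.rpow_mul h0.le]
  congr 2
  ring

theorem re_al (hN : ∀ v, 2 ≤ N v) (hr : ∀ v k, (∑ i, β v i ^ k).im = 0) : Re N (al N β c₀) := by
  intro v k
  rw [sum_al (hN v), Complex.im_mul_ofReal, hr, zero_mul]

theorem loc_al (hN : ∀ v, 2 ≤ N v) {c : ℂ} (hc : c = c₀) : Loc N (al N β c₀) c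
    (fun v s => ∏ i, (1 - β v i * (N v : ℂ) ^ (-s))⁻¹) := by
  intro v s
  have h0 : (0 : ℝ) < N v := by
    have : (2 : ℝ) ≤ N v := by exact_mod_cast hN v
    linarith
  have hnc : (N v : ℂ) ≠ 0 := by exact_mod_cast h0.ne'
  refine Finset.prod_congr rfl fun i _ => ?_
  rw [zv_al (hN v)]
  have e1 : (((N v : ℝ) ^ (-c₀) : ℝ) : ℂ) = (N v : ℂ) ^ (-c) := by
    rw [Complex.ofReal_cpow h0.le, hc]
    push_cast
    rfl
  have e2 : xv N v s = (N v : ℂ) ^ (-s) := by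
    unfold xv
    rw [Complex.cpow_def_of_ne_zero hnc, ← Complex.ofReal_natCast, ← Complex.ofReal_log h0.le]
    congr 1
    ring
  rw [e1, e2, mul_assoc, ← Complex.cpow_add _ _ hnc]
  congr 4
  ring

theorem cP_al {p : X × ℕ} (hN : 2 ≤ N p.1) : cP N (al N β c₀) p =
    (∑ i, β p.1 i ^ (p.2 + 1)).re / (((p.2 : ℝ) + 1) * (N p.1 : ℝ) ^ (((p.2 : ℝ) + 1) * c₀)) := by
  have h0 : (0 : ℝ) < N p.1 := by
    have : (2 : ℝ) ≤ N p.1 := by exact_mod_cast hN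
    linarith
  unfold cP
  rw [sum_al hN, Complex.re_mul_ofReal]
  push_cast
  rw [Real.rpow_neg h0.le]
  have := Real.rpow_pos_of_pos h0 (((p.2 : ℝ) + 1) * c₀)
  field_simp

/-! ### quadratic polynomials -/

/-- the roots of `X² - c X + e` -/
noncomputable def qr (c e : ℝ) : Fin 2 → ℂ :=
  ![(c + ((c ^ 2 - 4 * e : ℝ) : ℂ) ^ (1 / 2 : ℂ)) / 2, (c - ((c ^ 2 - 4 * e : ℝ) : ℂ) ^ (1 / 2 : ℂ)) / 2]

theorem sq_half (z : ℂ) : (z ^ (1 / 2 : ℂ)) ^ 2 = z := by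
  rw [← Complex.cpow_nat_mul]
  norm_num

theorem qr_add (c e : ℝ) : qr c e 0 + qr c e 1 = c := by
  have e0 : qr c e 0 = (c + ((c ^ 2 - 4 * e : ℝ) : ℂ) ^ (1 / 2 : ℂ)) / 2 := rfl
  have e1 : qr c e 1 = (c - ((c ^ 2 - 4 * e : ℝ) : ℂ) ^ (1 / 2 : ℂ)) / 2 := rfl
  rw [e0, e1]
  ring

theorem qr_mul (c e : ℝ) : qr c e 0 * qr c e 1 = e := by
  have e0 : qr c e 0 = (c + ((c ^ 2 - 4 * e : ℝ) : ℂ) ^ (1 / 2 : ℂ)) / 2 := rfl
  have e1 : qr c e 1 = (c - ((c ^ 2 - 4 * e : ℝ) : ℂ) ^ (1 / 2 : ℂ)) / 2 := rfl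
  have h := sq_half ((c ^ 2 - 4 * e : ℝ) : ℂ)
  rw [e0, e1]
  have : (((c : ℂ) + ((c ^ 2 - 4 * e : ℝ) : ℂ) ^ (1 / 2 : ℂ)) / 2) *
      (((c : ℂ) - ((c ^ 2 - 4 * e : ℝ) : ℂ) ^ (1 / 2 : ℂ)) / 2) =
      ((c : ℂ) ^ 2 - (((c ^ 2 - 4 * e : ℝ) : ℂ) ^ (1 / 2 : ℂ)) ^ 2) / 4 := by ring
  rw [this, h]
  push_cast
  ring

theorem qr_root (c e : ℝ) (i : Fin 2) : qr c e i ^ 2 - c * qr c e i + e = 0 := by
  have h1 := qr_add c e
  have h2 := qr_mul c e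
  fin_cases i
  · show qr c e 0 ^ 2 - c * qr c e 0 + e = 0
    rw [← h1, ← h2]
    ring
  · show qr c e 1 ^ 2 - c * qr c e 1 + e = 0
    rw [← h1, ← h2]
    ring

/-- the power sums -/
def ps (c e : ℝ) : ℕ → ℝ
  | 0 => 2
  | 1 => c
  | n + 2 => c * ps c e (n + 1) - e * ps c e n

theorem qr_ps (c e : ℝ) (n : ℕ) : ∑ i, qr c e i ^ n = (ps c e n : ℂ) := by
  induction n using Nat.twoStepInduction with
  | zero =>
    rw [Fin.sum_univ_two, pow_zero, pow_zero, ps]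
    norm_num
  | one =>
    rw [Fin.sum_univ_two, pow_one, pow_one, qr_add, ps]
  | more n ih1 ih2 =>
    rw [Fin.sum_univ_two] at ih1 ih2 ⊢
    have h1 := qr_add c e
    have h2 := qr_mul c e
    simp only [ps]
    push_cast
    rw [← ih1, ← ih2, ← h1, ← h2]
    ring

theorem qr_prod (c e : ℝ) (x : ℂ) : ∏ i, (1 - qr c e i * x)⁻¹ = (1 - c * x + e * x ^ 2)⁻¹ := by
  have h1 := qr_add c e
  have h2 := qr_mul c e
  rw [Fin.prod_univ_two, ← mul_inv, ← h1, ← h2]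
  congr 1
  ring

/-- the roots for Hasse's bound -/
theorem hasse_root {c q : ℝ} (hq : 0 ≤ q) (h : |c| ≤ 2 * √q) {z : ℂ} (hz : z ^ 2 - c * z + q = 0) :
    ‖z‖ ≤ √q := by
  have h1 : c ^ 2 ≤ 4 * q := by
    have h2 : |c| ^ 2 ≤ (2 * √q) ^ 2 := pow_le_pow_left₀ (abs_nonneg _) h 2
    rw [sq_abs, mul_pow, Real.sq_sqrt hq] at h2
    linarith
  have hre : z.re ^ 2 - z.im ^ 2 - c * z.re + q = 0 := by
    have := congrArg Complex.re hz
    simp only [Complex.add_re, Complex.sub_re, Complex.mul_re, Complex.ofReal_re, Complex.ofReal_im,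
      Complex.zero_re, sq] at this
    linarith
  have him : 2 * z.re * z.im - c * z.im = 0 := by
    have := congrArg Complex.im hz
    simp only [Complex.add_im, Complex.sub_im, Complex.mul_im, Complex.ofReal_re, Complex.ofReal_im,
      Complex.zero_im, sq] at this
    linarith
  have h3 : z.re ^ 2 + z.im ^ 2 ≤ q := by
    rcases eq_or_ne z.im 0 with h4 | h4
    · rw [h4] at hre ⊢
      nlinarith [sq_nonneg (z.re - c / 2)]
    · have h5 : 2 * z.re = c := by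
        have : (2 * z.re - c) * z.im = 0 := by linarith
        rcases mul_eq_zero.1 this with h6 | h6
        · linarith
        · exact absurd h6 h4
      rw [← h5] at hre
      nlinarith
  rw [Complex.norm_eq_sqrt_sq_add_sq]
  exact Real.sqrt_le_sqrt h3

end Pool.Agent.X287.Kit
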