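import Pool.Agent.W187.UR.Bel
import Pool.Agent.W392.UR.Fac
import Mathlib.MeasureTheory.Integral.CurveIntegral.Poincare

/-!
# The logarithm below the real segment, for functions which need not be real on the real axis
-/

set_option autoImplicit false

namespace Pool.Agent.X287.CR

open Complex MeasureTheory Filter Topology Set
open Pool.Agent.W189.ML Pool.Agent.W189.LC Pool.Agent.W392.UR Pool.Agent.W187.UR

/-- splitting off the zeros and poles on the segment; the proof is the one of helper392 -/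
theorem fac_c (Φ g : ℂ → ℂ) (hmero : ∀ x ∈ Icc (0 : ℝ) 2, MeromorphicAt Φ (x : ℂ))
    (htop : ∀ x ∈ Icc (0 : ℝ) 2, meromorphicOrderAt Φ (x : ℂ) ≠ ⊤)
    (hga : ∀ w : ℂ, 1 < w.re → AnalyticAt ℂ g w)
    (heq : ∀ w : ℂ, 1 < w.re → Φ w = exp (g w)) (m : ℤ) (hm : meromorphicOrderAt Φ 0 = m) :
  ∃ (Z : Finset ℝ) (n : ℝ → ℤ) (Q : ℂ → ℂ), (∀ x ∈ Z, 0 < x ∧ x ≤ 1) ∧
    (∀ x ∈ Icc (0 : ℝ) 2, AnalyticAt ℂ Q (x : ℂ)) ∧
    (∀ x ∈ Icc (0 : ℝ) 2, Q (x : ℂ) ≠ 0) ∧
    (∀ᶠ w in 𝓝 (2 : ℂ), exp (g w) = w ^ m * (∏ x ∈ Z, (w - (x : ℂ)) ^ (n x)) * Q w) ∧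
    meromorphicTrailingCoeffAt Φ 0 = (∏ x ∈ Z, ((0 : ℂ) - (x : ℂ)) ^ (n x)) * Q 0 := by
  classical
  -- the right side
  have hopen : IsOpen {z : ℂ | 1 < z.re} := isOpen_lt continuous_const Complex.continuous_re
  have hnear : ∀ w : ℂ, 1 < w.re → Φ =ᶠ[𝓝 w] fun z => exp (g z) := by
    intro w hw
    filter_upwards [hopen.mem_nhds hw] with z hz
    exact heq z hz
  have hΦa : ∀ w : ℂ, 1 < w.re → AnalyticAt ℂ Φ w := fun w hw =>
    ((hga w hw).cexp).congr (hnear w hw).symm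
  have hΦ0 : ∀ w : ℂ, 1 < w.re → Φ w ≠ 0 := by
    intro w hw
    rw [heq w hw]
    exact Complex.exp_ne_zero _
  have hordr : ∀ w : ℂ, 1 < w.re → meromorphicOrderAt Φ w = 0 := by
    intro w hw
    rw [(hΦa w hw).meromorphicOrderAt_eq, (hΦa w hw).analyticOrderAt_eq_zero.2 (hΦ0 w hw)]
    rfl
  -- the zeros
  have hfin : {x : ℝ | x ∈ Icc (0 : ℝ) 2 ∧ meromorphicOrderAt Φ (x : ℂ) ≠ 0}.Finite := by
    set U : Set ℂ := (fun x : ℝ => (x : ℂ)) '' Icc 0 2 with hU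
    have hmU : MeromorphicOn Φ U := by
      rintro _ ⟨y, hy, rfl⟩
      exact hmero y hy
    have hcp : IsCompact U := isCompact_Icc.image (by fun_prop)
    have hfin := (MeromorphicOn.divisor Φ U).finiteSupport hcp
    refine (hfin.preimage (f := fun x : ℝ => (x : ℂ)) (Complex.ofReal_injective.injOn)).subset ?_
    rintro x ⟨hx, hx0⟩
    have hxU : (x : ℂ) ∈ U := ⟨x, hx, rfl⟩
    simp only [Set.mem_preimage, Function.mem_support]
    rw [MeromorphicOn.divisor_apply hmU hxU]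
    have := htop x hx
    intro h
    rw [WithTop.untop₀_eq_zero] at h
    rcases h with h | h
    · exact hx0 h
    · exact this h
  have hfin2 : {x : ℝ | x ∈ Ioc (0 : ℝ) 1 ∧ meromorphicOrderAt Φ (x : ℂ) ≠ 0}.Finite :=
    hfin.subset fun x hx => ⟨⟨hx.1.1.le, hx.1.2.trans (by norm_num)⟩, hx.2⟩
  set Z : Finset ℝ := hfin2.toFinset with hZ
  have hZm : ∀ x, x ∈ Z ↔ x ∈ Ioc (0 : ℝ) 1 ∧ meromorphicOrderAt Φ (x : ℂ) ≠ 0 := fun x =>
    hfin2.mem_toFinset
  set n : ℝ → ℤ := fun x => (meromorphicOrderAt Φ (x : ℂ)).untop₀ with hn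
  have hnx : ∀ x ∈ Icc (0 : ℝ) 2, meromorphicOrderAt Φ (x : ℂ) = (n x : WithTop ℤ) := fun x hx =>
    (WithTop.coe_untop₀_of_ne_top (htop x hx)).symm
  have h0Z : (0 : ℝ) ∉ Z := fun h => lt_irrefl _ ((hZm 0).1 h).1.1
  have hn0 : n 0 = m := by
    have h1 := hnx 0 ⟨le_rfl, by norm_num⟩
    rw [Complex.ofReal_zero, hm] at h1
    exact_mod_cast h1.symm
  set A : Finset ℝ := insert 0 Z with hA
  set P : ℂ → ℂ := fun w => ∏ x ∈ A, (w - (x : ℂ)) ^ (-n x) with hP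
  set P' : ℂ → ℂ := fun w => ∏ x ∈ A, (w - (x : ℂ)) ^ (n x) with hP'
  have hPP : ∀ w : ℂ, (∀ x ∈ A, w ≠ (x : ℂ)) → P' w * P w = 1 := by
    intro w hw
    rw [hP, hP']
    simp only
    rw [← Finset.prod_mul_distrib]
    refine Finset.prod_eq_one fun x hx => ?_
    rw [← zpow_add₀ (sub_ne_zero.2 (hw x hx))]
    simp
  have hA1 : ∀ x ∈ A, 0 ≤ x ∧ x ≤ 1 := by
    intro x hx
    rw [hA, Finset.mem_insert] at hx
    rcases hx with rfl | hx
    · exact ⟨le_rfl, zero_le_one⟩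
    · have := ((hZm x).1 hx).1
      exact ⟨this.1.le, this.2⟩
  have hPa : ∀ y : ℝ, y ∉ A → AnalyticAt ℂ P (y : ℂ) := by
    intro y hy
    rw [hP]
    refine Finset.analyticAt_fun_prod _ fun x hx => ?_
    refine AnalyticAt.zpow (by fun_prop) ?_
    rw [sub_ne_zero]
    intro h
    have : y = x := by exact_mod_cast h
    exact hy (this ▸ hx)
  -- the quotient
  set U : Set ℂ := {z | MeromorphicAt Φ z} with hU
  set g0 : ℂ → ℂ := fun w => P w * Φ w with hg0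
  have hPm : ∀ z : ℂ, MeromorphicAt P z := by
    intro z
    rw [hP]
    refine MeromorphicAt.fun_prod fun x _ => ?_
    fun_prop
  have hgm : MeromorphicOn g0 U := fun z hz' => (hPm z).mul hz'
  have hmem : ∀ x ∈ Icc (0 : ℝ) 2, (x : ℂ) ∈ U := fun x hx => hmero x hx
  set Q : ℂ → ℂ := toMeromorphicNFOn g0 U with hQ
  have hNF : MeromorphicNFOn Q U := meromorphicNFOn_toMeromorphicNFOn g0 U
  have hord : ∀ x ∈ Icc (0 : ℝ) 2, meromorphicOrderAt Q (x : ℂ) = 0 := by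
    intro x hx
    rw [hQ, meromorphicOrderAt_toMeromorphicNFOn hgm (hmem x hx), hg0]
    have h4 : meromorphicOrderAt (fun w => P w * Φ w) (x : ℂ) =
        meromorphicOrderAt P (x : ℂ) + meromorphicOrderAt Φ (x : ℂ) :=
      meromorphicOrderAt_mul (hPm x) (hmem x hx)
    rw [h4, hP, (order_prod A (fun x => -n x) x).2]
    by_cases hxA : x ∈ A
    · rw [if_pos hxA, hnx x hx]
      norm_cast
      simp
    · rw [if_neg hxA]
      have h5 : meromorphicOrderAt Φ (x : ℂ) = 0 := by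
        rcases le_or_gt x 1 with h | h
        · by_contra hne
          apply hxA
          rw [hA, Finset.mem_insert]
          rcases hx.1.eq_or_lt with h6 | h6
          · exact Or.inl h6.symm
          · exact Or.inr ((hZm x).2 ⟨⟨h6, h⟩, hne⟩)
        · exact hordr x (by simpa using h)
      rw [h5]
      simp
  have hQa : ∀ x ∈ Icc (0 : ℝ) 2, AnalyticAt ℂ Q (x : ℂ) := fun x hx =>
    (hNF (hmem x hx)).meromorphicOrderAt_nonneg_iff_analyticAt.1 (hord x hx).ge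
  have hQ0 : ∀ x ∈ Icc (0 : ℝ) 2, Q (x : ℂ) ≠ 0 := fun x hx =>
    (hNF (hmem x hx)).meromorphicOrderAt_eq_zero_iff.1 (hord x hx)
  have hQne : ∀ x ∈ Icc (0 : ℝ) 2, Q =ᶠ[𝓝[≠] (x : ℂ)] g0 := fun x hx =>
    hgm.toMeromorphicNFOn_eq_self_on_nhdsNE (hmem x hx)
  have hxA : ∀ x : ℝ, 1 < x → x ∉ A := fun x hx h => absurd (hA1 x h).2 (not_le.2 hx)
  -- on `(1, 2]` the functions agree
  have hQg : ∀ x ∈ Icc (0 : ℝ) 2, 1 < x → Q =ᶠ[𝓝 (x : ℂ)] g0 := by
    intro x hx hx1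
    have h6 : AnalyticAt ℂ g0 (x : ℂ) := (hPa x (hxA x hx1)).mul (hΦa x (by simpa using hx1))
    exact ((hQa x hx).continuousAt.eventuallyEq_nhds_iff_eventuallyEq_nhdsNE h6.continuousAt).1
      (hQne x hx)
  have h22 : (2 : ℝ) ∈ Icc (0 : ℝ) 2 := ⟨by norm_num, le_rfl⟩
  have hP'eq : ∀ w : ℂ, P' w = w ^ m * ∏ x ∈ Z, (w - (x : ℂ)) ^ (n x) := by
    intro w
    rw [hP', hA]
    simp only
    rw [Finset.prod_insert h0Z, Complex.ofReal_zero, sub_zero, hn0]
  refine ⟨Z, n, Q, fun x hx => ((hZm x).1 hx).1, hQa, hQ0, ?_, ?_⟩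
  · have h7 := hQg 2 h22 (by norm_num)
    have h8 := hnear ((2 : ℝ) : ℂ) (by simp)
    have h9 : ∀ᶠ w : ℂ in 𝓝 (((2 : ℝ) : ℂ)), ∀ x ∈ A, w ≠ (x : ℂ) := by
      rw [Finset.eventually_all]
      intro x hx
      refine isOpen_ne.mem_nhds ?_
      intro h
      have h10 : (2 : ℝ) = x := by exact_mod_cast h
      have := (hA1 x hx).2
      linarith
    have h10 : ((2 : ℝ) : ℂ) = 2 := by norm_num
    rw [h10] at h7 h8 h9
    filter_upwards [h7, h8, h9] with w e1 e2 e3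
    rw [e1, hg0, ← hP'eq]
    simp only
    rw [← e2, ← mul_assoc, hPP w e3, one_mul]
  · set G : ℂ → ℂ := fun w => (∏ x ∈ Z, (w - (x : ℂ)) ^ (n x)) * Q w with hG
    have h00 : (0 : ℝ) ∈ Icc (0 : ℝ) 2 := ⟨le_rfl, by norm_num⟩
    have hZne : ∀ x ∈ Z, (0 : ℂ) - (x : ℂ) ≠ 0 := by
      intro x hx
      rw [zero_sub, neg_ne_zero]
      have := ((hZm x).1 hx).1.1
      exact_mod_cast this.ne'
    have hGa : AnalyticAt ℂ G 0 := by
      have h1 : AnalyticAt ℂ (fun w : ℂ => ∏ x ∈ Z, (w - (x : ℂ)) ^ (n x)) 0 := by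
        refine Finset.analyticAt_fun_prod _ fun x hx => ?_
        exact AnalyticAt.zpow (by fun_prop) (hZne x hx)
      have h2 := hQa 0 h00
      rw [Complex.ofReal_zero] at h2
      exact h1.mul h2
    have hQ00 : Q 0 ≠ 0 := by
      have := hQ0 0 h00
      rwa [Complex.ofReal_zero] at this
    have hG0 : G 0 ≠ 0 := by
      rw [hG]
      refine mul_ne_zero (Finset.prod_ne_zero_iff.2 fun x hx => ?_) hQ00
      exact zpow_ne_zero _ (hZne x hx)
    refine hGa.meromorphicTrailingCoeffAt_of_ne_zero_of_eq_nhdsNE (n := m) hG0 ?_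
    have e0 := hQne 0 h00
    rw [Complex.ofReal_zero] at e0
    have e9 : ∀ᶠ w : ℂ in 𝓝[≠] (0 : ℂ), ∀ x ∈ A, w ≠ (x : ℂ) := by
      rw [Finset.eventually_all]
      intro x hx
      by_cases hx0 : x = 0
      · rw [hx0, Complex.ofReal_zero]
        exact self_mem_nhdsWithin
      · refine mem_nhdsWithin_of_mem_nhds (isOpen_ne.mem_nhds ?_)
        intro h
        apply hx0
        exact_mod_cast h.symm
    filter_upwards [e0, e9] with w e1 e2
    rw [smul_eq_mul, sub_zero, hG]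
    simp only
    rw [← mul_assoc, ← hP'eq, e1, hg0]
    simp only
    rw [← mul_assoc, hPP w e2, one_mul]

/-- a logarithm near the segment -/
theorem logrect {Q : ℂ → ℂ} (ha : ∀ x ∈ Icc (0 : ℝ) 2, AnalyticAt ℂ Q (x : ℂ))
    (h0 : ∀ x ∈ Icc (0 : ℝ) 2, Q (x : ℂ) ≠ 0) : ∃ (δ M : ℝ) (l : ℂ → ℂ), 0 < δ ∧ 0 ≤ M ∧
    (∀ w : ℂ, 0 ≤ w.re → w.re ≤ 2 → |w.im| ≤ δ →
      DifferentiableAt ℂ l w ∧ exp (l w) = Q w ∧ ‖l w - l 0‖ ≤ M * ‖w‖) ∧
    ∀ᶠ w in 𝓝 (2 : ℂ), exp (l w) = Q w := by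
  set S : Set ℂ := (fun x : ℝ => (x : ℂ)) '' Icc 0 2 with hS
  have hcp : IsCompact S := isCompact_Icc.image (by fun_prop)
  have hcv : Convex ℝ S := by
    have := (convex_Icc (0 : ℝ) 2).is_linear_image (f := fun x : ℝ => (x : ℂ))
      (Complex.ofRealCLM.toLinearMap.isLinear)
    exact this
  set U : Set ℂ := {z | AnalyticAt ℂ Q z ∧ Q z ≠ 0} with hU
  have hUo : IsOpen U := by
    rw [isOpen_iff_mem_nhds]
    rintro z ⟨h1, h2⟩
    exact h1.eventually_analyticAt.and (h1.continuousAt.eventually_ne h2)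
  have hSU : S ⊆ U := by
    rintro _ ⟨x, hx, rfl⟩
    exact ⟨ha x hx, h0 x hx⟩
  obtain ⟨δ, hδ, hδU⟩ := hcp.exists_thickening_subset_open hUo hSU
  set V : Set ℂ := Metric.thickening δ S with hV
  have hVo : IsOpen V := Metric.isOpen_thickening
  have hVc : Convex ℝ V := hcv.thickening δ
  have hf : DifferentiableOn ℂ (fun z => deriv Q z / Q z) V := by
    intro z hz
    obtain ⟨h1, h2⟩ := hδU hz
    exact (h1.deriv.differentiableAt.div h1.differentiableAt h2).differentiableWithinAt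
  obtain ⟨l₀, hl₀'⟩ := hVc.exists_forall_hasDerivWithinAt hf
  have hl₀ : ∀ z ∈ V, HasDerivAt l₀ (deriv Q z / Q z) z := fun z hz =>
    (hl₀' z hz).hasDerivAt (hVo.mem_nhds hz)
  have h2S : (2 : ℂ) ∈ S := ⟨2, ⟨by norm_num, le_rfl⟩, by simp⟩
  have h0S : (0 : ℂ) ∈ S := ⟨0, ⟨le_rfl, by norm_num⟩, by simp⟩
  have hSV : S ⊆ V := Metric.self_subset_thickening hδ S
  have hconst : ∀ z ∈ V, Q z * exp (-l₀ z) = Q 2 * exp (-l₀ 2) := by
    intro z hz
    refine hVc.is_const_of_fderivWithin_eq_zero (𝕜 := ℂ) (f := fun z => Q z * exp (-l₀ z)) ?_ ?_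
      hz (hSV h2S)
    · intro y hy
      obtain ⟨h1, h2⟩ := hδU hy
      exact (h1.differentiableAt.mul ((hl₀ y hy).differentiableAt.neg.cexp)).differentiableWithinAt
    · intro y hy
      obtain ⟨h1, h2⟩ := hδU hy
      have h3 : HasDerivAt (fun z => Q z * exp (-l₀ z)) 0 y := by
        have h4 := (h1.differentiableAt.hasDerivAt).mul ((hl₀ y hy).neg.cexp)
        convert! h4 using 1
        field_simp
        ring
      rw [fderivWithin_eq_fderiv (hVo.uniqueDiffWithinAt hy) h3.differentiableAt]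
      ext
      simp [h3.hasFDerivAt.fderiv]
  set C : ℂ := Q 2 * exp (-l₀ 2) with hC
  have hC0 : C ≠ 0 := mul_ne_zero (hδU (hSV h2S)).2 (Complex.exp_ne_zero _)
  set l : ℂ → ℂ := fun z => l₀ z + log C with hl
  have hexp : ∀ z ∈ V, exp (l z) = Q z := by
    intro z hz
    rw [hl]
    simp only
    rw [Complex.exp_add, Complex.exp_log hC0, ← hconst z hz, Complex.exp_neg]
    have := Complex.exp_ne_zero (l₀ z)
    field_simp
  -- the compact part
  set K : Set ℂ := Metric.cthickening (δ / 2) S with hK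
  have hKc : IsCompact K := hcp.cthickening
  have hKV : K ⊆ V := Metric.cthickening_subset_thickening' hδ (by linarith) S
  have hKcv : Convex ℝ K := hcv.cthickening _
  have hcont : ContinuousOn (fun z => deriv Q z / Q z) K := (hf.continuousOn).mono hKV
  obtain ⟨M, hM⟩ := hKc.exists_bound_of_continuousOn hcont
  have hSK : S ⊆ K := Metric.self_subset_cthickening S
  refine ⟨δ / 2, max M 0, l, by positivity, le_max_right _ _, fun w h1 h2 h3 => ?_, ?_⟩
  · have hwK : w ∈ K := by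
      refine Metric.mem_cthickening_of_dist_le w ((w.re : ℝ) : ℂ) _ S ⟨w.re, ⟨h1, h2⟩, rfl⟩ ?_
      rw [Complex.dist_eq]
      have e1 : w - (w.re : ℂ) = ((w.im : ℝ) : ℂ) * I := by
        apply Complex.ext <;> simp
      rw [e1, norm_mul, Complex.norm_I, mul_one, Complex.norm_real, Real.norm_eq_abs]
      exact h3
    refine ⟨((hl₀ w (hKV hwK)).differentiableAt).add_const _, hexp w (hKV hwK), ?_⟩
    have h5 := hKcv.norm_image_sub_le_of_norm_hasDerivWithin_le (f := l₀)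
      (f' := fun z => deriv Q z / Q z) (C := max M 0)
      (fun z hz => (hl₀ z (hKV hz)).hasDerivWithinAt) (fun z hz => (hM z hz).trans (le_max_left _ _))
      (hSK h0S) hwK
    rw [sub_zero] at h5
    have h6 : l w - l 0 = l₀ w - l₀ 0 := by rw [hl]; ring
    rw [h6]
    exact h5
  · filter_upwards [hVo.mem_nhds (hSV h2S)] with z hz
    exact hexp z hz

theorem exp_one_near {u v : ℂ} (hu : exp u = 1) (hv : exp v = 1) (h : ‖u - v‖ < 2 * Real.pi) :
    u = v := by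
  obtain ⟨n, hn⟩ := Complex.exp_eq_one_iff.1 hu
  obtain ⟨k, hk⟩ := Complex.exp_eq_one_iff.1 hv
  have h1 : u - v = ((n - k : ℤ) : ℂ) * (2 * Real.pi * I) := by
    rw [hn, hk]; push_cast; ring
  have h2 : ‖u - v‖ = |((n - k : ℤ) : ℝ)| * (2 * Real.pi) := by
    rw [h1, norm_mul, Complex.norm_intCast]
    congr 1
    have : (2 * Real.pi * I : ℂ) = ((2 * Real.pi : ℝ) : ℂ) * I := by push_cast; ring
    rw [this, norm_mul, Complex.norm_I, mul_one, Complex.norm_real, Real.norm_eq_abs,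
      abs_of_pos Real.two_pi_pos]
  rw [h2] at h
  have h3 : |((n - k : ℤ) : ℝ)| < 1 := by
    by_contra hc
    push Not at hc
    have := Real.two_pi_pos
    nlinarith
  have h4 : |n - k| < 1 := by
    rw [← Int.cast_abs] at h3
    exact_mod_cast h3
  have h5 : n - k = 0 := Int.abs_lt_one_iff.1 h4
  have h6 : n = k := by linarith
  rw [hn, hk, h6]

/-- **the logarithm below the segment** -/
theorem bel_c (Φ g : ℂ → ℂ) (h1 : ∀ x ∈ Icc (0 : ℝ) 2, MeromorphicAt Φ (x : ℂ))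
    (h2 : ∀ x ∈ Icc (0 : ℝ) 2, meromorphicOrderAt Φ (x : ℂ) ≠ ⊤)
    (h3 : ∀ w : ℂ, 1 < w.re → AnalyticAt ℂ g w)
    (h4 : ∀ w : ℂ, 1 < w.re → Φ w = exp (g w)) (m : ℤ) (hm : meromorphicOrderAt Φ 0 = m) :
    ∃ (η B : ℝ) (L : ℂ → ℂ) (r₀ : ℂ), Bel m r₀ η B L ∧
    (∀ w : ℂ, w.re = 2 → -η ≤ w.im → w.im < 0 → g w = L w) ∧
    exp r₀ = meromorphicTrailingCoeffAt Φ 0 := by
  obtain ⟨Z, n, Q, hZ, hQa, hQr, hQ2, htr⟩ := fac_c Φ g h1 h2 h3 h4 m hm
  obtain ⟨δ₁, M, l, hδ₁, hM0, hM, hl2⟩ := logrect hQa hQr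
  have hg2 : AnalyticAt ℂ g 2 := h3 2 (by norm_num)
  have hne2 : ∀ x ∈ Z, (2 : ℂ) - (x : ℂ) ∈ slitPlane := by
    intro x hx
    left
    have := (hZ x hx).2
    simp
    linarith
  have hs2 : (2 : ℂ) ∈ slitPlane := by left; simp
  set L₀ : ℂ → ℂ := fun w => g w - m * log w - (∑ x ∈ Z, (n x : ℂ) * log (w - x)) - l w with hL₀
  have hl2d : DifferentiableAt ℂ l 2 := (hM 2 (by simp) (by simp) (by simp; exact hδ₁.le)).1
  have hL₀c : ContinuousAt L₀ 2 := by
    refine ContinuousAt.sub (ContinuousAt.sub (hg2.continuousAt.sub ?_) ?_) hl2d.continuousAt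
    · exact continuousAt_const.mul (ContinuousAt.clog continuousAt_id hs2)
    · refine tendsto_finsetSum _ fun x hx => ?_
      exact continuousAt_const.mul (ContinuousAt.clog (by fun_prop) (hne2 x hx))
  have e1 : ∀ᶠ w in 𝓝 (2 : ℂ), w ∈ slitPlane := isOpen_slitPlane.mem_nhds hs2
  have e2 : ∀ᶠ w in 𝓝 (2 : ℂ), ∀ x ∈ Z, w - (x : ℂ) ∈ slitPlane := by
    rw [Filter.eventually_all_finset]
    intro x hx
    have : ContinuousAt (fun w : ℂ => w - (x : ℂ)) 2 := by fun_prop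
    exact this.eventually (isOpen_slitPlane.mem_nhds (hne2 x hx))
  have hone : ∀ᶠ w in 𝓝 (2 : ℂ), exp (L₀ w) = 1 := by
    filter_upwards [hQ2, e1, e2, hl2] with w h6 h7 h8 h8'
    have h9 : w ≠ 0 := slitPlane_ne_zero h7
    have h10 : ∀ x ∈ Z, w - (x : ℂ) ≠ 0 := fun x hx => slitPlane_ne_zero (h8 x hx)
    rw [hL₀]
    simp only
    rw [Complex.exp_sub, Complex.exp_sub, Complex.exp_sub, h6, Complex.exp_int_mul,
      Complex.exp_log h9, Complex.exp_sum]
    have h11 : ∏ x ∈ Z, exp ((n x : ℂ) * log (w - x)) = ∏ x ∈ Z, (w - (x : ℂ)) ^ (n x) :=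
      Finset.prod_congr rfl fun x hx => by
        rw [Complex.exp_int_mul, Complex.exp_log (h10 x hx)]
    rw [h11, h8']
    have h12 : ∏ x ∈ Z, (w - (x : ℂ)) ^ (n x) ≠ 0 :=
      Finset.prod_ne_zero_iff.2 fun x hx => zpow_ne_zero _ (h10 x hx)
    have h13 : w ^ m ≠ 0 := zpow_ne_zero _ h9
    have h14 : Q w ≠ 0 := by rw [← h8']; exact Complex.exp_ne_zero _
    field_simp
  have hone2 : exp (L₀ 2) = 1 := hone.self_of_nhds
  have hnear : ∀ᶠ w in 𝓝 (2 : ℂ), L₀ w = L₀ 2 := by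
    have h5 : ∀ᶠ w in 𝓝 (2 : ℂ), ‖L₀ w - L₀ 2‖ < 2 * Real.pi := by
      have := hL₀c.sub (continuousAt_const (y := L₀ 2))
      have h6 := this.norm
      have h7 : ‖L₀ 2 - L₀ 2‖ < 2 * Real.pi := by simp [Real.pi_pos]
      exact h6.eventually_lt continuousAt_const h7
    filter_upwards [hone, h5] with w h6 h7
    exact exp_one_near h6 hone2 h7
  obtain ⟨δ₂, hδ₂, hbr⟩ := Metric.eventually_nhds_iff.1 hnear
  set η : ℝ := min (min δ₁ (δ₂ / 2)) 1 with hη
  have hη0 : 0 < η := lt_min (lt_min hδ₁ (by positivity)) one_pos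
  set k₀ : ℂ := L₀ 2 with hk₀
  set L : ℂ → ℂ := fun w => m * log w + (∑ x ∈ Z, (n x : ℂ) * log (w - x)) + l w + k₀ with hL
  set r₀ : ℂ := (∑ x ∈ Z, (n x : ℂ) * (Real.log x - Real.pi * I)) + l 0 + k₀ with hr₀
  refine ⟨η, (∑ x ∈ Z, |(n x : ℝ)| * Cx x) + M, L, r₀, ⟨hη0, ?_, ?_, ?_⟩, ?_, ?_⟩
  · have : 0 ≤ ∑ x ∈ Z, |(n x : ℝ)| * Cx x :=
      Finset.sum_nonneg fun x hx => mul_nonneg (abs_nonneg _) (Cx_nonneg (hZ x hx).1)
    linarith
  · intro w h6 h7 h8 h9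
    have h10 : |w.im| ≤ δ₁ := by
      rw [abs_of_neg h9]
      have := (min_le_left (min δ₁ (δ₂ / 2)) 1).trans (min_le_left _ _)
      linarith
    have h11 := (hM w h6.le h7 h10).1
    rw [hL]
    refine (DifferentiableAt.add (DifferentiableAt.add ?_ ?_) h11).add_const _
    · exact (DifferentiableAt.clog differentiableAt_id (Or.inl h6)).const_mul _
    · refine DifferentiableAt.fun_sum fun x hx => ?_
      refine (DifferentiableAt.clog (by fun_prop) (Or.inr ?_)).const_mul _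
      simp
      exact h9.ne
  · intro w h6 h7 h8 h9
    have h10 : |w.im| ≤ δ₁ := by
      rw [abs_of_neg h9]
      have := (min_le_left (min δ₁ (δ₂ / 2)) 1).trans (min_le_left _ _)
      linarith
    have h8' : -1 ≤ w.im := by
      have := min_le_right (min δ₁ (δ₂ / 2)) 1
      linarith
    have h11 := (hM w h6.le h7 h10).2.2
    have h12 : L w - m * log w - r₀ = (∑ x ∈ Z, (n x : ℂ) *
        (log (w - x) - (Real.log x - Real.pi * I))) + (l w - l 0) := by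
      rw [hL, hr₀]
      simp only [mul_sub, Finset.sum_sub_distrib]
      ring
    rw [h12]
    set X := ‖w‖ * (1 + ‖w‖ * |Real.log (-w.im)|) with hX
    have hX1 : ‖w‖ ≤ X := by
      have : 0 ≤ ‖w‖ * (‖w‖ * |Real.log (-w.im)|) := by positivity
      rw [hX]; nlinarith
    have h13 : ‖∑ x ∈ Z, (n x : ℂ) * (log (w - x) - (Real.log x - Real.pi * I))‖ ≤
        ∑ x ∈ Z, |(n x : ℝ)| * Cx x * X := by
      refine norm_sum_le_of_le _ fun x hx => ?_
      rw [norm_mul, Complex.norm_intCast, mul_assoc]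
      exact mul_le_mul_of_nonneg_left (one_zero (hZ x hx).1 (hZ x hx).2 h6 h7 h8' h9)
        (abs_nonneg _)
    rw [← Finset.sum_mul] at h13
    calc ‖_ + (l w - l 0)‖ ≤ (∑ x ∈ Z, |(n x : ℝ)| * Cx x) * X + M * ‖w‖ :=
          (norm_add_le _ _).trans (add_le_add h13 h11)
      _ ≤ (∑ x ∈ Z, |(n x : ℝ)| * Cx x) * X + M * X := by gcongr
      _ = _ := by rw [hX]; ring
  · intro w h6 h7 h8
    have h9 : dist w 2 < δ₂ := by
      rw [Complex.dist_eq]
      have e1 : w - 2 = ((w.im : ℝ) : ℂ) * I := by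
        apply Complex.ext <;> simp [h6]
      rw [e1, norm_mul, Complex.norm_I, mul_one, Complex.norm_real, Real.norm_eq_abs,
        abs_of_neg h8]
      have := (min_le_left (min δ₁ (δ₂ / 2)) 1).trans (min_le_right _ _)
      linarith
    have h10 := hbr h9
    rw [hL]
    simp only
    rw [← h10, hL₀]
    ring
  · rw [htr, hr₀, Complex.exp_add, Complex.exp_add, Complex.exp_sum, hone2, mul_one]
    have h00 := (hM 0 le_rfl (by simp) (by simp; exact hδ₁.le)).2.1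
    rw [h00]
    congr 1
    refine Finset.prod_congr rfl fun x hx => ?_
    have hx0 := (hZ x hx).1
    rw [Complex.exp_int_mul, Complex.exp_sub, Complex.exp_pi_mul_I, ← Complex.ofReal_exp,
      Real.exp_log hx0]
    congr 1
    ring

end Pool.Agent.X287.CR
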