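import Pool.Agent.X287.CR1
import Pool.Agent.X287.CR2
import Pool.Agent.W187.UR.NF

/-!
# The rotated law for Euler products with complex coefficients, at any point

An Euler product `L(s) = ∏_v ∏_i (1 - α_{v,i} q_v^(-s))⁻¹` with `|α_{v,i}| ≤ q_v^θ`, a point `s₀` with `Re s₀ ≥ θ`, and
a continuation of `L` which is meromorphic at the points of the horizontal segment from `s₀` to `Re s = 1 + θ`.
-/

set_option autoImplicit false

namespace Pool.Agent.X287.CR

open Complex Filter Topology Set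
open Pool.Agent.W189.ML Pool.Agent.W189.LC Pool.Agent.W187.UR

variable {X : Type} {d : ℕ}

/-- places `v` with norms `q v ∈ ℕ` and local roots `α v i` -/
structure CSys (θ : ℝ) (q : X → ℕ) (α : X → Fin d → ℂ) : Prop where
  cnt : Countable X
  two_le : ∀ v, 2 ≤ q v
  sum : ∀ σ : ℝ, 1 < σ → Summable fun v => (q v : ℝ) ^ (-σ)
  le : ∀ v i, ‖α v i‖ ≤ (q v : ℝ) ^ θ

/-- the frequencies `log q^k` -/
noncomputable def lam (q : X → ℕ) (x : X × ℕ) : ℝ := (x.2 + 1) * Real.log (q x.1)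

/-- the coefficients `(∑ α^k) q^{-k s₀} / k` -/
noncomputable def cc (q : X → ℕ) (α : X → Fin d → ℂ) (s₀ : ℂ) (x : X × ℕ) : ℂ :=
  (∑ i, α x.1 i ^ (x.2 + 1)) * exp (-(s₀ * lam q x)) / (x.2 + 1)

/-- the Euler factor -/
noncomputable def fac (q : X → ℕ) (α : X → Fin d → ℂ) (s : ℂ) (v : X) : ℂ :=
  ∏ i, (1 - α v i * (q v : ℂ) ^ (-s))⁻¹

/-- `- (∑ α^k) q^{-k s₀} e^{iγ k log q / T} / (k Γ(1 + k log q / T))`, `k = x.2 + 1` -/
noncomputable def tm (q : X → ℕ) (α : X → Fin d → ℂ) (s₀ : ℂ) (γ T : ℝ) (x : X × ℕ) : ℂ :=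
  -(∑ i, α x.1 i ^ (x.2 + 1)) * exp (-(s₀ * lam q x)) * exp ((γ * (lam q x / T) : ℝ) * I) /
    (((x.2 + 1) * Real.Gamma (1 + lam q x / T) : ℝ) : ℂ)

/-- the rotated sum at `s₀` -/
noncomputable def Su (q : X → ℕ) (α : X → Fin d → ℂ) (s₀ : ℂ) (γ T : ℝ) : ℂ :=
  ∑' x, tm q α s₀ γ T x

variable {θ : ℝ} {q : X → ℕ} {α : X → Fin d → ℂ}

namespace CSys

variable (G : CSys θ q α)
include G

lemma qpos (v : X) : (0 : ℝ) < q v := by
  have := G.two_le v
  positivity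

lemma two_le' (v : X) : (2 : ℝ) ≤ q v := by exact_mod_cast G.two_le v

lemma logpos (v : X) : 0 < Real.log (q v) := Real.log_pos (by linarith [G.two_le' v])

lemma lam_nonneg (x : X × ℕ) : 0 ≤ lam q x := by
  unfold lam
  have := (G.logpos x.1).le
  positivity

lemma rpow_le {σ : ℝ} (hσ : 1 ≤ σ) (v : X) : (q v : ℝ) ^ (-σ) ≤ 1 / 2 := by
  have hq := G.two_le' v
  calc (q v : ℝ) ^ (-σ) ≤ (q v : ℝ) ^ (-1 : ℝ) :=
        Real.rpow_le_rpow_of_exponent_le (by linarith) (by linarith)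
    _ = ((q v : ℝ))⁻¹ := Real.rpow_neg_one _
    _ ≤ 2⁻¹ := inv_anti₀ (by norm_num) hq
    _ = 1 / 2 := by norm_num

lemma exp_lam (σ : ℝ) (x : X × ℕ) :
    Real.exp (-(σ * lam q x)) = ((q x.1 : ℝ) ^ (-σ)) ^ (x.2 + 1) := by
  have hq0 := G.qpos x.1
  rw [← Real.rpow_natCast, ← Real.rpow_mul hq0.le, Real.rpow_def_of_pos hq0]
  unfold lam
  congr 1
  push_cast
  ring

lemma norm_exp_s (s : ℂ) (x : X × ℕ) : ‖exp (-(s * lam q x))‖ = ((q x.1 : ℝ) ^ (-s.re)) ^ (x.2 + 1) := by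
  rw [Complex.norm_exp, ← G.exp_lam]
  congr 1
  rw [Complex.neg_re, Complex.re_mul_ofReal]

lemma cc_le (s₀ : ℂ) (x : X × ℕ) :
    ‖cc q α s₀ x‖ ≤ d * ((q x.1 : ℝ) ^ (θ - s₀.re)) ^ (x.2 + 1) := by
  unfold cc
  have h1 : (1 : ℝ) ≤ x.2 + 1 := by
    have : (0 : ℝ) ≤ x.2 := x.2.cast_nonneg
    linarith
  have hn : ‖((x.2 : ℂ) + 1)‖ = x.2 + 1 := by
    have : ((x.2 : ℂ) + 1) = (((x.2 : ℝ) + 1 : ℝ) : ℂ) := by push_cast; rfl
    rw [this, Complex.norm_real, Real.norm_eq_abs, abs_of_pos (by linarith)]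
  rw [norm_div, hn, div_le_iff₀ (by linarith), norm_mul, G.norm_exp_s]
  have h2 : ‖∑ i, α x.1 i ^ (x.2 + 1)‖ ≤ d * ((q x.1 : ℝ) ^ θ) ^ (x.2 + 1) := by
    refine (norm_sum_le _ _).trans ?_
    calc ∑ i, ‖α x.1 i ^ (x.2 + 1)‖ ≤ ∑ _i : Fin d, ((q x.1 : ℝ) ^ θ) ^ (x.2 + 1) := by
          refine Finset.sum_le_sum fun i _ => ?_
          rw [norm_pow]
          exact pow_le_pow_left₀ (norm_nonneg _) (G.le x.1 i) _
      _ = _ := by rw [Finset.sum_const, Finset.card_univ, Fintype.card_fin, nsmul_eq_mul]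
  have h3 : (0 : ℝ) ≤ ((q x.1 : ℝ) ^ (-s₀.re)) ^ (x.2 + 1) := by positivity
  have h4 : (q x.1 : ℝ) ^ (θ - s₀.re) = (q x.1 : ℝ) ^ θ * (q x.1 : ℝ) ^ (-s₀.re) := by
    rw [← Real.rpow_add (G.qpos x.1)]
    congr 1
  calc ‖∑ i, α x.1 i ^ (x.2 + 1)‖ * ((q x.1 : ℝ) ^ (-s₀.re)) ^ (x.2 + 1)
      ≤ (d * ((q x.1 : ℝ) ^ θ) ^ (x.2 + 1)) * ((q x.1 : ℝ) ^ (-s₀.re)) ^ (x.2 + 1) := by gcongr
    _ = d * ((q x.1 : ℝ) ^ (θ - s₀.re)) ^ (x.2 + 1) := by
        rw [h4, mul_pow, mul_assoc]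
    _ ≤ _ := by
        have := (Real.rpow_pos_of_pos (G.qpos x.1) (θ - s₀.re)).le
        exact le_mul_of_one_le_right (by positivity) h1

lemma term_le {s₀ : ℂ} {σ : ℝ} (hσ : 1 ≤ σ + (s₀.re - θ)) (x : X × ℕ) :
    ‖cc q α s₀ x‖ * Real.exp (-(σ * lam q x)) ≤
      d * (q x.1 : ℝ) ^ (-(σ + (s₀.re - θ))) * (1 / 2) ^ x.2 := by
  have hq0 := G.qpos x.1
  rw [G.exp_lam]
  set y := (q x.1 : ℝ) ^ (-(σ + (s₀.re - θ))) with hy
  have hy0 : 0 ≤ y := (Real.rpow_pos_of_pos hq0 _).le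
  have hy1 : y ≤ 1 / 2 := G.rpow_le (by linarith) x.1
  have hy2 : (q x.1 : ℝ) ^ (θ - s₀.re) * (q x.1 : ℝ) ^ (-σ) = y := by
    rw [← Real.rpow_add hq0, hy]
    congr 1
    ring
  have h3 := (Real.rpow_pos_of_pos hq0 (-σ)).le
  calc ‖cc q α s₀ x‖ * ((q x.1 : ℝ) ^ (-σ)) ^ (x.2 + 1) ≤
        (d * ((q x.1 : ℝ) ^ (θ - s₀.re)) ^ (x.2 + 1)) * ((q x.1 : ℝ) ^ (-σ)) ^ (x.2 + 1) := by
        gcongr
        exact G.cc_le s₀ x
    _ = d * y * y ^ x.2 := by
      rw [mul_assoc, ← mul_pow, hy2, pow_succ]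
      ring
    _ ≤ d * y * (1 / 2) ^ x.2 := by gcongr

lemma summable {s₀ : ℂ} {σ : ℝ} (hσ : 1 < σ + (s₀.re - θ)) :
    Summable fun x => ‖cc q α s₀ x‖ * Real.exp (-(σ * lam q x)) := by
  have hg : Summable fun n : ℕ => (1 / 2 : ℝ) ^ n :=
    summable_geometric_of_lt_one (by norm_num) (by norm_num)
  have h1 := ((G.sum (σ + (s₀.re - θ)) hσ).mul_left (d : ℝ)).mul_of_nonneg hg
    (fun v => by
      have := (Real.rpow_pos_of_pos (G.qpos v) (-(σ + (s₀.re - θ)))).le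
      show 0 ≤ (d : ℝ) * (q v : ℝ) ^ (-(σ + (s₀.re - θ)))
      positivity) (fun n => by positivity)
  exact Summable.of_nonneg_of_le (fun x => by positivity) (fun x => G.term_le hσ.le x) h1

lemma sd {s₀ : ℂ} (h : θ ≤ s₀.re) : SD (lam q) (cc q α s₀) where
  lam_pos := G.lam_nonneg
  sum := G.summable (by linarith)

lemma cpow_eq (s : ℂ) (v : X) : (q v : ℂ) ^ (-s) = exp (-(s * Real.log (q v))) := by
  have hq : (q v : ℂ) ≠ 0 := by
    have := G.two_le v
    have h : q v ≠ 0 := by omega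
    exact_mod_cast h
  have hl : ((Real.log (q v) : ℝ) : ℂ) = log (q v : ℂ) := by
    rw [Complex.ofReal_log (Nat.cast_nonneg _)]
    push_cast
    rfl
  rw [Complex.cpow_def_of_ne_zero hq, hl]
  congr 1
  ring

lemma bx_lt {s : ℂ} (hs : 1 + θ < s.re) (v : X) (i : Fin d) : ‖α v i * (q v : ℂ) ^ (-s)‖ < 1 := by
  have h1 : ‖(q v : ℂ) ^ (-s)‖ = (q v : ℝ) ^ (-s.re) := by
    have := G.norm_exp_s s (v, 0)
    rw [G.cpow_eq]
    simpa [lam] using this
  rw [norm_mul, h1]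
  calc ‖α v i‖ * (q v : ℝ) ^ (-s.re) ≤ (q v : ℝ) ^ θ * (q v : ℝ) ^ (-s.re) := by
        have := (Real.rpow_pos_of_pos (G.qpos v) (-s.re)).le
        gcongr
        exact G.le v i
    _ = (q v : ℝ) ^ (θ - s.re) := by rw [← Real.rpow_add (G.qpos v)]; congr 1
    _ < 1 := Real.rpow_lt_one_of_one_lt_of_neg (by linarith [G.two_le' v]) (by linarith)

/-- the Euler factor at `v` in terms of the series -/
lemma factor_sum {s₀ w : ℂ} (hw : 1 + θ < (s₀ + w).re) (v : X) :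
    HasSum (fun n : ℕ => cc q α s₀ (v, n) * exp (-(w * lam q (v, n))))
      (∑' n : ℕ, cc q α s₀ (v, n) * exp (-(w * lam q (v, n)))) ∧
    exp (∑' n : ℕ, cc q α s₀ (v, n) * exp (-(w * lam q (v, n)))) = fac q α (s₀ + w) v := by
  set x : ℂ := (q v : ℂ) ^ (-(s₀ + w)) with hx
  have hterm : ∀ n : ℕ, cc q α s₀ (v, n) * exp (-(w * lam q (v, n))) =
      ∑ i, (α v i * x) ^ (n + 1) / ((n + 1 : ℕ) : ℂ) := by
    intro n
    have e1 : exp (-(s₀ * lam q (v, n))) * exp (-(w * lam q (v, n))) = x ^ (n + 1) := by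
      rw [hx, G.cpow_eq, ← Complex.exp_add, ← Complex.exp_nat_mul]
      congr 1
      unfold lam
      push_cast
      ring
    have e2 : cc q α s₀ (v, n) * exp (-(w * lam q (v, n))) =
        (∑ i, α v i ^ (n + 1)) * (exp (-(s₀ * lam q (v, n))) * exp (-(w * lam q (v, n)))) /
          ((n + 1 : ℕ) : ℂ) := by
      unfold cc
      push_cast
      ring
    rw [e2, e1, Finset.sum_mul, Finset.sum_div]
    refine Finset.sum_congr rfl fun i _ => ?_
    rw [mul_pow]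
  have hs : ∀ z : ℂ, ‖z‖ < 1 → HasSum (fun n : ℕ => z ^ (n + 1) / ((n + 1 : ℕ) : ℂ)) (-log (1 - z)) := by
    intro z hz
    have := Complex.hasSum_taylorSeries_neg_log hz
    rw [← hasSum_nat_add_iff' 1] at this
    simpa using this
  have hS : HasSum (fun n : ℕ => cc q α s₀ (v, n) * exp (-(w * lam q (v, n))))
      (∑ i, -log (1 - α v i * x)) := by
    simp only [hterm]
    exact hasSum_sum fun i _ => hs _ (G.bx_lt hw v i)
  refine ⟨hS.summable.hasSum, ?_⟩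
  rw [hS.tsum_eq, Complex.exp_sum]
  unfold fac
  refine Finset.prod_congr rfl fun i _ => ?_
  have hne : 1 - α v i * x ≠ 0 := by
    intro h
    rw [sub_eq_zero] at h
    have h2 := G.bx_lt hw v i
    rw [← hx, ← h, norm_one] at h2
    exact lt_irrefl _ h2
  rw [Complex.exp_neg, Complex.exp_log hne]

lemma csummable {s₀ w : ℂ} (hw : 1 + θ < (s₀ + w).re) :
    Summable fun x : X × ℕ => cc q α s₀ x * exp (-(w * lam q x)) := by
  rw [Complex.add_re] at hw
  refine Summable.of_norm_bounded (G.summable (s₀ := s₀) (σ := w.re) (by linarith)) fun x => ?_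
  rw [norm_mul, Complex.norm_exp]
  have : (-(w * lam q x)).re = -(w.re * lam q x) := by rw [Complex.neg_re, Complex.re_mul_ofReal]
  rw [this]

/-- the Euler product is the exponential of the series -/
theorem hasProd {s₀ w : ℂ} (hw : 1 + θ < (s₀ + w).re) :
    HasProd (fac q α (s₀ + w)) (exp (sr (lam q) (cc q α s₀) w)) := by
  have h1 : HasSum (fun x : X × ℕ => cc q α s₀ x * exp (-(w * lam q x)))
      (sr (lam q) (cc q α s₀) w) := (G.csummable hw).hasSum
  have h2 := h1.prod_fiberwise (fun v => (G.factor_sum hw v).1)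
  have h3 := h2.cexp
  have h4 : (Complex.exp ∘ fun v => ∑' n : ℕ, cc q α s₀ (v, n) * exp (-(w * lam q (v, n)))) =
      fac q α (s₀ + w) := by
    funext v
    exact (G.factor_sum hw v).2
  rw [h4] at h3
  exact h3

/-- the series is analytic -/
theorem sr_analytic {s₀ w : ℂ} (hw : 1 + θ < (s₀ + w).re) :
    AnalyticAt ℂ (sr (lam q) (cc q α s₀)) w := by
  rw [Complex.add_re] at hw
  set σ : ℝ := (1 + θ - s₀.re + w.re) / 2 with hσ
  have hσ1 : 1 < σ + (s₀.re - θ) := by rw [hσ]; linarith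
  have hσw : σ < w.re := by rw [hσ]; linarith
  have hopen : IsOpen {z : ℂ | σ < z.re} := isOpen_lt continuous_const Complex.continuous_re
  have h1 : DifferentiableOn ℂ (sr (lam q) (cc q α s₀)) {z : ℂ | σ < z.re} := by
    unfold sr
    refine Complex.differentiableOn_tsum_of_summable_norm (G.summable hσ1) (fun i => ?_) hopen
      (fun i z hz => ?_)
    · exact Differentiable.differentiableOn (by fun_prop)
    · rw [norm_mul, Complex.norm_exp]
      refine mul_le_mul_of_nonneg_left ?_ (norm_nonneg _)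
      apply Real.exp_le_exp.2
      have h2 : (-(z * lam q i)).re = -(z.re * lam q i) := by
        rw [Complex.neg_re, Complex.re_mul_ofReal]
      rw [h2]
      have hz' : σ < z.re := hz
      have := G.lam_nonneg i
      nlinarith
  exact h1.analyticAt (hopen.mem_nhds hσw)

theorem tm_eq (s₀ : ℂ) (γ T : ℝ) (x : X × ℕ) : tm q α s₀ γ T x =
    -(cc q α s₀ x * exp ((γ * (lam q x / T) : ℝ) * I) * (om (lam q x / T) : ℂ)) := by
  unfold tm om cc
  push_cast
  rw [div_eq_mul_inv, mul_inv, div_eq_mul_inv]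
  ring

theorem norm_tm (s₀ : ℂ) (γ T : ℝ) (hT : 0 < T) (x : X × ℕ) :
    ‖tm q α s₀ γ T x‖ = ‖cc q α s₀ x‖ * om (lam q x / T) := by
  rw [G.tm_eq, norm_neg, norm_mul, norm_mul, Complex.norm_exp_ofReal_mul_I, mul_one,
    Complex.norm_real, Real.norm_eq_abs]
  congr 1
  apply abs_of_pos
  unfold om
  have h1 : 0 ≤ lam q x / T := div_nonneg (G.lam_nonneg x) hT.le
  have := Real.Gamma_pos_of_pos (by linarith : 0 < 1 + lam q x / T)
  positivity

theorem tm_summable {s₀ : ℂ} (hs₀ : θ ≤ s₀.re) (γ : ℝ) {T : ℝ} (hT : 0 < T) :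
    Summable fun x => ‖tm q α s₀ γ T x‖ := by
  simp only [G.norm_tm s₀ γ T hT]
  refine Summable.of_nonneg_of_le (fun x => ?_) (fun x => ?_)
    ((G.summable (s₀ := s₀) (σ := 2) (by linarith)).mul_left (Real.exp (Real.exp (2 * T)) + 1))
  · have h1 : 0 ≤ lam q x / T := div_nonneg (G.lam_nonneg x) hT.le
    have := Real.Gamma_pos_of_pos (by linarith : 0 < 1 + lam q x / T)
    unfold om
    positivity
  · have h1 : 0 ≤ lam q x / T := div_nonneg (G.lam_nonneg x) hT.le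
    have h2 := om_le (a := 2 * T) (v := lam q x / T) (by linarith) h1
    have h3 : 2 * T * (lam q x / T) = 2 * lam q x := by field_simp
    rw [h3] at h2
    calc ‖cc q α s₀ x‖ * om (lam q x / T) ≤
        ‖cc q α s₀ x‖ * ((Real.exp (Real.exp (2 * T)) + 1) * Real.exp (-(2 * lam q x))) :=
          mul_le_mul_of_nonneg_left h2 (norm_nonneg _)
      _ = _ := by ring

theorem Su_eq (s₀ : ℂ) (γ T : ℝ) : Su q α s₀ γ T = -cm (lam q) (cc q α s₀) γ T := by
  unfold Su cm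
  rw [← tsum_neg]
  exact tsum_congr fun x => G.tm_eq s₀ γ T x

section

variable {L : ℂ → ℂ} (hprod : ∀ s : ℂ, 1 + θ < s.re → HasProd (fac q α s) (L s))
include hprod

theorem eq_exp {s₀ w : ℂ} (hw : 1 + θ < (s₀ + w).re) :
    L (s₀ + w) = exp (sr (lam q) (cc q α s₀) w) := (hprod _ hw).unique (G.hasProd hw)

theorem an_right {s : ℂ} (hs : 1 + θ < s.re) : AnalyticAt ℂ L s ∧ L s ≠ 0 := by
  have h0 : ∀ z : ℂ, 1 + θ < z.re → L z = exp (sr (lam q) (cc q α 0) z) := fun z hz => by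
    have := G.eq_exp hprod (s₀ := 0) (w := z) (by simpa using hz)
    rwa [zero_add] at this
  have hopen : IsOpen {z : ℂ | 1 + θ < z.re} := isOpen_lt continuous_const Complex.continuous_re
  constructor
  · have h1 := (G.sr_analytic (s₀ := 0) (w := s) (by simpa using hs)).cexp
    refine h1.congr ?_
    filter_upwards [hopen.mem_nhds hs] with z hz
    exact (h0 z hz).symm
  · rw [h0 s hs]
    exact Complex.exp_ne_zero _

/-- **the rotated law at `s₀`, complex coefficients** -/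
theorem law {s₀ : ℂ} (hs₀ : θ ≤ s₀.re)
    (hmer : ∀ x : ℝ, 0 ≤ x → s₀.re + x ≤ 1 + θ → MeromorphicAt L (s₀ + x)) {γ : ℝ}
    (hγ : Real.pi / 2 < γ) :
    ∃ (m : ℤ) (r₀ : ℂ), meromorphicOrderAt L s₀ = m ∧ meromorphicTrailingCoeffAt L s₀ = exp r₀ ∧
      (fun T : ℝ => Su q α s₀ γ T - (m * (Real.log T - Lam γ) - r₀)) =O[atTop]
        (fun T : ℝ => 1 / T) := by
  have := G.cnt
  set Φ : ℂ → ℂ := fun w => L (s₀ + w) with hΦ
  have hmΦ : ∀ x : ℝ, 0 ≤ x → MeromorphicAt Φ (x : ℂ) := by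
    intro x hx
    have h1 : MeromorphicAt L (s₀ + x) := by
      by_cases h : s₀.re + x ≤ 1 + θ
      · exact hmer x hx h
      · push Not at h
        exact (G.an_right hprod (s := s₀ + x) (by simpa using h)).1.meromorphicAt
    exact h1.comp_analyticAt (f := L) (g := fun w => s₀ + w) (by fun_prop)
  have hr : ∀ w : ℂ, 1 < w.re → 1 + θ < (s₀ + w).re := by
    intro w hw
    rw [Complex.add_re]
    linarith
  have hord2 : meromorphicOrderAt Φ ((2 : ℝ) : ℂ) = 0 := by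
    have h1 := G.an_right hprod (s := s₀ + ((2 : ℝ) : ℂ)) (hr _ (by simp))
    have h2 : AnalyticAt ℂ Φ ((2 : ℝ) : ℂ) :=
      AnalyticAt.fun_comp (g := L) (f := fun w => s₀ + w) h1.1 (by fun_prop)
    rw [h2.meromorphicOrderAt_eq, h2.analyticOrderAt_eq_zero.2 h1.2]
    rfl
  have hmon : MeromorphicOn Φ ((fun x : ℝ => (x : ℂ)) '' Icc 0 2) := by
    rintro _ ⟨x, hx, rfl⟩
    exact hmΦ x hx.1
  have hcon : IsPreconnected ((fun x : ℝ => (x : ℂ)) '' Icc 0 2) :=
    isPreconnected_Icc.image _ (by fun_prop)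
  have htop : ∀ x ∈ Icc (0 : ℝ) 2, meromorphicOrderAt Φ (x : ℂ) ≠ ⊤ := by
    intro x hx
    refine hmon.meromorphicOrderAt_ne_top_of_isPreconnected (x := ((2 : ℝ) : ℂ)) hcon
      ⟨2, ⟨by norm_num, le_rfl⟩, rfl⟩ ⟨x, hx, rfl⟩ ?_
    rw [hord2]
    simp
  have h0top := htop 0 ⟨le_rfl, by norm_num⟩
  rw [Complex.ofReal_zero] at h0top
  obtain ⟨m, hm⟩ := WithTop.ne_top_iff_exists.1 h0top
  obtain ⟨η, B, L', r₀, hL, hL2, hr0⟩ := bel_c Φ (sr (lam q) (cc q α s₀))
    (fun x hx => hmΦ x hx.1) htop (fun w hw => G.sr_analytic (hr w hw))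
    (fun w hw => G.eq_exp hprod (hr w hw)) m hm.symm
  have D := G.sd hs₀
  have D' : SD (lam q) (fun x => -cc q α s₀ x) := ⟨D.lam_pos, by simpa using D.sum⟩
  have hneg : ∀ w, sr (lam q) (fun x => -cc q α s₀ x) w = -sr (lam q) (cc q α s₀) w := by
    intro w
    unfold sr
    rw [← tsum_neg]
    exact tsum_congr fun i => by ring
  have hcneg : ∀ T, cm (lam q) (fun x => -cc q α s₀ x) γ T = -cm (lam q) (cc q α s₀) γ T := by
    intro T
    unfold cm
    rw [← tsum_neg]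
    exact tsum_congr fun i => by ring
  obtain ⟨C, T₀, hC, hT₀, h⟩ := refc D' hγ m r₀ L' η B hL (fun w h1 h2 h3 => by
    rw [hneg, neg_neg]
    exact hL2 w h1 h2 h3)
  -- back to `L`
  have hcomp : meromorphicOrderAt L s₀ = m ∧
      meromorphicTrailingCoeffAt L s₀ = meromorphicTrailingCoeffAt Φ 0 := by
    have hL0 : MeromorphicAt L s₀ := by
      have h1 := hmΦ 0 le_rfl
      rw [Complex.ofReal_zero] at h1
      have h3 : MeromorphicAt (Φ ∘ fun z => z - s₀) s₀ := by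
        refine MeromorphicAt.comp_analyticAt (f := Φ) (g := fun z => z - s₀) ?_ (by fun_prop)
        simpa using h1
      have h4 : (Φ ∘ fun z => z - s₀) = L := by
        funext z
        simp [hΦ]
      rwa [h4] at h3
    have hmo : meromorphicOrderAt Φ 0 = meromorphicOrderAt L s₀ := by
      have h5 : meromorphicOrderAt (L ∘ fun w => s₀ + w) 0 = meromorphicOrderAt L (s₀ + 0) := by
        refine meromorphicOrderAt_comp_of_deriv_ne_zero (f := L) (g := fun w => s₀ + w) (by fun_prop) ?_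
        simp
      rw [add_zero] at h5
      exact h5
    refine ⟨by rw [← hmo]; exact hm.symm, ?_⟩
    obtain ⟨g, hg1, hg2, hg3⟩ := (meromorphicOrderAt_eq_int_iff hL0).1
      (show meromorphicOrderAt L s₀ = m by rw [← hmo]; exact hm.symm)
    rw [hg1.meromorphicTrailingCoeffAt_of_ne_zero_of_eq_nhdsNE (n := m) hg2 hg3]
    symm
    have hg1' : AnalyticAt ℂ (fun w => g (s₀ + w)) 0 :=
      AnalyticAt.fun_comp (g := g) (f := fun w => s₀ + w) (by simpa using hg1) (by fun_prop)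
    have := hg1'.meromorphicTrailingCoeffAt_of_ne_zero_of_eq_nhdsNE (n := m) (f := Φ)
      (by simpa using hg2) ?_
    · rw [this]; simp
    · have ht : Tendsto (fun w : ℂ => s₀ + w) (𝓝[≠] 0) (𝓝[≠] s₀) := by
        refine tendsto_nhdsWithin_of_tendsto_nhds_of_eventually_within _ ?_ ?_
        · have : ContinuousAt (fun w : ℂ => s₀ + w) 0 := by fun_prop
          have h6 := this.tendsto
          rw [add_zero] at h6
          exact h6.mono_left nhdsWithin_le_nhds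
        · filter_upwards [self_mem_nhdsWithin] with w hw
          simpa using hw
      have h7 := ht.eventually hg3
      filter_upwards [h7] with w hw
      rw [hΦ]
      simp only
      rw [hw]
      simp
  refine ⟨m, r₀, hcomp.1, by rw [hcomp.2, hr0], ?_⟩
  refine Asymptotics.IsBigO.of_bound C ?_
  filter_upwards [eventually_ge_atTop T₀] with T hT
  have h1 := h T hT
  rw [hcneg, Lam_eq] at h1
  rw [G.Su_eq]
  have hT0 : 0 < T := by linarith
  have e : ‖(1 / T : ℝ)‖ = 1 / T := by rw [Real.norm_eq_abs, abs_of_pos (by positivity)]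
  rw [e, ← div_eq_mul_one_div]
  refine le_trans (le_of_eq ?_) h1
  congr 1
  ring

end

end CSys

end Pool.Agent.X287.CR
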