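import Pool.Agent.X287.CR3

/-!
# Consequences of the rotated law with complex coefficients
-/

set_option autoImplicit false

namespace Pool.Agent.X287.CR

open Complex Filter Topology Set Asymptotics
open Pool.Agent.W187.UR

/-- the asymptotic formula -/
def Asy (Λ : ℂ) (S : ℝ → ℂ) (m : ℤ) (r₀ : ℂ) : Prop :=
  (fun T : ℝ => S T - (m * (Real.log T - Λ) - r₀)) =O[atTop] (fun T : ℝ => 1 / T)

namespace Asy

variable {Λ : ℂ} {S : ℝ → ℂ} {m : ℤ} {r₀ : ℂ} (h : Asy Λ S m r₀)
include h

theorem tend : Tendsto (fun T : ℝ => S T - (m * (Real.log T - Λ) - r₀)) atTop (𝓝 0) :=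
  IsBigO.trans_tendsto h (tendsto_const_nhds.div_atTop tendsto_id)

theorem tend_re : Tendsto (fun T : ℝ => (S T).re - (m * (Real.log T - Λ.re) - r₀.re)) atTop (𝓝 0) := by
  have h1 := (Complex.continuous_re.tendsto 0).comp h.tend
  rw [Complex.zero_re] at h1
  refine h1.congr fun T => ?_
  simp

/-- the order is a limit -/
theorem order_lim : Tendsto (fun T : ℝ => (S T).re / Real.log T) atTop (𝓝 (m : ℝ)) := by
  have h3 : Tendsto (fun T : ℝ => ((S T).re - (m * (Real.log T - Λ.re) - r₀.re) +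
      (-(m * Λ.re) - r₀.re)) / Real.log T) atTop (𝓝 0) :=
    (h.tend_re.add_const _).div_atTop Real.tendsto_log_atTop
  have h4 : Tendsto (fun T : ℝ => (m : ℝ) + ((S T).re - (m * (Real.log T - Λ.re) - r₀.re) +
      (-(m * Λ.re) - r₀.re)) / Real.log T) atTop (𝓝 ((m : ℝ) + 0)) := tendsto_const_nhds.add h3
  rw [add_zero] at h4
  refine h4.congr' ?_
  filter_upwards [eventually_gt_atTop (1 : ℝ)] with T hT
  have hlog : 0 < Real.log T := Real.log_pos hT
  field_simp
  ring

theorem order_iff (r : ℤ) : m = r ↔ Tendsto (fun T : ℝ => (S T).re / Real.log T) atTop (𝓝 (r : ℝ)) := by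
  constructor
  · rintro rfl
    exact h.order_lim
  · intro h1
    exact_mod_cast tendsto_nhds_unique h.order_lim h1

/-- the exponential -/
theorem exp_lim : Tendsto (fun T : ℝ => Complex.exp (S T) / (T : ℂ) ^ m) atTop
    (𝓝 (Complex.exp (-(m * Λ)) / Complex.exp r₀)) := by
  have h1 := ((Complex.continuous_exp.tendsto 0).comp h.tend).mul_const
    (Complex.exp (-(m * Λ)) / Complex.exp r₀)
  rw [Complex.exp_zero, one_mul] at h1
  refine h1.congr' ?_
  filter_upwards [eventually_gt_atTop (0 : ℝ)] with T hT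
  have hTm : (T : ℂ) ^ m = Complex.exp (m * Real.log T) := by
    rw [Complex.exp_int_mul, ← Complex.ofReal_exp, Real.exp_log hT]
  simp only [Function.comp_apply]
  rw [hTm, ← Complex.exp_sub, ← Complex.exp_sub, ← Complex.exp_add]
  congr 1
  ring

/-- order and leading coefficient -/
theorem lead_iff (r : ℤ) {B : ℂ} (hB : B ≠ 0) : (m = r ∧ Complex.exp r₀ = B) ↔
    Tendsto (fun T : ℝ => Complex.exp (S T) / (T : ℂ) ^ r) atTop (𝓝 (Complex.exp (-(r * Λ)) / B)) := by
  constructor
  · rintro ⟨rfl, rfl⟩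
    exact h.exp_lim
  · intro h1
    have hlc := Complex.exp_ne_zero r₀
    set c₁ : ℂ := Complex.exp (-(m * Λ)) / Complex.exp r₀ with hc₁
    set c₀ : ℂ := Complex.exp (-(r * Λ)) / B with hc₀
    have hc₁0 : c₁ ≠ 0 := div_ne_zero (Complex.exp_ne_zero _) hlc
    have hc₀0 : c₀ ≠ 0 := div_ne_zero (Complex.exp_ne_zero _) hB
    have h2 : Tendsto (fun T : ℝ => (T : ℂ) ^ (m - r)) atTop (𝓝 (c₀ / c₁)) := by
      refine (h1.div h.exp_lim hc₁0).congr' ?_
      filter_upwards [eventually_gt_atTop 0] with T hT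
      have hTc : (T : ℂ) ≠ 0 := by exact_mod_cast hT.ne'
      have h3 := Complex.exp_ne_zero (S T)
      rw [zpow_sub₀ hTc]
      have h4 : (T : ℂ) ^ m ≠ 0 := zpow_ne_zero _ hTc
      have h5 : (T : ℂ) ^ r ≠ 0 := zpow_ne_zero _ hTc
      simp only [Pi.div_apply]
      field_simp
    have h3 : Tendsto (fun T : ℝ => T ^ (m - r)) atTop (𝓝 ‖c₀ / c₁‖) := by
      refine h2.norm.congr' ?_
      filter_upwards [eventually_gt_atTop 0] with T hT
      rw [norm_zpow, Complex.norm_real, Real.norm_eq_abs, abs_of_pos hT]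
    have h4 : m - r = 0 := by
      rcases lt_trichotomy (m - r) 0 with h5 | h5 | h5
      · exfalso
        have h6 : Tendsto (fun T : ℝ => T ^ (m - r)) atTop (𝓝 0) := tendsto_zpow_atTop_zero h5
        have h7 := tendsto_nhds_unique h3 h6
        rw [norm_eq_zero] at h7
        exact div_ne_zero hc₀0 hc₁0 h7
      · exact h5
      · exfalso
        have h6 : Tendsto (fun T : ℝ => T ^ (m - r)) atTop atTop := by
          obtain ⟨n, hn⟩ := Int.eq_ofNat_of_zero_le h5.le
          rw [hn]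
          simp only [zpow_natCast]
          refine tendsto_pow_atTop ?_
          intro h0
          rw [h0] at hn
          rw [hn] at h5
          exact absurd h5 (by simp)
        exact not_tendsto_nhds_of_tendsto_atTop h6 _ h3
    have h5 : m = r := by linarith
    subst h5
    have h6 : c₀ = c₁ := tendsto_nhds_unique h1 h.exp_lim
    refine ⟨rfl, ?_⟩
    rw [hc₀, hc₁] at h6
    have h7 := Complex.exp_ne_zero (-((m : ℂ) * Λ))
    rw [div_eq_div_iff hB hlc] at h6
    exact mul_left_cancel₀ h7 (by linear_combination h6)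

theorem pos_iff : 0 < m ↔ Tendsto (fun T : ℝ => (S T).re) atTop atTop := by
  constructor
  · intro hm
    have h1 : Tendsto (fun T : ℝ => (m * (Real.log T - Λ.re) - r₀.re)) atTop atTop := by
      have h2 : (0 : ℝ) < m := by exact_mod_cast hm
      have h3 : Tendsto (fun T : ℝ => (m : ℝ) * (Real.log T - Λ.re)) atTop atTop :=
        (tendsto_atTop_add_const_right _ _ Real.tendsto_log_atTop).const_mul_atTop h2
      exact tendsto_atTop_add_const_right _ _ h3
    refine (h.tend_re.add_atTop h1).congr fun T => ?_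
    ring
  · intro h1
    by_contra hm
    push Not at hm
    have h2 := h.order_lim
    have h3 : Tendsto (fun T : ℝ => (S T).re - (m * Real.log T)) atTop (𝓝 (-(m * Λ.re) - r₀.re)) := by
      have h4 := h.tend_re.add_const (-(m * Λ.re) - r₀.re)
      rw [zero_add] at h4
      refine h4.congr fun T => ?_
      ring
    have h5 : ∀ᶠ T : ℝ in atTop, (S T).re - m * Real.log T ≤ -(m * Λ.re) - r₀.re + 1 :=
      (h3.eventually_lt_const (lt_add_one _)).mono fun _ h => h.le
    obtain ⟨T, h6, h7, h8⟩ := (h5.and ((h1.eventually_gt_atTop (-(m * Λ.re) - r₀.re + 1)).and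
      (eventually_ge_atTop 1))).exists
    have h9 : (m : ℝ) * Real.log T ≤ 0 :=
      mul_nonpos_of_nonpos_of_nonneg (by exact_mod_cast hm) (Real.log_nonneg h8)
    linarith

theorem neg_iff : m < 0 ↔ Tendsto (fun T : ℝ => (S T).re) atTop atBot := by
  have h' : Asy Λ (fun T => -S T) (-m) (-r₀) := by
    have h1 := IsBigO.neg_left h
    refine h1.congr_left fun T => ?_
    push_cast
    ring
  have h1 := h'.pos_iff
  rw [neg_pos] at h1
  rw [h1]
  simp only [Complex.neg_re]
  exact tendsto_neg_atTop_iff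

theorem zero_iff : m = 0 ↔ ∃ C : ℝ, ∀ᶠ T : ℝ in atTop, |(S T).re| ≤ C := by
  constructor
  · rintro rfl
    have h1 : Tendsto (fun T : ℝ => (S T).re) atTop (𝓝 (-r₀.re)) := by
      have h2 := h.tend_re.add_const (-r₀.re)
      rw [zero_add] at h2
      refine h2.congr fun T => ?_
      push_cast
      ring
    refine ⟨|-r₀.re| + 1, ?_⟩
    exact (h1.abs.eventually_lt_const (lt_add_one _)).mono fun _ h => h.le
  · rintro ⟨C, hC⟩
    rcases lt_trichotomy m 0 with hm | hm | hm
    · exfalso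
      obtain ⟨T, h1, h2⟩ := (hC.and ((h.neg_iff.1 hm).eventually_lt_atBot (-C))).exists
      have := (abs_le.1 h1).1
      linarith
    · exact hm
    · exfalso
      obtain ⟨T, h1, h2⟩ := (hC.and ((h.pos_iff.1 hm).eventually_gt_atTop C)).exists
      have := (abs_le.1 h1).2
      linarith

theorem exp_rate (hm : m = 0) :
    (fun T : ℝ => Complex.exp (S T) - 1 / Complex.exp r₀) =O[atTop] (fun T : ℝ => 1 / T) := by
  subst hm
  set R : ℝ → ℂ := fun T => S T + r₀ with hR
  have h3 : R =O[atTop] (fun T : ℝ => 1 / T) := by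
    refine IsBigO.congr_left h fun T => ?_
    rw [hR]
    push_cast
    ring
  have hR0 : Tendsto R atTop (𝓝 0) := h3.trans_tendsto (tendsto_const_nhds.div_atTop tendsto_id)
  have h6 : (fun T : ℝ => Complex.exp (S T) - 1 / Complex.exp r₀) =
      fun T => (1 / Complex.exp r₀) * (Complex.exp (R T) - 1) := by
    funext T
    have h4 : Complex.exp (R T) = Complex.exp (S T) * Complex.exp r₀ := by
      rw [hR, Complex.exp_add]
    have := Complex.exp_ne_zero r₀
    rw [h4]
    field_simp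
  rw [h6]
  have h7 : (fun T : ℝ => Complex.exp (R T) - 1) =O[atTop] R := by
    have h8 : (fun z : ℂ => Complex.exp z - 1) =O[𝓝 0] (fun z : ℂ => z) := by
      have h9 := (Complex.hasDerivAt_exp 0).isBigO_sub
      simpa using h9
    exact h8.comp_tendsto hR0
  exact (h7.trans h3).const_mul_left _

/-- the exponential, if the order is `≤ 0` or `≥ 0`: convergence to a nonzero limit only for order `0` -/
theorem tend_iff {B : ℂ} (hB : B ≠ 0) : (m = 0 ∧ Complex.exp r₀ = B) ↔
    Tendsto (fun T : ℝ => Complex.exp (S T)) atTop (𝓝 (1 / B)) := by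
  have h1 := h.lead_iff 0 hB
  simpa using h1

end Asy

/-- the order of a holomorphic function -/
theorem an_order {L : ℂ → ℂ} {s₀ : ℂ} {k : ℕ} (hL : AnalyticAt ℂ L s₀)
    (hm : meromorphicOrderAt L s₀ = ((k : ℤ) : WithTop ℤ)) : analyticOrderAt L s₀ = k := by
  have h5 := hL.meromorphicOrderAt_eq
  rw [hm] at h5
  rcases h6 : analyticOrderAt L s₀ with _ | j
  · rw [h6] at h5
    exact absurd h5 WithTop.coe_ne_top
  · rw [h6] at h5
    have h7 : ((k : ℤ)) = (j : ℤ) := by
      have h8 : ((k : ℤ) : WithTop ℤ) = ((j : ℤ) : WithTop ℤ) := by rw [h5]; rfl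
      exact_mod_cast h8
    have h8 : j = k := by exact_mod_cast h7.symm
    rw [h8]
    rfl

/-- an analytic function with order and trailing coefficient -/
theorem value {L : ℂ → ℂ} {s₀ : ℂ} {m : ℤ} {r₀ : ℂ} (hL : AnalyticAt ℂ L s₀)
    (hm : meromorphicOrderAt L s₀ = m) (hl : meromorphicTrailingCoeffAt L s₀ = Complex.exp r₀) :
    0 ≤ m ∧ (m = 0 → L s₀ = Complex.exp r₀) ∧ (m ≠ 0 → L s₀ = 0) := by
  have hm0 : 0 ≤ m := by
    have h1 := hL.meromorphicOrderAt_nonneg
    rw [hm] at h1
    exact_mod_cast h1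
  have key : L s₀ ≠ 0 ↔ m = 0 := by
    constructor
    · intro h0
      have h1 := hL.analyticOrderAt_eq_zero.2 h0
      have h2 := hL.meromorphicOrderAt_eq
      rw [hm, h1] at h2
      have h3 : ((m : ℤ) : WithTop ℤ) = ((0 : ℤ) : WithTop ℤ) := by rw [h2]; rfl
      exact_mod_cast h3
    · intro h0 h1
      have h2 := (hL.analyticOrderAt_ne_zero).2 h1
      apply h2
      have h3 := hL.meromorphicOrderAt_eq
      rw [hm, h0] at h3
      rcases h4 : analyticOrderAt L s₀ with _ | k
      · rw [h4] at h3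
        exact absurd h3 WithTop.coe_ne_top
      · rw [h4] at h3
        have h5 : ((0 : ℤ)) = (k : ℤ) := by
          have h6 : ((0 : ℤ) : WithTop ℤ) = ((k : ℤ) : WithTop ℤ) := by rw [h3]; rfl
          exact_mod_cast h6
        have h7 : k = 0 := by exact_mod_cast h5.symm
        rw [h7]
        rfl
  refine ⟨hm0, fun h0 => ?_, fun h0 => ?_⟩
  · have h1 := key.2 h0
    rw [← hl]
    exact (hL.meromorphicTrailingCoeffAt_of_ne_zero h1).symm
  · by_contra h1
    exact h0 (key.1 h1)

/-- the value of `L` at `s₀` in terms of `S` -/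
structure Val (L : ℂ → ℂ) (s₀ : ℂ) (S : ℝ → ℂ) : Prop where
  eq_iff : ∀ B : ℂ, B ≠ 0 → (L s₀ = B ↔ Tendsto (fun T : ℝ => Complex.exp (S T)) atTop (𝓝 (1 / B)))
  zero_iff : L s₀ = 0 ↔ Tendsto (fun T : ℝ => (S T).re) atTop atTop
  rate : L s₀ ≠ 0 → (fun T : ℝ => Complex.exp (S T) - 1 / L s₀) =O[atTop] (fun T : ℝ => 1 / T)

/-- **the value at a point where the continuation is holomorphic** -/
theorem value_iff {L : ℂ → ℂ} {s₀ : ℂ} {m : ℤ} {r₀ Λ : ℂ} {S : ℝ → ℂ} (hL : AnalyticAt ℂ L s₀)
    (hm : meromorphicOrderAt L s₀ = m) (hl : meromorphicTrailingCoeffAt L s₀ = Complex.exp r₀)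
    (h : Asy Λ S m r₀) : Val L s₀ S := by
  obtain ⟨hm0, h1, h2⟩ := value hL hm hl
  have h0 : L s₀ ≠ 0 ↔ m = 0 := by
    constructor
    · intro h3
      by_contra h4
      exact h3 (h2 h4)
    · intro h3
      rw [h1 h3]
      exact Complex.exp_ne_zero _
  refine ⟨fun B hB => ?_, ?_, fun h3 => ?_⟩
  · rw [← h.tend_iff hB]
    constructor
    · intro h3
      have h4 := h0.1 (by rw [h3]; exact hB)
      exact ⟨h4, by rw [← h1 h4, h3]⟩
    · rintro ⟨h3, h4⟩
      rw [h1 h3, h4]
  · rw [← h.pos_iff]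
    constructor
    · intro h3
      rcases hm0.eq_or_lt with h4 | h4
      · exact absurd h3 (h0.2 h4.symm)
      · exact h4
    · intro h3
      exact h2 h3.ne'
  · have h4 := h0.1 h3
    rw [h1 h4]
    exact h.exp_rate h4

end Pool.Agent.X287.CR
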