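import Pool.Agent.X287.CR4

/-!
# Twists by Dirichlet characters and sums over residue classes
-/

set_option autoImplicit false

namespace Pool.Agent.X287.CR

open Complex Filter Topology Set Asymptotics
open Pool.Agent.W187.UR

variable {X : Type} {d : ℕ} {θ : ℝ} {q : X → ℕ} {α : X → Fin d → ℂ}

/-- the twisted roots -/
noncomputable def tw {N : ℕ} (q : X → ℕ) (χ : DirichletCharacter ℂ N) (α : X → Fin d → ℂ) :
    X → Fin d → ℂ := fun v i => χ (q v : ZMod N) * α v i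

theorem tw_sys (G : CSys θ q α) {N : ℕ} (χ : DirichletCharacter ℂ N) : CSys θ q (tw q χ α) where
  cnt := G.cnt
  two_le := G.two_le
  sum := G.sum
  le := fun v i => by
    unfold tw
    rw [norm_mul]
    have h1 := DirichletCharacter.norm_le_one χ (q v : ZMod N)
    calc ‖χ (q v : ZMod N)‖ * ‖α v i‖ ≤ 1 * ‖α v i‖ := by gcongr
      _ = ‖α v i‖ := one_mul _
      _ ≤ _ := G.le v i

/-- the terms in the class `c` -/
noncomputable def tmc (N : ℕ) (q : X → ℕ) (α : X → Fin d → ℂ) (s₀ : ℂ) (γ T : ℝ) (c : ZMod N)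
    (x : X × ℕ) : ℂ := by
  classical
  exact if ((q x.1 ^ (x.2 + 1) : ℕ) : ZMod N) = c then tm q α s₀ γ T x else 0

/-- the sum over the class `c` -/
noncomputable def Sc (N : ℕ) (q : X → ℕ) (α : X → Fin d → ℂ) (s₀ : ℂ) (γ T : ℝ) (c : ZMod N) : ℂ :=
  ∑' x, tmc N q α s₀ γ T c x

theorem tmc_summable (G : CSys θ q α) {s₀ : ℂ} (hs₀ : θ ≤ s₀.re) (γ : ℝ) {T : ℝ} (hT : 0 < T) (N : ℕ)
    (c : ZMod N) : Summable fun x => ‖tmc N q α s₀ γ T c x‖ := by
  refine Summable.of_nonneg_of_le (fun x => norm_nonneg _) (fun x => ?_) (G.tm_summable hs₀ γ hT)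
  unfold tmc
  split_ifs
  · exact le_rfl
  · rw [norm_zero]; exact norm_nonneg _

theorem tm_tw {N : ℕ} [NeZero N] (χ : DirichletCharacter ℂ N) (s₀ : ℂ) (γ T : ℝ) (x : X × ℕ) :
    tm q (tw q χ α) s₀ γ T x = ∑ c : (ZMod N)ˣ, χ (c : ZMod N) * tmc N q α s₀ γ T (c : ZMod N) x := by
  classical
  have h1 : tm q (tw q χ α) s₀ γ T x =
      χ (((q x.1 ^ (x.2 + 1) : ℕ) : ZMod N)) * tm q α s₀ γ T x := by
    have h2 : ∑ i, tw q χ α x.1 i ^ (x.2 + 1) =
        χ (((q x.1 ^ (x.2 + 1) : ℕ) : ZMod N)) * ∑ i, α x.1 i ^ (x.2 + 1) := by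
      unfold tw
      rw [Finset.mul_sum]
      refine Finset.sum_congr rfl fun i _ => ?_
      rw [mul_pow]
      push_cast
      rw [map_pow]
    unfold tm
    rw [h2]
    ring
  rw [h1]
  by_cases hu : IsUnit (((q x.1 ^ (x.2 + 1) : ℕ) : ZMod N))
  · obtain ⟨u, hu⟩ := hu
    rw [Finset.sum_eq_single u]
    · unfold tmc
      rw [if_pos hu.symm, hu]
    · intro c _ hc
      unfold tmc
      rw [if_neg, mul_zero]
      intro h
      apply hc
      apply Units.ext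
      rw [hu, ← h]
    · intro h
      exact absurd (Finset.mem_univ u) h
  · rw [MulChar.map_nonunit _ hu, zero_mul]
    symm
    refine Finset.sum_eq_zero fun c _ => ?_
    unfold tmc
    rw [if_neg, mul_zero]
    intro h
    apply hu
    rw [h]
    exact c.isUnit

theorem Su_tw (G : CSys θ q α) {s₀ : ℂ} (hs₀ : θ ≤ s₀.re) (γ : ℝ) {T : ℝ} (hT : 0 < T) {N : ℕ} [NeZero N]
    (χ : DirichletCharacter ℂ N) : Su q (tw q χ α) s₀ γ T =
      ∑ c : (ZMod N)ˣ, χ (c : ZMod N) * Sc N q α s₀ γ T (c : ZMod N) := by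
  unfold Su Sc
  simp only [tm_tw, ← tsum_mul_left]
  rw [Summable.tsum_finsetSum]
  intro c _
  exact ((tmc_summable G hs₀ γ hT N c).of_norm).mul_left _

/-- Fourier inversion -/
theorem Sc_eq (G : CSys θ q α) {s₀ : ℂ} (hs₀ : θ ≤ s₀.re) (γ : ℝ) {T : ℝ} (hT : 0 < T) {N : ℕ} [NeZero N]
    (c : (ZMod N)ˣ) : Sc N q α s₀ γ T (c : ZMod N) =
      (N.totient : ℂ)⁻¹ * ∑ χ : DirichletCharacter ℂ N, χ ((c : ZMod N)⁻¹) * Su q (tw q χ α) s₀ γ T := by
  classical
  have hφ : (N.totient : ℂ) ≠ 0 := by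
    have := Nat.totient_pos.2 (NeZero.pos N)
    exact_mod_cast this.ne'
  simp only [Su_tw G hs₀ γ hT, Finset.mul_sum]
  rw [Finset.sum_comm]
  rw [Finset.sum_eq_single c]
  · have h1 : ∀ χ : DirichletCharacter ℂ N, (N.totient : ℂ)⁻¹ * (χ ((c : ZMod N)⁻¹) *
        (χ (c : ZMod N) * Sc N q α s₀ γ T (c : ZMod N))) =
        (N.totient : ℂ)⁻¹ * Sc N q α s₀ γ T (c : ZMod N) * (χ ((c : ZMod N)⁻¹) * χ (c : ZMod N)) := by
      intro χ; ring
    simp only [h1]
    rw [← Finset.mul_sum, DirichletCharacter.sum_char_inv_mul_char_eq ℂ c.isUnit, if_pos rfl]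
    field_simp
  · intro b _ hb
    have h1 : ∀ χ : DirichletCharacter ℂ N, (N.totient : ℂ)⁻¹ * (χ ((c : ZMod N)⁻¹) *
        (χ (b : ZMod N) * Sc N q α s₀ γ T (b : ZMod N))) =
        (N.totient : ℂ)⁻¹ * Sc N q α s₀ γ T (b : ZMod N) * (χ ((c : ZMod N)⁻¹) * χ (b : ZMod N)) := by
      intro χ; ring
    simp only [h1]
    rw [← Finset.mul_sum, DirichletCharacter.sum_char_inv_mul_char_eq ℂ c.isUnit, if_neg, mul_zero]
    intro h
    exact hb (Units.ext h.symm)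
  · intro h
    exact absurd (Finset.mem_univ c) h

/-- **the law for the classes**, given the laws for the characters -/
theorem class_law (G : CSys θ q α) {s₀ : ℂ} (hs₀ : θ ≤ s₀.re) (γ : ℝ) {N : ℕ} [NeZero N] {Λ : ℂ}
    (m : DirichletCharacter ℂ N → ℤ) (r : DirichletCharacter ℂ N → ℂ)
    (h : ∀ χ, Asy Λ (Su q (tw q χ α) s₀ γ) (m χ) (r χ)) (c : (ZMod N)ˣ) :
    (fun T : ℝ => Sc N q α s₀ γ T (c : ZMod N) -
      (N.totient : ℂ)⁻¹ * ∑ χ : DirichletCharacter ℂ N, χ ((c : ZMod N)⁻¹) *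
        (m χ * (Real.log T - Λ) - r χ)) =O[atTop] (fun T : ℝ => 1 / T) := by
  have h1 : (fun T : ℝ => (N.totient : ℂ)⁻¹ * ∑ χ : DirichletCharacter ℂ N, χ ((c : ZMod N)⁻¹) *
      (Su q (tw q χ α) s₀ γ T - (m χ * (Real.log T - Λ) - r χ))) =O[atTop] (fun T : ℝ => 1 / T) := by
    refine IsBigO.const_mul_left ?_ _
    refine IsBigO.fun_sum fun χ _ => ?_
    exact IsBigO.const_mul_left (h χ) _
  refine h1.congr' ?_ EventuallyEq.rfl
  filter_upwards [eventually_gt_atTop 0] with T hT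
  rw [Sc_eq G hs₀ γ hT c, ← mul_sub, ← Finset.sum_sub_distrib]
  congr 1
  refine Finset.sum_congr rfl fun χ _ => ?_
  ring

/-- **simultaneous non-vanishing**: holomorphic continuations -/
theorem nonvanish (G : CSys θ q α) {s₀ : ℂ} (hs₀ : θ ≤ s₀.re) (γ : ℝ) {N : ℕ} [NeZero N] {Λ : ℂ}
    (m : DirichletCharacter ℂ N → ℤ) (r : DirichletCharacter ℂ N → ℂ) (hm : ∀ χ, 0 ≤ m χ)
    (h : ∀ χ, Asy Λ (Su q (tw q χ α) s₀ γ) (m χ) (r χ)) :
    List.TFAE [∀ χ, m χ = 0,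
      ∃ C : ℝ, ∀ᶠ T : ℝ in atTop, (Sc N q α s₀ γ T 1).re ≤ C,
      ∀ c : (ZMod N)ˣ, ∃ B : ℂ, Tendsto (fun T : ℝ => Sc N q α s₀ γ T (c : ZMod N)) atTop (𝓝 B)] := by
  have hφ : 0 < (N.totient : ℝ) := by
    have := Nat.totient_pos.2 (NeZero.pos N)
    exact_mod_cast this
  have hlim : Tendsto (fun T : ℝ => (1 : ℝ) / T) atTop (𝓝 0) :=
    tendsto_const_nhds.div_atTop tendsto_id
  tfae_have 1 → 3 := by
    intro h1 c
    have h2 := (class_law G hs₀ γ m r h c).trans_tendsto hlim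
    refine ⟨(N.totient : ℂ)⁻¹ * ∑ χ : DirichletCharacter ℂ N, χ ((c : ZMod N)⁻¹) * (-r χ), ?_⟩
    have h3 := h2.add_const ((N.totient : ℂ)⁻¹ * ∑ χ : DirichletCharacter ℂ N,
      χ ((c : ZMod N)⁻¹) * (-r χ))
    rw [zero_add] at h3
    refine h3.congr fun T => ?_
    simp only [h1, Int.cast_zero, zero_mul, zero_sub]
    ring
  tfae_have 3 → 2 := by
    intro h1
    obtain ⟨B, hB⟩ := h1 1
    have h2 := (Complex.continuous_re.tendsto B).comp hB
    refine ⟨B.re + 1, ?_⟩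
    filter_upwards [h2.eventually_lt_const (lt_add_one _)] with T hT
    have := hT.le
    simpa using this
  tfae_have 2 → 1 := by
    rintro ⟨C, hC⟩
    by_contra hne
    push Not at hne
    obtain ⟨χ₀, hχ₀⟩ := hne
    have hpos : 0 < ∑ χ : DirichletCharacter ℂ N, m χ :=
      Finset.sum_pos' (fun χ _ => hm χ) ⟨χ₀, Finset.mem_univ _, lt_of_le_of_ne (hm χ₀) (Ne.symm hχ₀)⟩
    have h2 := (class_law G hs₀ γ m r h 1).trans_tendsto hlim
    have h3 := (Complex.continuous_re.tendsto 0).comp h2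
    rw [Complex.zero_re] at h3
    set M : ℝ := ((∑ χ : DirichletCharacter ℂ N, m χ : ℤ) : ℝ) with hM
    have hM0 : 0 < M := by rw [hM]; exact Int.cast_pos.2 hpos
    set R : ℝ := (∑ χ : DirichletCharacter ℂ N, r χ).re with hR
    have e : ∀ T : ℝ, ((N.totient : ℂ)⁻¹ * ∑ χ : DirichletCharacter ℂ N,
        χ ((((1 : (ZMod N)ˣ) : ZMod N))⁻¹) * (m χ * (Real.log T - Λ) - r χ)).re =
        (N.totient : ℝ)⁻¹ * (M * (Real.log T - Λ.re) - R) := by
      intro T
      have e1 : ∀ χ : DirichletCharacter ℂ N, χ ((((1 : (ZMod N)ˣ) : ZMod N))⁻¹) = 1 := by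
        intro χ
        have : ((1 : (ZMod N)ˣ) : ZMod N)⁻¹ = 1 := by
          rw [Units.val_one]
          exact ZMod.inv_one N
        rw [this, map_one]
      simp only [e1, one_mul, Finset.sum_sub_distrib, ← Finset.sum_mul]
      have e2 : (∑ χ : DirichletCharacter ℂ N, (m χ : ℂ)) = ((M : ℝ) : ℂ) := by
        rw [hM]; push_cast; rfl
      rw [e2]
      have e3 : ((N.totient : ℂ)⁻¹) = (((N.totient : ℝ)⁻¹ : ℝ) : ℂ) := by push_cast; rfl
      rw [e3, Complex.re_ofReal_mul, Complex.sub_re, Complex.re_ofReal_mul, Complex.sub_re,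
        Complex.ofReal_re]
    have h4 : Tendsto (fun T : ℝ => (N.totient : ℝ)⁻¹ * (M * (Real.log T - Λ.re) - R)) atTop atTop := by
      have h5 : Tendsto (fun T : ℝ => M * (Real.log T - Λ.re)) atTop atTop :=
        (tendsto_atTop_add_const_right _ _ Real.tendsto_log_atTop).const_mul_atTop hM0
      exact (tendsto_atTop_add_const_right _ _ h5).const_mul_atTop (by positivity)
    have h5 := h3.add_atTop h4
    obtain ⟨T, h6, h7⟩ := (hC.and (h5.eventually_gt_atTop C)).exists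
    have h8 : C < (Sc N q α s₀ γ T 1).re := by
      refine h7.trans_le (le_of_eq ?_)
      rw [← e T]
      simp only [Function.comp_apply, Complex.sub_re, Units.val_one]
      ring
    linarith
  tfae_finish

end Pool.Agent.X287.CR
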