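import Pool.Agent.X287.CR5
import Pool.Agent.H921R2.TatePole.Dedekind

/-!
# Systems over number fields, and one-sided boundedness
-/

set_option autoImplicit false

namespace Pool.Agent.X287.CR

open Complex Filter Topology Set Asymptotics
open IsDedekindDomain NumberField
open Pool.Agent.H921R2.TatePole (nm two_le_nm nm_summable)

/-- a set of primes of a number field -/
theorem nf_csys {K : Type} [Field K] [NumberField K] (p : HeightOneSpectrum (𝓞 K) → Prop) {d : ℕ}
    {θ : ℝ} (α : {v // p v} → Fin d → ℂ)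
    (hα : ∀ v i, ‖α v i‖ ≤ ((Ideal.absNorm v.1.asIdeal : ℕ) : ℝ) ^ θ) :
    CSys θ (fun v : {v // p v} => Ideal.absNorm v.1.asIdeal) α where
  cnt := by
    have h0 : Countable (HeightOneSpectrum (𝓞 K)) := by
      have h1 := (nm_summable (K := K) (x := 2) (by norm_num)).countable_support
      have h2 : Function.support (fun v : HeightOneSpectrum (𝓞 K) => (nm v : ℝ) ^ (-(2 : ℝ))) =
          Set.univ := by
        ext v
        simp only [Function.mem_support, Set.mem_univ, iff_true]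
        have hp2 : (2 : ℝ) ≤ nm v := by exact_mod_cast two_le_nm v
        have : (0 : ℝ) < nm v := by linarith
        positivity
      rwa [h2, Set.countable_univ_iff] at h1
    exact inferInstance
  two_le := fun v => two_le_nm v.1
  sum := fun σ hσ => (nm_summable (K := K) hσ).comp_injective Subtype.val_injective
  le := hα

/-- all the primes of a number field -/
theorem nf_all {K : Type} [Field K] [NumberField K] {d : ℕ}
    {θ : ℝ} (α : HeightOneSpectrum (𝓞 K) → Fin d → ℂ)
    (hα : ∀ v i, ‖α v i‖ ≤ ((Ideal.absNorm v.asIdeal : ℕ) : ℝ) ^ θ) :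
    CSys θ (fun v : HeightOneSpectrum (𝓞 K) => Ideal.absNorm v.asIdeal) α where
  cnt := by
    have h1 := (nm_summable (K := K) (x := 2) (by norm_num)).countable_support
    have h2 : Function.support (fun v : HeightOneSpectrum (𝓞 K) => (nm v : ℝ) ^ (-(2 : ℝ))) =
        Set.univ := by
      ext v
      simp only [Function.mem_support, Set.mem_univ, iff_true]
      have hp2 : (2 : ℝ) ≤ nm v := by exact_mod_cast two_le_nm v
      have : (0 : ℝ) < nm v := by linarith
      positivity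
    rwa [h2, Set.countable_univ_iff] at h1
  two_le := fun v => two_le_nm v
  sum := fun σ hσ => nm_summable (K := K) hσ
  le := hα

/-- all rational primes -/
theorem q_csys {d : ℕ} {θ : ℝ} (α : Nat.Primes → Fin d → ℂ)
    (hα : ∀ p i, ‖α p i‖ ≤ ((p : ℕ) : ℝ) ^ θ) :
    CSys θ (fun p : Nat.Primes => (p : ℕ)) α where
  cnt := inferInstance
  two_le := fun v => v.2.two_le
  sum := fun σ hσ => by
    have h1 : Summable fun n : ℕ => (n : ℝ) ^ (-σ) := Real.summable_nat_rpow.2 (by linarith)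
    exact h1.comp_injective Subtype.val_injective
  le := hα

namespace Asy

variable {Λ : ℂ} {S : ℝ → ℂ} {m : ℤ} {r₀ : ℂ} (h : Asy Λ S m r₀)
include h

theorem nonneg_iff : 0 ≤ m ↔ ∃ C : ℝ, ∀ᶠ T : ℝ in atTop, C ≤ (S T).re := by
  constructor
  · intro hm
    rcases hm.eq_or_lt with h1 | h1
    · obtain ⟨C, hC⟩ := h.zero_iff.1 h1.symm
      exact ⟨-C, hC.mono fun T hT => (abs_le.1 hT).1⟩
    · exact ⟨0, (h.pos_iff.1 h1).eventually_ge_atTop 0⟩
  · rintro ⟨C, hC⟩
    by_contra hm
    push Not at hm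
    obtain ⟨T, h1, h2⟩ := (hC.and ((h.neg_iff.1 hm).eventually_lt_atBot C)).exists
    linarith

theorem nonpos_iff : m ≤ 0 ↔ ∃ C : ℝ, ∀ᶠ T : ℝ in atTop, (S T).re ≤ C := by
  constructor
  · intro hm
    rcases hm.eq_or_lt with h1 | h1
    · obtain ⟨C, hC⟩ := h.zero_iff.1 h1
      exact ⟨C, hC.mono fun T hT => (abs_le.1 hT).2⟩
    · exact ⟨0, (h.neg_iff.1 h1).eventually_le_atBot 0⟩
  · rintro ⟨C, hC⟩
    by_contra hm
    push Not at hm
    obtain ⟨T, h1, h2⟩ := (hC.and ((h.pos_iff.1 hm).eventually_gt_atTop C)).exists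
    linarith

theorem sub {S₂ : ℝ → ℂ} {m₂ : ℤ} {r₂ : ℂ} (h₂ : Asy Λ S₂ m₂ r₂) :
    Asy Λ (fun T => S T - S₂ T) (m - m₂) (r₀ - r₂) := by
  have h1 := IsBigO.sub h h₂
  refine h1.congr_left fun T => ?_
  push_cast
  ring

theorem add {S₂ : ℝ → ℂ} {m₂ : ℤ} {r₂ : ℂ} (h₂ : Asy Λ S₂ m₂ r₂) :
    Asy Λ (fun T => S T + S₂ T) (m + m₂) (r₀ + r₂) := by
  have h1 := IsBigO.add h h₂
  refine h1.congr_left fun T => ?_
  push_cast
  ring

end Asy

end Pool.Agent.X287.CR
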