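import Pool.Agent.X287.CR6

/-!
# The rotated law for general Dirichlet series
-/

set_option autoImplicit false

namespace Pool.Agent.X287.CR

open Complex Filter Topology Set Asymptotics
open Pool.Agent.W189.ML Pool.Agent.W189.LC Pool.Agent.W187.UR

/-- a general Dirichlet series `∑ c_i e^{-s lam_i}` which converges absolutely for `Re s > a` -/
structure GD {ι : Type} (a : ℝ) (lam : ι → ℝ) (c : ι → ℂ) : Prop where
  cnt : Countable ι
  lam_pos : ∀ i, 0 ≤ lam i
  sum : ∀ σ : ℝ, a < σ → Summable fun i => ‖c i‖ * Real.exp (-(σ * lam i))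

/-- `- c_i e^{-s₀ lam_i} e^{iγ lam_i / T} / Γ(1 + lam_i / T)` -/
noncomputable def tg {ι : Type} (lam : ι → ℝ) (c : ι → ℂ) (s₀ : ℂ) (γ T : ℝ) (i : ι) : ℂ :=
  -c i * exp (-(s₀ * lam i)) * exp ((γ * (lam i / T) : ℝ) * I) / ((Real.Gamma (1 + lam i / T) : ℝ) : ℂ)

/-- the rotated sum -/
noncomputable def Sg {ι : Type} (lam : ι → ℝ) (c : ι → ℂ) (s₀ : ℂ) (γ T : ℝ) : ℂ :=
  ∑' i, tg lam c s₀ γ T i

namespace GD

variable {ι : Type} {a : ℝ} {lam : ι → ℝ} {c : ι → ℂ} (G : GD a lam c)
include G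

/-- the shifted coefficients -/
theorem shift_sum (s₀ : ℂ) {σ : ℝ} (hσ : a < σ + s₀.re) :
    Summable fun i => ‖c i * exp (-(s₀ * lam i))‖ * Real.exp (-(σ * lam i)) := by
  refine (G.sum (σ + s₀.re) hσ).congr fun i => ?_
  rw [norm_mul, Complex.norm_exp]
  have : (-(s₀ * lam i)).re = -(s₀.re * lam i) := by rw [Complex.neg_re, Complex.re_mul_ofReal]
  rw [this, mul_assoc, ← Real.exp_add]
  congr 2
  ring

theorem sd {s₀ : ℂ} (h : a - 1 ≤ s₀.re) : SD lam (fun i => c i * exp (-(s₀ * lam i))) where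
  lam_pos := G.lam_pos
  sum := G.shift_sum s₀ (by linarith)

omit G in
theorem sr_shift (s₀ w : ℂ) : sr lam (fun i => c i * exp (-(s₀ * lam i))) w = sr lam c (s₀ + w) := by
  unfold sr
  refine tsum_congr fun i => ?_
  rw [mul_assoc, ← Complex.exp_add]
  congr 2
  ring

theorem sr_analytic {s : ℂ} (hs : a < s.re) : AnalyticAt ℂ (sr lam c) s := by
  set σ : ℝ := (a + s.re) / 2 with hσ
  have hσ1 : a < σ := by rw [hσ]; linarith
  have hσw : σ < s.re := by rw [hσ]; linarith
  have hopen : IsOpen {z : ℂ | σ < z.re} := isOpen_lt continuous_const Complex.continuous_re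
  have h1 : DifferentiableOn ℂ (sr lam c) {z : ℂ | σ < z.re} := by
    unfold sr
    refine Complex.differentiableOn_tsum_of_summable_norm (G.sum σ hσ1) (fun i => ?_) hopen
      (fun i z hz => ?_)
    · exact Differentiable.differentiableOn (by fun_prop)
    · rw [norm_mul, Complex.norm_exp]
      refine mul_le_mul_of_nonneg_left ?_ (norm_nonneg _)
      apply Real.exp_le_exp.2
      have h2 : (-(z * lam i)).re = -(z.re * lam i) := by
        rw [Complex.neg_re, Complex.re_mul_ofReal]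
      rw [h2]
      have hz' : σ < z.re := hz
      have := G.lam_pos i
      nlinarith
  exact h1.analyticAt (hopen.mem_nhds hσw)

omit G in
theorem tg_eq (s₀ : ℂ) (γ T : ℝ) (i : ι) : tg lam c s₀ γ T i =
    -((c i * exp (-(s₀ * lam i))) * exp ((γ * (lam i / T) : ℝ) * I) * (om (lam i / T) : ℂ)) := by
  unfold tg om
  push_cast
  rw [div_eq_mul_inv]
  ring

omit G in
theorem Sg_eq (s₀ : ℂ) (γ T : ℝ) : Sg lam c s₀ γ T =
    -cm lam (fun i => c i * exp (-(s₀ * lam i))) γ T := by
  unfold Sg cm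
  rw [← tsum_neg]
  exact tsum_congr fun i => tg_eq s₀ γ T i

theorem norm_tg (s₀ : ℂ) (γ : ℝ) {T : ℝ} (hT : 0 < T) (i : ι) :
    ‖tg lam c s₀ γ T i‖ = ‖c i * exp (-(s₀ * lam i))‖ * om (lam i / T) := by
  rw [tg_eq, norm_neg, norm_mul, norm_mul, Complex.norm_exp_ofReal_mul_I, mul_one,
    Complex.norm_real, Real.norm_eq_abs]
  congr 1
  apply abs_of_pos
  unfold om
  have h1 : 0 ≤ lam i / T := div_nonneg (G.lam_pos i) hT.le
  have := Real.Gamma_pos_of_pos (by linarith : 0 < 1 + lam i / T)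
  positivity

theorem tg_summable (s₀ : ℂ) (γ : ℝ) {T : ℝ} (hT : 0 < T) :
    Summable fun i => ‖tg lam c s₀ γ T i‖ := by
  simp only [G.norm_tg s₀ γ hT]
  set A : ℝ := |a| + |s₀.re| + 1 with hA
  have hA0 : 0 ≤ A := by positivity
  have hA1 : a < A + s₀.re := by
    have h1 := le_abs_self a
    have h2 := neg_abs_le s₀.re
    linarith
  refine Summable.of_nonneg_of_le (fun i => ?_) (fun i => ?_)
    ((G.shift_sum s₀ hA1).mul_left (Real.exp (Real.exp (A * T)) + 1))
  · have h1 : 0 ≤ lam i / T := div_nonneg (G.lam_pos i) hT.le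
    have := Real.Gamma_pos_of_pos (by linarith : 0 < 1 + lam i / T)
    unfold om
    positivity
  · have h1 : 0 ≤ lam i / T := div_nonneg (G.lam_pos i) hT.le
    have h2 := om_le (a := A * T) (v := lam i / T) (by positivity) h1
    have h3 : A * T * (lam i / T) = A * lam i := by field_simp
    rw [h3] at h2
    calc ‖c i * exp (-(s₀ * lam i))‖ * om (lam i / T) ≤
        ‖c i * exp (-(s₀ * lam i))‖ * ((Real.exp (Real.exp (A * T)) + 1) *
          Real.exp (-(A * lam i))) := mul_le_mul_of_nonneg_left h2 (norm_nonneg _)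
      _ = _ := by ring

section

variable {L : ℂ → ℂ} (hL : ∀ s : ℂ, a < s.re → L s = exp (sr lam c s))
include hL

theorem an_right {s : ℂ} (hs : a < s.re) : AnalyticAt ℂ L s ∧ L s ≠ 0 := by
  have hopen : IsOpen {z : ℂ | a < z.re} := isOpen_lt continuous_const Complex.continuous_re
  constructor
  · refine ((G.sr_analytic hs).cexp).congr ?_
    filter_upwards [hopen.mem_nhds hs] with z hz
    exact (hL z hz).symm
  · rw [hL s hs]
    exact Complex.exp_ne_zero _

/-- **the rotated law at `s₀`** -/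
theorem law {s₀ : ℂ} (hs₀ : a - 1 ≤ s₀.re)
    (hmer : ∀ x : ℝ, 0 ≤ x → s₀.re + x ≤ a → MeromorphicAt L (s₀ + x)) {γ : ℝ}
    (hγ : Real.pi / 2 < γ) :
    ∃ (m : ℤ) (r₀ : ℂ), meromorphicOrderAt L s₀ = m ∧ meromorphicTrailingCoeffAt L s₀ = exp r₀ ∧
      Asy (Lam γ) (Sg lam c s₀ γ) m r₀ := by
  have := G.cnt
  set c' : ι → ℂ := fun i => c i * exp (-(s₀ * lam i)) with hc'
  set Φ : ℂ → ℂ := fun w => L (s₀ + w) with hΦ
  have hmΦ : ∀ x : ℝ, 0 ≤ x → MeromorphicAt Φ (x : ℂ) := by
    intro x hx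
    have h1 : MeromorphicAt L (s₀ + x) := by
      by_cases h : s₀.re + x ≤ a
      · exact hmer x hx h
      · push Not at h
        exact (G.an_right hL (s := s₀ + x) (by simpa using h)).1.meromorphicAt
    exact h1.comp_analyticAt (f := L) (g := fun w => s₀ + w) (by fun_prop)
  have hr : ∀ w : ℂ, 1 < w.re → a < (s₀ + w).re := by
    intro w hw
    rw [Complex.add_re]
    linarith
  have hord2 : meromorphicOrderAt Φ ((2 : ℝ) : ℂ) = 0 := by
    have h1 := G.an_right hL (s := s₀ + ((2 : ℝ) : ℂ)) (hr _ (by simp))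
    have h2 : AnalyticAt ℂ Φ ((2 : ℝ) : ℂ) :=
      AnalyticAt.fun_comp (g := L) (f := fun w => s₀ + w) h1.1 (by fun_prop)
    rw [h2.meromorphicOrderAt_eq, h2.analyticOrderAt_eq_zero.2 h1.2]
    rfl
  have hmon : MeromorphicOn Φ ((fun x : ℝ => (x : ℂ)) '' Icc 0 2) := by
    rintro _ ⟨x, hx, rfl⟩
    exact hmΦ x hx.1
  have hcon : IsPreconnected ((fun x : ℝ => (x : ℂ)) '' Icc 0 2) :=
    isPreconnected_Icc.image _ (by fun_prop)
  have htop : ∀ x ∈ Icc (0 : ℝ) 2, meromorphicOrderAt Φ (x : ℂ) ≠ ⊤ := by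
    intro x hx
    refine hmon.meromorphicOrderAt_ne_top_of_isPreconnected (x := ((2 : ℝ) : ℂ)) hcon
      ⟨2, ⟨by norm_num, le_rfl⟩, rfl⟩ ⟨x, hx, rfl⟩ ?_
    rw [hord2]
    simp
  have h0top := htop 0 ⟨le_rfl, by norm_num⟩
  rw [Complex.ofReal_zero] at h0top
  obtain ⟨m, hm⟩ := WithTop.ne_top_iff_exists.1 h0top
  have hser : ∀ w, sr lam c' w = sr lam c (s₀ + w) := sr_shift s₀
  obtain ⟨η, B, L', r₀, hL1, hL2, hr0⟩ := bel_c Φ (sr lam c')
    (fun x hx => hmΦ x hx.1) htop (fun w hw => by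
      have h1 := G.sr_analytic (hr w hw)
      have h2 : AnalyticAt ℂ (fun w => sr lam c (s₀ + w)) w :=
        AnalyticAt.fun_comp (g := sr lam c) (f := fun w => s₀ + w) h1 (by fun_prop)
      have h3 : sr lam c' = fun w => sr lam c (s₀ + w) := funext hser
      rw [h3]
      exact h2)
    (fun w hw => by rw [hser]; exact hL _ (hr w hw)) m hm.symm
  have D := G.sd hs₀
  have D' : SD lam (fun x => -c' x) := ⟨D.lam_pos, by simp only [norm_neg]; exact D.sum⟩
  have hneg : ∀ w, sr lam (fun x => -c' x) w = -sr lam c' w := by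
    intro w
    unfold sr
    rw [← tsum_neg]
    exact tsum_congr fun i => by ring
  have hcneg : ∀ T, cm lam (fun x => -c' x) γ T = -cm lam c' γ T := by
    intro T
    unfold cm
    rw [← tsum_neg]
    exact tsum_congr fun i => by ring
  obtain ⟨C, T₀, hC, hT₀, h⟩ := refc D' hγ m r₀ L' η B hL1 (fun w h1 h2 h3 => by
    rw [hneg, neg_neg]
    exact hL2 w h1 h2 h3)
  -- back to `L`
  have hcomp : meromorphicOrderAt L s₀ = m ∧
      meromorphicTrailingCoeffAt L s₀ = meromorphicTrailingCoeffAt Φ 0 := by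
    have hL0 : MeromorphicAt L s₀ := by
      have h1 := hmΦ 0 le_rfl
      rw [Complex.ofReal_zero] at h1
      have h3 : MeromorphicAt (Φ ∘ fun z => z - s₀) s₀ := by
        refine MeromorphicAt.comp_analyticAt (f := Φ) (g := fun z => z - s₀) ?_ (by fun_prop)
        simpa using h1
      have h4 : (Φ ∘ fun z => z - s₀) = L := by
        funext z
        simp [hΦ]
      rwa [h4] at h3
    have hmo : meromorphicOrderAt Φ 0 = meromorphicOrderAt L s₀ := by
      have h5 : meromorphicOrderAt (L ∘ fun w => s₀ + w) 0 = meromorphicOrderAt L (s₀ + 0) := by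
        refine meromorphicOrderAt_comp_of_deriv_ne_zero (f := L) (g := fun w => s₀ + w) (by fun_prop) ?_
        simp
      rw [add_zero] at h5
      exact h5
    refine ⟨by rw [← hmo]; exact hm.symm, ?_⟩
    obtain ⟨g, hg1, hg2, hg3⟩ := (meromorphicOrderAt_eq_int_iff hL0).1
      (show meromorphicOrderAt L s₀ = m by rw [← hmo]; exact hm.symm)
    rw [hg1.meromorphicTrailingCoeffAt_of_ne_zero_of_eq_nhdsNE (n := m) hg2 hg3]
    symm
    have hg1' : AnalyticAt ℂ (fun w => g (s₀ + w)) 0 :=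
      AnalyticAt.fun_comp (g := g) (f := fun w => s₀ + w) (by simpa using hg1) (by fun_prop)
    have := hg1'.meromorphicTrailingCoeffAt_of_ne_zero_of_eq_nhdsNE (n := m) (f := Φ)
      (by simpa using hg2) ?_
    · rw [this]; simp
    · have ht : Tendsto (fun w : ℂ => s₀ + w) (𝓝[≠] 0) (𝓝[≠] s₀) := by
        refine tendsto_nhdsWithin_of_tendsto_nhds_of_eventually_within _ ?_ ?_
        · have : ContinuousAt (fun w : ℂ => s₀ + w) 0 := by fun_prop
          have h6 := this.tendsto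
          rw [add_zero] at h6
          exact h6.mono_left nhdsWithin_le_nhds
        · filter_upwards [self_mem_nhdsWithin] with w hw
          simpa using hw
      have h7 := ht.eventually hg3
      filter_upwards [h7] with w hw
      rw [hΦ]
      simp only
      rw [hw]
      simp
  refine ⟨m, r₀, hcomp.1, by rw [hcomp.2, hr0], ?_⟩
  unfold Asy
  refine Asymptotics.IsBigO.of_bound C ?_
  filter_upwards [eventually_ge_atTop T₀] with T hT
  have h1 := h T hT
  rw [hcneg, Lam_eq] at h1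
  rw [Sg_eq]
  have hT0 : 0 < T := by linarith
  have e : ‖(1 / T : ℝ)‖ = 1 / T := by rw [Real.norm_eq_abs, abs_of_pos (by positivity)]
  rw [e, ← div_eq_mul_one_div]
  refine le_trans (le_of_eq ?_) h1
  congr 1
  ring

end

end GD

end Pool.Agent.X287.CR
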