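import Pool.Agent.X287.RSys2
import Pool.Agent.TH942.ES.NF

/-!
# One-sided laws for Euler products: dictionary, and systems of primes of number fields
-/

set_option autoImplicit false

open Filter Topology Complex NumberField IsDedekindDomain
open Pool.Agent.TH942.SL
open Pool.Agent.TH942.ES
open Pool.Agent.H921R2.TatePole (nm two_le_nm nm_summable prime_sum_bdd Bdd Lam)

namespace Pool.Agent.X287.Kit

open Pool.Agent.X287.RS

variable {X : Type} {d : ℕ} {N : X → ℕ} {α : X → Fin d → ℂ} {F G : ℂ → ℂ} {c : ℂ} {c₀ a₀ : ℝ}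
  {lf : X → ℂ → ℂ}

/-- the sector at `c` -/
def InSec (c : ℂ) (ρ : ℝ) (s : ℂ) : Prop := s ≠ c ∧ |Complex.arg (s - c)| < Real.pi / (2 * ρ)

theorem inSec_iff (c : ℂ) (ρ : ℝ) (s : ℂ) : InSec c ρ (c + s) ↔ s ∈ Sect ρ := by
  unfold InSec Sect
  rw [add_sub_cancel_left, Set.mem_ofPred_eq]
  have e2 : c + s ≠ c ↔ s ≠ 0 := by
    constructor
    · intro h h1
      exact h (by rw [h1, add_zero])
    · intro h h1
      exact h (by linear_combination h1)
  rw [e2]

/-- `G` is the `L`-series -/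
def IsL (a₀ : ℝ) (lf : X → ℂ → ℂ) (G : ℂ → ℂ) : Prop :=
  ∀ s : ℂ, a₀ < s.re → HasProd (fun v => lf v s) (G s)

/-- the local factors belong to the system -/
def Loc (N : X → ℕ) (α : X → Fin d → ℂ) (c : ℂ) (lf : X → ℂ → ℂ) : Prop :=
  ∀ v s, lf v (c + s) = ∏ i, (1 - zv N α v i * xv N v s)⁻¹

theorem isL_iff (E : Sys N α) (hlf : Loc N α c lf) (hc : c = c₀) (ha : a₀ = c₀ + 1 / 2) :
    IsL a₀ lf G ↔ ∀ s : ℂ, 1 / 2 < s.re → G (c + s) = LE N α s := by
  have key : ∀ (s g : ℂ), HasProd (fun v => lf v (c + s)) g ↔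
      HasProd (fun v => ∏ i, (1 - zv N α v i * xv N v s)⁻¹) g := by
    intro s g
    have : (fun v => lf v (c + s)) = fun v => ∏ i, (1 - zv N α v i * xv N v s)⁻¹ :=
      funext fun v => hlf v s
    rw [this]
  constructor
  · intro h s hs
    have h1 := h (c + s) (by rw [Complex.add_re, hc, Complex.ofReal_re]; linarith)
    rw [key] at h1
    rw [E.LE_eq hs]
    exact h1.unique (E.hasProd hs)
  · intro h s hs
    have h1 : 1 / 2 < (s - c).re := by rw [Complex.sub_re, hc, Complex.ofReal_re]; linarith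
    have h2 := h (s - c) h1
    have h3 := (key (s - c) (G s)).2
    have e1 : c + (s - c) = s := by ring
    rw [e1] at h2 h3
    rw [h2] at h3 ⊢
    rw [E.LE_eq h1] at h3 ⊢
    exact h3 (E.hasProd h1)

/-- the continuation without zeros -/
def ZF (c : ℂ) (a₀ : ℝ) (lf : X → ℂ → ℂ) (ρ₀ : ℝ) : Prop := ∃ G : ℂ → ℂ, IsL a₀ lf G ∧
  ∀ s : ℂ, InSec c ρ₀ s ∨ a₀ < s.re → DifferentiableAt ℂ G s ∧ G s ≠ 0

theorem zf_iff (E : Sys N α) (hlf : Loc N α c lf) (hc : c = c₀) (ha : a₀ = c₀ + 1 / 2) (ρ₀ : ℝ) :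
    ZF c a₀ lf ρ₀ ↔ ∃ G : ℂ → ℂ, Ext N α ρ₀ G := by
  constructor
  · rintro ⟨G, h1, h2⟩
    have hconv : ∀ s : ℂ, s ∈ Sect ρ₀ ∨ 1 / 2 < s.re → InSec c ρ₀ (c + s) ∨ a₀ < (c + s).re := by
      intro s hs
      rcases hs with hs | hs
      · exact Or.inl ((inSec_iff c ρ₀ s).2 hs)
      · right
        rw [Complex.add_re, hc, Complex.ofReal_re]
        linarith
    refine ⟨fun s => G (c + s), fun s hs => ?_, fun s hs => (h2 _ (hconv s hs)).2, fun s hs => ?_⟩
    · exact (h2 _ (hconv s hs)).1.comp s (differentiableAt_id.const_add c)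
    · exact (isL_iff E hlf hc ha).1 h1 s hs
  · rintro ⟨G, hG⟩
    refine ⟨fun s => G (s - c), ?_, fun s hs => ?_⟩
    · rw [isL_iff E hlf hc ha]
      intro s hs
      simp only [add_sub_cancel_left]
      exact hG.eq s hs
    · have h4 : s - c ∈ Sect ρ₀ ∨ 1 / 2 < (s - c).re := by
        rcases hs with hs | hs
        · left
          rw [← inSec_iff c]
          have e1 : c + (s - c) = s := by ring
          rw [e1]
          exact hs
        · right
          rw [Complex.sub_re, hc, Complex.ofReal_re]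
          linarith
      exact ⟨(hG.diff _ h4).comp s (differentiableAt_id.sub_const c), hG.ne _ h4⟩

/-- analytic at the real points -/
theorem an_all (E : Sys N α) (hlf : Loc N α c lf) (hc : c = c₀) (ha : a₀ = c₀ + 1 / 2)
    (hF : IsL a₀ lf F) (hr : ∀ x : ℝ, c₀ ≤ x → x ≤ a₀ → AnalyticAt ℂ F (x : ℂ)) :
    ∀ x : ℝ, 0 ≤ x → AnalyticAt ℂ (fun s => F (c + s)) (x : ℂ) := by
  intro x hx
  have h1 := (isL_iff E hlf hc ha).1 hF
  rcases le_or_gt x (1 / 2) with h2 | h2
  · have h3 : AnalyticAt ℂ F (c + (x : ℂ)) := by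
      have := hr (c₀ + x) (by linarith) (by linarith)
      rw [hc]
      push_cast at this
      exact this
    exact AnalyticAt.comp (f := fun s : ℂ => c + s) h3 (by fun_prop)
  · have ho : IsOpen {z : ℂ | 1 / 2 < z.re} := isOpen_lt continuous_const Complex.continuous_re
    have h3 : DifferentiableOn ℂ (fun s => F (c + s)) {z : ℂ | 1 / 2 < z.re} := by
      intro s hs
      have hs' : 1 / 2 < s.re := hs
      refine ((E.LE_diff hs').1.congr_of_eventuallyEq ?_).differentiableWithinAt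
      filter_upwards [ho.mem_nhds hs] with z hz
      exact h1 z hz
    exact h3.analyticAt (ho.mem_nhds (show 1 / 2 < ((x : ℂ)).re by rwa [Complex.ofReal_re]))

theorem rcon (E : Sys N α) (hlf : Loc N α c lf) (hc : c = c₀) (ha : a₀ = c₀ + 1 / 2)
    (hF : IsL a₀ lf F) (hr : ∀ x : ℝ, c₀ ≤ x → x ≤ a₀ → AnalyticAt ℂ F (x : ℂ)) :
    RCon N α (fun s => F (c + s)) where
  an := fun x hx => an_all E hlf hc ha hF hr x hx.le
  eq := (isL_iff E hlf hc ha).1 hF

/-- order and leading coefficient of `F` at `c` -/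
def HasOrder (c : ℂ) (F : ℂ → ℂ) (m : ℕ) (A : ℂ) : Prop :=
  A ≠ 0 ∧ Tendsto (fun s => F s / (s - c) ^ m) (𝓝[≠] c) (𝓝 A)

theorem shift_tendsto {f : ℂ → ℂ} {A : ℂ} (c : ℂ) :
    Tendsto (fun s => f (s - c)) (𝓝[≠] c) (𝓝 A) ↔ Tendsto f (𝓝[≠] 0) (𝓝 A) := by
  have h1 : Tendsto (fun s : ℂ => c + s) (𝓝[≠] 0) (𝓝[≠] c) := by
    refine tendsto_nhdsWithin_iff.2 ⟨?_, ?_⟩
    · have : Tendsto (fun s : ℂ => c + s) (𝓝 0) (𝓝 (c + 0)) :=
        (continuous_const.add continuous_id).tendsto 0
      rw [add_zero] at this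
      exact this.mono_left nhdsWithin_le_nhds
    · filter_upwards [self_mem_nhdsWithin] with s hs
      have hs' : s ≠ 0 := hs
      intro h
      simp only [Set.mem_singleton_iff] at h
      exact hs' (by linear_combination h)
  have h2 : Tendsto (fun s : ℂ => s - c) (𝓝[≠] c) (𝓝[≠] 0) := by
    refine tendsto_nhdsWithin_iff.2 ⟨?_, ?_⟩
    · have : Tendsto (fun s : ℂ => s - c) (𝓝 c) (𝓝 (c - c)) :=
        (continuous_id.sub continuous_const).tendsto c
      rw [sub_self] at this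
      exact this.mono_left nhdsWithin_le_nhds
    · filter_upwards [self_mem_nhdsWithin] with s hs
      have hs' : s ≠ c := hs
      simp only [Set.mem_compl_iff, Set.mem_singleton_iff]
      exact sub_ne_zero.2 hs'
  constructor
  · intro h
    refine (h.comp h1).congr fun s => ?_
    simp only [Function.comp_apply, add_sub_cancel_left]
  · intro h
    exact h.comp h2

theorem lead_iff (h0 : AnalyticAt ℂ (fun s => F (c + s)) 0) (m : ℕ) (A : ℂ) :
    HasOrder c F m A ↔ Lead (fun s => F (c + s)) m A := by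
  have h1 : Tendsto (fun s => F s / (s - c) ^ m) (𝓝[≠] c) (𝓝 A) ↔
      Tendsto (fun s => F (c + s) / s ^ m) (𝓝[≠] 0) (𝓝 A) := by
    rw [← shift_tendsto (f := fun s => F (c + s) / s ^ m) c]
    refine tendsto_congr fun s => ?_
    have e1 : c + (s - c) = s := by ring
    simp only [e1]
  constructor
  · rintro ⟨h2, h3⟩
    exact ⟨h0, h2, h1.1 h3⟩
  · intro h2
    exact ⟨h2.ne, h1.2 h2.lim⟩

/-! ### systems -/

/-- real power sums: the sum of the logarithms is real -/
theorem log_real {ι : Type} [Fintype ι] {z : ι → ℂ} (hz : ∀ i, ‖z i‖ < 1)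
    (hr : ∀ k : ℕ, (∑ i, z i ^ k).im = 0) : (∑ i, log (1 - z i)).im = 0 := by
  have h1 : ∀ i, HasSum (fun n : ℕ => z i ^ n / n) (-log (1 - z i)) := fun i =>
    Complex.hasSum_taylorSeries_neg_log (hz i)
  have h2 : HasSum (fun n : ℕ => ∑ i, z i ^ n / n) (∑ i, -log (1 - z i)) :=
    hasSum_sum fun i _ => h1 i
  have h3 := Complex.hasSum_im h2
  have h4 : ∀ n : ℕ, (∑ i, z i ^ n / n).im = 0 := by
    intro n
    have e1 : ∑ i, z i ^ n / n = (∑ i, z i ^ n) * (((n : ℝ)⁻¹ : ℝ) : ℂ) := by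
      rw [Finset.sum_mul]
      refine Finset.sum_congr rfl fun i _ => ?_
      push_cast
      rw [div_eq_mul_inv]
    rw [e1, Complex.im_mul_ofReal, hr n, zero_mul]
  simp only [h4] at h3
  have h5 := h3.unique hasSum_zero
  rw [Finset.sum_neg_distrib, Complex.neg_im] at h5
  linarith

/-- all primes of a number field -/
theorem nf_all {K : Type} [Field K] [NumberField K] {d : ℕ}
    (α : HeightOneSpectrum (𝓞 K) → Fin d → ℂ) (hα : ∀ v i, ‖α v i‖ ≤ 1)
    (hr : Re (fun v : HeightOneSpectrum (𝓞 K) => nm v) α) :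
    Sys (fun v : HeightOneSpectrum (𝓞 K) => nm v) α where
  cnt := by
    have h1 := (nm_summable (K := K) (x := 2) (by norm_num)).countable_support
    have h2 : Function.support (fun v : HeightOneSpectrum (𝓞 K) => (nm v : ℝ) ^ (-(2 : ℝ))) =
        Set.univ := by
      ext v
      simp only [Function.mem_support, Set.mem_univ, iff_true]
      have hp2 : (2 : ℝ) ≤ nm v := by exact_mod_cast two_le_nm v
      have : (0 : ℝ) < nm v := by linarith
      positivity
    rwa [h2, Set.countable_univ_iff] at h1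
  two_le := fun v => two_le_nm v
  sum := fun r hr => nm_summable (K := K) hr
  log_sum := nf_log_sum K
  le := hα
  real := fun v => by
    refine log_real (fun i => ?_) (hr v)
    have hp2 : (2 : ℝ) ≤ nm v := by exact_mod_cast two_le_nm v
    have h1 : 1 < √(nm v : ℝ) := by
      rw [Real.lt_sqrt (by norm_num)]
      linarith
    rw [norm_div, Complex.norm_real, Real.norm_eq_abs, abs_of_pos (by linarith),
      div_lt_one (by linarith)]
    exact (hα v i).trans_lt h1

/-- a set of primes of a number field -/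
theorem nf_sub {K : Type} [Field K] [NumberField K] (p : HeightOneSpectrum (𝓞 K) → Prop) {d : ℕ}
    (α : {v // p v} → Fin d → ℂ) (hα : ∀ v i, ‖α v i‖ ≤ 1)
    (hr : Re (fun v : {v // p v} => nm v.1) α) : Sys (fun v : {v // p v} => nm v.1) α :=
  nf_sys p α hα fun v => by
    refine log_real (fun i => ?_) (hr v)
    have hp2 : (2 : ℝ) ≤ nm v.1 := by exact_mod_cast two_le_nm v.1
    have h1 : 1 < √(nm v.1 : ℝ) := by
      rw [Real.lt_sqrt (by norm_num)]
      linarith
    rw [norm_div, Complex.norm_real, Real.norm_eq_abs, abs_of_pos (by linarith),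
      div_lt_one (by linarith)]
    exact (hα v i).trans_lt h1

end Pool.Agent.X287.Kit
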