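import Pool.Agent.X287.RSys

/-!
# Growth exponents of the sectorial means and zero-free regions
-/

set_option autoImplicit false

open MeasureTheory Filter Topology Set Complex
open Pool.Agent.TH942.LS (Dat P)
open Pool.Agent.TH942.SL
open Pool.Agent.TH942.ES
open Pool.Agent.W263.BSD (LInt lap)
open Pool.Agent.X287.Sect

namespace Pool.Agent.X287.RS

/-- the region `θ < Re s^ρ` in the sector -/
def Hyp (ρ θ : ℝ) : Set ℂ := {s | s ∈ Sect ρ ∧ θ < (s ^ (ρ : ℂ)).re}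

/-- identity along a ray -/
theorem ray_id {f g : ℂ → ℂ} {s : ℂ} (hf : ∀ t : ℝ, 1 ≤ t → AnalyticAt ℂ f (t * s))
    (hg : ∀ t : ℝ, 1 ≤ t → AnalyticAt ℂ g (t * s)) {t₁ : ℝ} (ht₁ : 1 ≤ t₁)
    (he : f =ᶠ[𝓝 ((t₁ : ℂ) * s)] g) : f s = g s := by
  set U : Set ℂ := (fun t : ℝ => (t : ℂ) * s) '' Ici 1 with hU
  have hUc : IsPreconnected U := isPreconnected_Ici.image _ (by fun_prop)
  have a1 : AnalyticOnNhd ℂ f U := by
    rintro _ ⟨t, ht, rfl⟩
    exact hf t ht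
  have a2 : AnalyticOnNhd ℂ g U := by
    rintro _ ⟨t, ht, rfl⟩
    exact hg t ht
  have a3 := a1.eqOn_of_preconnected_of_eventuallyEq a2 hUc (show (t₁ : ℂ) * s ∈ U from
    ⟨t₁, ht₁, rfl⟩) he
  have h1 : s ∈ U := ⟨1, Set.self_mem_Ici, by simp⟩
  exact a3 h1

theorem scale_pow {t : ℝ} (ht : 0 < t) {s : ℂ} (hs : s ≠ 0) (ρ : ℝ) :
    ((t : ℂ) * s) ^ (ρ : ℂ) = ((t ^ ρ : ℝ) : ℂ) * s ^ (ρ : ℂ) := by
  have h0 : (t : ℂ) ≠ 0 := by exact_mod_cast ht.ne'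
  rw [Complex.cpow_def_of_ne_zero (mul_ne_zero h0 hs), Complex.log_ofReal_mul ht hs, add_mul,
    Complex.exp_add, Complex.cpow_def_of_ne_zero hs, Complex.ofReal_cpow ht.le,
    Complex.cpow_def_of_ne_zero h0, Complex.ofReal_log ht.le]

theorem sect_scale {ρ : ℝ} {t : ℝ} (ht : 0 < t) {s : ℂ} (hs : s ∈ Sect ρ) : (t : ℂ) * s ∈ Sect ρ := by
  have h0 : (t : ℂ) ≠ 0 := by exact_mod_cast ht.ne'
  refine ⟨mul_ne_zero h0 hs.1, ?_⟩
  rw [Complex.arg_real_mul _ ht]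
  exact hs.2

theorem hyp_scale {ρ θ : ℝ} (hρ : 1 < ρ) (hθ : 0 ≤ θ) {t : ℝ} (ht : 1 ≤ t) {s : ℂ} (hs : s ∈ Hyp ρ θ) :
    (t : ℂ) * s ∈ Hyp ρ θ := by
  have ht0 : 0 < t := by linarith
  refine ⟨sect_scale ht0 hs.1, ?_⟩
  rw [scale_pow ht0 hs.1.1, Complex.re_ofReal_mul]
  have h1 : 1 ≤ t ^ ρ := Real.one_le_rpow ht (by linarith)
  have h2 := hs.2
  nlinarith

theorem hyp_open {ρ θ : ℝ} (hρ : 1 < ρ) : IsOpen (Hyp ρ θ) := by
  rw [isOpen_iff_mem_nhds]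
  intro s hs
  have h1 : ContinuousAt (fun z : ℂ => (z ^ (ρ : ℂ)).re) s :=
    Complex.continuous_re.continuousAt.comp
      (ContinuousAt.cpow continuousAt_id continuousAt_const (slit (sect_re hρ hs.1)))
  filter_upwards [(sect_open hρ).mem_nhds hs.1, h1.eventually (lt_mem_nhds hs.2)] with z h2 h3
  exact ⟨h2, h3⟩

theorem hyp_far {ρ θ : ℝ} (hρ : 1 < ρ) (hθ : 0 ≤ θ) {s : ℂ} (hs : s ∈ Hyp ρ θ) :
    Tendsto (fun t : ℝ => (((t : ℂ) * s) ^ (ρ : ℂ)).re) atTop atTop := by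
  have h1 : Tendsto (fun t : ℝ => t ^ ρ * (s ^ (ρ : ℂ)).re) atTop atTop :=
    (tendsto_rpow_atTop (by linarith)).atTop_mul_const (lt_of_le_of_lt hθ hs.2)
  refine h1.congr' ?_
  filter_upwards [eventually_gt_atTop 0] with t ht
  rw [scale_pow ht hs.1.1, Complex.re_ofReal_mul]

section dat

variable {lam c : ℕ → ℝ} {δ σ : ℝ} {Ψ G : ℂ → ℂ} {ρ θ : ℝ}

/-- **the continuation to the region** -/
theorem ext_level (D : Dat lam c δ σ) (H : RC lam c σ Ψ) (hρ : 1 < ρ) (hθ : 0 ≤ θ)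
    (hM : ∀ ε : ℝ, 0 < ε → ∃ C y₀ : ℝ, ∀ y, y₀ ≤ y → M lam c ρ⁻¹ y ≤ C * Real.exp ((θ + ε) * y)) :
    ∃ Dh : ℂ → ℂ, (∀ s ∈ Hyp ρ θ, DifferentiableAt ℂ Dh s) ∧
      (∀ s ∈ Hyp ρ θ, σ < s.re → Dh s = DD lam c s) := by
  have hρ0 : 0 < ρ := by linarith
  have h0 : 0 < ρ⁻¹ := by positivity
  have h1 : ρ⁻¹ < 1 := inv_lt_one_of_one_lt₀ hρ
  obtain ⟨x₀, K, f, hf⟩ := exists_fn D h0 h1
  obtain ⟨fh, x₁, hfd, hfx, hfe⟩ := ext_int D h0 h1 hf hθ (fun x hx => by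
    obtain ⟨C, y₀, hC⟩ := hM ((x - θ) / 2) (by linarith)
    exact int_all D H h0 h1 hf (a := θ + (x - θ) / 2) (by linarith) hC (by linarith))
  have hdiff : ∀ s ∈ Hyp ρ θ, DifferentiableAt ℂ (fun s : ℂ => fh (s ^ (ρ : ℂ))) s := by
    intro s hs
    exact DifferentiableAt.comp (f := fun s : ℂ => s ^ (ρ : ℂ)) s (hfd _ hs.2)
      (differentiableAt_id.cpow_const (slit (sect_re hρ hs.1)))
  refine ⟨fun s => fh (s ^ (ρ : ℂ)), hdiff, fun s hs hσ => ?_⟩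
  have hre := sect_re hρ hs.1
  have ho : IsOpen {z : ℂ | σ < z.re} := isOpen_lt continuous_const Complex.continuous_re
  have hσt : ∀ t : ℝ, 1 ≤ t → σ < ((t : ℂ) * s).re := by
    intro t ht
    rw [Complex.re_ofReal_mul]
    nlinarith
  obtain ⟨t₁, h3, h4⟩ := (((hyp_far hρ hθ hs).eventually_gt_atTop x₁).and
    (eventually_ge_atTop 1)).exists
  refine ray_id (f := fun s : ℂ => fh (s ^ (ρ : ℂ))) (g := DD lam c) (s := s) (fun t ht => ?_)
    (fun t ht => ?_) h4 ?_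
  · have h2 : DifferentiableOn ℂ (fun s : ℂ => fh (s ^ (ρ : ℂ))) (Hyp ρ θ) := fun z hz =>
      (hdiff z hz).differentiableWithinAt
    exact h2.analyticAt ((hyp_open hρ).mem_nhds (hyp_scale hρ hθ ht hs))
  · have h2 : DifferentiableOn ℂ (DD lam c) {z : ℂ | σ < z.re} := fun z hz =>
      (dd_deriv D hz).differentiableAt.differentiableWithinAt
    exact h2.analyticAt (ho.mem_nhds (hσt t ht))
  · have hm := hyp_scale hρ hθ h4 hs
    have hc : ContinuousAt (fun z : ℂ => (z ^ (ρ : ℂ)).re) ((t₁ : ℂ) * s) :=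
      Complex.continuous_re.continuousAt.comp
        (ContinuousAt.cpow continuousAt_id continuousAt_const (slit (sect_re hρ hm.1)))
    filter_upwards [hc.eventually (lt_mem_nhds h3), (hyp_open hρ).mem_nhds hm] with z h6 h7
    rw [hfe _ h6]
    obtain ⟨-, h8⟩ := exists_root hρ h7.1.1 h7.1.2
    unfold f₀
    rw [h8]

/-- **zero-free continuation gives the growth exponent** -/
theorem up_level (D : Dat lam c δ σ) (hρ : 1 < ρ) (hθ : 0 ≤ θ)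
    (hd : ∀ s ∈ Hyp ρ θ, DifferentiableAt ℂ G s) (hne : ∀ s ∈ Hyp ρ θ, G s ≠ 0)
    (he : ∀ s ∈ Hyp ρ θ, σ < s.re → G s = exp (-DD lam c s)) {ε : ℝ} (hε : 0 < ε) :
    ∃ C : ℝ, ∀ y : ℝ, 1 ≤ y → |M lam c ρ⁻¹ y| ≤ C * Real.exp ((θ + ε) * y) := by
  have hρ0 : 0 < ρ := by linarith
  have h0 : 0 < ρ⁻¹ := by positivity
  have h1 : ρ⁻¹ < 1 := inv_lt_one_of_one_lt₀ hρ
  have hback : ∀ v : ℂ, 0 < v.re → (v ^ ((ρ⁻¹ : ℝ) : ℂ)) ∈ Sect ρ ∧
      (v ^ ((ρ⁻¹ : ℝ) : ℂ)) ^ (ρ : ℂ) = v := by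
    intro v hv
    refine ⟨⟨ne_zero' (re_pow_pos h0 h1 hv), ?_⟩, ?_⟩
    · refine (arg_pow h0 h1 hv).trans_le (le_of_eq ?_)
      field_simp
    · have e1 := log_pow h0 h1 hv
      have hv0 : v ≠ 0 := ne_zero' hv
      have hw0 : v ^ ((ρ⁻¹ : ℝ) : ℂ) ≠ 0 := ne_zero' (re_pow_pos h0 h1 hv)
      rw [Complex.cpow_def_of_ne_zero hw0, e1]
      have e2 : ((ρ⁻¹ : ℝ) : ℂ) * log v * (ρ : ℂ) = log v := by
        have : (ρ : ℂ) ≠ 0 := by exact_mod_cast hρ0.ne'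
        push_cast
        field_simp
      rw [e2, Complex.exp_log hv0]
  have hmem : ∀ v : ℂ, θ < v.re → (v ^ ((ρ⁻¹ : ℝ) : ℂ)) ∈ Hyp ρ θ := by
    intro v hv
    obtain ⟨e1, e2⟩ := hback v (lt_of_le_of_lt hθ hv)
    exact ⟨e1, by rw [e2]; exact hv⟩
  set χ : ℂ → ℂ := fun v => G (v ^ ((ρ⁻¹ : ℝ) : ℂ)) with hχ
  have hUo : IsOpen {v : ℂ | θ < v.re} := isOpen_lt continuous_const Complex.continuous_re
  have hχd : DifferentiableOn ℂ χ {v : ℂ | θ < v.re} := fun v hv =>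
    (DifferentiableAt.comp (f := fun v : ℂ => v ^ ((ρ⁻¹ : ℝ) : ℂ)) v (hd _ (hmem v hv))
      (pow_deriv (slit (lt_of_le_of_lt hθ hv))).differentiableAt).differentiableWithinAt
  have hχa : ∀ v : ℂ, θ < v.re → AnalyticAt ℂ χ v := fun v hv => hχd.analyticAt (hUo.mem_nhds hv)
  have hχ0 : ∀ v : ℂ, θ < v.re → χ v ≠ 0 := fun v hv => hne _ (hmem v hv)
  set p : ℂ → ℂ := fun v => -(deriv χ v / χ v) with hp
  have hpa : ∀ v : ℂ, θ < v.re → AnalyticAt ℂ p v := fun v hv =>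
    ((hχa v hv).deriv.div (hχa v hv) (hχ0 v hv)).neg
  obtain ⟨g, hg⟩ := convex_primitive hUo (convex_halfSpace_re_gt θ) (f := p)
    fun v hv => (hpa v hv).differentiableAt.differentiableWithinAt
  obtain ⟨x₁, hx11, hx₁⟩ := exists_abscissa h0 h1 σ
  have hfar : ∀ v : ℂ, θ < v.re → x₁ ≤ ‖v‖ → σ < (v ^ ((ρ⁻¹ : ℝ) : ℂ)).re := by
    intro v hv hv2
    have e1 := hx₁ v (lt_of_le_of_lt hθ hv) hv2
    have e2 := re_pow_ge h0 h1 (lt_of_le_of_lt hθ hv)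
    linarith
  have hev : ∀ v : ℂ, θ < v.re → x₁ ≤ ‖v‖ →
      χ =ᶠ[𝓝 v] fun z => exp (-f₀ lam c ρ⁻¹ z) := by
    intro v hv hv2
    have hc : ContinuousAt (fun z : ℂ => (z ^ ((ρ⁻¹ : ℝ) : ℂ)).re) v :=
      Complex.continuous_re.continuousAt.comp
        (pow_deriv (slit (lt_of_le_of_lt hθ hv))).continuousAt
    filter_upwards [hc.eventually (lt_mem_nhds (hfar v hv hv2)), hUo.mem_nhds hv] with z h2 h3
    exact he _ (hmem z h3) h2
  have hpf : ∀ v : ℂ, θ < v.re → x₁ ≤ ‖v‖ → p v = f₁ lam c ρ⁻¹ v := by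
    intro v hv hv2
    have e1 := hev v hv hv2
    have e2 : HasDerivAt (fun z => exp (-f₀ lam c ρ⁻¹ z))
        (exp (-f₀ lam c ρ⁻¹ v) * (-f₁ lam c ρ⁻¹ v)) v :=
      (f₀_deriv D (lt_of_le_of_lt hθ hv) (hfar v hv hv2)).neg.cexp
    have e3 := Complex.exp_ne_zero (-f₀ lam c ρ⁻¹ v)
    rw [hp]
    simp only
    rw [e1.deriv_eq, e2.deriv, e1.eq_of_nhds]
    field_simp
  set x₃ : ℝ := max x₁ θ + 1 with hx₃
  have hx31 : x₁ < x₃ := by rw [hx₃]; linarith [le_max_left x₁ θ]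
  have hx32 : θ < x₃ := by rw [hx₃]; linarith [le_max_right x₁ θ]
  set f : ℂ → ℂ := fun v => g v - g x₃ + f₀ lam c ρ⁻¹ x₃ with hf
  have hfd : ∀ v : ℂ, θ < v.re → HasDerivAt f (p v) v := fun v hv =>
    ((hg v hv).sub_const _).add_const _
  have hfdo : DifferentiableOn ℂ f {v : ℂ | θ < v.re} := fun v hv =>
    (hfd v hv).differentiableAt.differentiableWithinAt
  -- equality in the half plane
  have hnorm : ∀ v : ℂ, x₁ < v.re → x₁ ≤ ‖v‖ := fun v hv => hv.le.trans (Complex.re_le_norm v)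
  have hW : ∀ v : ℂ, max x₁ θ < v.re → f v = f₀ lam c ρ⁻¹ v := by
    intro v hv
    have hWo : IsOpen {v : ℂ | max x₁ θ < v.re} := isOpen_lt continuous_const Complex.continuous_re
    have hd2 : ∀ z ∈ {v : ℂ | max x₁ θ < v.re}, HasDerivAt (fun z => f z - f₀ lam c ρ⁻¹ z) 0 z := by
      intro z hz
      have z1 : x₁ < z.re := (le_max_left _ _).trans_lt hz
      have z2 : θ < z.re := (le_max_right _ _).trans_lt hz
      have e1 := (hfd z z2).sub (f₀_deriv D (lt_of_le_of_lt hθ z2) (hfar z z2 (hnorm z z1)))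
      rwa [hpf z z2 (hnorm z z1), sub_self] at e1
    have h5 := (convex_halfSpace_re_gt (max x₁ θ)).is_const_of_fderivWithin_eq_zero (𝕜 := ℂ)
      (f := fun z => f z - f₀ lam c ρ⁻¹ z)
      (fun z hz => (hd2 z hz).differentiableAt.differentiableWithinAt) (fun z hz => ?_) hv
      (show ((x₃ : ℝ) : ℂ) ∈ {v : ℂ | max x₁ θ < v.re} by
        change max x₁ θ < ((x₃ : ℝ) : ℂ).re
        rw [Complex.ofReal_re, hx₃]
        linarith)
    · have h6 : f x₃ = f₀ lam c ρ⁻¹ x₃ := by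
        rw [hf]
        simp only
        ring
      simp only [h6, sub_self] at h5
      exact sub_eq_zero.1 h5
    · rw [fderivWithin_of_isOpen hWo hz]
      ext
      simp [(hd2 z hz).deriv]
  have hff : ∀ v : ℂ, θ < v.re → x₁ ≤ ‖v‖ → f v = f₀ lam c ρ⁻¹ v := by
    intro v hv hv2
    have hv0 : 0 < v.re := lt_of_le_of_lt hθ hv
    have hT : Tendsto (fun t : ℝ => t * v.re) atTop atTop := tendsto_id.atTop_mul_const hv0
    obtain ⟨t₁, h3, h4⟩ := ((hT.eventually_gt_atTop (max x₁ θ)).and (eventually_ge_atTop 1)).exists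
    have hsc : ∀ t : ℝ, 1 ≤ t → θ < ((t : ℂ) * v).re ∧ x₁ ≤ ‖(t : ℂ) * v‖ := by
      intro t ht
      rw [Complex.re_ofReal_mul, norm_mul, Complex.norm_real, Real.norm_eq_abs,
        abs_of_pos (by linarith)]
      constructor
      · nlinarith
      · nlinarith [norm_nonneg v]
    refine ray_id (f := f) (g := f₀ lam c ρ⁻¹) (fun t ht => ?_) (fun t ht => ?_) h4 ?_
    · exact hfdo.analyticAt (hUo.mem_nhds (hsc t ht).1)
    · obtain ⟨k1, k2⟩ := hsc t ht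
      refine Complex.analyticAt_iff_eventually_differentiableAt.2 ?_
      have hc : ContinuousAt (fun z : ℂ => (z ^ ((ρ⁻¹ : ℝ) : ℂ)).re) ((t : ℂ) * v) :=
        Complex.continuous_re.continuousAt.comp
          (pow_deriv (slit (lt_of_le_of_lt hθ k1))).continuousAt
      filter_upwards [hc.eventually (lt_mem_nhds (hfar _ k1 k2)), hUo.mem_nhds k1] with z h5 h6
      exact (f₀_deriv D (lt_of_le_of_lt hθ h6) h5).differentiableAt
    · have hWo : IsOpen {v : ℂ | max x₁ θ < v.re} :=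
        isOpen_lt continuous_const Complex.continuous_re
      filter_upwards [hWo.mem_nhds (show max x₁ θ < ((t₁ : ℂ) * v).re by
        rw [Complex.re_ofReal_mul]; exact h3)] with z hz
      exact hW z hz
  exact up_gen D h0 h1 hθ (f := f) (f' := p) hfd (fun v hv => (hpa v hv).differentiableAt)
    (x₂ := x₁) (fun v hv hv2 => ⟨hff v hv hv2, hpf v hv hv2⟩) (by linarith)

end dat

end Pool.Agent.X287.RS
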