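import Pool.Agent.X287.Level

/-!
# Growth exponents for Euler products
-/

set_option autoImplicit false

open MeasureTheory Filter Topology Set Complex
open Pool.Agent.TH942.LS (Dat P)
open Pool.Agent.TH942.SL
open Pool.Agent.TH942.ES
open Pool.Agent.X287.Sect

namespace Pool.Agent.X287.RS

variable {X : Type} {d : ℕ} {N : X → ℕ} {α : X → Fin d → ℂ} {F : ℂ → ℂ} {ρ ρ' θ : ℝ}

/-- `G` is a continuation without zeros to the region -/
structure ExtH (N : X → ℕ) (α : X → Fin d → ℂ) (ρ θ : ℝ) (G : ℂ → ℂ) : Prop where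
  diff : ∀ s : ℂ, s ∈ Hyp ρ θ ∨ 1 / 2 < s.re → DifferentiableAt ℂ G s
  ne : ∀ s : ℂ, s ∈ Hyp ρ θ ∨ 1 / 2 < s.re → G s ≠ 0
  eq : ∀ s : ℂ, 1 / 2 < s.re → G s = LE N α s

/-- `C exp ((θ + ε) y)` for all `ε` -/
theorem absorb {S : ℝ → ℝ} (hρ : 0 < ρ) (h : ∀ ε : ℝ, 0 < ε → ∃ C : ℝ, ∀ᶠ Y : ℝ in atTop,
    S Y ≤ C * Real.exp ((θ + ε) * Real.log Y ^ ρ)) {ε : ℝ} (hε : 0 < ε) :
    ∀ᶠ Y : ℝ in atTop, S Y ≤ Real.exp ((θ + ε) * Real.log Y ^ ρ) := by
  obtain ⟨C, hC⟩ := h (ε / 2) (by linarith)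
  have h3 : Tendsto (fun X : ℝ => Real.exp (ε / 2 * Real.log X ^ ρ)) atTop atTop :=
    Real.tendsto_exp_atTop.comp (((tendsto_rpow_atTop hρ).comp
      Real.tendsto_log_atTop).const_mul_atTop (by linarith))
  filter_upwards [hC, h3.eventually_ge_atTop C] with Y e1 e2
  refine e1.trans ?_
  have e3 : Real.exp ((θ + ε) * Real.log Y ^ ρ) =
      Real.exp (ε / 2 * Real.log Y ^ ρ) * Real.exp ((θ + ε / 2) * Real.log Y ^ ρ) := by
    rw [← Real.exp_add]
    congr 1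
    ring
  rw [e3]
  exact mul_le_mul_of_nonneg_right e2 (Real.exp_pos _).le

/-- **one-sided growth gives the continuation** -/
theorem level_cont (E : Sys N α) (hreal : Re N α) (H : RCon N α F) (hρ : 1 < ρ) (hρ' : ρ < ρ')
    (hθ : 0 ≤ θ) (hS : ∀ ε : ℝ, 0 < ε → ∃ C : ℝ, ∀ᶠ Y : ℝ in atTop,
      -StE N α ρ ρ' Y ≤ C * Real.exp ((θ + ε) * Real.log Y ^ ρ)) :
    ∃ G : ℂ → ℂ, ExtH N α ρ θ G := by
  have := E.cnt
  obtain ⟨e, he⟩ := Countable.exists_injective_nat (X × ℕ)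
  have hρ0 : 0 < ρ := by linarith
  have D := dat_neg (E.datS he (σ := 1) (by norm_num))
  obtain ⟨Dh, hD1, hD2⟩ := ext_level D (H.rc E hreal he) hρ hθ (fun ε hε => by
    obtain ⟨C, hC⟩ := hS ε hε
    have hc := (E.St_close he hρ hρ').eventually (Metric.ball_mem_nhds 0 one_pos)
    obtain ⟨y₀, -, hy₀⟩ := ev_y hρ0 (Q := fun _ y => M (lamS N e) (fun n => -cS N α e n) ρ⁻¹ y ≤
      (|C| + 1) * Real.exp ((θ + ε) * y)) (by
        filter_upwards [hC, hc, eventually_gt_atTop 1] with Y e1 e2 e3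
        have hT : 0 < Real.log Y := Real.log_pos e3
        have hy : 0 < Real.log Y ^ ρ := Real.rpow_pos_of_pos hT _
        rw [dist_zero_right, Real.norm_eq_abs] at e2
        have e4 := (abs_lt.1 e2).2
        rw [M_neg]
        have e5 : C * Real.exp ((θ + ε) * Real.log Y ^ ρ) ≤
            |C| * Real.exp ((θ + ε) * Real.log Y ^ ρ) :=
          mul_le_mul_of_nonneg_right (le_abs_self C) (Real.exp_pos _).le
        have e6 : 1 ≤ Real.exp ((θ + ε) * Real.log Y ^ ρ) := Real.one_le_exp (by positivity)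
        rw [add_mul, one_mul]
        linarith)
    exact ⟨_, y₀, hy₀⟩)
  have hDE : ∀ s ∈ Hyp ρ θ, 1 / 2 < s.re → exp (-Dh s) = LE N α s := by
    intro s hs hs2
    have hre := sect_re hρ hs.1
    have ho1 : IsOpen {z : ℂ | 1 / 2 < z.re} := isOpen_lt continuous_const Complex.continuous_re
    have ho : IsOpen {z : ℂ | 1 < z.re} := isOpen_lt continuous_const Complex.continuous_re
    have hT : Tendsto (fun t : ℝ => t * s.re) atTop atTop := tendsto_id.atTop_mul_const hre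
    obtain ⟨t₁, h3, h4⟩ := ((hT.eventually_gt_atTop 1).and (eventually_ge_atTop 1)).exists
    refine ray_id (f := fun s => exp (-Dh s)) (g := LE N α) (s := s) (fun t ht => ?_)
      (fun t ht => ?_) h4 ?_
    · have h2 : DifferentiableOn ℂ (fun s => exp (-Dh s)) (Hyp ρ θ) := fun z hz =>
        (hD1 z hz).neg.cexp.differentiableWithinAt
      exact h2.analyticAt ((hyp_open hρ).mem_nhds (hyp_scale hρ hθ ht hs))
    · have h2 : DifferentiableOn ℂ (LE N α) {z : ℂ | 1 / 2 < z.re} := fun z hz =>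
        (E.LE_diff hz).1.differentiableWithinAt
      exact h2.analyticAt (ho1.mem_nhds (by
        change 1 / 2 < ((t : ℂ) * s).re
        rw [Complex.re_ofReal_mul]
        nlinarith))
    · filter_upwards [(hyp_open hρ).mem_nhds (hyp_scale hρ hθ h4 hs),
        ho.mem_nhds (show 1 < ((t₁ : ℂ) * s).re by rw [Complex.re_ofReal_mul]; exact h3)]
        with z hz1 hz2
      have hz2' : 1 < z.re := hz2
      have := hD2 z hz1 hz2
      rw [DD_neg] at this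
      rw [this, neg_neg]
      exact E.exp_DD hreal he (by linarith)
  set G : ℂ → ℂ := fun s => if 1 / 2 < s.re then LE N α s else exp (-Dh s) with hG
  have hG1 : ∀ s : ℂ, 1 / 2 < s.re → G s = LE N α s := fun s hs => by
    rw [hG]
    simp only
    rw [if_pos hs]
  have hG2 : ∀ s ∈ Hyp ρ θ, G s = exp (-Dh s) := fun s hs => by
    by_cases h2 : 1 / 2 < s.re
    · rw [hG1 s h2, hDE s hs h2]
    · rw [hG]
      simp only
      rw [if_neg h2]
  have ho : IsOpen {z : ℂ | 1 / 2 < z.re} := isOpen_lt continuous_const Complex.continuous_re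
  refine ⟨G, fun s hs => ?_, fun s hs => ?_, hG1⟩
  · rcases hs with hs | hs
    · refine DifferentiableAt.congr_of_eventuallyEq (f := fun s => exp (-Dh s)) ?_ ?_
      · exact (hD1 s hs).neg.cexp
      · filter_upwards [(hyp_open hρ).mem_nhds hs] with z hz
        exact hG2 z hz
    · refine (E.LE_diff hs).1.congr_of_eventuallyEq ?_
      filter_upwards [ho.mem_nhds hs] with z hz
      exact hG1 z hz
  · rcases hs with hs | hs
    · rw [hG2 s hs]
      exact Complex.exp_ne_zero _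
    · rw [hG1 s hs]
      exact (E.LE_diff hs).2

/-- **the continuation gives the growth** -/
theorem level_up (E : Sys N α) (hreal : Re N α) {G : ℂ → ℂ} (hG : ExtH N α ρ θ G) (hρ : 1 < ρ)
    (hρ' : ρ < ρ') (hθ : 0 ≤ θ) {ε : ℝ} (hε : 0 < ε) :
    ∀ᶠ Y : ℝ in atTop, |StE N α ρ ρ' Y| ≤ Real.exp ((θ + ε) * Real.log Y ^ ρ) := by
  have := E.cnt
  obtain ⟨e, he⟩ := Countable.exists_injective_nat (X × ℕ)
  have hρ0 : 0 < ρ := by linarith
  have D := E.datS he (σ := 1) (by norm_num)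
  have Dn := dat_neg D
  refine absorb hρ0 (fun ε hε => ?_) hε
  obtain ⟨C, hC⟩ := up_level Dn hρ hθ (fun s hs => hG.diff s (Or.inl hs))
    (fun s hs => hG.ne s (Or.inl hs)) (fun s hs hs2 => by
      rw [DD_neg, neg_neg, E.exp_DD hreal he (by linarith)]
      exact hG.eq s (by linarith)) hε
  refine ⟨|C| + 1, ?_⟩
  have hc := (E.St_close he hρ hρ').eventually (Metric.ball_mem_nhds 0 one_pos)
  have hT : Tendsto (fun Y : ℝ => Real.log Y ^ ρ) atTop atTop :=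
    (tendsto_rpow_atTop hρ0).comp Real.tendsto_log_atTop
  filter_upwards [hc, hT.eventually_ge_atTop 1] with Y e1 e2
  rw [dist_zero_right, Real.norm_eq_abs] at e1
  have e3 := hC _ e2
  rw [M_neg, abs_neg] at e3
  have e5 : C * Real.exp ((θ + ε) * Real.log Y ^ ρ) ≤
      |C| * Real.exp ((θ + ε) * Real.log Y ^ ρ) :=
    mul_le_mul_of_nonneg_right (le_abs_self C) (Real.exp_pos _).le
  have e6 : 1 ≤ Real.exp ((θ + ε) * Real.log Y ^ ρ) := Real.one_le_exp (by positivity)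
  have e7 : |StE N α ρ ρ' Y| ≤ |StE N α ρ ρ' Y - M (lamS N e) (cS N α e) ρ⁻¹ (Real.log Y ^ ρ)| +
      |M (lamS N e) (cS N α e) ρ⁻¹ (Real.log Y ^ ρ)| := by
    have := abs_add_le (StE N α ρ ρ' Y - M (lamS N e) (cS N α e) ρ⁻¹ (Real.log Y ^ ρ))
      (M (lamS N e) (cS N α e) ρ⁻¹ (Real.log Y ^ ρ))
    rwa [sub_add_cancel] at this
  rw [add_mul, one_mul]
  linarith

/-- **growth exponents and regions** -/
theorem level_iff (E : Sys N α) (hreal : Re N α) (H : RCon N α F) (hρ : 1 < ρ) (hρ' : ρ < ρ')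
    (hθ : 0 ≤ θ) :
    ((∃ G : ℂ → ℂ, ExtH N α ρ θ G) ↔ ∀ ε : ℝ, 0 < ε → ∀ᶠ Y : ℝ in atTop,
      -StE N α ρ ρ' Y ≤ Real.exp ((θ + ε) * Real.log Y ^ ρ)) ∧
    ((∃ G : ℂ → ℂ, ExtH N α ρ θ G) ↔ ∀ ε : ℝ, 0 < ε → ∀ᶠ Y : ℝ in atTop,
      |StE N α ρ ρ' Y| ≤ Real.exp ((θ + ε) * Real.log Y ^ ρ)) := by
  have h1 : (∃ G : ℂ → ℂ, ExtH N α ρ θ G) → ∀ ε : ℝ, 0 < ε → ∀ᶠ Y : ℝ in atTop,
      |StE N α ρ ρ' Y| ≤ Real.exp ((θ + ε) * Real.log Y ^ ρ) := by
    rintro ⟨G, hG⟩ ε hε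
    exact level_up E hreal hG hρ hρ' hθ hε
  have h2 : (∀ ε : ℝ, 0 < ε → ∀ᶠ Y : ℝ in atTop,
      |StE N α ρ ρ' Y| ≤ Real.exp ((θ + ε) * Real.log Y ^ ρ)) → ∀ ε : ℝ, 0 < ε →
      ∀ᶠ Y : ℝ in atTop, -StE N α ρ ρ' Y ≤ Real.exp ((θ + ε) * Real.log Y ^ ρ) := by
    intro h ε hε
    filter_upwards [h ε hε] with Y e1
    exact (neg_le_abs _).trans e1
  have h3 : (∀ ε : ℝ, 0 < ε → ∀ᶠ Y : ℝ in atTop,
      -StE N α ρ ρ' Y ≤ Real.exp ((θ + ε) * Real.log Y ^ ρ)) → ∃ G : ℂ → ℂ, ExtH N α ρ θ G :=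
    fun h => level_cont E hreal H hρ hρ' hθ fun ε hε => ⟨1, by simpa using h ε hε⟩
  exact ⟨⟨fun h => h2 (h1 h), h3⟩, ⟨h1, fun h => h3 (h2 h)⟩⟩

end Pool.Agent.X287.RS
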