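import Pool.Agent.X287.MTFun
import Pool.Agent.X144.MT.Final

/-!
# The monotone triangle function satisfies the relations of the word algebra
-/

namespace Pool.Agent.X287.MTAl

open Pool.Agent.X287.MTRing Pool.Agent.X287.MTFun

/-- The monotone triangle function of a list of any length. -/
noncomputable def F (l : List ℤ) : ℤ := Pool.Agent.X144.MT.al l.length l

theorem S_eq (g : List ℤ → ℤ) (u : List ℤ) (a : ℤ) (k : ℕ) :
    S T0 a k g u = Pool.Agent.X144.MT.E (fun l => g (u ++ [l])) a (a + k) := by
  induction k with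
  | zero => simp [S, Pool.Agent.X144.MT.E]
  | succ k ih =>
    rw [S, LinearMap.add_apply, Pi.add_apply, ih, T0_apply]
    have : a + ((k + 1 : ℕ) : ℤ) = a + k + 1 := by push_cast; ring
    rw [this]
    simp only [Pool.Agent.X144.MT.E, Pool.Agent.X144.MT.P_succ]
    ring

theorem I_eq (g : List ℤ → ℤ) (u : List ℤ) (a b : ℤ) :
    I T0 a b g u = Pool.Agent.X144.MT.E (fun l => g (u ++ [l])) a b + g (u ++ [b]) := by
  have e1 : Pool.Agent.X144.MT.E (fun l => g (u ++ [l])) a b + g (u ++ [b])
      = Pool.Agent.X144.MT.E (fun l => g (u ++ [l])) a (b + 1) := by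
    simp only [Pool.Agent.X144.MT.E, Pool.Agent.X144.MT.P_succ]
    ring
  rw [e1, I]
  split_ifs with h
  · rw [S_eq]
    congr 1
    omega
  · rw [LinearMap.neg_apply, Pi.neg_apply, S_eq]
    have : b + 1 + ((a - 1 - b).toNat : ℤ) = a := by omega
    rw [this]
    simp only [Pool.Agent.X144.MT.E]
    ring

theorem I_succ {A : Type*} [Ring A] (t : ℤ → A) (a b : ℤ) : I t (a + 1) b = I t a b - t a := by
  unfold I
  split_ifs with h1 h2 h2
  · have : (b + 1 - a).toNat = (b + 1 - (a + 1)).toNat + 1 := by omega
    rw [this, S_succ_left]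
    abel
  · omega
  · have h3 : a = b + 1 := by omega
    subst h3
    have e1 : (b + 1 + 1 - 1 - b).toNat = 1 := by omega
    have e2 : (b + 1 - (b + 1)).toNat = 0 := by omega
    rw [e1, e2]
    simp [S]
  · have : (a + 1 - 1 - b).toNat = (a - 1 - b).toNat + 1 := by omega
    rw [this, S]
    have e : b + 1 + ((a - 1 - b).toNat : ℤ) = a := by omega
    rw [e]
    abel

theorem D_succ {A : Type*} [Ring A] (t : ℤ → A) (a : ℤ) (r : List ℤ) :
    D t ((a + 1) :: r) = D t (a :: r) - t a * D t r := by
  cases r with
  | nil => simp [D]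
  | cons b w =>
    simp only [D]
    rw [I_succ]
    noncomm_ring

/-- The row step in terms of the extended summation. -/
theorem D_eq_T (f : List ℤ → ℤ) : ∀ (r : List ℤ) (u : List ℤ) (k : ℤ),
    D T0 (k :: r) f u = Pool.Agent.X144.MT.T (fun s => f (u ++ s)) k r := by
  intro r
  induction r with
  | nil => intro u k; simp [D, Pool.Agent.X144.MT.T]
  | cons k2 r ih =>
    intro u k
    rw [Pool.Agent.X144.MT.T_cons]
    have h1 : ∀ l, Pool.Agent.X144.MT.T (fun s => f (u ++ l :: s)) k2 r
        = D T0 (k2 :: r) f (u ++ [l]) := by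
      intro l
      rw [ih]
      simp
    have h2 : Pool.Agent.X144.MT.T (fun s => f (u ++ k2 :: s)) (k2 + 1) r
        = D T0 ((k2 + 1) :: r) f (u ++ [k2]) := by
      rw [ih]
      simp
    rw [Pool.Agent.X144.MT.E_congr h1, h2, D_succ]
    simp only [D, LinearMap.sub_apply, Module.End.mul_apply, Pi.sub_apply, T0_apply, I_eq]
    ring

theorem T_congr_len : ∀ (r : List ℤ) {A B : List ℤ → ℤ} (k : ℤ)
    (_ : ∀ s, s.length = r.length → A s = B s),
    Pool.Agent.X144.MT.T A k r = Pool.Agent.X144.MT.T B k r := by
  intro r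
  induction r with
  | nil =>
    intro A B k h
    rw [Pool.Agent.X144.MT.T_nil, Pool.Agent.X144.MT.T_nil]
    exact h [] rfl
  | cons k2 r ih =>
    intro A B k h
    rw [Pool.Agent.X144.MT.T_cons, Pool.Agent.X144.MT.T_cons]
    have h1 : ∀ l, Pool.Agent.X144.MT.T (fun s => A (l :: s)) k2 r
        = Pool.Agent.X144.MT.T (fun s => B (l :: s)) k2 r := by
      intro l
      exact ih k2 (fun s hs => h (l :: s) (by simp [hs]))
    rw [Pool.Agent.X144.MT.E_congr h1, ih (k2 + 1) (fun s hs => h (k2 :: s) (by simp [hs]))]

/-- The monotone triangle function is its own row step. -/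
theorem F_row (l : List ℤ) (hl : l ≠ []) : F l = row F l := by
  cases l with
  | nil => exact absurd rfl hl
  | cons k r =>
    rw [row, D_eq_T]
    change Pool.Agent.X144.MT.T (Pool.Agent.X144.MT.al r.length) k r = _
    apply T_congr_len
    intro s hs
    simp only [List.nil_append, F, hs]

/-- The cubic relation. -/
theorem al_cub (m : ℕ) (p r : List ℤ) (hm : m = p.length + r.length + 3) (x y : ℤ) :
    Pool.Agent.X144.MT.al m (p ++ x :: y :: y :: r)
      + Pool.Agent.X144.MT.al m (p ++ y :: x :: y :: r)
      + Pool.Agent.X144.MT.al m (p ++ y :: y :: x :: r) = 0 := by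
  have vx : Pool.Agent.X144.MT.PF (fun e => x + e 0) :=
    (Pool.Agent.X144.MT.PF_const x).add (Pool.Agent.X144.MT.PF_var 0)
  have vy : Pool.Agent.X144.MT.PF (fun e => y + e 0) :=
    (Pool.Agent.X144.MT.PF_const y).add (Pool.Agent.X144.MT.PF_var 0)
  have hPF := ((Pool.Agent.X144.MT.PF_window m p r hm vx vy vy).add
    (Pool.Agent.X144.MT.PF_window m p r hm vy vx vy)).add
    (Pool.Agent.X144.MT.PF_window m p r hm vy vy vx)
  have h := hPF.alternating (fun s => ?_) 0
  · simpa using h
  · have a1 := Pool.Agent.X144.MT.R12_al m p r (x + s + 1) (y + s) (y + s)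
    have a2 := Pool.Agent.X144.MT.R12_al m p r (y + s + 1) (x + s) (y + s)
    have b1 := Pool.Agent.X144.MT.R23_al m p r (x + s) (y + s) (y + s)
    have b2 := Pool.Agent.X144.MT.R23_al m p r (y + s) (x + s) (y + s)
    simp only [Pool.Agent.X144.MT.V] at a1 a2 b1 b2
    have e1 : x + (s + 1) = x + s + 1 := by ring
    have e2 : y + (s + 1) = y + s + 1 := by ring
    simp only [e1, e2]
    linarith

/-- The monotone triangle function satisfies all relations of the word algebra. -/
theorem F_ctx : Ctx F where
  rel u s x y := by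
    have h := Pool.Agent.X144.MT.RR_al (u.length + s.length + 2) u s x y
    simp only [Pool.Agent.X144.MT.V] at h
    simp only [F, List.length_append, List.length_cons]
    have e : u.length + (s.length + 1 + 1) = u.length + s.length + 2 := by ring
    rw [e]
    exact h
  cube u s x := by
    have h := Pool.Agent.X144.MT.al_triple (u.length + s.length + 3) u s rfl x
    simp only [F, List.length_append, List.length_cons]
    have e : u.length + (s.length + 1 + 1 + 1) = u.length + s.length + 3 := by ring
    rw [e]
    exact h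
  cub u s x y := by
    have h := al_cub (u.length + s.length + 3) u s rfl x y
    simp only [F, List.length_append, List.length_cons]
    have e : u.length + (s.length + 1 + 1 + 1) = u.length + s.length + 3 := by ring
    rw [e]
    exact h

/-- **The reverse-and-duplicate identity.** -/
theorem F_sigma (i k r : ℕ) : F (sigma i k r) = F (inc 1 (i + k + r)) :=
  sigma_eq F_ctx F_row i k r

end Pool.Agent.X287.MTAl
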