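import Pool.Agent.X287.MTRing

/-!
# From functions on words to the word algebra
-/

namespace Pool.Agent.X287.MTFun

open Pool.Agent.X287.MTRing

/-- Functions of words which satisfy the quadratic and cubic relations in every context. -/
structure Ctx (f : List ℤ → ℤ) : Prop where
  rel : ∀ u s x y, f (u ++ x :: y :: s) - f (u ++ x :: (y + 1) :: s)
      + f (u ++ (x + 1) :: (y + 1) :: s)
      + (f (u ++ y :: x :: s) - f (u ++ y :: (x + 1) :: s)
        + f (u ++ (y + 1) :: (x + 1) :: s)) = 0
  cube : ∀ u s x, f (u ++ x :: x :: x :: s) = 0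
  cub : ∀ u s x y, f (u ++ x :: y :: y :: s) + f (u ++ y :: x :: y :: s)
      + f (u ++ y :: y :: x :: s) = 0

theorem Ctx.adj {f : List ℤ → ℤ} (h : Ctx f) (u s : List ℤ) (x : ℤ) :
    f (u ++ x :: (x + 1) :: s) = f (u ++ x :: x :: s) + f (u ++ (x + 1) :: (x + 1) :: s) := by
  have := h.rel u s x x
  omega

/-- The module of such functions. -/
def M : Submodule ℤ (List ℤ → ℤ) where
  carrier := {f | Ctx f}
  zero_mem' := ⟨by simp, by simp, by simp⟩
  add_mem' := by
    intro a b ha hb
    refine ⟨fun u s x y => ?_, fun u s x => ?_, fun u s x y => ?_⟩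
    · have h1 := ha.rel u s x y
      have h2 := hb.rel u s x y
      simp only [Pi.add_apply]
      linarith
    · simp only [Pi.add_apply, ha.cube, hb.cube, add_zero]
    · have h1 := ha.cub u s x y
      have h2 := hb.cub u s x y
      simp only [Pi.add_apply]
      linarith
  smul_mem' := by
    intro c a ha
    refine ⟨fun u s x y => ?_, fun u s x => ?_, fun u s x y => ?_⟩
    · have h1 := ha.rel u s x y
      simp only [Pi.smul_apply, smul_eq_mul]
      linear_combination c * h1
    · simp only [Pi.smul_apply, ha.cube, smul_zero]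
    · have h1 := ha.cub u s x y
      simp only [Pi.smul_apply, smul_eq_mul]
      linear_combination c * h1

theorem mem_M {f : List ℤ → ℤ} : f ∈ M ↔ Ctx f := Iff.rfl

/-- Appending a letter, on all functions. -/
def T0 (x : ℤ) : Module.End ℤ (List ℤ → ℤ) where
  toFun f := fun w => f (w ++ [x])
  map_add' _ _ := rfl
  map_smul' _ _ := rfl

@[simp] theorem T0_apply (x : ℤ) (f : List ℤ → ℤ) (w : List ℤ) : T0 x f w = f (w ++ [x]) := rfl

theorem T0_mem (x : ℤ) {f : List ℤ → ℤ} (hf : f ∈ M) : T0 x f ∈ M := by
  have h := mem_M.1 hf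
  refine ⟨fun u s a b => ?_, fun u s a => ?_, fun u s a b => ?_⟩
  · simpa using h.rel u (s ++ [x]) a b
  · simpa using h.cube u (s ++ [x]) a
  · simpa using h.cub u (s ++ [x]) a b

/-- Appending a letter, on the module of functions with the relations. -/
def T (x : ℤ) : Module.End ℤ M := (T0 x).restrict (fun _ hf => T0_mem x hf)

@[simp] theorem T_apply (x : ℤ) (f : M) (w : List ℤ) : (T x f : List ℤ → ℤ) w = f.1 (w ++ [x]) :=
  rfl

theorem T_coe (x : ℤ) (f : M) : ((T x f : M) : List ℤ → ℤ) = T0 x f.1 := rfl

theorem T_rel : Rel T where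
  rel x y := by
    ext f w
    have := f.2.rel w [] x y
    simpa using this
  adj x := by
    ext f w
    have := Ctx.adj f.2 w [] x
    simpa using this
  cube x := by
    ext f w
    have := f.2.cube w [] x
    simpa using this
  cub x y := by
    ext f w
    have := f.2.cub w [] x y
    simpa using this

theorem prod_apply (l : List ℤ) (f : List ℤ → ℤ) (w : List ℤ) :
    (l.map T0).prod f w = f (w ++ l) := by
  induction l generalizing w with
  | nil => simp
  | cons x l ih =>
    rw [List.map_cons, List.prod_cons, Module.End.mul_apply, T0_apply, ih]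
    simp

theorem prod_coe (l : List ℤ) (f : M) :
    (((l.map T).prod f : M) : List ℤ → ℤ) = (l.map T0).prod f.1 := by
  induction l generalizing f with
  | nil => simp
  | cons x l ih =>
    rw [List.map_cons, List.prod_cons, Module.End.mul_apply, T_coe, ih]
    simp

theorem S_coe (a : ℤ) (k : ℕ) (f : M) :
    ((S T a k f : M) : List ℤ → ℤ) = S T0 a k f.1 := by
  induction k with
  | zero => simp [S]
  | succ k ih => simp [S, ih, T_coe]

theorem I_coe (a b : ℤ) (f : M) : ((I T a b f : M) : List ℤ → ℤ) = I T0 a b f.1 := by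
  unfold I
  split_ifs <;> simp [S_coe]

theorem D_coe : ∀ (l : List ℤ) (f : M), ((D T l f : M) : List ℤ → ℤ) = D T0 l f.1
  | [], f => by simp [D]
  | [_], f => by simp [D]
  | a :: b :: w, f => by
    have h1 := D_coe (b :: w) f
    have h2 := D_coe w f
    simp only [D, LinearMap.sub_apply, Module.End.mul_apply, Submodule.coe_sub, I_coe, T_coe, h1,
      h2]

theorem P_add {A : Type*} [Ring A] (t : ℤ → A) (p : ℤ) (i r : ℕ) :
    P t p (i + r) = P t p i * P t (p + i) r := by
  induction r with
  | zero => simp [P, inc]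
  | succ r ih =>
    rw [← add_assoc, P_succ_right, ih, P_succ_right, mul_assoc]
    congr 3
    push_cast
    ring

/-- The row step of a function. -/
def row (f : List ℤ → ℤ) (l : List ℤ) : ℤ := D T0 l f []

/-- `1, …, i-1`, then `m, m, m-1, m-1, …, i, i` (`k` doubled letters), then the rest. -/
def sigma (i k r : ℕ) : List ℤ := inc 1 i ++ (omL (1 + i) k ++ inc (1 + i + k) r)

/-- Equal words of operators give equal values. -/
theorem eq_of_prod {f : List ℤ → ℤ} (hf : Ctx f) {l l' : List ℤ}
    (h : (l.map T).prod = (l'.map T).prod) : f l = f l' := by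
  have e1 := prod_apply l f []
  have e2 := prod_apply l' f []
  rw [List.nil_append] at e1 e2
  have hm : f ∈ M := hf
  have e3 := prod_coe l ⟨f, hm⟩
  have e4 := prod_coe l' ⟨f, hm⟩
  rw [← e1, ← e2]
  change (l.map T0).prod (⟨f, hm⟩ : M).1 [] = (l'.map T0).prod (⟨f, hm⟩ : M).1 []
  rw [← e3, ← e4, h]

/-- If the row step of a word is a word, the values agree. -/
theorem eq_of_row {f : List ℤ → ℤ} (hf : Ctx f) {l l' : List ℤ} (hrow : f l = row f l)
    (h : D T l = (l'.map T).prod) : f l = f l' := by
  have e2 := prod_apply l' f []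
  rw [List.nil_append] at e2
  have hm : f ∈ M := hf
  have e3 := D_coe l ⟨f, hm⟩
  have e4 := prod_coe l' ⟨f, hm⟩
  rw [hrow, row, ← e2]
  change D T0 l (⟨f, hm⟩ : M).1 [] = (l'.map T0).prod (⟨f, hm⟩ : M).1 []
  rw [← e3, ← e4, h]

/-- **The reverse-and-duplicate identity at the level of functions.** -/
theorem sigma_eq {f : List ℤ → ℤ} (hf : Ctx f) (hrow : ∀ l : List ℤ, l ≠ [] → f l = row f l)
    (i k r : ℕ) : f (sigma i k r) = f (inc 1 (i + k + r)) := by
  -- move the doubled block to the front
  have h1 : f (sigma i k r) = f (omL 1 k ++ inc (1 + k) (i + r)) := by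
    apply eq_of_prod hf
    have hs := T_rel.slide_inc 1 i k
    have hP := P_add T (1 + k) i r
    have e5 : (1 : ℤ) + i + k = 1 + k + i := by ring
    rw [sigma, List.map_append, List.prod_append, List.map_append, List.prod_append,
      List.map_append, List.prod_append, omL_prod, omL_prod, e5, ← mul_assoc]
    simp only [P] at hs hP
    rw [hs, hP, mul_assoc]
  rw [h1]
  have e : i + k + r = k + (i + r) := by ring
  rw [e]
  clear h1 e
  generalize i + r = m at *
  -- now remove the doubled letters one after another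
  induction k generalizing m with
  | zero => simp [omL]
  | succ k ih =>
    have h2 : f (omL 1 (k + 1) ++ inc (1 + (k + 1 : ℕ)) m)
        = f (omL 1 k ++ inc (1 + k) (m + 1)) := by
      apply eq_of_row hf (hrow _ (by simp [omL]))
      rw [T_rel.step 1 k m, List.map_append, List.prod_append, omL_prod, P]
    rw [h2, ih (m + 1)]
    congr 2
    ring

end Pool.Agent.X287.MTFun
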