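import Mathlib

/-!
# The word algebra of the monotone triangle polynomial

A ring `A` with a family `t : ℤ → A` satisfying the quadratic relations of Fischer's shift
antisymmetry, and the cubic relations which follow from them for polynomial functions.
-/

namespace Pool.Agent.X287.MTRing

open Finset

variable {A : Type*} [Ring A]

/-- The relations between the letters. -/
structure Rel (t : ℤ → A) : Prop where
  rel : ∀ x y, t x * t y - t x * t (y + 1) + t (x + 1) * t (y + 1)
      + (t y * t x - t y * t (x + 1) + t (y + 1) * t (x + 1)) = 0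
  adj : ∀ x, t x * t (x + 1) = t x * t x + t (x + 1) * t (x + 1)
  cube : ∀ x, t x * (t x * t x) = 0
  cub : ∀ x y, t x * (t y * t y) + t y * (t x * t y) + t y * (t y * t x) = 0

/-- The mirrored family in the opposite ring. -/
def mir (t : ℤ → A) : ℤ → Aᵐᵒᵖ := fun x => MulOpposite.op (t (-x))

theorem Rel.mir {t : ℤ → A} (h : Rel t) : Rel (mir t) where
  rel x y := by
    have e := h.rel (-y - 1) (-x - 1)
    simp only [sub_add_cancel] at e
    apply MulOpposite.unop_injective
    simp only [MTRing.mir, MulOpposite.unop_add, MulOpposite.unop_sub, MulOpposite.unop_mul,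
      MulOpposite.unop_op, MulOpposite.unop_zero, neg_add]
    rw [← sub_eq_add_neg, ← sub_eq_add_neg]
    rw [← e]
    abel
  adj x := by
    have e := h.adj (-x - 1)
    simp only [sub_add_cancel] at e
    apply MulOpposite.unop_injective
    simp only [MTRing.mir, MulOpposite.unop_add, MulOpposite.unop_mul,
      MulOpposite.unop_op, neg_add]
    rw [← sub_eq_add_neg, e]
    abel
  cube x := by
    apply MulOpposite.unop_injective
    simp only [MTRing.mir, MulOpposite.unop_mul, MulOpposite.unop_op, MulOpposite.unop_zero]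
    rw [mul_assoc, h.cube]
  cub x y := by
    have e := h.cub (-x) (-y)
    apply MulOpposite.unop_injective
    simp only [MTRing.mir, MulOpposite.unop_add, MulOpposite.unop_mul, MulOpposite.unop_op,
      MulOpposite.unop_zero]
    rw [← e]
    noncomm_ring

/-- Sum of the letters `a, a+1, …, a+k-1`. -/
def S (t : ℤ → A) (a : ℤ) : ℕ → A
  | 0 => 0
  | k + 1 => S t a k + t (a + k)

theorem S_succ_left (t : ℤ → A) (a : ℤ) (k : ℕ) : S t a (k + 1) = t a + S t (a + 1) k := by
  induction k with
  | zero => simp [S]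
  | succ k ih =>
    rw [S, ih, S]
    push_cast
    rw [show a + 1 + (k : ℤ) = a + (k + 1) by ring]
    abel

/-- Moving the largest letter to the left. -/
theorem Rel.move {t : ℤ → A} (h : Rel t) (x : ℤ) (k : ℕ) :
    t x * t (x + k + 1) = t (x + k + 1) * S t (x + 1) (k + 1) + S t x k * t (x + k)
      + t (x + k) * t x := by
  induction k generalizing x with
  | zero =>
    simp only [Nat.cast_zero, add_zero, S, zero_add]
    rw [h.adj]
    simp only [add_zero, zero_mul]
    abel
  | succ k ih =>
    have e := ih (x + 1)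
    have r := h.rel x (x + k + 1)
    have e1 : x + 1 + (k : ℤ) + 1 = x + (k + 1 : ℕ) + 1 := by push_cast; ring
    have e2 : x + 1 + (k : ℤ) = x + (k + 1 : ℕ) := by push_cast; ring
    have e3 : x + (k : ℤ) + 1 = x + (k + 1 : ℕ) := by push_cast; ring
    rw [e1, e2] at e
    rw [e3] at r
    rw [S_succ_left t (x + 1) (k + 1), S_succ_left t x k]
    have q : t x * t (x + (k + 1 : ℕ) + 1) = t x * t (x + (k + 1 : ℕ))
        + t (x + 1) * t (x + (k + 1 : ℕ) + 1)
        + (t (x + (k + 1 : ℕ)) * t x - t (x + (k + 1 : ℕ)) * t (x + 1)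
          + t (x + (k + 1 : ℕ) + 1) * t (x + 1)) := by
      rw [← sub_eq_zero, ← neg_eq_zero, ← r]
      abel
    rw [q, e]
    noncomm_ring

/-- Combinations of words of length at least `L` with letters in `[p, q]`. -/
def W (t : ℤ → A) (p q : ℤ) (L : ℕ) : AddSubgroup A :=
  AddSubgroup.closure {a | ∃ w : List ℤ, L ≤ w.length ∧ (∀ x ∈ w, p ≤ x ∧ x ≤ q) ∧
    a = (w.map t).prod}

theorem W_mono (t : ℤ → A) (p q : ℤ) {L L' : ℕ} (hL : L ≤ L') : W t p q L' ≤ W t p q L := by
  apply AddSubgroup.closure_mono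
  rintro a ⟨w, h1, h2, h3⟩
  exact ⟨w, hL.trans h1, h2, h3⟩

theorem W_mul (t : ℤ → A) (p q : ℤ) (L : ℕ) {x : ℤ} (hx : p ≤ x ∧ x ≤ q) {v : A}
    (hv : v ∈ W t p q L) : t x * v ∈ W t p q (L + 1) := by
  refine AddSubgroup.closure_induction (p := fun v _ => t x * v ∈ W t p q (L + 1))
    ?_ ?_ ?_ ?_ hv
  · rintro a ⟨w, h1, h2, rfl⟩
    apply AddSubgroup.subset_closure
    refine ⟨x :: w, by simpa using h1, ?_, by simp⟩
    intro y hy
    rcases List.mem_cons.1 hy with rfl | hy
    · exact hx
    · exact h2 y hy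
  · simp
  · intro a b _ _ ha hb
    rw [mul_add]
    exact add_mem ha hb
  · intro a _ ha
    rw [mul_neg]
    exact neg_mem ha

theorem W_S_mul (t : ℤ → A) (p q : ℤ) (L : ℕ) (a : ℤ) (k : ℕ) (ha : p ≤ a)
    (hb : a + k ≤ q + 1) {v : A} (hv : v ∈ W t p q L) : S t a k * v ∈ W t p q (L + 1) := by
  induction k with
  | zero => simp [S]
  | succ k ih =>
    rw [S, add_mul]
    push_cast at hb
    exact add_mem (ih (by linarith)) (W_mul t p q L ⟨by linarith, by linarith⟩ hv)

theorem Rel.decomp {t : ℤ → A} (h : Rel t) (p q : ℤ) (w : List ℤ)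
    (hw : ∀ x ∈ w, p ≤ x ∧ x ≤ q) :
    ∃ v2 ∈ W t p (q - 1) (w.length - 2), ∃ v1 ∈ W t p (q - 1) (w.length - 1),
      ∃ v0 ∈ W t p (q - 1) w.length,
      (w.map t).prod = t q * (t q * v2) + t q * v1 + v0 := by
  induction w with
  | nil =>
    refine ⟨0, zero_mem _, 0, zero_mem _, 1, ?_, by simp⟩
    apply AddSubgroup.subset_closure
    exact ⟨[], by simp, by simp, by simp⟩
  | cons x w ih =>
    obtain ⟨v2, h2, v1, h1, v0, h0, e⟩ := ih (fun y hy => hw y (List.mem_cons_of_mem _ hy))
    have hx := hw x List.mem_cons_self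
    rw [List.map_cons, List.prod_cons, e]
    simp only [List.length_cons]
    set n := w.length with hn
    rcases eq_or_lt_of_le hx.2 with rfl | hlt
    · refine ⟨v1, W_mono _ _ _ (by omega) h1, v0, W_mono _ _ _ (by omega) h0, 0, zero_mem _, ?_⟩
      have c := h.cube x
      have : t x * (t x * (t x * v2)) = 0 := by
        simpa only [mul_assoc, zero_mul] using congrArg (· * v2) c
      rw [mul_add, mul_add, this]
      simp
    · obtain ⟨k, hk⟩ : ∃ k : ℕ, q = x + k + 1 := ⟨(q - x - 1).toNat, by omega⟩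
      have m := h.move x k
      rw [← hk] at m
      have hk' : x + (k : ℤ) = q - 1 := by omega
      rw [hk'] at m
      have c := h.cub x q
      have c3 := h.cube q
      have hS : S t (x + 1) (k + 1) = S t (x + 1) k + t q := by
        rw [S]
        congr 2
        omega
      -- the three terms
      have e0 : t x * v0 ∈ W t p (q - 1) (n + 1) := W_mul _ _ _ _ ⟨hx.1, by omega⟩ h0
      have mulr : ∀ v : A, t x * (t q * v) = t q * (t q * v) + t q * (S t (x + 1) k * v)
          + (S t x k * (t (q - 1) * v) + t (q - 1) * (t x * v)) := by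
        intro v
        rw [← mul_assoc, m, hS]
        noncomm_ring
      have mulr2 : ∀ v : A, t x * (t q * (t q * v)) = - (t q * (t q * (t x * v)))
          - t q * (t q * (S t (x + 1) k * v))
          - t q * (S t x k * (t (q - 1) * v) + t (q - 1) * (t x * v)) := by
        intro v
        have c' : t x * (t q * (t q * v)) = - (t q * (t x * (t q * v)))
            - t q * (t q * (t x * v)) := by
          have : (t x * (t q * t q) + t q * (t x * t q) + t q * (t q * t x)) * v = 0 := by
            rw [c, zero_mul]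
          rw [← sub_eq_zero, ← this]
          noncomm_ring
        have c3' : t q * (t q * (t q * v)) = 0 := by
          simpa only [mul_assoc, zero_mul] using congrArg (· * v) c3
        rw [c', mulr v, mul_add, mul_add, c3']
        noncomm_ring
      have B1 : ∀ L, ∀ v ∈ W t p (q - 1) L,
          S t x k * (t (q - 1) * v) + t (q - 1) * (t x * v) ∈ W t p (q - 1) (L + 2) := by
        intro L v hv
        refine add_mem ?_ ?_
        · exact W_S_mul t p (q - 1) (L + 1) x k hx.1 (by omega)
            (W_mul t p (q - 1) L ⟨by omega, le_refl _⟩ hv)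
        · exact W_mul t p (q - 1) (L + 1) ⟨by omega, le_refl _⟩
            (W_mul t p (q - 1) L ⟨hx.1, by omega⟩ hv)
      have B2 : ∀ L, ∀ v ∈ W t p (q - 1) L, S t (x + 1) k * v ∈ W t p (q - 1) (L + 1) := by
        intro L v hv
        exact W_S_mul t p (q - 1) L (x + 1) k (by omega) (by omega) hv
      refine ⟨- (t x * v2) - S t (x + 1) k * v2 + v1, ?_,
        - (S t x k * (t (q - 1) * v2) + t (q - 1) * (t x * v2)) + S t (x + 1) k * v1, ?_,
        (S t x k * (t (q - 1) * v1) + t (q - 1) * (t x * v1)) + t x * v0, ?_, ?_⟩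
      · refine add_mem (sub_mem (neg_mem ?_) ?_) ?_
        · exact W_mono _ _ _ (by omega) (W_mul t p (q - 1) _ ⟨hx.1, by omega⟩ h2)
        · exact W_mono _ _ _ (by omega) (B2 _ v2 h2)
        · exact W_mono _ _ _ (by omega) h1
      · refine add_mem (neg_mem ?_) ?_
        · exact W_mono _ _ _ (by omega) (B1 _ v2 h2)
        · exact W_mono _ _ _ (by omega) (B2 _ v1 h1)
      · refine add_mem ?_ e0
        exact W_mono _ _ _ (by omega) (B1 _ v1 h1)
      · rw [mul_add, mul_add, mulr2 v2, mulr v1]
        noncomm_ring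

theorem Rel.W_bot {t : ℤ → A} (h : Rel t) (p : ℤ) (k : ℕ) :
    W t p (p + k - 1) (2 * k + 1) = ⊥ := by
  induction k with
  | zero =>
    rw [W, AddSubgroup.closure_eq_bot_iff]
    rintro a ⟨w, h1, h2, rfl⟩
    exfalso
    cases w with
    | nil => simp at h1
    | cons x w =>
      have := h2 x List.mem_cons_self
      simp at this
      omega
  | succ k ih =>
    rw [W, AddSubgroup.closure_eq_bot_iff]
    rintro a ⟨w, h1, h2, rfl⟩
    obtain ⟨v2, g2, v1, g1, v0, g0, e⟩ := h.decomp p (p + (k + 1 : ℕ) - 1) w h2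
    have hq : p + ((k + 1 : ℕ) : ℤ) - 1 - 1 = p + k - 1 := by push_cast; ring
    rw [hq] at g2 g1 g0
    have z2 := W_mono t p (p + k - 1) (show 2 * k + 1 ≤ w.length - 2 by omega) g2
    have z1 := W_mono t p (p + k - 1) (show 2 * k + 1 ≤ w.length - 1 by omega) g1
    have z0 := W_mono t p (p + k - 1) (show 2 * k + 1 ≤ w.length by omega) g0
    rw [ih, AddSubgroup.mem_bot] at z2 z1 z0
    rw [Set.mem_singleton_iff, e, z2, z1, z0]
    simp

/-- Words with more than `2k` letters, all in an interval of `k` integers, vanish. -/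
theorem Rel.vanish {t : ℤ → A} (h : Rel t) (p : ℤ) (k : ℕ) (w : List ℤ)
    (hw : ∀ x ∈ w, p ≤ x ∧ x ≤ p + k - 1) (hl : 2 * k < w.length) : (w.map t).prod = 0 := by
  have : (w.map t).prod ∈ W t p (p + k - 1) (2 * k + 1) :=
    AddSubgroup.subset_closure ⟨w, hl, hw, rfl⟩
  rwa [h.W_bot, AddSubgroup.mem_bot] at this

/-- `Om t p k = t_{p+k-1}² ⋯ t_p²`. -/
def Om (t : ℤ → A) (p : ℤ) : ℕ → A
  | 0 => 1
  | k + 1 => t (p + k) * (t (p + k) * Om t p k)

/-- The word of `Om`. -/
def omL (p : ℤ) : ℕ → List ℤ
  | 0 => []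
  | k + 1 => (p + k) :: (p + k) :: omL p k

theorem omL_length (p : ℤ) (k : ℕ) : (omL p k).length = 2 * k := by
  induction k with
  | zero => rfl
  | succ k ih => simp only [omL, List.length_cons, ih]; ring

theorem omL_mem (p : ℤ) (k : ℕ) : ∀ x ∈ omL p k, p ≤ x ∧ x ≤ p + k - 1 := by
  induction k with
  | zero => simp [omL]
  | succ k ih =>
    intro x hx
    simp only [omL, List.mem_cons] at hx
    push_cast
    rcases hx with rfl | rfl | hx
    · omega
    · omega
    · have := ih x hx; omega

theorem omL_prod (t : ℤ → A) (p : ℤ) (k : ℕ) : ((omL p k).map t).prod = Om t p k := by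
  induction k with
  | zero => rfl
  | succ k ih => simp only [omL, List.map_cons, List.prod_cons, ih, Om]

/-- Letters of the interval kill `Om` from the left. -/
theorem Rel.mul_Om {t : ℤ → A} (h : Rel t) (p : ℤ) (k : ℕ) {x : ℤ} (h1 : p ≤ x)
    (h2 : x ≤ p + k - 1) : t x * Om t p k = 0 := by
  have := h.vanish p k (x :: omL p k) ?_ (by simp [omL_length])
  · simpa [omL_prod] using this
  · intro y hy
    rcases List.mem_cons.1 hy with rfl | hy
    · exact ⟨h1, h2⟩
    · exact omL_mem p k y hy

/-- Letters of the interval kill `Om` from the right. -/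
theorem Rel.Om_mul {t : ℤ → A} (h : Rel t) (p : ℤ) (k : ℕ) {x : ℤ} (h1 : p ≤ x)
    (h2 : x ≤ p + k - 1) : Om t p k * t x = 0 := by
  have := h.vanish p k (omL p k ++ [x]) ?_ (by simp [omL_length])
  · simpa [omL_prod] using this
  · intro y hy
    rcases List.mem_append.1 hy with hy | hy
    · exact omL_mem p k y hy
    · rw [List.mem_singleton.1 hy]
      exact ⟨h1, h2⟩

/-- Sum of the words `omL p k` with one letter removed. -/
def B (t : ℤ → A) (p : ℤ) : ℕ → A
  | 0 => 0
  | k + 1 => t (p + k) * (t (p + k) * B t p k) + t (p + k) * Om t p k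

theorem Om_succ_right (t : ℤ → A) (p : ℤ) (k : ℕ) :
    Om t p (k + 1) = Om t (p + 1) k * (t p * t p) := by
  induction k with
  | zero => simp [Om]
  | succ k ih =>
    rw [Om, ih, Om]
    have : p + 1 + (k : ℤ) = p + (k + 1 : ℕ) := by push_cast; ring
    rw [this]
    noncomm_ring

theorem B_succ_right (t : ℤ → A) (p : ℤ) (k : ℕ) :
    B t p (k + 1) = B t (p + 1) k * (t p * t p) + Om t (p + 1) k * t p := by
  induction k with
  | zero => simp [B, Om]
  | succ k ih =>
    rw [B, ih, B, Om_succ_right, Om]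
    have : p + 1 + (k : ℤ) = p + (k + 1 : ℕ) := by push_cast; ring
    rw [this]
    noncomm_ring

/-- The expansion of `t_p Om_[p+1, p+k]`. -/
theorem Rel.E {t : ℤ → A} (h : Rel t) (p : ℤ) (k : ℕ) :
    t p * Om t (p + 1) k = (-1 : ℤ) ^ k • B t p (k + 1) := by
  induction k with
  | zero => simp [Om, B]
  | succ k ih =>
    have e1 : p + 1 + (k : ℤ) = p + k + 1 := by ring
    have hq : p + ((k + 1 : ℕ) : ℤ) = p + k + 1 := by push_cast; ring
    rw [Om, e1]
    have c := h.cub p (p + k + 1)
    have c3 := h.cube (p + k + 1)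
    have c4 := h.cube (p + k)
    have m := h.move p k
    -- the letters of the middle interval kill `Om (p+1) k`
    have k1 : S t (p + 1) k * Om t (p + 1) k = 0 := by
      have : ∀ j : ℕ, j ≤ k → S t (p + 1) j * Om t (p + 1) k = 0 := by
        intro j hj
        induction j with
        | zero => simp [S]
        | succ j ihj =>
          rw [S, add_mul, ihj (by omega), h.mul_Om (p + 1) k (by omega) (by omega), add_zero]
      exact this k le_rfl
    have k2 : S t p k * (t (p + k) * Om t (p + 1) k) = 0 := by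
      rcases Nat.eq_zero_or_pos k with rfl | hk
      · simp [S]
      · rw [h.mul_Om (p + 1) k (by omega) (by omega), mul_zero]
    have m1 : t p * (t (p + k + 1) * Om t (p + 1) k)
        = t (p + k + 1) * (t (p + k + 1) * Om t (p + 1) k)
          + (-1 : ℤ) ^ k • Om t p (k + 1) := by
      rw [← mul_assoc, m, S, e1]
      have : (t (p + k + 1) * (S t (p + 1) k + t (p + k + 1)) + S t p k * t (p + k)
          + t (p + k) * t p) * Om t (p + 1) k
          = t (p + k + 1) * (S t (p + 1) k * Om t (p + 1) k)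
            + t (p + k + 1) * (t (p + k + 1) * Om t (p + 1) k)
            + S t p k * (t (p + k) * Om t (p + 1) k) + t (p + k) * (t p * Om t (p + 1) k) := by
        noncomm_ring
      rw [this, k1, k2, ih, B]
      have c4' : t (p + k) * (t (p + k) * (t (p + k) * B t p k)) = 0 := by
        simpa only [mul_assoc, zero_mul] using congrArg (· * B t p k) c4
      rw [mul_smul_comm, mul_add, c4', Om]
      simp
    have c' : t p * (t (p + k + 1) * (t (p + k + 1) * Om t (p + 1) k))
        = - (t (p + k + 1) * (t p * (t (p + k + 1) * Om t (p + 1) k)))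
          - t (p + k + 1) * (t (p + k + 1) * (t p * Om t (p + 1) k)) := by
      have := congrArg (· * Om t (p + 1) k) c
      simp only [zero_mul] at this
      rw [← sub_eq_zero, ← this]
      noncomm_ring
    have c3' : t (p + k + 1) * (t (p + k + 1) * (t (p + k + 1) * Om t (p + 1) k)) = 0 := by
      simpa only [mul_assoc, zero_mul] using congrArg (· * Om t (p + 1) k) c3
    rw [c', m1, mul_add, c3', ih]
    conv_rhs => rw [B, hq]
    simp only [mul_smul_comm, pow_succ, smul_add, zero_add, mul_neg, mul_one, neg_smul]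
    abel

theorem Om_mir (t : ℤ → A) (p : ℤ) (k : ℕ) :
    Om (mir t) p k = MulOpposite.op (Om t (- p - k + 1) k) := by
  induction k with
  | zero => simp [Om]
  | succ k ih =>
    rw [Om, ih, Om_succ_right]
    have e1 : - p - ((k + 1 : ℕ) : ℤ) + 1 = - p - k := by push_cast; ring
    have e2 : -(p + (k : ℤ)) = - p - k := by ring
    rw [e1]
    simp only [mir, e2, ← MulOpposite.op_mul, mul_assoc]

theorem B_mir (t : ℤ → A) (p : ℤ) (k : ℕ) :
    B (mir t) p k = MulOpposite.op (B t (- p - k + 1) k) := by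
  induction k with
  | zero => simp [B]
  | succ k ih =>
    rw [B, ih, B_succ_right, Om_mir]
    have e1 : - p - ((k + 1 : ℕ) : ℤ) + 1 = - p - k := by push_cast; ring
    have e2 : -(p + (k : ℤ)) = - p - k := by ring
    rw [e1]
    simp only [mir, e2, ← MulOpposite.op_mul, ← MulOpposite.op_add, mul_assoc]

/-- The mirrored expansion. -/
theorem Rel.E' {t : ℤ → A} (h : Rel t) (p : ℤ) (k : ℕ) :
    Om t p k * t (p + k) = (-1 : ℤ) ^ k • B t p (k + 1) := by
  have e := h.mir.E (- p - k) k
  rw [Om_mir, B_mir] at e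
  have e1 : - (- p - (k : ℤ) + 1) - k + 1 = p := by ring
  have e2 : - (- p - (k : ℤ)) - ((k + 1 : ℕ) : ℤ) + 1 = p := by push_cast; ring
  have e3 : - (- p - (k : ℤ)) = p + k := by ring
  rw [e1, e2, MTRing.mir, e3, ← MulOpposite.op_mul, ← MulOpposite.op_smul] at e
  exact MulOpposite.op_injective e

/-- `t_p Om_[p+1, p+k] = Om_[p, p+k-1] t_{p+k}`. -/
theorem Rel.slide {t : ℤ → A} (h : Rel t) (p : ℤ) (k : ℕ) :
    t p * Om t (p + 1) k = Om t p k * t (p + k) := by
  rw [h.E, h.E']

/-- Extended sum of the letters from `a` to `b`. -/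
def I (t : ℤ → A) (a b : ℤ) : A :=
  if a ≤ b + 1 then S t a (b + 1 - a).toNat else - S t (b + 1) (a - 1 - b).toNat

theorem I_self (t : ℤ → A) (a : ℤ) : I t a a = t a := by
  simp [I, S]

theorem I_pred (t : ℤ → A) (a : ℤ) : I t (a + 1) a = 0 := by
  simp [I, S]

theorem I_add (t : ℤ → A) (a : ℤ) (k : ℕ) : I t a (a + k) = S t a (k + 1) := by
  rw [I, if_pos (by omega)]
  congr 1
  omega

/-- The extended row step on words (a noncommutative continuant). -/
def D (t : ℤ → A) : List ℤ → A
  | [] => 0
  | [_] => 1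
  | a :: b :: w => I t a b * D t (b :: w) - t b * (t b * D t w)

/-- The word `p, p+1, …, p+m-1`. -/
def inc (p : ℤ) : ℕ → List ℤ
  | 0 => []
  | m + 1 => p :: inc (p + 1) m

theorem inc_succ_right (p : ℤ) (m : ℕ) : inc p (m + 1) = inc p m ++ [p + m] := by
  induction m generalizing p with
  | zero => simp [inc]
  | succ m ih =>
    rw [inc, ih (p + 1)]
    have : p + 1 + (m : ℤ) = p + (m + 1 : ℕ) := by push_cast; ring
    rw [this]
    simp [inc]

/-- The product of the letters `p, p+1, …, p+m-1`. -/
def P (t : ℤ → A) (p : ℤ) (m : ℕ) : A := ((inc p m).map t).prod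

theorem P_succ (t : ℤ → A) (p : ℤ) (m : ℕ) : P t p (m + 1) = t p * P t (p + 1) m := by
  simp [P, inc]

theorem P_succ_right (t : ℤ → A) (p : ℤ) (m : ℕ) : P t p (m + 1) = P t p m * t (p + m) := by
  simp [P, inc_succ_right]

/-- The row step of an increasing word with its first letter doubled. -/
theorem D_double (t : ℤ → A) (p : ℤ) (m : ℕ) : D t (p :: inc p (m + 1)) = P t p (m + 1) := by
  induction m generalizing p with
  | zero => simp [inc, D, I_self, P]
  | succ m ih =>
    have e := ih (p + 1)
    rw [P_succ, ← e]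
    simp only [inc, D]
    have h1 : I t p (p + 1) = t p + t (p + 1) := by
      have := I_add t p 1
      simp only [Nat.cast_one] at this
      rw [this]
      simp [S]
    rw [I_self, h1, I_self]
    noncomm_ring

theorem D_top (t : ℤ → A) (p : ℤ) (k : ℕ) (w : List ℤ) :
    D t ((p + k) :: (omL p k ++ w)) = (-1 : ℤ) ^ k • (Om t p k * D t (p :: w)) := by
  induction k with
  | zero => simp [omL, Om]
  | succ k ih =>
    have hq : p + ((k + 1 : ℕ) : ℤ) = p + k + 1 := by push_cast; ring
    simp only [omL, List.cons_append, D]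
    rw [hq, I_pred, ih, Om]
    simp only [pow_succ, zero_mul, zero_sub, mul_smul_comm, mul_neg, mul_one, neg_smul, mul_assoc]

/-- The row step of `Om` followed by a word. -/
theorem D_Om (t : ℤ → A) (p : ℤ) (k : ℕ) (w : List ℤ) :
    D t (omL p (k + 1) ++ w) = (-1 : ℤ) ^ k • (B t p (k + 1) * D t (p :: w)
      - Om t p (k + 1) * D t w) := by
  induction k with
  | zero =>
    simp only [omL, List.cons_append, List.nil_append, D, B, Om]
    simp [I_self]
    noncomm_ring
  | succ k ih =>
    have e := D_top t p (k + 1) w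
    have hD : D t (omL p (k + 1 + 1) ++ w)
        = t (p + (k + 1 : ℕ)) * D t ((p + (k + 1 : ℕ)) :: (omL p (k + 1) ++ w))
          - t (p + (k + 1 : ℕ)) * (t (p + (k + 1 : ℕ)) * D t (omL p (k + 1) ++ w)) := by
      conv_lhs => rw [omL, List.cons_append, List.cons_append, D, I_self]
    have hB : B t p (k + 1 + 1) = t (p + (k + 1 : ℕ)) * (t (p + (k + 1 : ℕ)) * B t p (k + 1))
        + t (p + (k + 1 : ℕ)) * Om t p (k + 1) := rfl
    have hO : Om t p (k + 1 + 1) = t (p + (k + 1 : ℕ)) * (t (p + (k + 1 : ℕ))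
        * Om t p (k + 1)) := rfl
    rw [hD, e, ih, hB, hO]
    simp only [pow_succ, mul_smul_comm, mul_sub, smul_sub, mul_neg, mul_one, neg_smul, add_mul,
      smul_add, mul_assoc]
    abel

/-- `B` times the letters of its interval. -/
theorem Rel.B_S {t : ℤ → A} (h : Rel t) (p : ℤ) (k : ℕ) :
    B t p (k + 1) * S t p (k + 1) = Om t p (k + 1) := by
  have hB : B t p (k + 1) = (-1 : ℤ) ^ k • (t p * Om t (p + 1) k) := by
    rw [h.E, smul_smul, ← mul_pow]
    simp
  have h0 : B t p (k + 1) * t p = Om t p (k + 1) := by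
    rw [B_succ_right, Om_succ_right]
    have c := h.cube p
    rw [add_mul, mul_assoc, mul_assoc, c, mul_zero, zero_add, mul_assoc]
  have h1 : B t p (k + 1) * S t (p + 1) k = 0 := by
    have : ∀ j : ℕ, j ≤ k → B t p (k + 1) * S t (p + 1) j = 0 := by
      intro j hj
      induction j with
      | zero => simp [S]
      | succ j ihj =>
        rw [S, mul_add, ihj (by omega), hB, smul_mul_assoc, mul_assoc,
          h.Om_mul (p + 1) k (by omega) (by omega)]
        simp
    exact this k le_rfl
  rw [S_succ_left, mul_add, h0, h1, add_zero]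

/-- **The row step.** -/
theorem Rel.step {t : ℤ → A} (h : Rel t) (p : ℤ) (k m : ℕ) :
    D t (omL p (k + 1) ++ inc (p + (k + 1 : ℕ)) m) = Om t p k * P t (p + k) (m + 1) := by
  rw [D_Om]
  have hs : (-1 : ℤ) ^ k • B t p (k + 1) = Om t p k * t (p + k) := (h.E' p k).symm
  have e1 : p + (k : ℤ) + 1 = p + (k + 1 : ℕ) := by push_cast; ring
  cases m with
  | zero =>
    simp only [inc, D, mul_one, mul_zero, sub_zero]
    rw [hs]
    simp [P, inc]
  | succ m =>
    have h2 := D_double t (p + (k + 1 : ℕ)) m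
    simp only [inc, D, I_self] at h2 ⊢
    have h3 : I t p (p + (k + 1 : ℕ)) = S t p (k + 1) + t (p + (k + 1 : ℕ)) := by
      rw [I_add, S]
    rw [h3, P_succ t (p + k), e1, ← mul_assoc (Om t p k), ← hs, ← h2]
    have h4 := h.B_S p k
    set b := B t p (k + 1)
    set x := D t ((p + (k + 1 : ℕ)) :: inc (p + (k + 1 : ℕ) + 1) m)
    set y := D t (inc (p + (k + 1 : ℕ) + 1) m)
    rw [← h4, smul_mul_assoc]
    congr 1
    noncomm_ring

/-- Sliding `Om` to the left through an increasing word. -/
theorem Rel.slide_inc {t : ℤ → A} (h : Rel t) (p : ℤ) (j k : ℕ) :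
    P t p j * Om t (p + j) k = Om t p k * P t (p + k) j := by
  induction j with
  | zero => simp [P, inc]
  | succ j ih =>
    have e := h.slide (p + j) k
    have e1 : p + ((j + 1 : ℕ) : ℤ) = p + j + 1 := by push_cast; ring
    have e2 : p + (j : ℤ) + k = p + k + j := by ring
    rw [P_succ_right, mul_assoc, e1, e, ← mul_assoc, ih, mul_assoc, P_succ_right, e2]

end Pool.Agent.X287.MTRing
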