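import Pool.Agent.X287.QSys
import Pool.Agent.X287.Kit2
import Mathlib.LinearAlgebra.Matrix.Charpoly.Eigs

/-!
# Euler products of matrices
-/

set_option autoImplicit false

open Filter Topology Complex
open Pool.Agent.TH942.SL
open Pool.Agent.TH942.ES

namespace Pool.Agent.X287.Kit

open Pool.Agent.X287.RS

/-- the primes of a subset as natural numbers -/
def pS (P : Nat.Primes → Prop) : {p : Nat.Primes // P p} → ℕ := fun p => p.1

theorem pS_two {P : Nat.Primes → Prop} (p : {p : Nat.Primes // P p}) : 2 ≤ pS P p := p.1.2.two_le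

/-- a set of rational primes -/
theorem q_sub {P : Nat.Primes → Prop} {d : ℕ} (α : {p : Nat.Primes // P p} → Fin d → ℂ)
    (hα : ∀ v i, ‖α v i‖ ≤ 1) (hr : Re (pS P) α) : Sys (pS P) α where
  cnt := inferInstance
  two_le := pS_two
  sum := fun r hr => by
    have := (Nat.Primes.summable_rpow (r := -r)).2 (by linarith)
    exact this.subtype P
  log_sum := by
    obtain ⟨C, σ₀, hσ₀, h⟩ := Pool.Agent.W189.ML.log_sum_bound
    refine ⟨C, σ₀, hσ₀, fun σ h1 h2 => ?_⟩
    obtain ⟨h3, h4⟩ := h σ h1 h2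
    have h5 : Summable (fun v : {p : Nat.Primes // P p} =>
        Real.log (v.1 : ℕ) * ((v.1 : ℕ) : ℝ) ^ (-(1 + σ))) := h3.subtype P
    refine ⟨h5, le_trans (mul_le_mul_of_nonneg_left ?_ h1.le) h4⟩
    exact Summable.tsum_subtype_le (fun v : Nat.Primes =>
      Real.log (v : ℕ) * ((v : ℕ) : ℝ) ^ (-(1 + σ))) P (fun v => by
        have hp2 : (2 : ℝ) ≤ (v : ℕ) := by exact_mod_cast v.2.two_le
        have := Real.log_nonneg (show (1 : ℝ) ≤ (v : ℕ) by linarith)
        positivity) h3
  le := hα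
  real := fun v => by
    refine log_real (fun i => ?_) (hr v)
    have hp2 : (2 : ℝ) ≤ pS P v := by exact_mod_cast pS_two v
    have h1 : 1 < √(pS P v : ℝ) := by
      rw [Real.lt_sqrt (by norm_num)]
      linarith
    rw [norm_div, Complex.norm_real, Real.norm_eq_abs, abs_of_pos (by linarith),
      div_lt_one (by linarith)]
    exact (hα v i).trans_lt h1

/-! ### eigenvalues -/

/-- a multiset as a family -/
theorem exists_fam {s : Multiset ℂ} {m : ℕ} (h : Multiset.card s = m) :
    ∃ f : Fin m → ℂ, (Finset.univ : Finset (Fin m)).val.map f = s := by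
  obtain ⟨l, rfl⟩ : ∃ l : List ℂ, (l : Multiset ℂ) = s := ⟨s.toList, Multiset.coe_toList s⟩
  rw [Multiset.coe_card] at h
  subst h
  refine ⟨fun i => l.get i, ?_⟩
  rw [Fin.univ_val_map, List.ofFn_get]

variable {m : ℕ}

/-- the eigenvalues of a matrix as a family -/
theorem exists_eig (A : Matrix (Fin m) (Fin m) ℂ) :
    ∃ f : Fin m → ℂ, (Finset.univ : Finset (Fin m)).val.map f = A.charpoly.roots := by
  refine exists_fam ?_
  have h := IsAlgClosed.splits A.charpoly
  rw [← h.natDegree_eq_card_roots, Matrix.charpoly_natDegree_eq_dim, Fintype.card_fin]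

/-- the eigenvalues -/
noncomputable def eig (A : Matrix (Fin m) (Fin m) ℂ) : Fin m → ℂ := (exists_eig A).choose

theorem eig_spec (A : Matrix (Fin m) (Fin m) ℂ) :
    (Finset.univ : Finset (Fin m)).val.map (eig A) = A.charpoly.roots := (exists_eig A).choose_spec

theorem eig_mem (A : Matrix (Fin m) (Fin m) ℂ) (i : Fin m) : eig A i ∈ A.charpoly.roots := by
  rw [← eig_spec]
  exact Multiset.mem_map_of_mem _ (Finset.mem_univ i)

/-- the power sums of the eigenvalues -/
noncomputable def msum (A : Matrix (Fin m) (Fin m) ℂ) (k : ℕ) : ℂ :=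
  (A.charpoly.roots.map fun z => z ^ k).sum

theorem eig_sum (A : Matrix (Fin m) (Fin m) ℂ) (k : ℕ) : ∑ i, eig A i ^ k = msum A k := by
  unfold msum
  rw [← eig_spec, Multiset.map_map]
  rfl

theorem eig_prod (A : Matrix (Fin m) (Fin m) ℂ) {x : ℂ} (hx : x ≠ 0) :
    ∏ i, (1 - eig A i * x) = (1 - x • A).det := by
  have h1 : A.charpoly = ∏ i, (Polynomial.X - Polynomial.C (eig A i)) := by
    have h := (IsAlgClosed.splits A.charpoly).eq_prod_roots_of_monic (Matrix.charpoly_monic A)
    rw [h, ← eig_spec, Multiset.map_map]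
    rfl
  have h2 : A.charpoly.eval x⁻¹ = ∏ i, (x⁻¹ - eig A i) := by
    rw [h1, Polynomial.eval_prod]
    simp
  rw [Matrix.eval_charpoly] at h2
  have h3 : (1 - x • A) = x • (Matrix.scalar (Fin m) x⁻¹ - A) := by
    rw [smul_sub]
    congr 1
    ext i j
    simp only [Matrix.smul_apply, Matrix.scalar_apply, Matrix.diagonal_apply, smul_eq_mul,
      Matrix.one_apply]
    split_ifs
    · rw [mul_inv_cancel₀ hx]
    · rw [mul_zero]
  rw [h3, Matrix.det_smul, h2, Fintype.card_fin]
  have h4 : x ^ m = ∏ _i : Fin m, x := by simp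
  rw [h4, ← Finset.prod_mul_distrib]
  refine Finset.prod_congr rfl fun i _ => ?_
  field_simp

end Pool.Agent.X287.Kit
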