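import Pool.Agent.X287.Mat

/-!
# Systems of matrices
-/

set_option autoImplicit false

open Filter Topology Complex
open Pool.Agent.TH942.SL
open Pool.Agent.TH942.ES

namespace Pool.Agent.X287.Kit

open Pool.Agent.X287.RS

variable {P : Nat.Primes → Prop} {m : ℕ} {A : {p : Nat.Primes // P p} → Matrix (Fin m) (Fin m) ℂ}
  {σ : ℝ}

/-- the eigenvalues -/
noncomputable def mE (A : {p : Nat.Primes // P p} → Matrix (Fin m) (Fin m) ℂ)
    (p : {p : Nat.Primes // P p}) : Fin m → ℂ := eig (A p)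

theorem mat_real (hr : ∀ p k, (msum (A p) k).im = 0) : Re (pS P) (al (pS P) (mE A) σ) :=
  re_al pS_two fun v k => by
    unfold mE
    rw [eig_sum]
    exact hr v k

theorem mat_sys (hr : ∀ p k, (msum (A p) k).im = 0)
    (hA : ∀ p, ∀ z ∈ (A p).charpoly.roots, ‖z‖ ≤ (pS P p : ℝ) ^ (σ - 1 / 2)) :
    Sys (pS P) (al (pS P) (mE A) σ) :=
  q_sub _ (fun v i => norm_al (pS_two v) (hA v _ (eig_mem (A v) i))) (mat_real hr)

theorem mat_loc {c : ℂ} (hc : c = σ) : Loc (pS P) (al (pS P) (mE A) σ) c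
    (fun p s => ((1 - ((pS P p : ℂ) ^ (-s)) • A p).det)⁻¹) := by
  intro v s
  rw [← loc_al (β := mE A) pS_two hc v s]
  have h0 : (pS P v : ℂ) ≠ 0 := by
    have : 2 ≤ pS P v := pS_two v
    exact_mod_cast (by omega : pS P v ≠ 0)
  show (1 - ((pS P v : ℂ) ^ (-(c + s))) • A v).det⁻¹ =
    ∏ i, (1 - mE A v i * (pS P v : ℂ) ^ (-(c + s)))⁻¹
  have hx : (pS P v : ℂ) ^ (-(c + s)) ≠ 0 := by
    rw [Ne, Complex.cpow_eq_zero_iff]
    tauto
  rw [← eig_prod (A v) hx, Finset.prod_inv_distrib]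
  rfl

theorem mat_cP (p : {p : Nat.Primes // P p} × ℕ) : cP (pS P) (al (pS P) (mE A) σ) p =
    (msum (A p.1) (p.2 + 1)).re / (((p.2 : ℝ) + 1) * (pS P p.1 : ℝ) ^ (((p.2 : ℝ) + 1) * σ)) := by
  rw [cP_al (pS_two p.1)]
  unfold mE
  rw [eig_sum]

end Pool.Agent.X287.Kit
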