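import Pool.Agent.X287.Beta
import Pool.Agent.W189.ML.Sector

/-!
# Systems over the rational primes
-/

set_option autoImplicit false

open Filter Topology Complex
open Pool.Agent.TH942.SL
open Pool.Agent.TH942.ES

namespace Pool.Agent.X287.Kit

open Pool.Agent.X287.RS

/-- the primes as natural numbers -/
def pN : Nat.Primes → ℕ := fun p => p

theorem pN_two (p : Nat.Primes) : 2 ≤ pN p := p.2.two_le

/-- all rational primes -/
theorem q_all {d : ℕ} (α : Nat.Primes → Fin d → ℂ) (hα : ∀ v i, ‖α v i‖ ≤ 1)
    (hr : Re pN α) : Sys pN α where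
  cnt := inferInstance
  two_le := pN_two
  sum := fun r hr => by
    have := (Nat.Primes.summable_rpow (r := -r)).2 (by linarith)
    exact this
  log_sum := Pool.Agent.W189.ML.log_sum_bound
  le := hα
  real := fun v => by
    refine log_real (fun i => ?_) (hr v)
    have hp2 : (2 : ℝ) ≤ pN v := by exact_mod_cast pN_two v
    have h1 : 1 < √(pN v : ℝ) := by
      rw [Real.lt_sqrt (by norm_num)]
      linarith
    rw [norm_div, Complex.norm_real, Real.norm_eq_abs, abs_of_pos (by linarith),
      div_lt_one (by linarith)]
    exact (hα v i).trans_lt h1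

end Pool.Agent.X287.Kit
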