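import Pool.Agent.X287.SectUp2
import Pool.Agent.TH942.ES.StarExt

/-!
# One-sided bounds for the sectorial means, with a continuation along the real axis only
-/

set_option autoImplicit false

open MeasureTheory Filter Topology Set Complex
open Pool.Agent.TH942.LS (Dat P)
open Pool.Agent.TH942.SL
open Pool.Agent.W263.BSD (LInt lap)
open Pool.Agent.X287.Sect

namespace Pool.Agent.X287.RS

variable {α : ℝ} {lam c : ℕ → ℝ} {δ σ : ℝ} {Ψ : ℂ → ℂ} {x₀ K : ℝ} {f : ℝ → ℝ}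

/-- `Ψ` continues `exp (- ∑ c_n e^{-s lam_n})` along the positive real axis -/
structure RC (lam c : ℕ → ℝ) (σ : ℝ) (Ψ : ℂ → ℂ) : Prop where
  an : ∀ x : ℝ, 0 < x → AnalyticAt ℂ Ψ x
  eq : ∀ s : ℂ, σ < s.re → Ψ s = exp (-DD lam c s)

/-- minus the logarithmic derivative of the pulled back function -/
noncomputable def q (Ψ : ℂ → ℂ) (α : ℝ) (v : ℂ) : ℂ := -(deriv (chi Ψ α) v / chi Ψ α v)

theorem ch_an (H : RC lam c σ Ψ) {x : ℝ} (hx : 0 < x) : AnalyticAt ℂ (chi Ψ α) x := by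
  have h1 : (x : ℂ) ^ (α : ℂ) = ((x ^ α : ℝ) : ℂ) := (Complex.ofReal_cpow hx.le α).symm
  refine AnalyticAt.comp (f := fun v : ℂ => v ^ (α : ℂ)) ?_
    (pow_analytic (slit (by rwa [Complex.ofReal_re])))
  rw [h1]
  exact H.an _ (Real.rpow_pos_of_pos hx _)

theorem q_an (H : RC lam c σ Ψ) {x : ℝ} (hx : 0 < x) (hne : chi Ψ α x ≠ 0) :
    AnalyticAt ℂ (q Ψ α) x :=
  ((ch_an H hx).deriv.div (ch_an H hx) hne).neg

theorem ch_far (H : RC lam c σ Ψ) {v : ℂ} (hs : σ < (v ^ (α : ℂ)).re) :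
    chi Ψ α v = exp (-f₀ lam c α v) := H.eq _ hs

theorem q_far (D : Dat lam c δ σ) (H : RC lam c σ Ψ) {v : ℂ} (hv : 0 < v.re)
    (hs : σ < (v ^ (α : ℂ)).re) : q Ψ α v = f₁ lam c α v := by
  have h1 : ∀ᶠ z : ℂ in 𝓝 v, σ < (z ^ (α : ℂ)).re :=
    (Complex.continuous_re.continuousAt.comp
      (pow_deriv (α := α) (slit hv)).continuousAt).eventually (lt_mem_nhds hs)
  have h2 : chi Ψ α =ᶠ[𝓝 v] fun z => exp (-f₀ lam c α z) := by
    filter_upwards [h1] with z hz
    exact ch_far H hz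
  have h3 : HasDerivAt (fun z => exp (-f₀ lam c α z)) (exp (-f₀ lam c α v) * (-f₁ lam c α v)) v :=
    (f₀_deriv D hv hs).neg.cexp
  unfold q
  rw [h2.deriv_eq, h2.eq_of_nhds, h3.deriv]
  have := Complex.exp_ne_zero (-f₀ lam c α v)
  field_simp

/-- a real primitive -/
noncomputable def fr (lam c : ℕ → ℝ) (Ψ : ℂ → ℂ) (α x₃ s : ℝ) : ℂ :=
  f₀ lam c α x₃ + ∫ t in x₃..s, q Ψ α t

theorem fr_deriv (H : RC lam c σ Ψ) {ξ : ℝ} (hξ : 0 ≤ ξ)
    (hne : ∀ v : ℝ, ξ < v → chi Ψ α v ≠ 0) {x₃ : ℝ} (hx₃ : ξ < x₃) {s : ℝ} (hs : ξ < s) :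
    HasDerivAt (fr lam c Ψ α x₃) (q Ψ α s) s := by
  have hc : ContinuousOn (fun t : ℝ => q Ψ α t) (Ioi ξ) := by
    intro t ht
    have ht' : ξ < t := ht
    have h2 : ContinuousAt (q Ψ α) (t : ℂ) :=
      (q_an H (lt_of_le_of_lt hξ ht') (hne t ht')).continuousAt
    exact (ContinuousAt.comp (f := fun t : ℝ => (t : ℂ)) h2 (by fun_prop)).continuousWithinAt
  have hsub : uIcc x₃ s ⊆ Ioi ξ := by
    intro t ht
    have := ht.1
    exact lt_of_lt_of_le (lt_min hx₃ hs) this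
  have h2 : IntervalIntegrable (fun t : ℝ => q Ψ α t) volume x₃ s :=
    (hc.mono hsub).intervalIntegrable
  have h3 := intervalIntegral.integral_hasDerivAt_right h2
    (hc.stronglyMeasurableAtFilter isOpen_Ioi s hs) (hc.continuousAt (isOpen_Ioi.mem_nhds hs))
  exact h3.const_add _

/-- the real primitive is locally the restriction of an analytic function -/
theorem fr_local (H : RC lam c σ Ψ) {ξ : ℝ} (hξ : 0 ≤ ξ)
    (hne : ∀ v : ℝ, ξ < v → chi Ψ α v ≠ 0) {x₃ : ℝ} (hx₃ : ξ < x₃) {s : ℝ} (hs : ξ < s) :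
    ∃ G : ℂ → ℂ, AnalyticAt ℂ G s ∧ ∀ᶠ t : ℝ in 𝓝 s, fr lam c Ψ α x₃ t = G t := by
  have h2 := q_an (α := α) H (lt_of_le_of_lt hξ hs) (hne s hs)
  obtain ⟨r, hr, hball⟩ := Metric.eventually_nhds_iff_ball.1
    (Complex.analyticAt_iff_eventually_differentiableAt.1 h2)
  obtain ⟨G, hG⟩ := convex_primitive Metric.isOpen_ball (convex_ball (s : ℂ) r) (f := q Ψ α)
    fun v hv => (hball v hv).differentiableWithinAt
  set ε : ℝ := min r (s - ξ) with hε
  have hε0 : 0 < ε := lt_min hr (by linarith)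
  set J : Set ℝ := Ioo (s - ε) (s + ε) with hJ
  have hJo : IsOpen J := isOpen_Ioo
  have hJc : Convex ℝ J := convex_Ioo _ _
  have hsJ : s ∈ J := ⟨by linarith, by linarith⟩
  have hJ1 : ∀ t ∈ J, ξ < t ∧ (t : ℂ) ∈ Metric.ball (s : ℂ) r := by
    intro t ht
    have e1 : ε ≤ s - ξ := min_le_right _ _
    have e2 : ε ≤ r := min_le_left _ _
    refine ⟨by linarith [ht.1], ?_⟩
    rw [Metric.mem_ball, Complex.dist_eq, ← Complex.ofReal_sub, Complex.norm_real, Real.norm_eq_abs,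
      abs_lt]
    constructor <;> linarith [ht.1, ht.2]
  have hd : ∀ t ∈ J, HasDerivAt (fun t : ℝ => fr lam c Ψ α x₃ t - G t) 0 t := by
    intro t ht
    obtain ⟨e1, e2⟩ := hJ1 t ht
    have e3 : HasDerivAt (fun t : ℝ => G t) (q Ψ α t) t := (hG _ e2).comp_ofReal
    exact ((fr_deriv H hξ hne hx₃ e1).sub e3).congr_deriv (sub_self _)
  have hconst : ∀ t ∈ J, fr lam c Ψ α x₃ t - G t = fr lam c Ψ α x₃ s - G s := by
    intro t ht
    refine hJc.is_const_of_fderivWithin_eq_zero (𝕜 := ℝ)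
      (f := fun t : ℝ => fr lam c Ψ α x₃ t - G t)
      (fun z hz => (hd z hz).differentiableAt.differentiableWithinAt) (fun z hz => ?_) ht hsJ
    rw [fderivWithin_of_isOpen hJo hz]
    ext
    simp [(hd z hz).deriv]
  refine ⟨fun v => G v + (fr lam c Ψ α x₃ s - G s), ?_, ?_⟩
  · have e1 : AnalyticAt ℂ G s := by
      rw [Complex.analyticAt_iff_eventually_differentiableAt]
      filter_upwards [Metric.ball_mem_nhds (s : ℂ) hr] with z hz
      exact (hG z hz).differentiableAt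
    exact e1.add analyticAt_const
  · filter_upwards [hJo.mem_nhds hsJ] with t ht
    have := hconst t ht
    rw [← this]
    ring

theorem far_re (h0 : 0 < α) (h1 : α < 1) (hf : Fn lam c σ α x₀ K f) {t : ℝ} (ht : x₀ < t) :
    0 < (t : ℂ).re ∧ σ < ((t : ℂ) ^ (α : ℂ)).re := by
  have e0 := hf.one
  have e3 : 0 < (t : ℂ).re := by rw [Complex.ofReal_re]; linarith
  have e4 : x₀ ≤ ‖(t : ℂ)‖ := by
    rw [Complex.norm_real, Real.norm_eq_abs]
    exact ht.le.trans (le_abs_self _)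
  have e5 := hf.far _ e3 e4
  have e6 := re_pow_ge h0 h1 e3
  exact ⟨e3, by linarith⟩

/-- far to the right the primitive is the series -/
theorem fr_far (D : Dat lam c δ σ) (H : RC lam c σ Ψ) (h0 : 0 < α) (h1 : α < 1)
    (hf : Fn lam c σ α x₀ K f) {ξ : ℝ} (hξ : 0 ≤ ξ)
    (hne : ∀ v : ℝ, ξ < v → chi Ψ α v ≠ 0) {x₃ : ℝ} (hx₃ : ξ < x₃) (hx₃' : x₀ < x₃)
    {s : ℝ} (hs : x₃ ≤ s) : fr lam c Ψ α x₃ s = f₀ lam c α s := by
  set J : Set ℝ := Ioi (max ξ x₀) with hJ
  have hJo : IsOpen J := isOpen_Ioi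
  have hJc : Convex ℝ J := convex_Ioi _
  have hd : ∀ t ∈ J, HasDerivAt (fun t : ℝ => fr lam c Ψ α x₃ t - f₀ lam c α t) 0 t := by
    intro t ht
    have e1 : ξ < t := (le_max_left _ _).trans_lt ht
    have e2 : x₀ < t := (le_max_right _ _).trans_lt ht
    obtain ⟨e3, e4⟩ := far_re h0 h1 hf e2
    have e7 : HasDerivAt (fun t : ℝ => f₀ lam c α t) (f₁ lam c α t) t :=
      (f₀_deriv D e3 e4).comp_ofReal
    refine ((fr_deriv H hξ hne hx₃ e1).sub e7).congr_deriv ?_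
    rw [q_far D H e3 e4, sub_self]
  have h3 : x₃ ∈ J := max_lt hx₃ hx₃'
  have h4 : s ∈ J := lt_of_lt_of_le h3 hs
  have h5 : fr lam c Ψ α x₃ s - f₀ lam c α s = fr lam c Ψ α x₃ x₃ - f₀ lam c α x₃ := by
    refine hJc.is_const_of_fderivWithin_eq_zero (𝕜 := ℝ)
      (f := fun t : ℝ => fr lam c Ψ α x₃ t - f₀ lam c α t)
      (fun z hz => (hd z hz).differentiableAt.differentiableWithinAt) (fun z hz => ?_) h4 h3
    rw [fderivWithin_of_isOpen hJo hz]
    ext
    simp [(hd z hz).deriv]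
  have h6 : fr lam c Ψ α x₃ x₃ = f₀ lam c α x₃ := by
    unfold fr
    rw [intervalIntegral.integral_same, add_zero]
  rw [h6, sub_self] at h5
  exact sub_eq_zero.1 h5

/-- the exponential of the primitive -/
theorem fr_exp (H : RC lam c σ Ψ) (h0 : 0 < α) (h1 : α < 1)
    (hf : Fn lam c σ α x₀ K f) {ξ : ℝ} (hξ : 0 ≤ ξ)
    (hne : ∀ v : ℝ, ξ < v → chi Ψ α v ≠ 0) {x₃ : ℝ} (hx₃ : ξ < x₃) (hx₃' : x₀ < x₃) {s : ℝ}
    (hs : ξ < s) : chi Ψ α s * exp (fr lam c Ψ α x₃ s) = 1 := by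
  set E : ℝ → ℂ := fun s => chi Ψ α s * exp (fr lam c Ψ α x₃ s) with hE
  have hd : ∀ s ∈ Ioi ξ, HasDerivAt E 0 s := by
    intro s hs
    have hs' : ξ < s := hs
    have e1 : 0 < s := lt_of_le_of_lt hξ hs'
    have d1 : HasDerivAt (fun s : ℝ => chi Ψ α s) (deriv (chi Ψ α) s) s :=
      (ch_an H e1).differentiableAt.hasDerivAt.comp_ofReal
    have d3 := fr_deriv H hξ hne hx₃ hs'
    have d4 := d1.mul d3.cexp
    refine d4.congr_deriv ?_
    have e3 := hne s hs'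
    unfold q
    field_simp
    ring
  have h2 : E s = E x₃ := by
    refine (convex_Ioi ξ).is_const_of_fderivWithin_eq_zero (𝕜 := ℝ) (f := E)
      (fun z hz => (hd z hz).differentiableAt.differentiableWithinAt) (fun z hz => ?_) hs hx₃
    rw [fderivWithin_of_isOpen isOpen_Ioi hz]
    ext
    simp [(hd z hz).deriv]
  have h3 : E x₃ = 1 := by
    have e1 : fr lam c Ψ α x₃ x₃ = f₀ lam c α x₃ := by
      unfold fr
      rw [intervalIntegral.integral_same, add_zero]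
    rw [hE]
    simp only
    rw [e1, ch_far H (far_re h0 h1 hf hx₃').2, ← Complex.exp_add, neg_add_cancel, Complex.exp_zero]
  rw [← h3, ← h2]

/-- **Landau's theorem for the means** -/
theorem landau (D : Dat lam c δ σ) (H : RC lam c σ Ψ) (h0 : 0 < α) (h1 : α < 1)
    (hf : Fn lam c σ α x₀ K f) {ξ : ℝ} (hξ : 0 ≤ ξ)
    (hne : ∀ v : ℝ, ξ < v → chi Ψ α v ≠ 0) {x₃ : ℝ} (hx₃ : ξ < x₃) (hx₃' : x₀ < x₃)
    {a' A : ℝ} (hA : ∀ y, 0 < y → f y ≤ A * Real.exp (a' * y)) :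
    (∀ s > max a' ξ, LInt (fun y => A * Real.exp (a' * y) - f y) s) ∧
    ∀ s > max a' ξ, lap (fun y => A * Real.exp (a' * y) - f y) s =
      A / (s - a') - (fr lam c Ψ α x₃ s / s ^ 2 - q Ψ α s / s).re := by
  refine Pool.Agent.TH988.RB.landau_lap (w1 := max x₃ a') ?_ (fun y hy => ?_) (fun s hs => ?_)
    (fun s hs => ?_) fun s hs _ => ?_
  · exact ((by fun_prop : Measurable fun y : ℝ => A * Real.exp (a' * y))).sub hf.cont.measurable
  · linarith [hA y hy]
  · have hs1 : x₃ < s := (le_max_left _ _).trans_lt hs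
    have hs2 : a' < s := (le_max_right _ _).trans_lt hs
    exact ((Pool.Agent.TH942.OS.exp_L hs2).1.const_mul A).sub (f_LInt hf (hx₃'.trans hs1))
  · have hs1 : a' < s := (le_max_left _ _).trans_lt hs
    have hs2 : ξ < s := (le_max_right _ _).trans_lt hs
    have hs0 : 0 < s := lt_of_le_of_lt hξ hs2
    have hsc : (s : ℂ) ≠ 0 := by exact_mod_cast hs0.ne'
    obtain ⟨G, hG, hGe⟩ := fr_local (lam := lam) (c := c) H hξ hne hx₃ hs2
    have hq := q_an (α := α) H hs0 (hne s hs2)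
    have h2 : AnalyticAt ℂ (fun v : ℂ => G v / v ^ 2 - q Ψ α v / v) (s : ℂ) :=
      (hG.div (analyticAt_id.pow 2) (pow_ne_zero 2 hsc)).sub (hq.div analyticAt_id hsc)
    have h3 := Pool.Agent.TH942.OS.re_analytic h2
    have h4 : AnalyticAt ℝ (fun s : ℝ => A / (s - a')) s :=
      analyticAt_const.div (analyticAt_id.sub analyticAt_const) (by
        have : s - a' ≠ 0 := by linarith
        exact this)
    refine (h4.sub h3).congr ?_
    filter_upwards [hGe] with t ht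
    rw [ht]
    rfl
  · have hs1 : x₃ < s := (le_max_left _ _).trans_lt hs
    have hs2 : a' < s := (le_max_right _ _).trans_lt hs
    have i1 : LInt (fun y => A * Real.exp (a' * y)) s :=
      (Pool.Agent.TH942.OS.exp_L hs2).1.const_mul A
    have i2 := f_LInt hf (hx₃'.trans hs1)
    rw [Pool.Agent.W263.BSD.lap_sub i1 i2, f_lap hf (hx₃'.trans hs1)]
    have e3 : lap (fun T => A * Real.exp (a' * T)) s = A / (s - a') := by
      have : lap (fun T => A * Real.exp (a' * T)) s = A * lap (fun T => Real.exp (a' * T)) s := by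
        unfold Pool.Agent.W263.BSD.lap
        rw [← integral_const_mul]
        refine setIntegral_congr_fun measurableSet_Ioi fun T _ => ?_
        ring
      rw [this, (Pool.Agent.TH942.OS.exp_L hs2).2]
      ring
    rw [e3, fr_far D H h0 h1 hf hξ hne hx₃ hx₃' hs1.le]
    obtain ⟨e4, e5⟩ := far_re h0 h1 hf (hx₃'.trans hs1)
    rw [q_far D H e4 e5]
    rfl

theorem no_real (D : Dat lam c δ σ) (H : RC lam c σ Ψ) (h0 : 0 < α) (h1 : α < 1)
    (hf : Fn lam c σ α x₀ K f) {a C y₀ : ℝ} (ha : 0 ≤ a)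
    (hM : ∀ y, y₀ ≤ y → M lam c α y ≤ C * Real.exp (a * y)) {x : ℝ} (hx : a < x) :
    chi Ψ α x ≠ 0 := by
  intro hx0
  set a' : ℝ := (a + x) / 2 with ha'
  have haa : a < a' := by rw [ha']; linarith
  have ha'x : a' < x := by rw [ha']; linarith
  have ha'0 : 0 < a' := lt_of_le_of_lt ha haa
  have hxp : 0 < x := ha'0.trans ha'x
  obtain ⟨A, hA, hAf⟩ := upper_all hf hM haa ha'0
  -- the outermost real zero
  set X₁ : ℝ := max x x₀ with hX₁
  have hcont : ContinuousOn (fun t : ℝ => chi Ψ α t) (Ioi 0) := by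
    intro t ht
    exact (ContinuousAt.comp (f := fun t : ℝ => (t : ℂ)) (ch_an (α := α) H ht).continuousAt
      (by fun_prop)).continuousWithinAt
  have hsub : Icc x X₁ ⊆ Ioi 0 := fun t ht => lt_of_lt_of_le hxp ht.1
  have hZc : IsClosed (Icc x X₁ ∩ (fun t : ℝ => chi Ψ α t) ⁻¹' {0}) :=
    (hcont.mono hsub).preimage_isClosed_of_isClosed isClosed_Icc isClosed_singleton
  have hZk : IsCompact (Icc x X₁ ∩ (fun t : ℝ => chi Ψ α t) ⁻¹' {0}) :=
    isCompact_Icc.of_isClosed_subset hZc inter_subset_left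
  obtain ⟨ξ, ⟨hξ1, hξ2⟩, hξ3⟩ := hZk.exists_isGreatest ⟨x, ⟨le_rfl, le_max_left _ _⟩, hx0⟩
  have hξx : x ≤ ξ := hξ1.1
  have hξp : 0 < ξ := hxp.trans_le hξx
  have hne : ∀ v : ℝ, ξ < v → chi Ψ α v ≠ 0 := by
    intro v hv h
    rcases le_or_gt v X₁ with h2 | h2
    · exact absurd (hξ3 ⟨⟨hξx.trans hv.le, h2⟩, h⟩) (not_le.2 hv)
    · rw [ch_far H (far_re h0 h1 hf (lt_of_le_of_lt (le_max_right x x₀) h2)).2] at h
      exact Complex.exp_ne_zero _ h
  set x₃ : ℝ := max ξ x₀ + 1 with hx₃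
  have g1 : ξ < x₃ := by
    rw [hx₃]
    linarith [le_max_left ξ x₀]
  have g2 : x₀ < x₃ := by
    rw [hx₃]
    linarith [le_max_right ξ x₀]
  obtain ⟨-, hlap⟩ := landau D H h0 h1 hf hξp.le hne g1 g2 hAf
  have hmax : max a' ξ = ξ := max_eq_right (by linarith)
  rw [hmax] at hlap
  -- the derivative is nonnegative
  set φ : ℝ → ℂ := fr lam c Ψ α x₃ with hφ
  set ψ : ℝ → ℝ := fun s => A * Real.log (s - a') + (φ s).re / s with hψ
  have hder : ∀ s, ξ < s → HasDerivAt ψ (A / (s - a') - (φ s / s ^ 2 - q Ψ α s / s).re) s := by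
    intro s hs
    have hs0 : 0 < s := hξp.trans hs
    have hsa : 0 < s - a' := by linarith
    have d1 : HasDerivAt (fun s : ℝ => A * Real.log (s - a')) (A * (1 / (s - a'))) s :=
      (((hasDerivAt_id s).sub_const a').log hsa.ne').const_mul A
    have d2 : HasDerivAt (fun s => (φ s).re) ((q Ψ α s).re) s := by
      have d3 := fr_deriv (lam := lam) (c := c) H hξp.le hne g1 hs
      have := (Complex.reCLM.hasFDerivAt (x := φ s)).comp_hasDerivAt s d3
      exact this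
    have d3 := d1.add (d2.div (hasDerivAt_id s) hs0.ne')
    refine d3.congr_deriv ?_
    have e1 : (φ s / (s : ℂ) ^ 2 - q Ψ α s / s).re = (φ s).re / s ^ 2 - (q Ψ α s).re / s := by
      rw [Complex.sub_re, Complex.div_ofReal_re, ← Complex.ofReal_pow, Complex.div_ofReal_re]
    rw [e1]
    simp only [id]
    field_simp
    ring
  have hmono : MonotoneOn ψ (Ioi ξ) := by
    refine monotoneOn_of_deriv_nonneg (convex_Ioi ξ)
      (fun s hs => (hder s hs).continuousAt.continuousWithinAt) ?_ ?_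
    · rw [interior_Ioi]
      exact fun s hs => (hder s hs).differentiableAt.differentiableWithinAt
    · rw [interior_Ioi]
      intro s hs
      rw [(hder s hs).deriv, ← hlap s hs]
      unfold Pool.Agent.W263.BSD.lap
      refine setIntegral_nonneg measurableSet_Ioi fun y hy => ?_
      exact mul_nonneg (by linarith [hAf y hy]) (Real.exp_pos _).le
  -- the primitive is bounded above near the zero
  set s₂ : ℝ := ξ + 1 with hs₂
  set B : ℝ := s₂ * (|ψ s₂| + |A * Real.log (ξ - a')|) with hB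
  have hbound : ∀ s, ξ < s → s ≤ s₂ → (φ s).re ≤ B := by
    intro s hs hs'
    have hs0 : 0 < s := hξp.trans hs
    have e1 : ψ s ≤ ψ s₂ := hmono hs (show ξ < s₂ by rw [hs₂]; linarith) hs'
    have e2 : A * Real.log (ξ - a') ≤ A * Real.log (s - a') :=
      mul_le_mul_of_nonneg_left (Real.log_le_log (by linarith) (by linarith)) hA
    have e3 : (φ s).re / s ≤ |ψ s₂| + |A * Real.log (ξ - a')| := by
      have e4 : ψ s = A * Real.log (s - a') + (φ s).re / s := rfl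
      have := le_abs_self (ψ s₂)
      have := neg_abs_le (A * Real.log (ξ - a'))
      linarith
    rw [div_le_iff₀ hs0] at e3
    refine e3.trans ?_
    rw [hB, mul_comm]
    exact mul_le_mul_of_nonneg_right hs' (by positivity)
  have hΨc : Tendsto (fun s : ℝ => ‖chi Ψ α s‖ * Real.exp B) (𝓝[>] ξ) (𝓝 0) := by
    have e1 : ContinuousAt (fun s : ℝ => chi Ψ α s) ξ := hcont.continuousAt
      (isOpen_Ioi.mem_nhds hξp)
    have e2 := (e1.norm.tendsto.mono_left (nhdsWithin_le_nhds (s := Ioi ξ))).mul_const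
      (Real.exp B)
    have e3 : chi Ψ α ξ = 0 := hξ2
    rw [e3, norm_zero, zero_mul] at e2
    exact e2
  have hlow : ∀ᶠ s : ℝ in 𝓝[>] ξ, 1 ≤ ‖chi Ψ α s‖ * Real.exp B := by
    have e2 : ∀ᶠ s : ℝ in 𝓝[>] ξ, s < s₂ :=
      nhdsWithin_le_nhds (gt_mem_nhds (by rw [hs₂]; linarith))
    filter_upwards [e2, self_mem_nhdsWithin] with s f2 f3
    have f3' : ξ < s := f3
    have f4 := fr_exp H h0 h1 hf hξp.le hne g1 g2 f3'
    have f5 : ‖chi Ψ α s‖ * Real.exp (φ s).re = 1 := by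
      rw [← Complex.norm_exp, ← norm_mul, f4, norm_one]
    rw [← f5]
    exact mul_le_mul_of_nonneg_left (Real.exp_le_exp.2 (hbound s f3' f2.le)) (norm_nonneg _)
  have hfin := ge_of_tendsto hΨc hlow
  linarith

/-- the Laplace integrals converge -/
theorem int_all (D : Dat lam c δ σ) (H : RC lam c σ Ψ) (h0 : 0 < α) (h1 : α < 1)
    (hf : Fn lam c σ α x₀ K f) {a C y₀ : ℝ} (ha : 0 ≤ a)
    (hM : ∀ y, y₀ ≤ y → M lam c α y ≤ C * Real.exp (a * y)) {x : ℝ} (hx : a < x) :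
    LInt f x := by
  set a' : ℝ := (a + x) / 2 with ha'
  have haa : a < a' := by rw [ha']; linarith
  have ha'x : a' < x := by rw [ha']; linarith
  have ha'0 : 0 < a' := lt_of_le_of_lt ha haa
  obtain ⟨A, hA, hAf⟩ := upper_all hf hM haa ha'0
  have hne : ∀ v : ℝ, a < v → chi Ψ α v ≠ 0 := fun v hv => no_real D H h0 h1 hf ha hM hv
  obtain ⟨hL, -⟩ := landau D H h0 h1 hf ha hne (x₃ := max a x₀ + 1)
    (by linarith [le_max_left a x₀]) (by linarith [le_max_right a x₀]) hAf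
  have h2 := hL x (max_lt ha'x hx)
  have h3 : LInt (fun y => A * Real.exp (a' * y)) x :=
    (Pool.Agent.TH942.OS.exp_L ha'x).1.const_mul A
  have h4 := h3.sub h2
  refine h4.congr_fun (fun y _ => ?_) measurableSet_Ioi
  simp only
  ring

/-- **the continuation of the series** -/
theorem ext_int (D : Dat lam c δ σ) (h0 : 0 < α) (h1 : α < 1) (hf : Fn lam c σ α x₀ K f)
    {a : ℝ} (ha : 0 ≤ a) (hI : ∀ x : ℝ, a < x → LInt f x) :
    ∃ (fh : ℂ → ℂ) (x₁ : ℝ), (∀ v : ℂ, a < v.re → DifferentiableAt ℂ fh v) ∧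
      (∀ v : ℂ, x₁ < v.re → 0 < v.re ∧ σ < (v ^ (α : ℂ)).re) ∧
      ∀ v : ℂ, x₁ < v.re → fh v = f₀ lam c α v := by
  have hx₀ := hf.far
  set x₁ : ℝ := max x₀ a with hx₁
  have hx01 : x₀ ≤ x₁ := le_max_left _ _
  have hax1 : a ≤ x₁ := le_max_right _ _
  set U : Set ℂ := {v | a < v.re} with hU
  have hUo : IsOpen U := isOpen_lt continuous_const Complex.continuous_re
  have hUc : Convex ℝ U := convex_halfSpace_re_gt a
  set W : Set ℂ := {v | x₁ < v.re} with hW
  have hWo : IsOpen W := isOpen_lt continuous_const Complex.continuous_re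
  have hWc : Convex ℝ W := convex_halfSpace_re_gt x₁
  have hWU : W ⊆ U := fun v hv => lt_of_le_of_lt hax1 hv
  have hUpos : ∀ v ∈ U, 0 < v.re := fun v hv => lt_of_le_of_lt ha hv
  -- the Laplace transform
  set G : ℂ → ℂ := fun v => ∫ y in Ioi (0 : ℝ), exp (-(v * y)) * (f y : ℂ) with hG
  have hGW : ∀ v ∈ W, G v = hh (f₀ lam c α) (f₁ lam c α) v := fun v hv =>
    hf.lap v (lt_of_le_of_lt hx01 hv)
  have hGd : DifferentiableOn ℂ G U := fun t ht =>
    (Pool.Agent.TH942.OS.lap_diff hf.cont.aestronglyMeasurable hI ht).differentiableWithinAt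
  -- a primitive
  obtain ⟨GG, hGG⟩ := convex_primitive hUo hUc hGd
  have hWx : ∀ v ∈ W, 0 < v.re ∧ σ + 1 ≤ kap α * ‖v‖ ^ α ∧ σ < (v ^ (α : ℂ)).re := by
    intro v hv
    have e1 : 0 < v.re := hUpos v (hWU hv)
    have e2 : x₀ ≤ ‖v‖ := (hx01.trans (le_of_lt hv)).trans (re_le_norm v)
    have e3 := hx₀ v e1 e2
    have e4 := re_pow_ge h0 h1 e1
    exact ⟨e1, e3, by linarith⟩
  set w₀ : ℂ := ((x₁ + 1 : ℝ) : ℂ) with hw₀
  have hw₀W : w₀ ∈ W := by
    change x₁ < w₀.re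
    rw [hw₀, Complex.ofReal_re]
    linarith
  set k : ℂ := f₀ lam c α w₀ / w₀ + GG w₀ with hk
  have hconst : ∀ v ∈ W, f₀ lam c α v / v + GG v = k := by
    have hd : ∀ v ∈ W, HasDerivAt (fun v => f₀ lam c α v / v + GG v) 0 v := by
      intro v hv
      obtain ⟨e1, e2, e3⟩ := hWx v hv
      have e4 := (f₀_deriv D e1 e3).div (hasDerivAt_id v) (ne_zero' e1)
      refine (e4.add (hGG v (hWU hv))).congr_deriv ?_
      rw [hGW v hv]
      have := ne_zero' e1
      simp only [hh, id]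
      field_simp
      ring
    intro v hv
    refine hWc.is_const_of_fderivWithin_eq_zero (𝕜 := ℂ)
      (fun z hz => (hd z hz).differentiableAt.differentiableWithinAt) (fun z hz => ?_) hv hw₀W
    rw [fderivWithin_of_isOpen hWo hz]
    ext
    simp [(hd z hz).deriv]
  refine ⟨fun v => v * (k - GG v), x₁, fun v hv => ?_, fun v hv => ?_, fun v hv => ?_⟩
  · exact differentiableAt_id.mul ((hGG v hv).differentiableAt.const_sub k)
  · exact ⟨(hWx v hv).1, (hWx v hv).2.2⟩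
  · have e1 := ne_zero' (hWx v hv).1
    simp only
    rw [← hconst v hv]
    field_simp
    ring

end Pool.Agent.X287.RS
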