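import Pool.Agent.X287.RSect

/-!
# One-sided bounds for the sectorial means, with a continuation along the real axis only (part 2)
-/

set_option autoImplicit false

open MeasureTheory Filter Topology Set Complex
open Pool.Agent.TH942.LS (Dat P)
open Pool.Agent.TH942.SL
open Pool.Agent.TH942.ES
open Pool.Agent.W263.BSD (LInt lap)
open Pool.Agent.X287.Sect

namespace Pool.Agent.X287.RS

variable {lam c : ℕ → ℝ} {δ σ : ℝ} {Ψ : ℂ → ℂ}

/-- **one-sided slow growth gives the continuation** -/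
theorem ext_one (D : Dat lam c δ σ) (H : RC lam c σ Ψ) {ρ : ℝ} (hρ : 1 < ρ)
    (hM : ∀ ε : ℝ, 0 < ε → ∃ C y₀ : ℝ, ∀ y, y₀ ≤ y → M lam c ρ⁻¹ y ≤ C * Real.exp (ε * y)) :
    ∃ Dh : ℂ → ℂ, (∀ s ∈ Sect ρ, DifferentiableAt ℂ Dh s) ∧
      (∀ s ∈ Sect ρ, σ < s.re → Dh s = DD lam c s) := by
  have hρ0 : 0 < ρ := by linarith
  have h0 : 0 < ρ⁻¹ := by positivity
  have h1 : ρ⁻¹ < 1 := inv_lt_one_of_one_lt₀ hρ
  obtain ⟨x₀, K, f, hf⟩ := exists_fn D h0 h1
  obtain ⟨fh, x₁, hfd, hfx, hfe⟩ := ext_int D h0 h1 hf le_rfl (fun x hx => by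
    obtain ⟨C, y₀, hC⟩ := hM (x / 2) (by linarith)
    exact int_all D H h0 h1 hf (a := x / 2) (by linarith) hC (by linarith))
  have hdiff : ∀ s ∈ Sect ρ, DifferentiableAt ℂ (fun s : ℂ => fh (s ^ (ρ : ℂ))) s := by
    intro s hs
    obtain ⟨h2, -⟩ := exists_root hρ hs.1 hs.2
    exact DifferentiableAt.comp (f := fun s : ℂ => s ^ (ρ : ℂ)) s (hfd _ h2)
      (differentiableAt_id.cpow_const (slit (sect_re hρ hs)))
  refine ⟨fun s => fh (s ^ (ρ : ℂ)), hdiff, ?_⟩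
  -- the identity theorem on the convex set
  set R : Set ℂ := Sect ρ ∩ {s : ℂ | σ < s.re} with hR
  have hRo : IsOpen R := (sect_open hρ).inter (isOpen_lt continuous_const Complex.continuous_re)
  have hRc : Convex ℝ R := (sect_convex hρ).inter (convex_halfSpace_re_gt σ)
  have a1 : AnalyticOnNhd ℂ (fun s : ℂ => fh (s ^ (ρ : ℂ))) R :=
    DifferentiableOn.analyticOnNhd (fun s hs => (hdiff s hs.1).differentiableWithinAt) hRo
  have a2 : AnalyticOnNhd ℂ (DD lam c) R :=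
    DifferentiableOn.analyticOnNhd
      (fun s hs => (dd_deriv D hs.2).differentiableAt.differentiableWithinAt) hRo
  -- the base point
  have hT : Tendsto (fun x : ℝ => x ^ ρ) atTop atTop := tendsto_rpow_atTop hρ0
  obtain ⟨x, hx⟩ := ((hT.eventually_gt_atTop x₁).and
    ((eventually_gt_atTop σ).and (eventually_gt_atTop 0))).exists
  obtain ⟨hx1, hx2, hx3⟩ := hx
  have hxR : (x : ℂ) ∈ R := ⟨sect_real hρ hx3, by rwa [Set.mem_ofPred_eq, Complex.ofReal_re]⟩
  have hxp : (((x : ℂ)) ^ (ρ : ℂ)).re = x ^ ρ := by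
    rw [← Complex.ofReal_cpow hx3.le, Complex.ofReal_re]
  have hnear : (fun s : ℂ => fh (s ^ (ρ : ℂ))) =ᶠ[𝓝 (x : ℂ)] DD lam c := by
    have hc : ContinuousAt (fun s : ℂ => (s ^ (ρ : ℂ)).re) (x : ℂ) :=
      Complex.continuous_re.continuousAt.comp
        (ContinuousAt.cpow continuousAt_id continuousAt_const
          (slit (show 0 < ((x : ℂ)).re by rwa [Complex.ofReal_re])))
    have h5 : ∀ᶠ s : ℂ in 𝓝 (x : ℂ), x₁ < (s ^ (ρ : ℂ)).re :=
      hc.eventually (lt_mem_nhds (show x₁ < ((x : ℂ) ^ (ρ : ℂ)).re by rw [hxp]; exact hx1))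
    filter_upwards [h5, hRo.mem_nhds hxR] with s h6 h7
    rw [hfe _ h6]
    obtain ⟨-, h8⟩ := exists_root hρ h7.1.1 h7.1.2
    unfold f₀
    rw [h8]
  have a3 := a1.eqOn_of_preconnected_of_eventuallyEq a2 hRc.isPreconnected hxR hnear
  exact fun s hs hσ => a3 ⟨hs, hσ⟩

/-- the same for all sectors with a smaller angle -/
theorem ext_all (D : Dat lam c δ σ) (H : RC lam c σ Ψ) {ρ₀ : ℝ} (h : 1 ≤ ρ₀)
    (hM : ∀ ρ : ℝ, ρ₀ < ρ → ∀ ε : ℝ, 0 < ε → ∃ C y₀ : ℝ, ∀ y, y₀ ≤ y →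
      M lam c ρ⁻¹ y ≤ C * Real.exp (ε * y)) :
    ∃ Dh : ℂ → ℂ, (∀ s ∈ Sect ρ₀, DifferentiableAt ℂ Dh s) ∧
      (∀ s ∈ Sect ρ₀, σ < s.re → Dh s = DD lam c s) := by
  choose! G hG1 hG2 using fun (ρ : ℝ) (hρ : ρ₀ < ρ) =>
    ext_one D H (ρ := ρ) (by linarith) (hM ρ hρ)
  obtain ⟨Hh, hH⟩ := glue2 h hG1 hG2
  refine ⟨Hh, fun s hs => ?_, fun s hs hσ => ?_⟩
  · obtain ⟨ρ, h1, h2⟩ := exists_sect' h hs
    refine (hG1 ρ h1 s h2).congr_of_eventuallyEq ?_
    filter_upwards [(sect_open (by linarith)).mem_nhds h2] with z hz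
    exact hH ρ h1 z hz
  · obtain ⟨ρ, h1, h2⟩ := exists_sect' h hs
    rw [hH ρ h1 s h2]
    exact hG2 ρ h1 s h2 hσ

/-- the agreement on the positive real axis -/
theorem agree_ray {F G : ℂ → ℂ} {σ : ℝ} (hF : ∀ x : ℝ, 0 < x → AnalyticAt ℂ F x)
    (hG : ∀ x : ℝ, 0 < x → AnalyticAt ℂ G x) {ρ : ℝ} (h : 1 ≤ ρ)
    (he : ∀ s ∈ Sect ρ, σ < s.re → F s = G s) {x : ℝ} (hx : 0 < x) : F =ᶠ[𝓝 (x : ℂ)] G := by
  set U : Set ℂ := (fun t : ℝ => (t : ℂ)) '' Ioi 0 with hU
  have hUc : IsPreconnected U := isPreconnected_Ioi.image _ (by fun_prop)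
  have a1 : AnalyticOnNhd ℂ F U := by
    rintro _ ⟨t, ht, rfl⟩
    exact hF t ht
  have a2 : AnalyticOnNhd ℂ G U := by
    rintro _ ⟨t, ht, rfl⟩
    exact hG t ht
  have hx0 : 0 < |σ| + 1 := by positivity
  have h2 : ((|σ| + 1 : ℝ) : ℂ) ∈ U := ⟨|σ| + 1, hx0, rfl⟩
  have ho : IsOpen {z : ℂ | σ < z.re} := isOpen_lt continuous_const Complex.continuous_re
  have a3 := a1.eqOn_of_preconnected_of_eventuallyEq a2 hUc h2 (by
    filter_upwards [(sect_open' h).mem_nhds (sect_real' h hx0),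
      ho.mem_nhds (show σ < ((|σ| + 1 : ℝ) : ℂ).re by
        rw [Complex.ofReal_re]
        have := le_abs_self σ
        linarith)] with z hz hz2
    exact he z hz hz2)
  refine ((hF x hx).frequently_eq_iff_eventually_eq (hG x hx)).1 ?_
  have h3 : Tendsto (fun t : ℝ => (t : ℂ)) (𝓝[>] x) (𝓝[≠] (x : ℂ)) := by
    refine tendsto_nhdsWithin_iff.2 ⟨(Complex.continuous_ofReal.tendsto x).mono_left
      nhdsWithin_le_nhds, ?_⟩
    filter_upwards [self_mem_nhdsWithin] with t ht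
    have ht' : x < t := ht
    simp only [Set.mem_compl_iff, Set.mem_singleton_iff]
    exact_mod_cast ht'.ne'
  refine h3.frequently (Eventually.frequently ?_)
  filter_upwards [self_mem_nhdsWithin] with t ht
  have ht' : x < t := ht
  exact a3 ⟨t, hx.trans ht', rfl⟩

/-- the agreement near the vertex -/
theorem agree_vertex {F G : ℂ → ℂ} {ρ : ℝ} (h : 1 ≤ ρ) (hF0 : AnalyticAt ℂ F 0)
    (hG : ∀ s ∈ Sect ρ, DifferentiableAt ℂ G s)
    (he : ∀ x : ℝ, 0 < x → F =ᶠ[𝓝 (x : ℂ)] G) : ∀ᶠ s in 𝓝[Sect ρ] 0, F s = G s := by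
  obtain ⟨r, hr, hball⟩ := Metric.eventually_nhds_iff_ball.1
    (Complex.analyticAt_iff_eventually_differentiableAt.1 hF0)
  set R : Set ℂ := Sect ρ ∩ Metric.ball 0 r with hR
  have hRo : IsOpen R := (sect_open' h).inter Metric.isOpen_ball
  have hRc : Convex ℝ R := (sect_convex' h).inter (convex_ball _ _)
  have a1 : AnalyticOnNhd ℂ F R :=
    DifferentiableOn.analyticOnNhd (fun s hs => (hball s hs.2).differentiableWithinAt) hRo
  have a2 : AnalyticOnNhd ℂ G R :=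
    DifferentiableOn.analyticOnNhd (fun s hs => (hG s hs.1).differentiableWithinAt) hRo
  have hx : ((r / 2 : ℝ) : ℂ) ∈ R := ⟨sect_real' h (by linarith), by
    rw [Metric.mem_ball, dist_zero_right, Complex.norm_real, Real.norm_eq_abs,
      abs_of_pos (by linarith)]
    linarith⟩
  have a3 := a1.eqOn_of_preconnected_of_eventuallyEq a2 hRc.isPreconnected hx
    (he _ (by linarith))
  rw [eventually_nhdsWithin_iff]
  filter_upwards [Metric.ball_mem_nhds (0 : ℂ) hr] with s hs hs2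
  exact a3 ⟨hs2, hs⟩

theorem dd_real (t : ℝ) : (DD lam c t).im = 0 := by
  have h1 : DD lam c t = ((∑' n, c n * Real.exp (-(t * lam n)) : ℝ) : ℂ) := by
    unfold DD
    rw [Complex.ofReal_tsum]
    refine tsum_congr fun i => ?_
    push_cast
    ring
  rw [h1, Complex.ofReal_im]

/-- the function is real on the positive real axis -/
theorem real_ray (H : RC lam c σ Ψ) {x : ℝ} (hx : 0 < x) : (Ψ x).im = 0 := by
  have a1 : AnalyticOnNhd ℝ (fun t : ℝ => (-I * Ψ t).re) (Ioi 0) := fun t ht =>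
    Pool.Agent.TH942.OS.re_analytic (analyticAt_const.mul (H.an t ht))
  have a2 : AnalyticOnNhd ℝ (fun _ : ℝ => (0 : ℝ)) (Ioi 0) := analyticOnNhd_const
  have h2 : |σ| + 1 ∈ Ioi (0 : ℝ) := by
    have := abs_nonneg σ
    simp only [Set.mem_Ioi]
    linarith
  have a3 := a1.eqOn_of_preconnected_of_eventuallyEq a2 isPreconnected_Ioi h2 (by
    filter_upwards [lt_mem_nhds (show σ < |σ| + 1 by linarith [le_abs_self σ])] with t ht
    have e1 : Ψ t = ((Real.exp (-(DD lam c t).re) : ℝ) : ℂ) := by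
      rw [H.eq t (by rwa [Complex.ofReal_re]), Complex.ofReal_exp]
      congr 1
      apply Complex.ext
      · simp
      · rw [Complex.neg_im, dd_real]
        simp
    rw [e1, mul_comm, Complex.re_ofReal_mul]
    simp)
  have a4 := a3 (show x ∈ Ioi (0 : ℝ) from hx)
  simpa using a4

/-- without zeros it is positive -/
theorem pos_ray (H : RC lam c σ Ψ) (hne : ∀ x : ℝ, 0 < x → Ψ x ≠ 0) {x : ℝ} (hx : 0 < x) :
    0 < (Ψ x).re := by
  have hc : ContinuousOn (fun t : ℝ => (Ψ t).re) (Ioi 0) := fun t ht =>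
    (ContinuousAt.comp (f := fun t : ℝ => Ψ t) Complex.continuous_re.continuousAt
      (ContinuousAt.comp (f := fun t : ℝ => (t : ℂ)) (H.an t ht).continuousAt
        (by fun_prop))).continuousWithinAt
  have hne' : ∀ t : ℝ, 0 < t → (Ψ t).re ≠ 0 := fun t ht h0 =>
    hne t ht (Complex.ext (by simpa using h0) (by simpa using real_ray H ht))
  by_contra hcon
  rw [not_lt] at hcon
  have h2 : (0 : ℝ) < |σ| + 1 := by positivity
  have h3 : 0 < (Ψ ((|σ| + 1 : ℝ) : ℂ)).re := by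
    rw [H.eq _ (by rw [Complex.ofReal_re]; linarith [le_abs_self σ])]
    rw [Complex.exp_re, Complex.neg_im, dd_real, neg_zero, Real.cos_zero, mul_one]
    exact Real.exp_pos _
  have h4 : (0 : ℝ) ∈ (fun t : ℝ => (Ψ t).re) '' (Ioi 0) :=
    isPreconnected_Ioi.intermediate_value (show x ∈ Ioi (0 : ℝ) from hx)
      (show |σ| + 1 ∈ Ioi (0 : ℝ) from h2) hc ⟨hcon, h3.le⟩
  obtain ⟨t, ht, ht0⟩ := h4
  exact hne' t ht ht0

/-- the leading coefficient at the vertex is a positive real number -/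
theorem lead_pos (H : RC lam c σ Ψ) (hne : ∀ x : ℝ, 0 < x → Ψ x ≠ 0) {m : ℕ} {A : ℂ} (hA : A ≠ 0)
    (hl : Tendsto (fun s => Ψ s / s ^ m) (𝓝[≠] 0) (𝓝 A)) : 0 < A.re ∧ A = ((A.re : ℝ) : ℂ) := by
  have h1 : Tendsto (fun t : ℝ => (t : ℂ)) (𝓝[>] 0) (𝓝[≠] (0 : ℂ)) := by
    refine tendsto_nhdsWithin_iff.2 ⟨?_, ?_⟩
    · have := (Complex.continuous_ofReal.tendsto 0).mono_left (nhdsWithin_le_nhds (s := Ioi 0))
      simpa using this
    · filter_upwards [self_mem_nhdsWithin] with t ht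
      have ht' : (0 : ℝ) < t := ht
      simp only [Set.mem_compl_iff, Set.mem_singleton_iff]
      exact_mod_cast ht'.ne'
  have h2 := hl.comp h1
  have hval : ∀ t : ℝ, 0 < t → Ψ t / (t : ℂ) ^ m = (((Ψ t).re / t ^ m : ℝ) : ℂ) := by
    intro t ht
    have e1 : Ψ t = (((Ψ t).re : ℝ) : ℂ) :=
      Complex.ext (by simp) (by simpa using real_ray H ht)
    rw [Complex.ofReal_div, Complex.ofReal_pow, ← e1]
  have h3 : Tendsto (fun t : ℝ => (((Ψ t).re / t ^ m : ℝ) : ℂ)) (𝓝[>] 0) (𝓝 A) := by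
    refine h2.congr' ?_
    filter_upwards [self_mem_nhdsWithin] with t ht
    exact hval t ht
  have him : A.im = 0 := by
    have := (Complex.continuous_im.tendsto _).comp h3
    refine tendsto_nhds_unique this ?_
    refine (tendsto_const_nhds (x := (0 : ℝ))).congr fun t => ?_
    simp only [Function.comp_apply, Complex.ofReal_im]
  have hre : 0 ≤ A.re := by
    have := (Complex.continuous_re.tendsto _).comp h3
    refine ge_of_tendsto this ?_
    filter_upwards [self_mem_nhdsWithin] with t ht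
    have ht' : (0 : ℝ) < t := ht
    simp only [Function.comp_apply, Complex.ofReal_re]
    exact div_nonneg (pos_ray H hne ht').le (by positivity)
  have hAe : A = ((A.re : ℝ) : ℂ) := Complex.ext (by simp) (by simpa using him)
  refine ⟨lt_of_le_of_ne hre fun h0 => hA ?_, hAe⟩
  rw [hAe, ← h0, Complex.ofReal_zero]

end Pool.Agent.X287.RS
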