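import Pool.Agent.X287.SectUp2
import Pool.Agent.TH942.SL.CurveLim
import Pool.Agent.TH942.SL.Level

/-!
# One-sided bounds for the sectorial sums of an elliptic curve
-/

set_option autoImplicit false

namespace Pool.Agent.X287.Sect

open MeasureTheory Filter Topology Set Classical
open Pool.Agent.W263.BSD Pool.Agent.W189.ML Pool.Agent.W187.UR
open Pool.Agent.TH942.LS (lm cE dat cont Kf Cont Dat lm_eq)
open Pool.Agent.TH942.SL

variable {a b : ℤ} {F : ℂ → ℂ}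

/-- `y = (log X)^ρ` takes all large values -/
theorem ev_y {ρ : ℝ} (hρ : 0 < ρ) {Q : ℝ → ℝ → Prop}
    (h : ∀ᶠ X : ℝ in atTop, Q X (Real.log X ^ ρ)) :
    ∃ y₀ : ℝ, 1 ≤ y₀ ∧ ∀ y, y₀ ≤ y → Q (Real.exp (y ^ ρ⁻¹)) y := by
  obtain ⟨X₀, hX₀⟩ := h.exists_forall_of_atTop
  refine ⟨max 1 (max 0 (Real.log (max X₀ 1)) ^ ρ), le_max_left _ _, fun y hy => ?_⟩
  have hy1 : 1 ≤ y := (le_max_left _ _).trans hy
  have hy0 : 0 < y := by linarith
  have hy2 : max 0 (Real.log (max X₀ 1)) ^ ρ ≤ y := (le_max_right _ _).trans hy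
  have e1 : Real.log (Real.exp (y ^ ρ⁻¹)) ^ ρ = y := by
    rw [Real.log_exp, ← Real.rpow_mul hy0.le, inv_mul_cancel₀ hρ.ne', Real.rpow_one]
  have e2 : X₀ ≤ Real.exp (y ^ ρ⁻¹) := by
    have e3 : max 0 (Real.log (max X₀ 1)) ≤ y ^ ρ⁻¹ := by
      have := Real.rpow_le_rpow (by positivity) hy2 (by positivity : 0 ≤ ρ⁻¹)
      rwa [← Real.rpow_mul (le_max_left _ _), mul_inv_cancel₀ hρ.ne', Real.rpow_one] at this
    have e4 : Real.log (max X₀ 1) ≤ y ^ ρ⁻¹ := (le_max_right _ _).trans e3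
    rw [Real.log_le_iff_le_exp (lt_max_of_lt_right one_pos)] at e4
    exact (le_max_left _ _).trans e4
  have := hX₀ _ e2
  rwa [e1] at this

/-- **zeros in the sector force large positive sums** -/
theorem Sr_omega (hF : IsLSeries a b F) {ρ ρ' : ℝ} (hρ : 1 < ρ) (hρ' : ρ < ρ') {s : ℂ}
    (hs1 : s ≠ 1) (hs : |(s - 1).arg| < Real.pi / (2 * ρ)) (h0 : F s = 0) {θ : ℝ}
    (hθ : θ < ((s - 1) ^ (ρ : ℂ)).re) (C : ℝ) :
    ∃ᶠ X : ℝ in atTop, C * Real.exp (θ * Real.log X ^ ρ) < Sr a b ρ ρ' X := by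
  have hρ0 : 0 < ρ := by linarith
  have h0' : 0 < ρ⁻¹ := by positivity
  have h1 : ρ⁻¹ < 1 := inv_lt_one_of_one_lt₀ hρ
  rw [Filter.Frequently]
  intro hne
  obtain ⟨C₁, hC₁, h2⟩ := Sr_close a b hρ hρ'
  obtain ⟨h3, h4⟩ := exists_root hρ (sub_ne_zero.2 hs1) hs
  have hθ' : max θ 0 < ((s - 1) ^ (ρ : ℂ)).re := max_lt hθ h3
  have h5 : ∀ᶠ X : ℝ in atTop, M lm (cE a b) ρ⁻¹ (Real.log X ^ ρ) ≤
      (|C| + C₁) * Real.exp (max θ 0 * Real.log X ^ ρ) := by
    filter_upwards [hne, h2, eventually_gt_atTop 1] with X h4 h5 h6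
    rw [not_lt] at h4
    have hT : 0 < Real.log X := Real.log_pos h6
    have hy : 0 < Real.log X ^ ρ := Real.rpow_pos_of_pos hT _
    have e1 : 1 ≤ Real.exp (max θ 0 * Real.log X ^ ρ) :=
      Real.one_le_exp (mul_nonneg (le_max_right _ _) hy.le)
    have e2 : Real.exp (θ * Real.log X ^ ρ) ≤ Real.exp (max θ 0 * Real.log X ^ ρ) :=
      Real.exp_le_exp.2 (mul_le_mul_of_nonneg_right (le_max_left _ _) hy.le)
    have e3 : C * Real.exp (θ * Real.log X ^ ρ) ≤ |C| * Real.exp (max θ 0 * Real.log X ^ ρ) :=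
      mul_le_mul (le_abs_self C) e2 (Real.exp_pos _).le (abs_nonneg _)
    have e4 : C₁ ≤ C₁ * Real.exp (max θ 0 * Real.log X ^ ρ) := le_mul_of_one_le_right hC₁ e1
    have e5 := (abs_le.1 h5).1
    rw [add_mul]
    linarith
  obtain ⟨y₀, -, hy₀⟩ := ev_y hρ0
    (Q := fun _ y => M lm (cE a b) ρ⁻¹ y ≤ (|C| + C₁) * Real.exp (max θ 0 * y)) h5
  refine one_sided (dat a b) (cont hF le_rfl) h0' h1 (le_max_right θ 0) hy₀ hθ' ?_
  rw [h4]
  unfold PhiF
  rw [add_sub_cancel, h0, zero_mul]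

/-- the exponent of growth -/
theorem Sr_exp (hF : IsLSeries a b F) {ρ ρ' : ℝ} (hρ : 1 < ρ) (hρ' : ρ < ρ') {θ : ℝ} (hθ : 0 ≤ θ)
    (hz : ∀ s : ℂ, s ≠ 1 → |(s - 1).arg| < Real.pi / (2 * ρ) →
      θ < ((s - 1) ^ (ρ : ℂ)).re → F s ≠ 0) {ε : ℝ} (hε : 0 < ε) :
    ∀ᶠ X : ℝ in atTop, |Sr a b ρ ρ' X| ≤ Real.exp ((θ + ε) * Real.log X ^ ρ) := by
  have hρ0 : 0 < ρ := by linarith
  obtain ⟨C, hC⟩ := (Sr_level hF hρ hρ' hθ).1 hz (ε / 2) (by linarith)
  have h1 : Tendsto (fun X : ℝ => Real.exp (ε / 2 * Real.log X ^ ρ)) atTop atTop :=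
    Real.tendsto_exp_atTop.comp (((tendsto_rpow_atTop hρ0).comp
      Real.tendsto_log_atTop).const_mul_atTop (by linarith))
  filter_upwards [hC, h1.eventually_ge_atTop C] with X e1 e2
  refine e1.trans ?_
  have e3 : Real.exp ((θ + ε) * Real.log X ^ ρ) =
      Real.exp (ε / 2 * Real.log X ^ ρ) * Real.exp ((θ + ε / 2) * Real.log X ^ ρ) := by
    rw [← Real.exp_add]
    congr 1
    ring
  rw [e3]
  exact mul_le_mul_of_nonneg_right e2 (Real.exp_pos _).le

/-- **upper bounds with `log log X`** -/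
theorem Sr_limsup (hF : IsLSeries a b F) {ρ ρ' : ℝ} (hρ : 1 < ρ) (hρ' : ρ < ρ') {m : ℕ}
    (hm : analyticOrderAt F 1 = m) {r₀ : ℝ}
    (h : ∀ ε : ℝ, 0 < ε → ∀ᶠ X : ℝ in atTop,
      Sr a b ρ ρ' X ≤ (r₀ + ε) * Real.log (Real.log X)) :
    (∀ s : ℂ, s ≠ 1 → |(s - 1).arg| < Real.pi / (2 * ρ) → F s ≠ 0) ∧ (m : ℝ) ≤ r₀ := by
  have hρ0 : 0 < ρ := by linarith
  have hz : ∀ s : ℂ, s ≠ 1 → |(s - 1).arg| < Real.pi / (2 * ρ) → F s ≠ 0 := by
    intro s hs1 hs h0
    obtain ⟨h2, -⟩ := exists_root hρ (sub_ne_zero.2 hs1) hs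
    set v : ℝ := ((s - 1) ^ (ρ : ℂ)).re with hv
    have h3 := Sr_omega hF hρ hρ' hs1 hs h0 (θ := v / 2) (by linarith) (|r₀ + 1| / (v / 2))
    refine h3 ?_
    filter_upwards [h 1 one_pos, Real.tendsto_log_atTop.eventually_ge_atTop 1] with X h4 h5
    rw [not_lt]
    have hT : 0 < Real.log X := by linarith
    have e1 : Real.log (Real.log X) ≤ Real.log X ^ ρ := by
      have := Real.log_le_sub_one_of_pos hT
      have e2 : Real.log X ≤ Real.log X ^ ρ := by
        conv_lhs => rw [← Real.rpow_one (Real.log X)]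
        exact Real.rpow_le_rpow_of_exponent_le h5 hρ.le
      linarith
    have e2 : v / 2 * Real.log X ^ ρ ≤ Real.exp (v / 2 * Real.log X ^ ρ) := by
      have := Real.add_one_le_exp (v / 2 * Real.log X ^ ρ)
      linarith
    have e3 : 0 ≤ Real.log (Real.log X) := Real.log_nonneg h5
    have hv2 : 0 < v / 2 := by linarith
    calc Sr a b ρ ρ' X ≤ (r₀ + 1) * Real.log (Real.log X) := h4
      _ ≤ |r₀ + 1| * Real.log X ^ ρ := mul_le_mul (le_abs_self _) e1 e3 (abs_nonneg _)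
      _ = |r₀ + 1| / (v / 2) * (v / 2 * Real.log X ^ ρ) := by field_simp
      _ ≤ _ := by gcongr
  refine ⟨hz, ?_⟩
  obtain ⟨C, hC, h1⟩ := Sr_up hF hρ hρ' hm hz
  by_contra hlt
  rw [not_le] at hlt
  set ε : ℝ := (m - r₀) / 2 with hε
  have hε0 : 0 < ε := by rw [hε]; linarith
  have hL : Tendsto (fun X : ℝ => ε * Real.log (Real.log X)) atTop atTop :=
    (Real.tendsto_log_atTop.comp Real.tendsto_log_atTop).const_mul_atTop hε0
  obtain ⟨X, e1, e2, e3⟩ := (h1.and ((h ε hε0).and (hL.eventually_gt_atTop C))).exists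
  have e4 := (abs_le.1 e1).1
  have e5 : (m : ℝ) * Real.log (Real.log X) - (r₀ + ε) * Real.log (Real.log X) =
      ε * Real.log (Real.log X) := by
    rw [hε]
    ring
  linarith

/-- curves without real zeros have zero-free sectors -/
theorem exists_sector (hF : IsLSeries a b F) {m : ℕ} (hm : analyticOrderAt F 1 = m)
    (hr : ∀ x : ℝ, 1 < x → F x ≠ 0) : ∃ ρ : ℝ, 1 < ρ ∧
      ∀ s : ℂ, s ≠ 1 → |(s - 1).arg| < Real.pi / (2 * ρ) → F s ≠ 0 := by
  have hpi := Real.pi_pos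
  set U : Set ℂ := {s | s = 1 ∨ F s ≠ 0} with hU
  set J : Set ℂ := (fun x : ℝ => (x : ℂ)) '' Icc 1 2 with hJ
  have hJc : IsCompact J := isCompact_Icc.image Complex.continuous_ofReal
  have hJU : J ⊆ interior U := by
    rintro _ ⟨x, hx, rfl⟩
    rw [mem_interior_iff_mem_nhds]
    have hFa : AnalyticAt ℂ F (x : ℂ) := hF.1.analyticAt _
    rcases eq_or_lt_of_le hx.1 with h1 | h1
    · rw [← h1]
      have h2 : AnalyticAt ℂ F 1 := hF.1.analyticAt _
      rcases h2.eventually_eq_zero_or_eventually_ne_zero with h3 | h3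
      · rw [← analyticOrderAt_eq_top, hm] at h3
        exact absurd h3 (ENat.natCast_ne_top m)
      · rw [eventually_nhdsWithin_iff] at h3
        filter_upwards [h3] with s hs
        by_cases h4 : s = 1
        · exact Or.inl h4
        · exact Or.inr (hs h4)
    · have h2 := hFa.continuousAt.eventually_ne (hr x h1)
      filter_upwards [h2] with s hs
      exact Or.inr hs
  obtain ⟨δ, hδ, hδU⟩ := hJc.exists_cthickening_subset_open isOpen_interior hJU
  refine ⟨max 2 (Real.pi / δ), by linarith [le_max_left 2 (Real.pi / δ)], fun s hs1 hs => ?_⟩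
  set ρ : ℝ := max 2 (Real.pi / δ) with hρ
  have hρ2 : 2 ≤ ρ := le_max_left _ _
  have hρδ : Real.pi / δ ≤ ρ := le_max_right _ _
  have hre : 1 < s.re := re_of_sector (by linarith) hs1 hs
  rcases le_or_gt s.re 2 with h2 | h2
  · have h3 : s ∈ Metric.cthickening δ J := by
      refine Metric.mem_cthickening_of_dist_le s ((s.re : ℝ) : ℂ) δ J ⟨s.re, ⟨hre.le, h2⟩, rfl⟩ ?_
      have e1 : s - ((s.re : ℝ) : ℂ) = (s.im : ℂ) * Complex.I := by
        apply Complex.ext <;> simp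
      rw [Complex.dist_eq, e1, norm_mul, Complex.norm_I, mul_one, Complex.norm_real,
        Real.norm_eq_abs]
      set z : ℂ := s - 1 with hz
      have hz0 : z ≠ 0 := sub_ne_zero.2 hs1
      have e2 : s.im = ‖z‖ * Real.sin z.arg := by
        rw [Complex.norm_mul_sin_arg, hz, Complex.sub_im, Complex.one_im, sub_zero]
      have e3 : ‖z‖ * Real.cos z.arg = s.re - 1 := by
        rw [Complex.norm_mul_cos_arg, hz, Complex.sub_re, Complex.one_re]
      have e4 : Real.pi / (2 * ρ) ≤ Real.pi / 3 := by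
        apply div_le_div_of_nonneg_left hpi.le (by norm_num) (by linarith)
      have e5 : 1 / 2 ≤ Real.cos z.arg := by
        rw [← Real.cos_abs, ← Real.cos_pi_div_three]
        exact Real.cos_le_cos_of_nonneg_of_le_pi (abs_nonneg _) (by linarith) (by linarith)
      have e6 : ‖z‖ ≤ 2 := by nlinarith [norm_nonneg z]
      rw [e2, abs_mul, abs_of_nonneg (norm_nonneg z)]
      calc ‖z‖ * |Real.sin z.arg| ≤ 2 * |z.arg| :=
            mul_le_mul e6 Real.abs_sin_le_abs (abs_nonneg _) (by norm_num)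
        _ ≤ 2 * (Real.pi / (2 * ρ)) := by linarith
        _ = Real.pi / ρ := by field_simp
        _ ≤ δ := by
          rw [div_le_iff₀ (by linarith)]
          rw [div_le_iff₀ hδ] at hρδ
          linarith
    rcases interior_subset (hδU h3) with h4 | h4
    · exact absurd h4 hs1
    · exact h4
  · intro h0
    refine PhiF_ne_zero_of_one_lt (a := a) (b := b) hF (w := s - 1) ?_ ?_
    · rw [Complex.sub_re, Complex.one_re]
      linarith
    · unfold PhiF
      rw [add_sub_cancel, h0, zero_mul]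

/-- a zero-free sector excludes real zeros -/
theorem no_real_of_sector {ρ : ℝ} (hρ : 1 < ρ)
    (hz : ∀ s : ℂ, s ≠ 1 → |(s - 1).arg| < Real.pi / (2 * ρ) → F s ≠ 0) :
    ∀ x : ℝ, 1 < x → F x ≠ 0 := by
  intro x hx
  have h1 : (0 : ℝ) < x - 1 := by linarith
  refine hz x (by exact_mod_cast hx.ne') ?_
  have h2 : ((x : ℂ) - 1).arg = 0 := by
    have : (x : ℂ) - 1 = ((x - 1 : ℝ) : ℂ) := by push_cast; rfl
    rw [this, Complex.arg_ofReal_of_nonneg h1.le]
  rw [h2, abs_zero]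
  have := Real.pi_pos
  positivity

end Pool.Agent.X287.Sect
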