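import Pool.Agent.X287.RSect2
import Pool.Agent.X287.SectCurve

/-!
# One-sided laws for Euler products, with a continuation along the real axis only
-/

set_option autoImplicit false

open MeasureTheory Filter Topology Set Complex
open Pool.Agent.TH942.LS (Dat P)
open Pool.Agent.TH942.SL
open Pool.Agent.TH942.ES
open Pool.Agent.X287.Sect

namespace Pool.Agent.X287.RS

variable {lam c : ℕ → ℝ} {δ σ : ℝ}

theorem dat_neg (D : Dat lam c δ σ) : Dat lam (fun n => -c n) δ σ where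
  δ0 := D.δ0
  σ0 := D.σ0
  lam_ge := D.lam_ge
  sum := by simpa using D.sum

theorem DD_neg (s : ℂ) : DD lam (fun n => -c n) s = -DD lam c s := by
  unfold DD
  rw [← tsum_neg]
  refine tsum_congr fun n => ?_
  push_cast
  ring

theorem M_neg (α y : ℝ) : M lam (fun n => -c n) α y = -M lam c α y := by
  unfold M
  rw [← tsum_neg]
  refine tsum_congr fun n => ?_
  ring

variable {X : Type} {d : ℕ} {N : X → ℕ} {α : X → Fin d → ℂ} {F : ℂ → ℂ}

/-- the continuation of the Euler product along the positive real axis -/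
structure RCon (N : X → ℕ) (α : X → Fin d → ℂ) (F : ℂ → ℂ) : Prop where
  an : ∀ x : ℝ, 0 < x → AnalyticAt ℂ F x
  eq : ∀ s : ℂ, 1 / 2 < s.re → F s = LE N α s

/-- the power sums are real -/
def Re (N : X → ℕ) (α : X → Fin d → ℂ) : Prop := ∀ v k, (∑ i, zv N α v i ^ k).im = 0

theorem RCon.rc (E : Sys N α) (hreal : Re N α) (H : RCon N α F) {e : X × ℕ → ℕ}
    (he : Function.Injective e) : RC (lamS N e) (fun n => -cS N α e n) 1 F where
  an := H.an
  eq := fun s hs => by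
    rw [DD_neg, neg_neg, E.exp_DD hreal he (by linarith)]
    exact H.eq s (by linarith)

/-- `G` is a continuation without zeros to the sector -/
structure Ext (N : X → ℕ) (α : X → Fin d → ℂ) (ρ₀ : ℝ) (G : ℂ → ℂ) : Prop where
  diff : ∀ s : ℂ, s ∈ Sect ρ₀ ∨ 1 / 2 < s.re → DifferentiableAt ℂ G s
  ne : ∀ s : ℂ, s ∈ Sect ρ₀ ∨ 1 / 2 < s.re → G s ≠ 0
  eq : ∀ s : ℂ, 1 / 2 < s.re → G s = LE N α s

theorem Ext.an {ρ₀ : ℝ} (h : 1 ≤ ρ₀) {G : ℂ → ℂ} (hG : Ext N α ρ₀ G) {s : ℂ} (hs : s ∈ Sect ρ₀) :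
    AnalyticAt ℂ G s := by
  have h1 : DifferentiableOn ℂ G (Sect ρ₀) := fun z hz =>
    (hG.diff z (Or.inl hz)).differentiableWithinAt
  exact h1.analyticAt ((sect_open' h).mem_nhds hs)

theorem Ext.agree {ρ₀ : ℝ} (h : 1 ≤ ρ₀) (H : RCon N α F) {G : ℂ → ℂ} (hG : Ext N α ρ₀ G) {x : ℝ}
    (hx : 0 < x) : F =ᶠ[𝓝 (x : ℂ)] G :=
  agree_ray (σ := 1 / 2) H.an (fun _ ht => hG.an h (sect_real' h ht)) h
    (fun s _ hs2 => by rw [H.eq s hs2, hG.eq s hs2]) hx

/-- **one-sided slow growth gives the continuation** -/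
theorem cont_one (E : Sys N α) (hreal : Re N α) (H : RCon N α F) {ρ₀ : ℝ} (h : 1 ≤ ρ₀)
    {t : ℝ → ℝ} (ht : ∀ ρ, ρ < t ρ)
    (hS : ∀ ρ : ℝ, ρ₀ < ρ → ∀ ε : ℝ, 0 < ε → ∃ C : ℝ, ∀ᶠ Y : ℝ in atTop,
      -StE N α ρ (t ρ) Y ≤ C * Real.exp (ε * Real.log Y ^ ρ)) :
    ∃ G : ℂ → ℂ, Ext N α ρ₀ G := by
  have := E.cnt
  obtain ⟨e, he⟩ := Countable.exists_injective_nat (X × ℕ)
  have D := dat_neg (E.datS he (σ := 1) (by norm_num))
  obtain ⟨Dh, hD1, hD2⟩ := ext_all D (H.rc E hreal he) h (fun ρ hρ ε hε => by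
    have hρ1 : 1 < ρ := by linarith
    have hρ0 : 0 < ρ := by linarith
    obtain ⟨C, hC⟩ := hS ρ hρ ε hε
    have hc := (E.St_close he hρ1 (ht ρ)).eventually (Metric.ball_mem_nhds 0 one_pos)
    obtain ⟨y₀, -, hy₀⟩ := ev_y hρ0 (Q := fun _ y => M (lamS N e) (fun n => -cS N α e n) ρ⁻¹ y ≤
      (|C| + 1) * Real.exp (ε * y)) (by
        filter_upwards [hC, hc, eventually_gt_atTop 1] with Y e1 e2 e3
        have hT : 0 < Real.log Y := Real.log_pos e3
        have hy : 0 < Real.log Y ^ ρ := Real.rpow_pos_of_pos hT _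
        rw [dist_zero_right, Real.norm_eq_abs] at e2
        have e4 := (abs_lt.1 e2).2
        rw [M_neg]
        have e5 : C * Real.exp (ε * Real.log Y ^ ρ) ≤ |C| * Real.exp (ε * Real.log Y ^ ρ) :=
          mul_le_mul_of_nonneg_right (le_abs_self C) (Real.exp_pos _).le
        have e6 : 1 ≤ Real.exp (ε * Real.log Y ^ ρ) := Real.one_le_exp (by positivity)
        rw [add_mul, one_mul]
        linarith)
    exact ⟨_, y₀, hy₀⟩)
  -- the equality to the right of `1/2`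
  have hDE : ∀ s ∈ Sect ρ₀, 1 / 2 < s.re → exp (-Dh s) = LE N α s := by
    intro s hs hs2
    obtain ⟨ρ, hρ, hsρ⟩ := exists_sect' h hs
    have hρ1 : 1 < ρ := by linarith
    have hsub := sect_mono' h hρ.le
    obtain ⟨σ', h3, h4⟩ := exists_between hs2
    set R : Set ℂ := Sect ρ ∩ {s : ℂ | σ' < s.re} with hR
    have hRo : IsOpen R :=
      (sect_open hρ1).inter (isOpen_lt continuous_const Complex.continuous_re)
    have hRc : Convex ℝ R := (sect_convex hρ1).inter (convex_halfSpace_re_gt _)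
    have a1 : AnalyticOnNhd ℂ (fun s => -Dh s) R :=
      DifferentiableOn.analyticOnNhd
        (fun s hs => (hD1 s (hsub hs.1)).neg.differentiableWithinAt) hRo
    have a2 : AnalyticOnNhd ℂ (DD (lamS N e) (cS N α e)) R :=
      DifferentiableOn.analyticOnNhd (fun s hs =>
        (dd_deriv (E.datS he h3) hs.2).differentiableAt.differentiableWithinAt) hRo
    have hx0 : (0 : ℝ) < |σ'| + 2 := by positivity
    have hx1 := le_abs_self σ'
    have h2 : ((|σ'| + 2 : ℝ) : ℂ) ∈ R := ⟨sect_real hρ1 hx0, by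
      change σ' < ((|σ'| + 2 : ℝ) : ℂ).re
      rw [Complex.ofReal_re]
      linarith⟩
    have ho : IsOpen {z : ℂ | 1 < z.re} := isOpen_lt continuous_const Complex.continuous_re
    have a3 := a1.eqOn_of_preconnected_of_eventuallyEq a2 hRc.isPreconnected h2 (by
      filter_upwards [hRo.mem_nhds h2, ho.mem_nhds (show 1 < ((|σ'| + 2 : ℝ) : ℂ).re by
        rw [Complex.ofReal_re]
        have := abs_nonneg σ'
        linarith)] with z hz hz2
      have := hD2 z (hsub hz.1) hz2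
      rw [DD_neg] at this
      simp only [this, neg_neg])
    have a4 : -Dh s = DD (lamS N e) (cS N α e) s := a3 ⟨hsρ, h4⟩
    rw [a4]
    exact E.exp_DD hreal he hs2
  set G : ℂ → ℂ := fun s => if 1 / 2 < s.re then LE N α s else exp (-Dh s) with hG
  have hG1 : ∀ s : ℂ, 1 / 2 < s.re → G s = LE N α s := fun s hs => by
    rw [hG]
    simp only
    rw [if_pos hs]
  have hG2 : ∀ s ∈ Sect ρ₀, G s = exp (-Dh s) := fun s hs => by
    by_cases h2 : 1 / 2 < s.re
    · rw [hG1 s h2, hDE s hs h2]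
    · rw [hG]
      simp only
      rw [if_neg h2]
  have ho : IsOpen {z : ℂ | 1 / 2 < z.re} := isOpen_lt continuous_const Complex.continuous_re
  refine ⟨G, fun s hs => ?_, fun s hs => ?_, hG1⟩
  · rcases hs with hs | hs
    · refine DifferentiableAt.congr_of_eventuallyEq (f := fun s => exp (-Dh s)) ?_ ?_
      · exact (hD1 s hs).neg.cexp
      · filter_upwards [(sect_open' h).mem_nhds hs] with z hz
        exact hG2 z hz
    · refine (E.LE_diff hs).1.congr_of_eventuallyEq ?_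
      filter_upwards [ho.mem_nhds hs] with z hz
      exact hG1 z hz
  · rcases hs with hs | hs
    · rw [hG2 s hs]
      exact Complex.exp_ne_zero _
    · rw [hG1 s hs]
      exact (E.LE_diff hs).2

/-- the leading coefficient at the vertex -/
structure Lead (F : ℂ → ℂ) (m : ℕ) (A : ℂ) : Prop where
  an : AnalyticAt ℂ F 0
  ne : A ≠ 0
  lim : Tendsto (fun s => F s / s ^ m) (𝓝[≠] 0) (𝓝 A)

/-- **the limit formula** -/
theorem limit_one (E : Sys N α) (hreal : Re N α) (H : RCon N α F) {m : ℕ} {A : ℂ}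
    (hA : Lead F m A) {ρ₀ : ℝ} (h : 1 ≤ ρ₀) {G : ℂ → ℂ} (hG : Ext N α ρ₀ G) :
    0 < A.re ∧ A = ((A.re : ℝ) : ℂ) ∧ ∀ ρ ρ' : ℝ, ρ₀ < ρ → ρ < ρ' →
      Tendsto (fun Y : ℝ => StE N α ρ ρ' Y + m * Real.log (Real.log Y)) atTop
        (𝓝 (Real.log A.re - m * Real.eulerMascheroniConstant / ρ)) := by
  have := E.cnt
  obtain ⟨e, he⟩ := Countable.exists_injective_nat (X × ℕ)
  have hag : ∀ x : ℝ, 0 < x → F =ᶠ[𝓝 (x : ℂ)] G := fun x hx => hG.agree h H hx
  have hne : ∀ x : ℝ, 0 < x → F x ≠ 0 := fun x hx => by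
    rw [(hag x hx).eq_of_nhds]
    exact hG.ne _ (Or.inl (sect_real' h hx))
  obtain ⟨hp, hAe⟩ := lead_pos (H.rc E hreal he) hne hA.ne hA.lim
  refine ⟨hp, hAe, (E.star_equiv hreal h m hp).2 ⟨G, fun s hs => ⟨hG.diff s hs, hG.ne s hs⟩, hG.eq,
    fun ρ hρ => ?_⟩⟩
  have hsub : Sect ρ ⊆ Sect ρ₀ := sect_mono' h hρ.le
  have h1 := agree_vertex h hA.an (fun s hs => hG.diff s (Or.inl hs)) hag
  have h2 : Tendsto (fun s => F s / s ^ m) (𝓝[Sect ρ] 0) (𝓝 A) :=
    hA.lim.mono_left (nhdsWithin_mono 0 fun s hs => hs.1)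
  rw [← hAe]
  refine h2.congr' ?_
  filter_upwards [nhdsWithin_mono 0 hsub h1] with s hs
  rw [hs]

/-- slow growth in terms of the iterated logarithm -/
theorem slow {S : ℝ → ℝ} {K ρ : ℝ} (hρ : 1 < ρ) (h : ∀ᶠ Y : ℝ in atTop, S Y ≤ K * Real.log (Real.log Y))
    {ε : ℝ} (hε : 0 < ε) : ∃ C : ℝ, ∀ᶠ Y : ℝ in atTop, S Y ≤ C * Real.exp (ε * Real.log Y ^ ρ) := by
  refine ⟨|K| / ε, ?_⟩
  filter_upwards [h, Real.tendsto_log_atTop.eventually_ge_atTop 1] with Y h4 h5
  have hT : 0 < Real.log Y := by linarith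
  have e1 : Real.log (Real.log Y) ≤ Real.log Y ^ ρ := by
    have := Real.log_le_sub_one_of_pos hT
    have e2 : Real.log Y ≤ Real.log Y ^ ρ := by
      conv_lhs => rw [← Real.rpow_one (Real.log Y)]
      exact Real.rpow_le_rpow_of_exponent_le h5 hρ.le
    linarith
  have e2 : ε * Real.log Y ^ ρ ≤ Real.exp (ε * Real.log Y ^ ρ) := by
    have := Real.add_one_le_exp (ε * Real.log Y ^ ρ)
    linarith
  have e3 : 0 ≤ Real.log (Real.log Y) := Real.log_nonneg h5
  calc S Y ≤ K * Real.log (Real.log Y) := h4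
    _ ≤ |K| * Real.log Y ^ ρ := mul_le_mul (le_abs_self _) e1 e3 (abs_nonneg _)
    _ = |K| / ε * (ε * Real.log Y ^ ρ) := by field_simp
    _ ≤ _ := by gcongr

theorem tendsto_loglog : Tendsto (fun Y : ℝ => Real.log (Real.log Y)) atTop atTop :=
  Real.tendsto_log_atTop.comp Real.tendsto_log_atTop

/-- **the order of vanishing, one-sided** -/
theorem order_one (E : Sys N α) (hreal : Re N α) (H : RCon N α F) {m : ℕ} {A : ℂ}
    (hA : Lead F m A) {ρ₀ : ℝ} (h : 1 ≤ ρ₀) {t : ℝ → ℝ} (ht : ∀ ρ, ρ < t ρ) (r : ℝ) :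
    (∀ ρ : ℝ, ρ₀ < ρ → ∀ ε : ℝ, 0 < ε → ∀ᶠ Y : ℝ in atTop,
      -StE N α ρ (t ρ) Y ≤ (r + ε) * Real.log (Real.log Y)) ↔
    (∃ G : ℂ → ℂ, Ext N α ρ₀ G) ∧ (m : ℝ) ≤ r := by
  constructor
  · intro hS
    obtain ⟨G, hG⟩ := cont_one E hreal H h ht (fun ρ hρ ε hε =>
      slow (by linarith) (hS ρ hρ 1 one_pos) hε)
    refine ⟨⟨G, hG⟩, ?_⟩
    obtain ⟨-, -, hlim⟩ := limit_one E hreal H hA h hG
    have h2 := hS (ρ₀ + 1) (by linarith)
    have h3 := hlim (ρ₀ + 1) (t (ρ₀ + 1)) (by linarith) (ht _)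
    by_contra hcon
    rw [not_le] at hcon
    set L : ℝ := Real.log A.re - m * Real.eulerMascheroniConstant / (ρ₀ + 1) with hL
    set ε : ℝ := (m - r) / 2 with hε
    have hε0 : 0 < ε := by rw [hε]; linarith
    have h4 := h3.eventually (gt_mem_nhds (show L < L + 1 by linarith))
    obtain ⟨Y, e1, e2, e3⟩ := (h4.and ((h2 ε hε0).and
      ((tendsto_loglog.const_mul_atTop hε0).eventually_gt_atTop (L + 1)))).exists
    have e4 : (m : ℝ) * Real.log (Real.log Y) - (r + ε) * Real.log (Real.log Y) =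
        ε * Real.log (Real.log Y) := by
      rw [hε]
      ring
    linarith
  · rintro ⟨⟨G, hG⟩, hmr⟩ ρ hρ ε hε
    obtain ⟨-, -, hlim⟩ := limit_one E hreal H hA h hG
    have h3 := hlim ρ (t ρ) hρ (ht ρ)
    set L : ℝ := Real.log A.re - m * Real.eulerMascheroniConstant / ρ with hL
    have h4 := h3.eventually (lt_mem_nhds (show L - 1 < L by linarith))
    filter_upwards [h4, (tendsto_loglog.const_mul_atTop hε).eventually_gt_atTop (1 - L),
      tendsto_loglog.eventually_ge_atTop 0] with Y e1 e2 e3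
    have e4 : (m : ℝ) * Real.log (Real.log Y) ≤ r * Real.log (Real.log Y) :=
      mul_le_mul_of_nonneg_right hmr e3
    rw [add_mul]
    linarith

/-- **the leading coefficient, one-sided** -/
theorem coeff_one (E : Sys N α) (hreal : Re N α) (H : RCon N α F) {m : ℕ} {A : ℂ}
    (hA : Lead F m A) {ρ₀ : ℝ} (h : 1 ≤ ρ₀) {t : ℝ → ℝ} (ht : ∀ ρ, ρ < t ρ) (r : ℕ)
    {B : ℝ} (hB : 0 < B) :
    (∀ ρ : ℝ, ρ₀ < ρ → ∀ ε : ℝ, 0 < ε → ∀ᶠ Y : ℝ in atTop,
      -StE N α ρ (t ρ) Y ≤ r * Real.log (Real.log Y) - Real.log B +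
        r * Real.eulerMascheroniConstant / ρ + ε) ↔
    (∃ G : ℂ → ℂ, Ext N α ρ₀ G) ∧ (m < r ∨ m = r ∧ B ≤ A.re) := by
  constructor
  · intro hS
    have hS' : ∀ ρ : ℝ, ρ₀ < ρ → ∀ ε : ℝ, 0 < ε → ∀ᶠ Y : ℝ in atTop,
        -StE N α ρ (t ρ) Y ≤ (r + ε) * Real.log (Real.log Y) := by
      intro ρ hρ ε hε
      filter_upwards [hS ρ hρ 1 one_pos, (tendsto_loglog.const_mul_atTop hε).eventually_gt_atTop
        (-Real.log B + r * Real.eulerMascheroniConstant / ρ + 1)] with Y e1 e2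
      rw [add_mul]
      linarith
    obtain ⟨⟨G, hG⟩, hmr⟩ := (order_one E hreal H hA h ht r).1 hS'
    refine ⟨⟨G, hG⟩, ?_⟩
    have hmr' : m ≤ r := by exact_mod_cast hmr
    rcases hmr'.lt_or_eq with h1 | h1
    · exact Or.inl h1
    · refine Or.inr ⟨h1, ?_⟩
      subst h1
      obtain ⟨hp, -, hlim⟩ := limit_one E hreal H hA h hG
      have h2 := hS (ρ₀ + 1) (by linarith)
      have h3 := hlim (ρ₀ + 1) (t (ρ₀ + 1)) (by linarith) (ht _)
      set L : ℝ := Real.log A.re - m * Real.eulerMascheroniConstant / (ρ₀ + 1) with hL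
      have h4 : Real.log B - m * Real.eulerMascheroniConstant / (ρ₀ + 1) ≤ L := by
        refine le_of_forall_pos_le_add fun ε hε => ?_
        obtain ⟨Y, e1, e2⟩ := ((h3.eventually (gt_mem_nhds (show L < L + ε / 2 by linarith))).and
          (h2 (ε / 2) (by linarith))).exists
        linarith
      have h5 : Real.log B ≤ Real.log A.re := by
        rw [hL] at h4
        linarith
      exact (Real.log_le_log_iff hB hp).1 h5
  · rintro ⟨⟨G, hG⟩, hmr⟩ ρ hρ ε hε
    obtain ⟨hp, -, hlim⟩ := limit_one E hreal H hA h hG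
    have h3 := hlim ρ (t ρ) hρ (ht ρ)
    rcases hmr with hmr | ⟨rfl, hmr⟩
    · set L : ℝ := Real.log A.re - m * Real.eulerMascheroniConstant / ρ with hL
      have h4 := h3.eventually (lt_mem_nhds (show L - 1 < L by linarith))
      filter_upwards [h4, tendsto_loglog.eventually_ge_atTop 0,
        tendsto_loglog.eventually_gt_atTop (1 - L + Real.log B -
          r * Real.eulerMascheroniConstant / ρ)] with Y e1 e2 e3
      have e4 : (m : ℝ) + 1 ≤ r := by exact_mod_cast hmr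
      have e5 := mul_le_mul_of_nonneg_right e4 e2
      rw [add_mul, one_mul] at e5
      linarith
    · have h5 : Real.log B ≤ Real.log A.re := Real.log_le_log hB hmr
      filter_upwards [h3.eventually (lt_mem_nhds (show
        Real.log A.re - m * Real.eulerMascheroniConstant / ρ - ε <
          Real.log A.re - m * Real.eulerMascheroniConstant / ρ by linarith))] with Y e1
      linarith

end Pool.Agent.X287.RS
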