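import Mathlib

/-!
# Exponentials in the group ring of a finite abelian group
-/

set_option autoImplicit false

namespace Pool.Agent.X287.ST

open Complex Filter Topology

variable {G : Type} [CommGroup G] [Fintype G]

open Classical in
/-- the powers of `f = ∑ f(σ) σ` in the group ring `ℂ[G]` -/
noncomputable def pw (f : G → ℂ) : ℕ → G → ℂ
  | 0 => fun σ => if σ = 1 then 1 else 0
  | n + 1 => fun σ => ∑ τ, f τ * pw f n (τ⁻¹ * σ)

/-- the exponential of `f` in the group ring `ℂ[G]` -/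
noncomputable def gexp (f : G → ℂ) (σ : G) : ℂ := ∑' n : ℕ, pw f n σ / n.factorial

lemma norm_pw (f : G → ℂ) (n : ℕ) (σ : G) : ‖pw f n σ‖ ≤ (∑ τ, ‖f τ‖) ^ n := by
  induction n generalizing σ with
  | zero =>
    unfold pw
    split_ifs <;> simp
  | succ n ih =>
    unfold pw
    calc ‖∑ τ, f τ * pw f n (τ⁻¹ * σ)‖ ≤ ∑ τ, ‖f τ‖ * (∑ τ, ‖f τ‖) ^ n := by
          refine (norm_sum_le _ _).trans (Finset.sum_le_sum fun τ _ => ?_)
          rw [norm_mul]
          exact mul_le_mul_of_nonneg_left (ih _) (norm_nonneg _)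
      _ = _ := by rw [← Finset.sum_mul, pow_succ, mul_comm]

lemma summable_pw (f : G → ℂ) (σ : G) : Summable fun n : ℕ => pw f n σ / n.factorial := by
  refine Summable.of_norm_bounded (Real.summable_pow_div_factorial (∑ τ, ‖f τ‖)) fun n => ?_
  rw [norm_div, Complex.norm_natCast]
  have := norm_pw f n σ
  gcongr

/-- the value of a character at a power -/
lemma char_pw (χ : G →* ℂ) (f : G → ℂ) (n : ℕ) :
    ∑ σ, χ σ * pw f n σ = (∑ σ, χ σ * f σ) ^ n := by
  classical
  induction n with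
  | zero =>
    simp only [pw, pow_zero]
    rw [Finset.sum_eq_single 1]
    · simp
    · intro b _ hb
      simp [hb]
    · intro h
      exact absurd (Finset.mem_univ _) h
  | succ n ih =>
    have h1 : ∀ τ : G, ∑ σ, χ σ * (f τ * pw f n (τ⁻¹ * σ)) =
        χ τ * f τ * ∑ σ, χ σ * pw f n σ := by
      intro τ
      rw [← Equiv.sum_comp (Equiv.mulLeft τ) (fun σ => χ σ * (f τ * pw f n (τ⁻¹ * σ))),
        Finset.mul_sum]
      refine Finset.sum_congr rfl fun ρ _ => ?_
      simp only [Equiv.coe_mulLeft, map_mul, inv_mul_cancel_left]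
      ring
    calc ∑ σ, χ σ * pw f (n + 1) σ = ∑ σ, ∑ τ, χ σ * (f τ * pw f n (τ⁻¹ * σ)) := by
          refine Finset.sum_congr rfl fun σ _ => ?_
          show χ σ * (∑ τ, f τ * pw f n (τ⁻¹ * σ)) = _
          rw [Finset.mul_sum]
      _ = ∑ τ, ∑ σ, χ σ * (f τ * pw f n (τ⁻¹ * σ)) := Finset.sum_comm
      _ = ∑ τ, χ τ * f τ * ∑ σ, χ σ * pw f n σ := Finset.sum_congr rfl fun τ _ => h1 τ
      _ = _ := by rw [← Finset.sum_mul, ih, pow_succ, mul_comm]

/-- the value of a character at the exponential -/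
theorem char_gexp (χ : G →* ℂ) (f : G → ℂ) :
    ∑ σ, χ σ * gexp f σ = Complex.exp (∑ σ, χ σ * f σ) := by
  have h1 : ∀ σ, HasSum (fun n : ℕ => χ σ * (pw f n σ / n.factorial)) (χ σ * gexp f σ) := fun σ =>
    (summable_pw f σ).hasSum.mul_left _
  have h2 := hasSum_sum (s := (Finset.univ : Finset G)) (fun σ _ => h1 σ)
  have h3 : (fun n : ℕ => ∑ σ, χ σ * (pw f n σ / n.factorial)) =
      fun n : ℕ => (∑ σ, χ σ * f σ) ^ n / n.factorial := by
    funext n
    rw [← char_pw, Finset.sum_div]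
    exact Finset.sum_congr rfl fun σ _ => by ring
  rw [h3] at h2
  have h4 := NormedSpace.expSeries_div_hasSum_exp (𝔸 := ℂ) (∑ σ, χ σ * f σ)
  rw [← Complex.exp_eq_exp_ℂ] at h4
  exact h2.unique h4

/-- the character as a homomorphism -/
noncomputable def chr (ψ : AddChar (Additive G) ℂ) : G →* ℂ where
  toFun σ := ψ (Additive.ofMul σ)
  map_one' := by
    rw [ofMul_one, AddChar.map_zero_eq_one]
  map_mul' σ τ := by
    rw [ofMul_mul, AddChar.map_add_eq_mul]

lemma norm_chr (ψ : AddChar (Additive G) ℂ) (σ : G) : ‖chr ψ σ‖ = 1 := by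
  have h := ψ.norm_apply (Additive.ofMul σ)
  exact h

lemma sum_chr [DecidableEq G] (σ : G) : ∑ ψ : AddChar (Additive G) ℂ, chr ψ σ =
    if σ = 1 then (Fintype.card G : ℂ) else 0 := by
  have h := AddChar.sum_apply_eq_ite (α := Additive G) (Additive.ofMul σ)
  have hc : Fintype.card (Additive G) = Fintype.card G := Fintype.card_congr Additive.toMul
  rw [hc] at h
  simp only [chr, MonoidHom.coe_mk, OneHom.coe_mk]
  rw [h]
  simp [ofMul_eq_zero]

/-- Fourier inversion -/
theorem inversion (g : G → ℂ) (σ : G) :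
    (Fintype.card G : ℂ) * g σ = ∑ ψ : AddChar (Additive G) ℂ, chr ψ σ⁻¹ * ∑ τ, chr ψ τ * g τ := by
  classical
  calc (Fintype.card G : ℂ) * g σ = ∑ τ, g τ * ∑ ψ : AddChar (Additive G) ℂ, chr ψ (σ⁻¹ * τ) := by
        rw [Finset.sum_eq_single σ]
        · rw [sum_chr, if_pos (inv_mul_cancel σ)]
          ring
        · intro τ _ hτ
          rw [sum_chr, if_neg, mul_zero]
          intro h
          exact hτ (by rw [inv_mul_eq_one] at h; exact h.symm)
        · intro h
          exact absurd (Finset.mem_univ _) h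
    _ = ∑ τ, ∑ ψ : AddChar (Additive G) ℂ, chr ψ σ⁻¹ * (chr ψ τ * g τ) := by
        refine Finset.sum_congr rfl fun τ _ => ?_
        rw [Finset.mul_sum]
        refine Finset.sum_congr rfl fun ψ _ => ?_
        rw [map_mul]
        ring
    _ = _ := by
        rw [Finset.sum_comm]
        exact Finset.sum_congr rfl fun ψ _ => by rw [Finset.mul_sum]

/-- limits of all Fourier coefficients -/
theorem tendsto_iff {ι : Type} {l : Filter ι} (u : ι → G → ℂ) (a : G → ℂ) :
    (∀ σ, Tendsto (fun T => u T σ) l (𝓝 (a σ))) ↔ ∀ ψ : AddChar (Additive G) ℂ,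
      Tendsto (fun T => ∑ σ, chr ψ σ * u T σ) l (𝓝 (∑ σ, chr ψ σ * a σ)) := by
  constructor
  · intro h ψ
    exact tendsto_finsetSum _ fun σ _ => (h σ).const_mul _
  · intro h σ
    have h1 : Tendsto (fun T => ∑ ψ : AddChar (Additive G) ℂ, chr ψ σ⁻¹ * ∑ τ, chr ψ τ * u T τ) l
        (𝓝 (∑ ψ : AddChar (Additive G) ℂ, chr ψ σ⁻¹ * ∑ τ, chr ψ τ * a τ)) :=
      tendsto_finsetSum _ fun ψ _ => (h ψ).const_mul _
    rw [← inversion] at h1
    have h2 : (fun T => ∑ ψ : AddChar (Additive G) ℂ, chr ψ σ⁻¹ * ∑ τ, chr ψ τ * u T τ) =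
        fun T => (Fintype.card G : ℂ) * u T σ := funext fun T => (inversion (u T) σ).symm
    rw [h2] at h1
    have hc : (Fintype.card G : ℂ) ≠ 0 := by exact_mod_cast Fintype.card_ne_zero
    have h3 := h1.const_mul (Fintype.card G : ℂ)⁻¹
    refine (h3.congr fun T => ?_).trans (le_of_eq ?_)
    · field_simp
    · rw [inv_mul_cancel_left₀ hc]

/-- error terms of all Fourier coefficients -/
theorem isBigO_of {u : ℝ → G → ℂ} {g : ℝ → ℝ} (h : ∀ ψ : AddChar (Additive G) ℂ,
    (fun T => ∑ σ, chr ψ σ * u T σ) =O[atTop] g) (σ : G) : (fun T => u T σ) =O[atTop] g := by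
  have h1 : (fun T => ∑ ψ : AddChar (Additive G) ℂ, chr ψ σ⁻¹ * ∑ τ, chr ψ τ * u T τ) =O[atTop] g :=
    Asymptotics.IsBigO.fun_sum fun ψ _ => (h ψ).const_mul_left _
  have hc : (Fintype.card G : ℂ) ≠ 0 := by exact_mod_cast Fintype.card_ne_zero
  refine (h1.const_mul_left (Fintype.card G : ℂ)⁻¹).congr_left fun T => ?_
  rw [← inversion, inv_mul_cancel_left₀ hc]

end Pool.Agent.X287.ST
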