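import Pool.Agent.X287.ST1
import Pool.Agent.X287.CR6

/-!
# Leading terms: from the rotated law to limits with a given power
-/

set_option autoImplicit false

namespace Pool.Agent.X287.ST

open Complex Filter Topology Asymptotics
open Pool.Agent.X287.CR

section
variable {Λ : ℂ} {S : ℝ → ℂ} {m : ℤ} {r₀ : ℂ}

/-- `(T e^{-Λ})^r` -/
noncomputable def sc (Λ : ℂ) (r : ℤ) (T : ℝ) : ℂ := ((T : ℂ) * Complex.exp (-Λ)) ^ r

lemma sc_ne (Λ : ℂ) {T : ℝ} (hT : 0 < T) : (T : ℂ) * Complex.exp (-Λ) ≠ 0 :=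
  mul_ne_zero (by exact_mod_cast hT.ne') (Complex.exp_ne_zero _)

/-- the main term -/
theorem asy_main (h : Asy Λ S m r₀) :
    (fun T : ℝ => sc Λ m T * Complex.exp (-S T) - Complex.exp r₀) =O[atTop] (fun T : ℝ => 1 / T) := by
  have h' : Asy 0 (fun T => -(S T - m * (Real.log T - Λ))) 0 (-r₀) := by
    have h1 := IsBigO.neg_left h
    refine h1.congr_left fun T => ?_
    push_cast
    ring
  have h2 := h'.exp_rate rfl
  have h3 : (1 : ℂ) / Complex.exp (-r₀) = Complex.exp r₀ := by
    rw [Complex.exp_neg, one_div, inv_inv]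
  rw [h3] at h2
  refine h2.congr' ?_ EventuallyEq.rfl
  filter_upwards [eventually_gt_atTop 0] with T hT
  congr 1
  have hTm : (T : ℂ) * Complex.exp (-Λ) = Complex.exp (Real.log T - Λ) := by
    rw [sub_eq_add_neg, Complex.exp_add, ← Complex.ofReal_exp, Real.exp_log hT]
  unfold sc
  rw [hTm, ← Complex.exp_int_mul, ← Complex.exp_add]
  congr 1
  ring

/-- a higher order -/
theorem asy_gt (h : Asy Λ S m r₀) {r : ℤ} (hr : r < m) :
    (fun T : ℝ => sc Λ r T * Complex.exp (-S T)) =O[atTop] (fun T : ℝ => 1 / T) := by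
  have h1 := asy_main h
  have h2 : (fun T : ℝ => sc Λ m T * Complex.exp (-S T)) =O[atTop] (fun _ : ℝ => (1 : ℝ)) := by
    have h3 : (fun T : ℝ => sc Λ m T * Complex.exp (-S T) - Complex.exp r₀) =O[atTop]
        (fun _ : ℝ => (1 : ℝ)) := by
      refine h1.trans ?_
      refine IsBigO.of_bound 1 ?_
      filter_upwards [eventually_ge_atTop 1] with T hT
      rw [norm_one, mul_one, Real.norm_eq_abs, abs_of_nonneg (by positivity)]
      exact (div_le_one (by linarith)).2 hT
    have h4 := h3.add (isBigO_const_const (Complex.exp r₀) (one_ne_zero (α := ℝ)) atTop)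
    refine h4.congr_left fun T => ?_
    ring
  have h5 : (fun T : ℝ => sc Λ (r - m) T) =O[atTop] (fun T : ℝ => 1 / T) := by
    obtain ⟨n, hn⟩ := Int.eq_ofNat_of_zero_le (by omega : 0 ≤ m - r - 1)
    have h6 : ∀ T : ℝ, sc Λ (r - m) T = ((T : ℂ) * Complex.exp (-Λ))⁻¹ ^ (n + 1) := by
      intro T
      unfold sc
      have : r - m = -((n + 1 : ℕ) : ℤ) := by push_cast; omega
      rw [this, zpow_neg, zpow_natCast, inv_pow]
    have h7 : (fun T : ℝ => ((T : ℂ) * Complex.exp (-Λ))⁻¹) =O[atTop] (fun T : ℝ => 1 / T) := by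
      refine IsBigO.of_bound ‖Complex.exp Λ‖ ?_
      filter_upwards [eventually_gt_atTop 0] with T hT
      rw [mul_inv, norm_mul, norm_inv, Complex.norm_real, Real.norm_eq_abs, abs_of_pos hT,
        Complex.exp_neg, inv_inv, Real.norm_eq_abs, abs_of_pos (by positivity : 0 < 1 / T)]
      rw [one_div, mul_comm]
    have h8 : (fun T : ℝ => ((T : ℂ) * Complex.exp (-Λ))⁻¹) =O[atTop] (fun _ : ℝ => (1 : ℝ)) := by
      refine h7.trans ?_
      refine IsBigO.of_bound 1 ?_
      filter_upwards [eventually_ge_atTop 1] with T hT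
      rw [norm_one, mul_one, Real.norm_eq_abs, abs_of_nonneg (by positivity)]
      exact (div_le_one (by linarith)).2 hT
    have h9 := (h8.pow n).mul h7
    simp only [one_pow, one_mul] at h9
    refine h9.congr_left fun T => ?_
    rw [h6, pow_succ]
  have h6 := h5.mul h2
  simp only [mul_one] at h6
  refine h6.congr' ?_ EventuallyEq.rfl
  filter_upwards [eventually_gt_atTop 0] with T hT
  have hne := sc_ne Λ hT
  unfold sc
  rw [← mul_assoc, ← zpow_add₀ hne]
  congr 2
  ring

/-- the limits with the power `r` -/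
theorem asy_iff (h : Asy Λ S m r₀) (r : ℤ) (b : ℂ) :
    Tendsto (fun T : ℝ => sc Λ r T * Complex.exp (-S T)) atTop (𝓝 b) ↔
      r ≤ m ∧ b = if m = r then Complex.exp r₀ else 0 := by
  have h0 : Tendsto (fun T : ℝ => 1 / T) atTop (𝓝 (0 : ℝ)) :=
    tendsto_const_nhds.div_atTop tendsto_id
  have hmain : Tendsto (fun T : ℝ => sc Λ m T * Complex.exp (-S T)) atTop (𝓝 (Complex.exp r₀)) := by
    have h1 := ((asy_main h).trans_tendsto h0).add_const (Complex.exp r₀)
    rw [zero_add] at h1
    refine h1.congr fun T => ?_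
    ring
  have hdir : r ≤ m → Tendsto (fun T : ℝ => sc Λ r T * Complex.exp (-S T)) atTop
      (𝓝 (if m = r then Complex.exp r₀ else 0)) := by
    intro hr
    split_ifs with h1
    · subst h1
      exact hmain
    · exact (asy_gt h (lt_of_le_of_ne hr (Ne.symm h1))).trans_tendsto h0
  constructor
  · intro h1
    have hr : r ≤ m := by
      by_contra hlt
      push Not at hlt
      -- then the limit of the product with the inverse power vanishes
      have h2 : Tendsto (fun T : ℝ => sc Λ (m - r) T) atTop (𝓝 0) := by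
        obtain ⟨n, hn⟩ := Int.eq_ofNat_of_zero_le (by omega : 0 ≤ r - m - 1)
        have h6 : ∀ T : ℝ, sc Λ (m - r) T = ((T : ℂ) * Complex.exp (-Λ))⁻¹ ^ (n + 1) := by
          intro T
          unfold sc
          have : m - r = -((n + 1 : ℕ) : ℤ) := by push_cast; omega
          rw [this, zpow_neg, zpow_natCast, inv_pow]
        have h7 : Tendsto (fun T : ℝ => ((T : ℂ) * Complex.exp (-Λ))⁻¹) atTop (𝓝 0) := by
          have h8 : Tendsto (fun T : ℝ => ((T⁻¹ : ℝ) : ℂ) * (Complex.exp (-Λ))⁻¹) atTop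
              (𝓝 (((0 : ℝ) : ℂ) * (Complex.exp (-Λ))⁻¹)) :=
            ((Complex.continuous_ofReal.tendsto 0).comp tendsto_inv_atTop_zero).mul_const _
          rw [Complex.ofReal_zero, zero_mul] at h8
          refine h8.congr fun T => ?_
          rw [mul_inv, Complex.ofReal_inv]
        have h8 := h7.pow (n + 1)
        rw [zero_pow (Nat.succ_ne_zero n)] at h8
        refine h8.congr fun T => ?_
        rw [h6]
      have h3 := h2.mul h1
      rw [zero_mul] at h3
      have h4 : Tendsto (fun T : ℝ => sc Λ m T * Complex.exp (-S T)) atTop (𝓝 0) := by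
        refine h3.congr' ?_
        filter_upwards [eventually_gt_atTop 0] with T hT
        have hne := sc_ne Λ hT
        unfold sc
        rw [← mul_assoc, ← zpow_add₀ hne]
        congr 2
        ring
      exact Complex.exp_ne_zero r₀ (tendsto_nhds_unique hmain h4)
    exact ⟨hr, tendsto_nhds_unique h1 (hdir hr)⟩
  · rintro ⟨hr, rfl⟩
    exact hdir hr

/-- the error term -/
theorem asy_rate (h : Asy Λ S m r₀) (r : ℤ) (b : ℂ)
    (hb : Tendsto (fun T : ℝ => sc Λ r T * Complex.exp (-S T)) atTop (𝓝 b)) :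
    (fun T : ℝ => sc Λ r T * Complex.exp (-S T) - b) =O[atTop] (fun T : ℝ => 1 / T) := by
  obtain ⟨hr, rfl⟩ := (asy_iff h r b).1 hb
  split_ifs with h1
  · subst h1
    exact asy_main h
  · simp only [sub_zero]
    exact asy_gt h (lt_of_le_of_ne hr (Ne.symm h1))

end

/-- the limits of a meromorphic function with the power `r` -/
theorem mero_iff {L : ℂ → ℂ} {s₀ : ℂ} {m : ℤ} {r₀ : ℂ} (hL : MeromorphicAt L s₀)
    (hm : meromorphicOrderAt L s₀ = m) (hl : meromorphicTrailingCoeffAt L s₀ = Complex.exp r₀)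
    (r : ℤ) (b : ℂ) :
    Tendsto (fun s : ℂ => L s / (s - s₀) ^ r) (𝓝[≠] s₀) (𝓝 b) ↔
      r ≤ m ∧ b = if m = r then Complex.exp r₀ else 0 := by
  have hmain : Tendsto (fun s : ℂ => L s / (s - s₀) ^ m) (𝓝[≠] s₀) (𝓝 (Complex.exp r₀)) := by
    have h1 := hL.tendsto_nhds_meromorphicTrailingCoeffAt
    rw [hm, hl] at h1
    refine h1.congr fun s => ?_
    simp only [Pi.smul_apply', smul_eq_mul, WithTop.untop₀_coe, zpow_neg]
    rw [div_eq_mul_inv, mul_comm]
    rfl
  have hz : ∀ {n : ℤ}, 0 < n → Tendsto (fun s : ℂ => (s - s₀) ^ n) (𝓝[≠] s₀) (𝓝 0) := by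
    intro n hn
    obtain ⟨k, hk⟩ := Int.eq_ofNat_of_zero_le (by omega : 0 ≤ n - 1)
    have h2 : n = ((k + 1 : ℕ) : ℤ) := by push_cast; omega
    have h3 : Tendsto (fun s : ℂ => (s - s₀) ^ (k + 1)) (𝓝[≠] s₀) (𝓝 ((s₀ - s₀) ^ (k + 1))) :=
      ((continuous_id.sub continuous_const).pow (k + 1)).continuousAt.tendsto.mono_left
        nhdsWithin_le_nhds
    rw [sub_self, zero_pow (Nat.succ_ne_zero k)] at h3
    refine h3.congr fun s => ?_
    rw [h2, zpow_natCast]
  have hev : ∀ᶠ s : ℂ in 𝓝[≠] s₀, s - s₀ ≠ 0 := by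
    filter_upwards [self_mem_nhdsWithin] with s hs
    exact sub_ne_zero.2 hs
  have hdir : r ≤ m → Tendsto (fun s : ℂ => L s / (s - s₀) ^ r) (𝓝[≠] s₀)
      (𝓝 (if m = r then Complex.exp r₀ else 0)) := by
    intro hr
    split_ifs with h1
    · subst h1
      exact hmain
    · have h2 := hmain.mul (hz (by omega : 0 < m - r))
      rw [mul_zero] at h2
      refine h2.congr' ?_
      filter_upwards [hev] with s hs
      rw [zpow_sub₀ hs]
      have h3 : (s - s₀) ^ m ≠ 0 := zpow_ne_zero _ hs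
      have h4 : (s - s₀) ^ r ≠ 0 := zpow_ne_zero _ hs
      field_simp
  constructor
  · intro h1
    have hr : r ≤ m := by
      by_contra hlt
      push Not at hlt
      have h2 := h1.mul (hz (by omega : 0 < r - m))
      rw [mul_zero] at h2
      have h3 : Tendsto (fun s : ℂ => L s / (s - s₀) ^ m) (𝓝[≠] s₀) (𝓝 0) := by
        refine h2.congr' ?_
        filter_upwards [hev] with s hs
        rw [zpow_sub₀ hs]
        have h3 : (s - s₀) ^ m ≠ 0 := zpow_ne_zero _ hs
        have h4 : (s - s₀) ^ r ≠ 0 := zpow_ne_zero _ hs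
        field_simp
      exact Complex.exp_ne_zero r₀ (tendsto_nhds_unique hmain h3)
    exact ⟨hr, tendsto_nhds_unique h1 (hdir hr)⟩
  · rintro ⟨hr, rfl⟩
    exact hdir hr

end Pool.Agent.X287.ST
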