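import Mathlib

/-!
# The Euler product of a completely multiplicative function on the ideals of a Dedekind domain

(copied from `Pool.Agent.X298.HC.Euler`, helper298)
-/

set_option autoImplicit false
set_option linter.unusedSectionVars false
open Filter Topology Ideal IsDedekindDomain

namespace Pool.Agent.X287.ST

section general
variable {R : Type*} [CommRing R] [IsDedekindDomain R]

/-- `I` is not divisible by the primes of `S` -/
def Copr (S : Finset (HeightOneSpectrum R)) (I : Ideal R) : Prop := ∀ v ∈ S, ¬ v.asIdeal ∣ I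

open scoped Classical in
/-- the sum over the ideals prime to `S` -/
noncomputable def TS (F : Ideal R → ℂ) (S : Finset (HeightOneSpectrum R)) : ℂ :=
  ∑' I : {I : Ideal R // I ≠ ⊥}, if Copr S I.1 then F I.1 else 0

variable (F : Ideal R →* ℂ) (hF : Summable fun I : {I : Ideal R // I ≠ ⊥} => ‖F I.1‖)

open scoped Classical in
include hF in
lemma TS_insert {v : HeightOneSpectrum R} {S : Finset (HeightOneSpectrum R)} (hv : v ∉ S) :
    TS F (insert v S) = (1 - F v.asIdeal) * TS F S := by
  have hsum : ∀ (P : {I : Ideal R // I ≠ ⊥} → Prop) [DecidablePred P],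
      Summable fun I : {I : Ideal R // I ≠ ⊥} => if P I then F I.1 else 0 := by
    intro P _
    refine Summable.of_norm_bounded hF fun I => ?_
    split_ifs
    · exact le_rfl
    · rw [norm_zero]; exact norm_nonneg _
  -- ideals divisible by `v`
  have h1 : F v.asIdeal * TS F S = ∑' I : {I : Ideal R // I ≠ ⊥},
      if (Copr S I.1 ∧ v.asIdeal ∣ I.1) then F I.1 else 0 := by
    let e : {I : Ideal R // I ≠ ⊥} → {I : Ideal R // I ≠ ⊥} := fun I =>
      ⟨v.asIdeal * I.1, mul_ne_zero v.ne_bot I.2⟩
    have he : Function.Injective e := by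
      intro I I' h
      have h1 : v.asIdeal * I.1 = v.asIdeal * I'.1 := congrArg Subtype.val h
      exact Subtype.ext (mul_left_cancel₀ v.ne_bot h1)
    have hsupp : Function.support (fun I : {I : Ideal R // I ≠ ⊥} =>
        if (Copr S I.1 ∧ v.asIdeal ∣ I.1) then F I.1 else 0) ⊆ Set.range e := by
      intro I hI
      rw [Function.mem_support] at hI
      by_contra hcon
      apply hI
      have : ¬ (Copr S I.1 ∧ v.asIdeal ∣ I.1) := by
        rintro ⟨-, I', hI'⟩
        refine hcon ⟨⟨I', ?_⟩, Subtype.ext hI'.symm⟩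
        rintro rfl
        exact I.2 (by rw [hI', Ideal.mul_bot])
      rw [if_neg this]
    rw [← he.tsum_eq hsupp, TS, ← tsum_mul_left]
    refine tsum_congr fun I => ?_
    have hcop : Copr S (v.asIdeal * I.1) ↔ Copr S I.1 := by
      constructor
      · intro h w hw hwI
        exact h w hw (hwI.mul_left _)
      · intro h w hw hwI
        rcases (Ideal.prime_of_isPrime w.ne_bot w.isPrime).dvd_or_dvd hwI with h1 | h1
        · have h2 : v.asIdeal ≤ w.asIdeal := Ideal.dvd_iff_le.1 h1
          have h3 : v.asIdeal = w.asIdeal := (v.isMaximal.eq_of_le w.isPrime.ne_top h2)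
          exact hv (by
            have : v = w := HeightOneSpectrum.ext h3
            rwa [this])
        · exact h w hw h1
    simp only [e]
    by_cases h2 : Copr S I.1
    · rw [if_pos h2, if_pos ⟨hcop.2 h2, dvd_mul_right _ _⟩, map_mul]
    · rw [if_neg h2, if_neg (fun h => h2 (hcop.1 h.1)), mul_zero]
  rw [sub_mul, one_mul, h1, TS, TS, ← (hsum (fun I => Copr S I.1)).tsum_sub
    (hsum (fun I => Copr S I.1 ∧ v.asIdeal ∣ I.1))]
  refine tsum_congr fun I => ?_
  by_cases h2 : Copr S I.1
  · by_cases h3 : v.asIdeal ∣ I.1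
    · have h4 : ¬ Copr (insert v S) I.1 := fun h => h v (Finset.mem_insert_self _ _) h3
      rw [if_neg h4, if_pos h2, if_pos ⟨h2, h3⟩, sub_self]
    · have h4 : Copr (insert v S) I.1 := by
        intro w hw
        rcases Finset.mem_insert.1 hw with rfl | hw
        · exact h3
        · exact h2 w hw
      rw [if_pos h4, if_pos h2, if_neg (fun h => h3 h.2), sub_zero]
  · have h4 : ¬ Copr (insert v S) I.1 := fun h => h2 fun w hw =>
      h w (Finset.mem_insert_of_mem hw)
    rw [if_neg h4, if_neg h2, if_neg (fun h => h2 h.1), sub_zero]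

include hF in
lemma TS_eq (S : Finset (HeightOneSpectrum R)) :
    TS F S = (∏ v ∈ S, (1 - F v.asIdeal)) * ∑' I : {I : Ideal R // I ≠ ⊥}, F I.1 := by
  classical
  induction S using Finset.induction_on with
  | empty =>
    rw [Finset.prod_empty, one_mul, TS]
    refine tsum_congr fun I => ?_
    rw [if_pos]
    intro v hv
    exact absurd hv (Finset.notMem_empty v)
  | insert v S hv ih =>
    rw [TS_insert F hF hv, ih, Finset.prod_insert hv, mul_assoc]

include hF in
lemma TS_tendsto : Tendsto (TS F) atTop (𝓝 1) := by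
  classical
  have h1 : (1 : ℂ) = ∑' I : {I : Ideal R // I ≠ ⊥}, if I.1 = 1 then F I.1 else 0 := by
    rw [tsum_eq_single (⟨1, by
      rw [Ideal.one_eq_top]
      exact bot_ne_top.symm⟩ : {I : Ideal R // I ≠ ⊥})]
    · rw [if_pos rfl, map_one]
    · intro I hI
      rw [if_neg]
      intro h
      exact hI (Subtype.ext h)
  rw [h1]
  unfold TS
  refine tendsto_tsum_of_dominated_convergence hF ?_ ?_
  · intro I
    by_cases hI : I.1 = 1
    · refine tendsto_const_nhds.congr fun S => ?_
      rw [if_pos hI, if_pos]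
      intro v hv hvI
      rw [hI] at hvI
      have := isUnit_of_dvd_one hvI
      exact v.isPrime.ne_top (Ideal.isUnit_iff.1 this)
    · rw [if_neg hI]
      obtain ⟨P, hP, hle⟩ := Ideal.exists_le_maximal I.1 (by rwa [← Ideal.one_eq_top])
      have hP0 : P ≠ ⊥ := by
        rintro rfl
        exact I.2 (le_bot_iff.1 hle)
      set v : HeightOneSpectrum R := ⟨P, hP.isPrime, hP0⟩ with hv
      refine tendsto_const_nhds.congr' ?_
      filter_upwards [eventually_ge_atTop ({v} : Finset (HeightOneSpectrum R))] with S hS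
      rw [if_neg]
      intro h
      exact h v (hS (Finset.mem_singleton_self v)) (Ideal.dvd_iff_le.2 hle)
  · refine Eventually.of_forall fun S I => ?_
    split_ifs
    · exact le_rfl
    · rw [norm_zero]; exact norm_nonneg _

include hF in
/-- Euler product -/
theorem euler : (∑' I : {I : Ideal R // I ≠ ⊥}, F I.1) ≠ 0 ∧
    HasProd (fun v : HeightOneSpectrum R => (1 - F v.asIdeal)⁻¹)
      (∑' I : {I : Ideal R // I ≠ ⊥}, F I.1) := by
  have h1 := TS_tendsto F hF
  have h2 : Tendsto (fun S : Finset (HeightOneSpectrum R) => (∏ v ∈ S, (1 - F v.asIdeal)) *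
      ∑' I : {I : Ideal R // I ≠ ⊥}, F I.1) atTop (𝓝 1) :=
    h1.congr fun S => TS_eq F hF S
  have hne : (∑' I : {I : Ideal R // I ≠ ⊥}, F I.1) ≠ 0 := by
    intro h0
    rw [h0] at h2
    simp only [mul_zero] at h2
    exact zero_ne_one (tendsto_nhds_unique tendsto_const_nhds h2)
  refine ⟨hne, ?_⟩
  have h3 := h2.div_const (∑' I : {I : Ideal R // I ≠ ⊥}, F I.1)
  have h4 : Tendsto (fun S : Finset (HeightOneSpectrum R) => ∏ v ∈ S, (1 - F v.asIdeal)) atTop
      (𝓝 (1 / ∑' I : {I : Ideal R // I ≠ ⊥}, F I.1)) := by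
    refine h3.congr fun S => ?_
    rw [mul_div_cancel_right₀ _ hne]
  have h5 := h4.inv₀ (by
    rw [one_div]
    exact inv_ne_zero hne)
  rw [one_div, inv_inv] at h5
  unfold HasProd
  rw [SummationFilter.unconditional_filter]
  refine h5.congr fun S => ?_
  rw [Finset.prod_inv_distrib]

end general

end Pool.Agent.X287.ST
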