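import Pool.Agent.X287.ST2
import Pool.Agent.X287.STE
import Pool.Agent.Y773.AB.Unr
import Pool.Agent.Y772.HG.Sgn

/-!
# Ray class characters of number fields: continuation with the gamma factors
-/

set_option autoImplicit false
set_option linter.unusedSectionVars false

open NumberField Complex Filter Topology Set MeasureTheory

namespace Pool.Agent.X287.ST

open Pool.Agent.Y773 Pool.Agent.Y773.G

section
variable {K : Type} [Field K] [NumberField K]

open Pool.Agent.Y773.G in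
/-- `(s - 1) L(s, η)` is entire and divisible by the inverse of the gamma factors -/
theorem LI_gam {𝔪 : Ideal (𝓞 K)} {e : InfinitePlace K → ℕ} {η : Ideal (𝓞 K) →*₀ ℂ}
    (h : Pool.Agent.Y773.G.IsModChar 𝔪 e η) :
    ∃ P : ℂ → ℂ, Differentiable ℂ P ∧ ∀ s : ℂ, 1 < s.re →
      P s * ∏ φ : K →+* ℂ, (Complex.Gammaℝ (s + Pool.Agent.Y773.G.ex e φ))⁻¹ = (s - 1) * LI η s := by
  classical
  obtain ⟨V, hV, hweak⟩ := fam_weak K
  obtain ⟨C, hC, hmel⟩ := mellin_Ftot K
  have hN : ∀ c, Nice e (Pool.Agent.Y773.G.Ps η e (rp K c)) := fun c => h.nice (rp_ne_bot c)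
  choose B hB using fun c => (hN c).bdd
  have hN0 := hN (Classical.arbitrary _)
  have hB' : ∀ c x, ‖Pool.Agent.Y773.G.Ps η e (rp K c) x‖ ≤ ∑ c, |B c| := fun c x =>
    (hB c x).trans ((le_abs_self _).trans (Finset.single_le_sum (f := fun c => |B c|)
      (fun _ _ => abs_nonneg _) (Finset.mem_univ c)))
  obtain ⟨P, hPf, hPg, hPk, hPε, hPf0, hPg0⟩ := hweak (rp K) reps_rp e hN0.he hN0.cpx
    (fun c => Pool.Agent.Y773.G.Ps η e (rp K c)) _ hB' (fun c => (hN c).unit) (mm (rp K) 𝔪) (Dd K)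
    (mm_pos rp_ne_bot h.ne_bot) Dd_pos Dd_mem (fun c => h.per_m (rp_ne_bot c) (mm_mem _ _ c))
  have hf0 : P.f₀ = 0 := by
    rw [hPf0, Finset.sum_eq_zero fun c _ => (hN c).zero, mul_zero]
  have hfF : P.f = Pool.Agent.Y773.G.Ftot η e (rp K) := hPf
  have hC' : (C : ℂ) ≠ 0 := by exact_mod_cast hC.ne'
  have hlam : ∀ s : ℂ, 1 < s.re → (s - 1) * mellin (Pool.Agent.Y773.G.Ftot η e (rp K)) s =
      (s - 1) * P.Λ₀ s + P.ε * P.g₀ := by
    intro s hs
    have h1 := (P.hasMellin (s := s) (by rw [hPk]; exact hs)).2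
    rw [hf0] at h1
    simp only [sub_zero] at h1
    rw [hfF] at h1
    have h2 : P.Λ s = P.Λ₀ s - (P.ε / (1 - s)) * P.g₀ := by
      unfold WeakFEPair.Λ
      rw [hf0, hPk, smul_zero, sub_zero, smul_eq_mul, Complex.ofReal_one]
    have h3 : (1 : ℂ) - s ≠ 0 := by
      intro h4
      have := congrArg Complex.re h4
      simp at this
      linarith
    have h5 : mellin (Pool.Agent.Y773.G.Ftot η e (rp K)) s = P.Λ s := h1
    rw [h5, h2]
    field_simp
    ring
  refine ⟨fun s => (C : ℂ)⁻¹ * ((s - 1) * P.Λ₀ s + P.ε * P.g₀), ?_, fun s hs => ?_⟩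
  · refine Differentiable.const_mul ?_ _
    exact ((differentiable_id.sub_const 1).mul P.differentiable_Λ₀).add_const _
  · simp only
    rw [← hlam s hs, (hmel (rp K) reps_rp e η h.norm_le_one hN s hs).2, Finset.prod_inv_distrib]
    have h3 := gam_ne_zero (Pool.Agent.Y773.G.ex e) (s := s) (by linarith)
    field_simp

end

end Pool.Agent.X287.ST
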