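import Pool.Agent.X287.ST3

/-!
# Partial zeta functions of number fields and exponentials in the group ring of sums over prime ideals
-/

set_option autoImplicit false
set_option linter.unusedSectionVars false

open NumberField Complex Filter Topology Asymptotics
open IsDedekindDomain

namespace Pool.Agent.X287.ST

open Pool.Agent.Y773 (LI TPos)
open Pool.Agent.X287.CR

variable {K : Type} [Field K] [NumberField K] {G : Type} [CommGroup G] [Fintype G]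

/-- `c` is multiplicative on the ideals prime to `𝔪`, and trivial on the ideals `(x)` with `x ≡ 1` modulo `𝔪`,
`x` totally positive -/
structure IsClassMap (𝔪 : Ideal (𝓞 K)) (c : Ideal (𝓞 K) → G) : Prop where
  mul : ∀ I J : Ideal (𝓞 K), IsCoprime I 𝔪 → IsCoprime J 𝔪 → c (I * J) = c I * c J
  ray : ∀ x : 𝓞 K, x ≠ 0 → x - 1 ∈ 𝔪 → (∀ σ : K →+* ℝ, 0 < σ (x : K)) → c (Ideal.span {x}) = 1

/-- the primes which do not divide `𝔪` -/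
abbrev Pl (𝔪 : Ideal (𝓞 K)) : Type := {v : HeightOneSpectrum (𝓞 K) // IsCoprime v.asIdeal 𝔪}

/-- the partial zeta functions -/
structure IsPZ (𝔪 : Ideal (𝓞 K)) (c : Ideal (𝓞 K) → G) (Z : G → ℂ → ℂ) : Prop where
  sum : ∀ (σ : G) (s : ℂ), 1 < s.re → HasSum (fun I : {I : Ideal (𝓞 K) // IsCoprime I 𝔪 ∧ c I = σ} =>
    ((Ideal.absNorm I.1 : ℕ) : ℂ) ^ (-s)) (Z σ s)
  an : ∀ (σ : G) (s : ℂ), s ≠ 1 → AnalyticAt ℂ (Z σ) s
  mer : ∀ σ : G, MeromorphicAt (Z σ) 1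

open Classical in
/-- the term of the prime power `v^k`, `k = x.2 + 1`, in the coefficient of `σ` -/
noncomputable def term (𝔪 : Ideal (𝓞 K)) (c : Ideal (𝓞 K) → G) (s₀ : ℂ) (γ T : ℝ) (σ : G)
    (x : Pl 𝔪 × ℕ) : ℂ :=
  if c (x.1.1.asIdeal ^ (x.2 + 1)) = σ then
    (((Ideal.absNorm x.1.1.asIdeal : ℕ) : ℂ) ^ (-s₀)) ^ (x.2 + 1) *
      Complex.exp ((γ * ((x.2 + 1) * Real.log (Ideal.absNorm x.1.1.asIdeal : ℕ) / T) : ℝ) * Complex.I) /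
    (((x.2 + 1) * Real.Gamma (1 + (x.2 + 1) * Real.log (Ideal.absNorm x.1.1.asIdeal : ℕ) / T) : ℝ) : ℂ)
  else 0

/-- the coefficient of `σ` in the element of `ℂ[G]` -/
noncomputable def Sg (𝔪 : Ideal (𝓞 K)) (c : Ideal (𝓞 K) → G) (s₀ : ℂ) (γ T : ℝ) (σ : G) : ℂ :=
  ∑' x, term 𝔪 c s₀ γ T σ x

section basic
variable {𝔪 : Ideal (𝓞 K)} {c : Ideal (𝓞 K) → G}

lemma cop_one (𝔪 : Ideal (𝓞 K)) : IsCoprime (1 : Ideal (𝓞 K)) 𝔪 := isCoprime_one_left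

lemma cop_zero (h : 𝔪 ≠ ⊤) : ¬ IsCoprime (0 : Ideal (𝓞 K)) 𝔪 := by
  rw [isCoprime_zero_left, Ideal.isUnit_iff]
  exact h

lemma cop_span {x : 𝓞 K} (hx : x - 1 ∈ 𝔪) : IsCoprime (Ideal.span {x}) 𝔪 := by
  rw [Ideal.isCoprime_iff_exists]
  refine ⟨x, Ideal.mem_span_singleton_self x, -(x - 1), 𝔪.neg_mem hx, ?_⟩
  ring

lemma IsClassMap.one (hc : IsClassMap 𝔪 c) : c 1 = 1 := by
  have h := hc.mul 1 1 (cop_one 𝔪) (cop_one 𝔪)
  rw [one_mul] at h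
  exact left_eq_mul.1 h

lemma IsClassMap.pow (hc : IsClassMap 𝔪 c) {I : Ideal (𝓞 K)} (hI : IsCoprime I 𝔪) (n : ℕ) :
    c (I ^ n) = c I ^ n := by
  induction n with
  | zero => rw [pow_zero, pow_zero, hc.one]
  | succ n ih => rw [pow_succ, pow_succ, hc.mul _ _ (hI.pow_left) hI, ih]

open Classical in
/-- the character on the ideals -/
noncomputable def eta (h𝔪 : 𝔪 ≠ ⊤) (hc : IsClassMap 𝔪 c) (χ : G →* ℂ) : Ideal (𝓞 K) →*₀ ℂ where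
  toFun I := if IsCoprime I 𝔪 then χ (c I) else 0
  map_zero' := if_neg (cop_zero h𝔪)
  map_one' := by rw [if_pos (cop_one 𝔪), hc.one, map_one]
  map_mul' I J := by
    by_cases hI : IsCoprime I 𝔪
    · by_cases hJ : IsCoprime J 𝔪
      · rw [if_pos hI, if_pos hJ, if_pos (hI.mul_left hJ), hc.mul I J hI hJ, map_mul]
      · rw [if_neg hJ, mul_zero, if_neg (fun h => hJ (IsCoprime.of_mul_left_right h))]
    · rw [if_neg hI, zero_mul, if_neg (fun h => hI (IsCoprime.of_mul_left_left h))]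

lemma eta_pos (h𝔪 : 𝔪 ≠ ⊤) (hc : IsClassMap 𝔪 c) (χ : G →* ℂ) {I : Ideal (𝓞 K)} (hI : IsCoprime I 𝔪) :
    eta h𝔪 hc χ I = χ (c I) := if_pos hI

lemma eta_neg (h𝔪 : 𝔪 ≠ ⊤) (hc : IsClassMap 𝔪 c) (χ : G →* ℂ) {I : Ideal (𝓞 K)} (hI : ¬ IsCoprime I 𝔪) :
    eta h𝔪 hc χ I = 0 := if_neg hI

lemma chi_ne (χ : G →* ℂ) (σ : G) : χ σ ≠ 0 := by
  intro h
  have h1 : χ σ * χ σ⁻¹ = 1 := by rw [← map_mul, mul_inv_cancel, map_one]
  rw [h, zero_mul] at h1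
  exact zero_ne_one h1

lemma norm_eta (h𝔪 : 𝔪 ≠ ⊤) (hc : IsClassMap 𝔪 c) (ψ : AddChar (Additive G) ℂ) (I : Ideal (𝓞 K)) :
    ‖eta h𝔪 hc (chr ψ) I‖ ≤ 1 := by
  by_cases hI : IsCoprime I 𝔪
  · rw [eta_pos h𝔪 hc _ hI, norm_chr]
  · rw [eta_neg h𝔪 hc _ hI, norm_zero]
    exact zero_le_one

/-- the signature -/
theorem exists_sig (h𝔪 : 𝔪 ≠ ⊤) (h0 : 𝔪 ≠ ⊥) (hc : IsClassMap 𝔪 c) (χ : G →* ℂ) :
    ∃ e : InfinitePlace K → ℕ, Pool.Agent.Y773.G.IsModChar 𝔪 e (eta h𝔪 hc χ) := by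
  obtain ⟨e, he1, he2, he3⟩ := Pool.Agent.Y772.G.t_sig K 𝔪 (eta h𝔪 hc χ) h0 (fun x hx0 hx hp => by
    rw [eta_pos h𝔪 hc χ (cop_span hx), hc.ray x hx0 hx hp, map_one])
  refine ⟨e, ⟨h0, h𝔪, he1, he2, fun I => ?_, he3⟩⟩
  constructor
  · intro h
    by_contra hI
    exact h (eta_neg h𝔪 hc χ hI)
  · intro hI
    rw [eta_pos h𝔪 hc χ hI]
    exact chi_ne χ _

/-- the Dirichlet series of the classes -/
lemma term_hasSum (h𝔪 : 𝔪 ≠ ⊤) (hc : IsClassMap 𝔪 c) (χ : G →* ℂ) {s : ℂ} {D : G → ℂ}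
    (hD : ∀ σ, HasSum (fun I : {I : Ideal (𝓞 K) // IsCoprime I 𝔪 ∧ c I = σ} =>
      ((Ideal.absNorm I.1 : ℕ) : ℂ) ^ (-s)) (D σ)) :
    HasSum (fun I : Ideal (𝓞 K) => eta h𝔪 hc χ I * ((Ideal.absNorm I : ℕ) : ℂ) ^ (-s))
      (∑ σ, χ σ * D σ) := by
  classical
  set f : Ideal (𝓞 K) → ℂ := fun I => ((Ideal.absNorm I : ℕ) : ℂ) ^ (-s) with hf
  set A : G → Set (Ideal (𝓞 K)) := fun σ => {I | IsCoprime I 𝔪 ∧ c I = σ} with hA
  have h0 : ∀ σ, HasSum ((A σ).indicator f) (D σ) := fun σ =>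
    (hasSum_subtype_iff_indicator (f := f) (s := A σ)).1 (hD σ)
  have h1 : ∀ σ, HasSum (fun I : Ideal (𝓞 K) => χ σ * (A σ).indicator f I) (χ σ * D σ) :=
    fun σ => (h0 σ).mul_left _
  have h2 := hasSum_sum (s := (Finset.univ : Finset G)) (fun σ _ => h1 σ)
  have h3 : (fun I : Ideal (𝓞 K) => ∑ σ, χ σ * (A σ).indicator f I) =
      fun I : Ideal (𝓞 K) => eta h𝔪 hc χ I * ((Ideal.absNorm I : ℕ) : ℂ) ^ (-s) := by
    funext I
    by_cases hI : IsCoprime I 𝔪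
    · rw [eta_pos h𝔪 hc χ hI, Finset.sum_eq_single (c I)]
      · rw [Set.indicator_of_mem (show I ∈ A (c I) from ⟨hI, rfl⟩)]
      · intro σ _ hσ
        rw [Set.indicator_of_notMem (fun h => hσ h.2.symm), mul_zero]
      · intro h
        exact absurd (Finset.mem_univ _) h
    · rw [eta_neg h𝔪 hc χ hI, zero_mul, Finset.sum_eq_zero]
      intro σ _
      rw [Set.indicator_of_notMem (fun h => hI h.1), mul_zero]
  rw [h3] at h2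
  exact h2

end basic

end Pool.Agent.X287.ST
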