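import Pool.Agent.X287.ST4

/-!
# Continuation of the partial zeta functions; the leading terms
-/

set_option autoImplicit false
set_option linter.unusedSectionVars false

open NumberField Complex Filter Topology Asymptotics
open IsDedekindDomain

namespace Pool.Agent.X287.ST

open Pool.Agent.Y773 (LI TPos)
open Pool.Agent.X287.CR

variable {K : Type} [Field K] [NumberField K] {G : Type} [CommGroup G] [Fintype G]
variable {𝔪 : Ideal (𝓞 K)} {c : Ideal (𝓞 K) → G}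

/-- the sum over the ideals of a class converges absolutely -/
lemma summable_cls (h𝔪 : 𝔪 ≠ ⊤) (c : Ideal (𝓞 K) → G) (σ : G) {s : ℂ} (hs : 1 < s.re) :
    Summable (fun I : {I : Ideal (𝓞 K) // IsCoprime I 𝔪 ∧ c I = σ} =>
      ((Ideal.absNorm I.1 : ℕ) : ℂ) ^ (-s)) := by
  have h1 := Pool.Agent.Y772.DK.nr_summable K hs
  have h2 := h1.comp_injective (i := fun I : {I : Ideal (𝓞 K) // IsCoprime I 𝔪 ∧ c I = σ} => I.1)
    Subtype.val_injective
  refine Summable.of_norm_bounded h2 fun I => ?_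
  have hI : I.1 ≠ 0 := by
    intro h
    have := I.2.1
    rw [h] at this
    exact cop_zero h𝔪 this
  rw [Complex.norm_natCast_cpow_of_pos (Pool.Agent.Y772.DK.absNorm_pos' hI), Complex.neg_re]
  exact le_rfl

/-- the L-series as a sum over the classes -/
lemma sum_classes (h𝔪 : 𝔪 ≠ ⊤) (hc : IsClassMap 𝔪 c) (χ : G →* ℂ) {s : ℂ} {D : G → ℂ}
    (hD : ∀ σ, HasSum (fun I : {I : Ideal (𝓞 K) // IsCoprime I 𝔪 ∧ c I = σ} =>
      ((Ideal.absNorm I.1 : ℕ) : ℂ) ^ (-s)) (D σ)) :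
    ∑ σ, χ σ * D σ = LI (eta h𝔪 hc χ) s :=
  (term_hasSum h𝔪 hc χ hD).tsum_eq.symm

/-- **Hecke: continuation of the partial zeta functions.** If some gamma factor of every character has a pole at
`0`, they vanish at `0`. -/
theorem exists_PZ (h𝔪 : 𝔪 ≠ ⊤) (h0 : 𝔪 ≠ ⊥) (hc : IsClassMap 𝔪 c) : ∃ Z : G → ℂ → ℂ, IsPZ 𝔪 c Z ∧
    ((∀ ψ : AddChar (Additive G) ℂ, ∀ e : InfinitePlace K → ℕ,
      Pool.Agent.Y773.G.IsModChar 𝔪 e (eta h𝔪 hc (chr ψ)) → ∃ φ : K →+* ℂ, Pool.Agent.Y773.G.ex e φ = 0) →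
      ∀ σ, Z σ 0 = 0) := by
  classical
  choose e he using fun ψ : AddChar (Additive G) ℂ => exists_sig h𝔪 h0 hc (chr ψ)
  choose P hPd hP using fun ψ => LI_gam (he ψ)
  set H : AddChar (Additive G) ℂ → ℂ → ℂ := fun ψ s =>
    P ψ s * ∏ φ : K →+* ℂ, (Complex.Gammaℝ (s + Pool.Agent.Y773.G.ex (e ψ) φ))⁻¹ with hH
  have hHd : ∀ ψ, Differentiable ℂ (H ψ) := fun ψ =>
    (hPd ψ).mul (Pool.Agent.Y773.G.differentiable_gam (Pool.Agent.Y773.G.ex (e ψ)))
  set Z : G → ℂ → ℂ := fun σ s => (Fintype.card G : ℂ)⁻¹ *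
    ∑ ψ : AddChar (Additive G) ℂ, chr ψ σ⁻¹ * (H ψ s / (s - 1)) with hZ
  have hc0 : (Fintype.card G : ℂ) ≠ 0 := by exact_mod_cast Fintype.card_ne_zero
  refine ⟨Z, ⟨fun σ s hs => ?_, fun σ s hs => ?_, fun σ => ?_⟩, fun hsp σ => ?_⟩
  · have hD : ∀ σ, HasSum (fun I : {I : Ideal (𝓞 K) // IsCoprime I 𝔪 ∧ c I = σ} =>
        ((Ideal.absNorm I.1 : ℕ) : ℂ) ^ (-s))
        (∑' I : {I : Ideal (𝓞 K) // IsCoprime I 𝔪 ∧ c I = σ}, ((Ideal.absNorm I.1 : ℕ) : ℂ) ^ (-s)) :=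
      fun σ => (summable_cls h𝔪 c σ hs).hasSum
    have h1 := inversion (fun σ => ∑' I : {I : Ideal (𝓞 K) // IsCoprime I 𝔪 ∧ c I = σ},
      ((Ideal.absNorm I.1 : ℕ) : ℂ) ^ (-s)) σ
    have h2 : Z σ s = ∑' I : {I : Ideal (𝓞 K) // IsCoprime I 𝔪 ∧ c I = σ},
        ((Ideal.absNorm I.1 : ℕ) : ℂ) ^ (-s) := by
      have hs1 : s - 1 ≠ 0 := by
        intro h
        rw [sub_eq_zero] at h
        rw [h, Complex.one_re] at hs
        exact lt_irrefl _ hs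
      have h3 : Z σ s = (Fintype.card G : ℂ)⁻¹ * ∑ ψ : AddChar (Additive G) ℂ, chr ψ σ⁻¹ *
          ∑ τ, chr ψ τ * ∑' I : {I : Ideal (𝓞 K) // IsCoprime I 𝔪 ∧ c I = τ},
            ((Ideal.absNorm I.1 : ℕ) : ℂ) ^ (-s) := by
        rw [hZ]
        simp only
        congr 1
        refine Finset.sum_congr rfl fun ψ _ => ?_
        rw [sum_classes h𝔪 hc (chr ψ) hD]
        congr 1
        rw [hH]
        simp only
        rw [hP ψ s hs]
        field_simp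
      rw [h3, ← h1, inv_mul_cancel_left₀ hc0]
    rw [h2]
    exact hD σ
  · have hs1 : s - 1 ≠ 0 := sub_ne_zero.2 hs
    have h1 : ∀ ψ : AddChar (Additive G) ℂ, AnalyticAt ℂ (fun s => chr ψ σ⁻¹ * (H ψ s / (s - 1))) s := by
      intro ψ
      exact analyticAt_const.mul (((hHd ψ).analyticAt s).div (by fun_prop) hs1)
    exact analyticAt_const.mul (Finset.analyticAt_fun_sum _ fun ψ _ => h1 ψ)
  · have h1 : ∀ ψ : AddChar (Additive G) ℂ, MeromorphicAt (fun s => chr ψ σ⁻¹ * (H ψ s / (s - 1))) 1 := by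
      intro ψ
      exact (MeromorphicAt.const _ _).mul ((((hHd ψ).analyticAt 1).meromorphicAt).div
        (by fun_prop : AnalyticAt ℂ (fun s : ℂ => s - 1) 1).meromorphicAt)
    have h2 : MeromorphicAt (fun s => ∑ ψ : AddChar (Additive G) ℂ, chr ψ σ⁻¹ * (H ψ s / (s - 1))) 1 := by
      exact MeromorphicAt.fun_sum fun ψ _ => h1 ψ
    exact (MeromorphicAt.const _ _).mul h2
  · rw [hZ]
    simp only
    rw [Finset.sum_eq_zero, mul_zero]
    intro ψ _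
    have h1 : H ψ 0 = 0 := by
      obtain ⟨φ, hφ⟩ := hsp ψ (e ψ) (he ψ)
      rw [hH]
      simp only
      rw [Finset.prod_eq_zero (Finset.mem_univ φ), mul_zero]
      rw [hφ, Nat.cast_zero, add_zero, inv_eq_zero, Complex.Gammaℝ_eq_zero_iff]
      exact ⟨0, by simp⟩
    rw [h1, zero_div, mul_zero]

end Pool.Agent.X287.ST
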