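import Pool.Agent.X287.ST5

/-!
# Leading terms of the partial zeta functions
-/

set_option autoImplicit false
set_option linter.unusedSectionVars false

open NumberField Complex Filter Topology Asymptotics
open IsDedekindDomain

namespace Pool.Agent.X287.ST

open Pool.Agent.Y773 (LI TPos)
open Pool.Agent.X287.CR

variable {K : Type} [Field K] [NumberField K] {G : Type} [CommGroup G] [Fintype G]
variable {𝔪 : Ideal (𝓞 K)} {c : Ideal (𝓞 K) → G}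

/-- the norm -/
noncomputable def qq (𝔪 : Ideal (𝓞 K)) (v : Pl 𝔪) : ℕ := Ideal.absNorm v.1.asIdeal

/-- the local root -/
noncomputable def al (𝔪 : Ideal (𝓞 K)) (c : Ideal (𝓞 K) → G) (χ : G →* ℂ) (v : Pl 𝔪) (_ : Fin 1) : ℂ :=
  χ (c v.1.asIdeal)

lemma csys (𝔪 : Ideal (𝓞 K)) (c : Ideal (𝓞 K) → G) (ψ : AddChar (Additive G) ℂ) :
    CSys 0 (qq 𝔪) (al 𝔪 c (chr ψ)) := by
  refine nf_csys (fun v => IsCoprime v.asIdeal 𝔪) (al 𝔪 c (chr ψ)) fun v i => ?_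
  unfold al
  rw [norm_chr, Real.rpow_zero]

open Classical in
/-- the function on the ideals -/
noncomputable def Fmul (h𝔪 : 𝔪 ≠ ⊤) (hc : IsClassMap 𝔪 c) (χ : G →* ℂ) (s : ℂ) : Ideal (𝓞 K) →* ℂ where
  toFun I := eta h𝔪 hc χ I * ((Ideal.absNorm I : ℕ) : ℂ) ^ (-s)
  map_one' := by rw [map_one, map_one, Nat.cast_one, Complex.one_cpow, mul_one]
  map_mul' I J := by
    rw [map_mul, map_mul, Nat.cast_mul, Complex.natCast_mul_natCast_cpow]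
    ring

/-- **the Euler product** -/
theorem hasProd_L (h𝔪 : 𝔪 ≠ ⊤) (hc : IsClassMap 𝔪 c) (ψ : AddChar (Additive G) ℂ) {s : ℂ} (hs : 1 < s.re)
    {D : G → ℂ} (hD : ∀ σ, HasSum (fun I : {I : Ideal (𝓞 K) // IsCoprime I 𝔪 ∧ c I = σ} =>
      ((Ideal.absNorm I.1 : ℕ) : ℂ) ^ (-s)) (D σ)) :
    HasProd (fac (qq 𝔪) (al 𝔪 c (chr ψ)) s) (∑ σ, chr ψ σ * D σ) := by
  set F := Fmul h𝔪 hc (chr ψ) s with hF
  have hsum : Summable fun I : {I : Ideal (𝓞 K) // I ≠ ⊥} => ‖F I.1‖ := by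
    have h1 := (Pool.Agent.Y772.DK.nr_summable K hs).comp_injective
      (i := fun I : {I : Ideal (𝓞 K) // I ≠ ⊥} => I.1) Subtype.val_injective
    refine Summable.of_nonneg_of_le (fun I => norm_nonneg _) (fun I => ?_) h1
    have h2 : ‖F I.1‖ = ‖eta h𝔪 hc (chr ψ) I.1‖ * ‖((Ideal.absNorm I.1 : ℕ) : ℂ) ^ (-s)‖ := norm_mul _ _
    rw [h2, Complex.norm_natCast_cpow_of_pos (Pool.Agent.Y772.DK.absNorm_pos' I.2), Complex.neg_re]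
    calc _ ≤ 1 * ((Ideal.absNorm I.1 : ℕ) : ℝ) ^ (-s.re) := by
          have := norm_eta h𝔪 hc ψ I.1
          gcongr
      _ = _ := one_mul _
  obtain ⟨-, h1⟩ := euler F hsum
  have h2 : HasSum (fun I : {I : Ideal (𝓞 K) // I ≠ ⊥} => F I.1) (∑ σ, chr ψ σ * D σ) := by
    have h3 := term_hasSum h𝔪 hc (chr ψ) hD
    refine (Function.Injective.hasSum_iff (g := fun I : {I : Ideal (𝓞 K) // I ≠ ⊥} => I.1)
      (f := fun I : Ideal (𝓞 K) => eta h𝔪 hc (chr ψ) I * ((Ideal.absNorm I : ℕ) : ℂ) ^ (-s))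
      Subtype.val_injective (fun I hI => ?_)).2 h3
    have hI0 : I = 0 := by
      by_contra h
      exact hI ⟨⟨I, h⟩, rfl⟩
    rw [hI0, map_zero, zero_mul]
  rw [h2.tsum_eq] at h1
  have h3 : (fun v : Pl 𝔪 => (1 - F v.1.asIdeal)⁻¹) = fac (qq 𝔪) (al 𝔪 c (chr ψ)) s := by
    funext v
    unfold fac al qq
    have h4 : F v.1.asIdeal = chr ψ (c v.1.asIdeal) * ((Ideal.absNorm v.1.asIdeal : ℕ) : ℂ) ^ (-s) := by
      have h5 : F v.1.asIdeal = eta h𝔪 hc (chr ψ) v.1.asIdeal *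
        ((Ideal.absNorm v.1.asIdeal : ℕ) : ℂ) ^ (-s) := rfl
      rw [h5, eta_pos h𝔪 hc _ v.2]
    rw [h4]
    simp
  rw [← h3]
  refine (Function.Injective.hasProd_iff (g := fun v : Pl 𝔪 => v.1)
    (f := fun v : HeightOneSpectrum (𝓞 K) => (1 - F v.asIdeal)⁻¹) Subtype.val_injective
    (fun v hv => ?_)).2 h1
  have hv' : ¬ IsCoprime v.asIdeal 𝔪 := fun h => hv ⟨⟨v, h⟩, rfl⟩
  have h5 : F v.asIdeal = eta h𝔪 hc (chr ψ) v.asIdeal *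
    ((Ideal.absNorm v.asIdeal : ℕ) : ℂ) ^ (-s) := rfl
  rw [h5, eta_neg h𝔪 hc _ hv', zero_mul, sub_zero, inv_one]

/-- the terms -/
lemma sum_term (hc : IsClassMap 𝔪 c) (ψ : AddChar (Additive G) ℂ) (s₀ : ℂ) (γ T : ℝ) (x : Pl 𝔪 × ℕ) :
    ∑ σ, chr ψ σ * term 𝔪 c s₀ γ T σ x = -tm (qq 𝔪) (al 𝔪 c (chr ψ)) s₀ γ T x := by
  classical
  rw [Finset.sum_eq_single (c (x.1.1.asIdeal ^ (x.2 + 1)))]
  · unfold term tm lam al qq
    rw [if_pos rfl, hc.pow x.1.2, map_pow]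
    have e2 : Complex.exp (-(s₀ * (((x.2 + 1) * Real.log (Ideal.absNorm x.1.1.asIdeal : ℕ) : ℝ) : ℂ))) =
        (((Ideal.absNorm x.1.1.asIdeal : ℕ) : ℂ) ^ (-s₀)) ^ (x.2 + 1) := by
      have := (csys 𝔪 c ψ).cpow_eq s₀ x.1
      unfold qq at this
      rw [this, ← Complex.exp_nat_mul]
      congr 1
      push_cast
      ring
    rw [e2]
    simp only [Finset.univ_unique, Finset.sum_const, Finset.card_singleton, one_smul]
    ring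
  · intro σ _ hσ
    unfold term
    rw [if_neg (Ne.symm hσ), mul_zero]
  · intro h
    exact absurd (Finset.mem_univ _) h

/-- the norms of the terms -/
lemma norm_term (s₀ : ℂ) (γ T : ℝ) (σ : G) (x : Pl 𝔪 × ℕ) (hc : IsClassMap 𝔪 c) :
    ‖term 𝔪 c s₀ γ T σ x‖ ≤ ‖tm (qq 𝔪) (al 𝔪 c (chr (1 : AddChar (Additive G) ℂ))) s₀ γ T x‖ := by
  classical
  by_cases h : c (x.1.1.asIdeal ^ (x.2 + 1)) = σ
  · have h1 := sum_term hc (1 : AddChar (Additive G) ℂ) s₀ γ T x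
    rw [Finset.sum_eq_single σ] at h1
    · rw [← norm_neg (tm _ _ _ _ _ _), ← h1, norm_mul, norm_chr, one_mul]
    · intro τ _ hτ
      unfold term
      rw [if_neg (fun h' => hτ (h'.symm.trans h)), mul_zero]
    · intro h
      exact absurd (Finset.mem_univ _) h
  · unfold term
    rw [if_neg h, norm_zero]
    exact norm_nonneg _

/-- absolute convergence -/
theorem term_summable (hc : IsClassMap 𝔪 c) {s₀ : ℂ} (hs₀ : 0 ≤ s₀.re) (γ : ℝ) {T : ℝ} (hT : 0 < T)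
    (σ : G) : Summable fun x => ‖term 𝔪 c s₀ γ T σ x‖ :=
  Summable.of_nonneg_of_le (fun _ => norm_nonneg _) (fun x => norm_term s₀ γ T σ x hc)
    ((csys 𝔪 c 1).tm_summable hs₀ γ hT)

/-- the value of a character -/
theorem char_Sg (hc : IsClassMap 𝔪 c) (ψ : AddChar (Additive G) ℂ) {s₀ : ℂ} (hs₀ : 0 ≤ s₀.re) (γ : ℝ)
    {T : ℝ} (hT : 0 < T) :
    ∑ σ, chr ψ σ * Sg 𝔪 c s₀ γ T σ = -Su (qq 𝔪) (al 𝔪 c (chr ψ)) s₀ γ T := by
  have h1 : ∀ σ, HasSum (fun x => chr ψ σ * term 𝔪 c s₀ γ T σ x) (chr ψ σ * Sg 𝔪 c s₀ γ T σ) := fun σ =>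
    (term_summable hc hs₀ γ hT σ).of_norm.hasSum.mul_left _
  have h2 := hasSum_sum (s := (Finset.univ : Finset G)) (fun σ _ => h1 σ)
  simp only [sum_term hc ψ] at h2
  unfold Su
  rw [← tsum_neg]
  exact h2.tsum_eq.symm

/-- the law for the characters -/
theorem char_law (h𝔪 : 𝔪 ≠ ⊤) (hc : IsClassMap 𝔪 c) {Z : G → ℂ → ℂ} (hZ : IsPZ 𝔪 c Z)
    (ψ : AddChar (Additive G) ℂ) {s₀ : ℂ} (hs₀ : 0 ≤ s₀.re) {γ : ℝ} (hγ : Real.pi / 2 < γ) :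
    ∃ (m : ℤ) (r₀ : ℂ), meromorphicOrderAt (fun s => ∑ σ, chr ψ σ * Z σ s) s₀ = m ∧
      meromorphicTrailingCoeffAt (fun s => ∑ σ, chr ψ σ * Z σ s) s₀ = Complex.exp r₀ ∧
      Asy (Pool.Agent.W187.UR.Lam γ) (Su (qq 𝔪) (al 𝔪 c (chr ψ)) s₀ γ) m r₀ := by
  refine (csys 𝔪 c ψ).law (L := fun s => ∑ σ, chr ψ σ * Z σ s) (fun s hs => ?_) hs₀ (fun x _ _ => ?_) hγ
  · rw [add_zero] at hs
    exact hasProd_L h𝔪 hc ψ hs fun σ => hZ.sum σ s hs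
  · refine MeromorphicAt.fun_sum fun σ _ => (MeromorphicAt.const _ _).mul ?_
    by_cases h : s₀ + x = 1
    · rw [h]; exact hZ.mer σ
    · exact (hZ.an σ _ h).meromorphicAt

lemma mer_sum {Z : G → ℂ → ℂ} (hZ : IsPZ 𝔪 c Z) (ψ : AddChar (Additive G) ℂ) (s₀ : ℂ) :
    MeromorphicAt (fun s => ∑ σ, chr ψ σ * Z σ s) s₀ := by
  refine MeromorphicAt.fun_sum fun σ _ => (MeromorphicAt.const _ _).mul ?_
  by_cases h : s₀ = 1
  · rw [h]; exact hZ.mer σ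
  · exact (hZ.an σ _ h).meromorphicAt

/-- **Leading terms of the partial zeta functions and exponentials in the group ring.** -/
theorem lead_iff (h𝔪 : 𝔪 ≠ ⊤) (hc : IsClassMap 𝔪 c) {Z : G → ℂ → ℂ} (hZ : IsPZ 𝔪 c Z)
    {s₀ : ℂ} (hs₀ : 0 ≤ s₀.re) {γ : ℝ} (hγ : Real.pi / 2 < γ) (r : ℤ) (a : G → ℂ) :
    (∀ σ, Tendsto (fun s : ℂ => Z σ s / (s - s₀) ^ r) (𝓝[≠] s₀) (𝓝 (a σ))) ↔
      ∀ σ, Tendsto (fun T : ℝ => sc (Pool.Agent.W187.UR.Lam γ) r T * gexp (Sg 𝔪 c s₀ γ T) σ) atTop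
        (𝓝 (a σ)) := by
  rw [tendsto_iff (fun s : ℂ => fun σ => Z σ s / (s - s₀) ^ r) a,
    tendsto_iff (fun T : ℝ => fun σ => sc (Pool.Agent.W187.UR.Lam γ) r T * gexp (Sg 𝔪 c s₀ γ T) σ) a]
  refine forall_congr' fun ψ => ?_
  obtain ⟨m, r₀, h1, h2, h3⟩ := char_law h𝔪 hc hZ ψ hs₀ hγ
  have e1 : (fun s : ℂ => ∑ σ, chr ψ σ * (Z σ s / (s - s₀) ^ r)) =
      fun s : ℂ => (∑ σ, chr ψ σ * Z σ s) / (s - s₀) ^ r := by
    funext s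
    rw [Finset.sum_div]
    exact Finset.sum_congr rfl fun σ _ => by ring
  have e2 : (fun T : ℝ => ∑ σ, chr ψ σ * (sc (Pool.Agent.W187.UR.Lam γ) r T *
      gexp (Sg 𝔪 c s₀ γ T) σ)) =ᶠ[atTop] fun T : ℝ => sc (Pool.Agent.W187.UR.Lam γ) r T *
        Complex.exp (-Su (qq 𝔪) (al 𝔪 c (chr ψ)) s₀ γ T) := by
    filter_upwards [eventually_gt_atTop 0] with T hT
    rw [← char_Sg hc ψ hs₀ γ hT, ← char_gexp, Finset.mul_sum]
    exact Finset.sum_congr rfl fun σ _ => by ring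
  rw [e1, tendsto_congr' e2, asy_iff h3, mero_iff (mer_sum hZ ψ s₀) h1 h2]

/-- the error term -/
theorem lead_rate (h𝔪 : 𝔪 ≠ ⊤) (hc : IsClassMap 𝔪 c) {Z : G → ℂ → ℂ} (hZ : IsPZ 𝔪 c Z)
    {s₀ : ℂ} (hs₀ : 0 ≤ s₀.re) {γ : ℝ} (hγ : Real.pi / 2 < γ) (r : ℤ) (a : G → ℂ)
    (ha : ∀ σ, Tendsto (fun s : ℂ => Z σ s / (s - s₀) ^ r) (𝓝[≠] s₀) (𝓝 (a σ))) (σ : G) :
    (fun T : ℝ => sc (Pool.Agent.W187.UR.Lam γ) r T * gexp (Sg 𝔪 c s₀ γ T) σ - a σ) =O[atTop]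
      (fun T : ℝ => 1 / T) := by
  refine isBigO_of (u := fun T : ℝ => fun σ => sc (Pool.Agent.W187.UR.Lam γ) r T *
    gexp (Sg 𝔪 c s₀ γ T) σ - a σ) (fun ψ => ?_) σ
  obtain ⟨m, r₀, h1, h2, h3⟩ := char_law h𝔪 hc hZ ψ hs₀ hγ
  have h4 := (tendsto_iff (fun s : ℂ => fun σ => Z σ s / (s - s₀) ^ r) a).1 ha ψ
  have e1 : (fun s : ℂ => ∑ σ, chr ψ σ * (Z σ s / (s - s₀) ^ r)) =
      fun s : ℂ => (∑ σ, chr ψ σ * Z σ s) / (s - s₀) ^ r := by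
    funext s
    rw [Finset.sum_div]
    exact Finset.sum_congr rfl fun σ _ => by ring
  rw [e1, mero_iff (mer_sum hZ ψ s₀) h1 h2, ← asy_iff h3] at h4
  refine (asy_rate h3 r _ h4).congr' ?_ EventuallyEq.rfl
  filter_upwards [eventually_gt_atTop 0] with T hT
  rw [← char_Sg hc ψ hs₀ γ hT, ← char_gexp, Finset.mul_sum, ← Finset.sum_sub_distrib]
  exact Finset.sum_congr rfl fun σ _ => by ring

end Pool.Agent.X287.ST
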