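import Pool.Agent.X287.ST6

/-!
# Archimedean places which split: orders of vanishing at `0`; uniqueness
-/

set_option autoImplicit false
set_option linter.unusedSectionVars false

open NumberField Complex Filter Topology Asymptotics
open IsDedekindDomain

namespace Pool.Agent.X287.ST

open Pool.Agent.Y773 (LI TPos)
open Pool.Agent.X287.CR

variable {K : Type} [Field K] [NumberField K] {G : Type} [CommGroup G] [Fintype G]
variable {𝔪 : Ideal (𝓞 K)} {c : Ideal (𝓞 K) → G}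

/-- `c` is multiplicative on the ideals prime to `𝔪`, and trivial on the ideals `(x)` with `x ≡ 1` modulo `𝔪`,
`x` positive at the real embeddings outside of `R` -/
structure IsClassMapR (𝔪 : Ideal (𝓞 K)) (R : Finset (K →+* ℝ)) (c : Ideal (𝓞 K) → G) : Prop where
  mul : ∀ I J : Ideal (𝓞 K), IsCoprime I 𝔪 → IsCoprime J 𝔪 → c (I * J) = c I * c J
  ray : ∀ x : 𝓞 K, x ≠ 0 → x - 1 ∈ 𝔪 → (∀ σ : K →+* ℝ, σ ∉ R → 0 < σ (x : K)) → c (Ideal.span {x}) = 1

lemma IsClassMapR.toClass {R : Finset (K →+* ℝ)} (hc : IsClassMapR 𝔪 R c) : IsClassMap 𝔪 c :=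
  ⟨hc.mul, fun x h0 h1 h2 => hc.ray x h0 h1 fun σ _ => h2 σ⟩

/-- the complex embedding of a real embedding -/
noncomputable def emb (σ : K →+* ℝ) : K →+* ℂ := Complex.ofRealHom.comp σ

lemma emb_inj : Function.Injective (emb (K := K)) := by
  intro σ τ h
  ext x
  have h1 := congrArg (fun f : K →+* ℂ => f x) h
  have h2 : ((σ x : ℝ) : ℂ) = ((τ x : ℝ) : ℂ) := h1
  exact_mod_cast h2

lemma emb_real (σ : K →+* ℝ) : ComplexEmbedding.IsReal (emb σ) := by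
  rw [ComplexEmbedding.isReal_iff]
  ext x
  simp [emb, ComplexEmbedding.conjugate_coe_eq]

lemma mk_real (σ : K →+* ℝ) : (InfinitePlace.mk (emb σ)).IsReal := ⟨emb σ, emb_real σ, rfl⟩

lemma rl_emb (σ : K →+* ℝ) (x : K) : Pool.Agent.Y773.G.rl (InfinitePlace.mk (emb σ)) x = σ x := by
  have h1 : ((Pool.Agent.Y773.G.rl (InfinitePlace.mk (emb σ)) x : ℝ) : ℂ) =
      InfinitePlace.embedding (InfinitePlace.mk (emb σ)) x := by
    rw [Pool.Agent.Y772.G.rl_real (mk_real σ)]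
    exact InfinitePlace.embedding_of_isReal_apply (mk_real σ) x
  rw [InfinitePlace.embedding_mk_eq_of_isReal (emb_real σ)] at h1
  have h2 : emb σ x = ((σ x : ℝ) : ℂ) := rfl
  rw [h2] at h1
  exact_mod_cast h1

lemma mk_inj : Function.Injective (fun σ : K →+* ℝ => InfinitePlace.mk (emb σ)) := by
  intro σ τ h
  ext x
  have h1 : Pool.Agent.Y773.G.rl (InfinitePlace.mk (emb σ)) x =
      Pool.Agent.Y773.G.rl (InfinitePlace.mk (emb τ)) x := by
    have : InfinitePlace.mk (emb σ) = InfinitePlace.mk (emb τ) := h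
    rw [this]
  rwa [rl_emb, rl_emb] at h1

/-- the signature vanishes at the unramified real places -/
lemma sig_zero {R : Finset (K →+* ℝ)} (h𝔪 : 𝔪 ≠ ⊤) (hc : IsClassMapR 𝔪 R c) (χ : G →* ℂ)
    {e : InfinitePlace K → ℕ} (he : Pool.Agent.Y773.G.IsModChar 𝔪 e (eta h𝔪 hc.toClass χ)) {σ : K →+* ℝ}
    (hσ : σ ∈ R) : e (InfinitePlace.mk (emb σ)) = 0 := by
  classical
  obtain ⟨x, hx0, hx1, hx2, hx3⟩ := Pool.Agent.Y772.G.exists_neg he.ne_bot (InfinitePlace.mk (emb σ))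
  have h1 : c (Ideal.span {x}) = 1 := by
    refine hc.ray x hx0 hx1 fun τ hτ => ?_
    rw [← rl_emb τ]
    exact hx3 _ fun _ h => hτ (by rw [mk_inj h]; exact hσ)
  have h2 : eta h𝔪 hc.toClass χ (Ideal.span {x}) = 1 := by
    rw [eta_pos h𝔪 hc.toClass χ (cop_span hx1), h1, map_one]
  have h3 := he.sig x hx0 hx1
  rw [h2] at h3
  have h4 : Pool.Agent.Y773.G.sg e (x : K) = (-1 : ℂ) ^ e (InfinitePlace.mk (emb σ)) := by
    unfold Pool.Agent.Y773.G.sg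
    rw [Finset.prod_eq_single (InfinitePlace.mk (emb σ))]
    · rw [sign_neg (hx2 (mk_real σ))]
      simp
    · intro w _ hw
      rw [sign_pos (hx3 w fun _ => hw)]
      simp
    · intro h
      exact absurd (Finset.mem_univ _) h
  rw [h4] at h3
  have h5 := he.sig_le (InfinitePlace.mk (emb σ))
  interval_cases e (InfinitePlace.mk (emb σ))
  · rfl
  · norm_num at h3

open Classical in
/-- the number of gamma factors with a pole at `0` -/
lemma card_ex {R : Finset (K →+* ℝ)} (h𝔪 : 𝔪 ≠ ⊤) (hc : IsClassMapR 𝔪 R c) (χ : G →* ℂ)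
    {e : InfinitePlace K → ℕ} (he : Pool.Agent.Y773.G.IsModChar 𝔪 e (eta h𝔪 hc.toClass χ)) :
    R.card + InfinitePlace.nrComplexPlaces K ≤
      (Finset.univ.filter fun φ : K →+* ℂ => Pool.Agent.Y773.G.ex e φ = 0).card := by
  classical
  have h1 : ∀ σ ∈ R, Pool.Agent.Y773.G.ex e (emb σ) = 0 := by
    intro σ hσ
    unfold Pool.Agent.Y773.G.ex
    rw [if_pos (mk_real σ)]
    exact sig_zero h𝔪 hc χ he hσ
  have h2 : ∀ w : InfinitePlace K, w.IsComplex → Pool.Agent.Y773.G.ex e w.embedding = 0 := by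
    intro w hw
    unfold Pool.Agent.Y773.G.ex
    rw [InfinitePlace.mk_embedding, if_neg (InfinitePlace.not_isReal_iff_isComplex.2 hw), if_pos rfl]
  set A : Finset (K →+* ℂ) := R.image emb with hA
  set B : Finset (K →+* ℂ) := (Finset.univ.filter fun w : InfinitePlace K => w.IsComplex).image
    fun w => w.embedding with hB
  have hAc : A.card = R.card := Finset.card_image_of_injective _ emb_inj
  have hBc : B.card = InfinitePlace.nrComplexPlaces K := by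
    rw [hB, Finset.card_image_of_injective _ (fun w w' h => by
      have := congrArg InfinitePlace.mk h
      simpa using this)]
    unfold InfinitePlace.nrComplexPlaces
    rw [Fintype.card_subtype]
  have hdis : Disjoint A B := by
    rw [Finset.disjoint_left]
    intro φ hφA hφB
    obtain ⟨σ, -, rfl⟩ := Finset.mem_image.1 hφA
    obtain ⟨w, hw, hw2⟩ := Finset.mem_image.1 hφB
    have h3 : (InfinitePlace.mk (emb σ)).IsReal := mk_real σ
    rw [← hw2, InfinitePlace.mk_embedding] at h3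
    exact InfinitePlace.not_isReal_iff_isComplex.2 (Finset.mem_filter.1 hw).2 h3
  rw [← hAc, ← hBc, ← Finset.card_union_of_disjoint hdis]
  refine Finset.card_le_card fun φ hφ => ?_
  rw [Finset.mem_filter]
  refine ⟨Finset.mem_univ _, ?_⟩
  rcases Finset.mem_union.1 hφ with h | h
  · obtain ⟨σ, hσ, rfl⟩ := Finset.mem_image.1 h
    exact h1 σ hσ
  · obtain ⟨w, hw, rfl⟩ := Finset.mem_image.1 h
    exact h2 w (Finset.mem_filter.1 hw).2

lemma gam_lim : ∃ l : ℂ, Tendsto (fun s : ℂ => (Complex.Gammaℝ s)⁻¹ / s) (𝓝[≠] 0) (𝓝 l) := by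
  have h1 : DifferentiableAt ℂ (fun s : ℂ => (Complex.Gammaℝ s)⁻¹) 0 := differentiable_Gammaℝ_inv 0
  have h2 := h1.hasDerivAt.tendsto_slope
  refine ⟨_, h2.congr fun s => ?_⟩
  rw [slope_def_field]
  have h3 : (Complex.Gammaℝ 0)⁻¹ = 0 := by
    rw [inv_eq_zero, Complex.Gammaℝ_eq_zero_iff]
    exact ⟨0, by simp⟩
  rw [h3, sub_zero, sub_zero]

/-- the limit of the product of the gamma factors -/
lemma prod_lim {e : InfinitePlace K → ℕ} {r : ℕ} [DecidableEq (K →+* ℂ)]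
    (hr : r ≤ (Finset.univ.filter fun φ : K →+* ℂ => Pool.Agent.Y773.G.ex e φ = 0).card) :
    ∃ l : ℂ, Tendsto (fun s : ℂ => (∏ φ : K →+* ℂ, (Complex.Gammaℝ (s + Pool.Agent.Y773.G.ex e φ))⁻¹) /
      s ^ r) (𝓝[≠] 0) (𝓝 l) := by
  set A := Finset.univ.filter fun φ : K →+* ℂ => Pool.Agent.Y773.G.ex e φ = 0 with hA
  obtain ⟨l, hl⟩ := gam_lim
  have hd : ∀ φ : K →+* ℂ, Tendsto (fun s : ℂ => (Complex.Gammaℝ (s + Pool.Agent.Y773.G.ex e φ))⁻¹)
      (𝓝[≠] 0) (𝓝 ((Complex.Gammaℝ (0 + Pool.Agent.Y773.G.ex e φ))⁻¹)) := by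
    intro φ
    have h1 : Continuous fun s : ℂ => (Complex.Gammaℝ (s + Pool.Agent.Y773.G.ex e φ))⁻¹ :=
      differentiable_Gammaℝ_inv.continuous.comp (continuous_id.add continuous_const)
    exact h1.continuousAt.tendsto.mono_left nhdsWithin_le_nhds
  have h1 : Tendsto (fun s : ℂ => (∏ φ ∈ A, (Complex.Gammaℝ s)⁻¹ / s) * s ^ (A.card - r) *
      ∏ φ ∈ Finset.univ.filter (fun φ : K →+* ℂ => ¬ Pool.Agent.Y773.G.ex e φ = 0),
        (Complex.Gammaℝ (s + Pool.Agent.Y773.G.ex e φ))⁻¹) (𝓝[≠] 0)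
      (𝓝 ((∏ φ ∈ A, l) * (0 : ℂ) ^ (A.card - r) *
      ∏ φ ∈ Finset.univ.filter (fun φ : K →+* ℂ => ¬ Pool.Agent.Y773.G.ex e φ = 0),
        (Complex.Gammaℝ (0 + Pool.Agent.Y773.G.ex e φ))⁻¹)) := by
    refine ((tendsto_finsetProd _ fun _ _ => hl).mul ?_).mul (tendsto_finsetProd _ fun φ _ => hd φ)
    exact ((continuous_id.pow _).continuousAt.tendsto.mono_left nhdsWithin_le_nhds)
  refine ⟨_, h1.congr' ?_⟩
  filter_upwards [self_mem_nhdsWithin] with s hs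
  have hs0 : s ≠ 0 := hs
  rw [← Finset.prod_filter_mul_prod_filter_not Finset.univ
    (fun φ : K →+* ℂ => Pool.Agent.Y773.G.ex e φ = 0)]
  have h2 : ∏ φ ∈ A, (Complex.Gammaℝ (s + Pool.Agent.Y773.G.ex e φ))⁻¹ =
      (∏ φ ∈ A, (Complex.Gammaℝ s)⁻¹ / s) * s ^ A.card := by
    rw [Finset.prod_div_distrib, Finset.prod_const s, div_mul_cancel₀ _ (pow_ne_zero _ hs0)]
    refine Finset.prod_congr rfl fun φ hφ => ?_
    rw [(Finset.mem_filter.1 hφ).2, Nat.cast_zero, add_zero]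
  rw [← hA, h2]
  have h3 : s ^ A.card = s ^ (A.card - r) * s ^ r := by rw [← pow_add, Nat.sub_add_cancel hr]
  rw [h3]
  field_simp

/-- **Hecke: continuation of the partial zeta functions**, with the order of vanishing at `0` -/
theorem exists_PZ_ord {R : Finset (K →+* ℝ)} (h𝔪 : 𝔪 ≠ ⊤) (h0 : 𝔪 ≠ ⊥) (hc : IsClassMapR 𝔪 R c) :
    ∃ Z : G → ℂ → ℂ, IsPZ 𝔪 c Z ∧ ∀ σ, ∃ a : ℂ, Tendsto (fun s : ℂ => Z σ s /
      s ^ (R.card + InfinitePlace.nrComplexPlaces K)) (𝓝[≠] 0) (𝓝 a) := by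
  classical
  set r := R.card + InfinitePlace.nrComplexPlaces K with hr
  choose e he using fun ψ : AddChar (Additive G) ℂ => exists_sig h𝔪 h0 hc.toClass (chr ψ)
  choose P hPd hP using fun ψ => LI_gam (he ψ)
  set H : AddChar (Additive G) ℂ → ℂ → ℂ := fun ψ s =>
    P ψ s * ∏ φ : K →+* ℂ, (Complex.Gammaℝ (s + Pool.Agent.Y773.G.ex (e ψ) φ))⁻¹ with hH
  have hHd : ∀ ψ, Differentiable ℂ (H ψ) := fun ψ =>
    (hPd ψ).mul (Pool.Agent.Y773.G.differentiable_gam (Pool.Agent.Y773.G.ex (e ψ)))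
  set Z : G → ℂ → ℂ := fun σ s => (Fintype.card G : ℂ)⁻¹ *
    ∑ ψ : AddChar (Additive G) ℂ, chr ψ σ⁻¹ * (H ψ s / (s - 1)) with hZ
  have hc0 : (Fintype.card G : ℂ) ≠ 0 := by exact_mod_cast Fintype.card_ne_zero
  refine ⟨Z, ⟨fun σ s hs => ?_, fun σ s hs => ?_, fun σ => ?_⟩, fun σ => ?_⟩
  · have hD : ∀ σ, HasSum (fun I : {I : Ideal (𝓞 K) // IsCoprime I 𝔪 ∧ c I = σ} =>
        ((Ideal.absNorm I.1 : ℕ) : ℂ) ^ (-s))
        (∑' I : {I : Ideal (𝓞 K) // IsCoprime I 𝔪 ∧ c I = σ}, ((Ideal.absNorm I.1 : ℕ) : ℂ) ^ (-s)) :=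
      fun σ => (summable_cls h𝔪 c σ hs).hasSum
    have h1 := inversion (fun σ => ∑' I : {I : Ideal (𝓞 K) // IsCoprime I 𝔪 ∧ c I = σ},
      ((Ideal.absNorm I.1 : ℕ) : ℂ) ^ (-s)) σ
    have h2 : Z σ s = ∑' I : {I : Ideal (𝓞 K) // IsCoprime I 𝔪 ∧ c I = σ},
        ((Ideal.absNorm I.1 : ℕ) : ℂ) ^ (-s) := by
      have hs1 : s - 1 ≠ 0 := by
        intro h
        rw [sub_eq_zero] at h
        rw [h, Complex.one_re] at hs
        exact lt_irrefl _ hs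
      have h3 : Z σ s = (Fintype.card G : ℂ)⁻¹ * ∑ ψ : AddChar (Additive G) ℂ, chr ψ σ⁻¹ *
          ∑ τ, chr ψ τ * ∑' I : {I : Ideal (𝓞 K) // IsCoprime I 𝔪 ∧ c I = τ},
            ((Ideal.absNorm I.1 : ℕ) : ℂ) ^ (-s) := by
        rw [hZ]
        simp only
        congr 1
        refine Finset.sum_congr rfl fun ψ _ => ?_
        rw [sum_classes h𝔪 hc.toClass (chr ψ) hD]
        congr 1
        rw [hH]
        simp only
        rw [hP ψ s hs]
        field_simp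
      rw [h3, ← h1, inv_mul_cancel_left₀ hc0]
    rw [h2]
    exact hD σ
  · have hs1 : s - 1 ≠ 0 := sub_ne_zero.2 hs
    have h1 : ∀ ψ : AddChar (Additive G) ℂ, AnalyticAt ℂ (fun s => chr ψ σ⁻¹ * (H ψ s / (s - 1))) s := by
      intro ψ
      exact analyticAt_const.mul (((hHd ψ).analyticAt s).div (by fun_prop) hs1)
    exact analyticAt_const.mul (Finset.analyticAt_fun_sum _ fun ψ _ => h1 ψ)
  · have h1 : ∀ ψ : AddChar (Additive G) ℂ, MeromorphicAt (fun s => chr ψ σ⁻¹ * (H ψ s / (s - 1))) 1 := by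
      intro ψ
      exact (MeromorphicAt.const _ _).mul ((((hHd ψ).analyticAt 1).meromorphicAt).div
        (by fun_prop : AnalyticAt ℂ (fun s : ℂ => s - 1) 1).meromorphicAt)
    have h2 : MeromorphicAt (fun s => ∑ ψ : AddChar (Additive G) ℂ, chr ψ σ⁻¹ * (H ψ s / (s - 1))) 1 := by
      exact MeromorphicAt.fun_sum fun ψ _ => h1 ψ
    exact (MeromorphicAt.const _ _).mul h2
  · choose l hl using fun ψ => prod_lim (e := e ψ) (r := r) (card_ex h𝔪 hc (chr ψ) (he ψ))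
    have h1 : ∀ ψ, Tendsto (fun s : ℂ => chr ψ σ⁻¹ * (P ψ s *
        ((∏ φ : K →+* ℂ, (Complex.Gammaℝ (s + Pool.Agent.Y773.G.ex (e ψ) φ))⁻¹) / s ^ r) / (s - 1)))
        (𝓝[≠] 0) (𝓝 (chr ψ σ⁻¹ * (P ψ 0 * l ψ / (0 - 1)))) := by
      intro ψ
      refine Tendsto.const_mul _ (Tendsto.div (Tendsto.mul ?_ (hl ψ)) ?_ (by norm_num))
      · exact (hPd ψ).continuous.continuousAt.tendsto.mono_left nhdsWithin_le_nhds
      · exact ((continuous_id.sub continuous_const).continuousAt.tendsto).mono_left nhdsWithin_le_nhds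
    refine ⟨_, ((tendsto_finsetSum Finset.univ fun ψ _ => h1 ψ).const_mul
      (Fintype.card G : ℂ)⁻¹).congr fun s => ?_⟩
    rw [hZ]
    simp only
    rw [mul_div_assoc, Finset.sum_div]
    congr 1
    refine Finset.sum_congr rfl fun ψ _ => ?_
    rw [hH]
    simp only
    ring

/-- **uniqueness** of the continuation -/
theorem PZ_unique {Z Z' : G → ℂ → ℂ} (hZ : IsPZ 𝔪 c Z) (hZ' : IsPZ 𝔪 c Z') (σ : G) {s : ℂ}
    (hs : s ≠ 1) : Z σ s = Z' σ s := by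
  have hpre : IsPreconnected ({1}ᶜ : Set ℂ) := by
    refine (isConnected_compl_singleton_of_one_lt_rank ?_ 1).isPreconnected
    rw [Complex.rank_real_complex]
    norm_num
  have h1 : AnalyticOnNhd ℂ (Z σ) {1}ᶜ := fun z hz => hZ.an σ z hz
  have h2 : AnalyticOnNhd ℂ (Z' σ) {1}ᶜ := fun z hz => hZ'.an σ z hz
  have h3 : Z σ =ᶠ[𝓝 (2 : ℂ)] Z' σ := by
    have hopen : IsOpen {z : ℂ | 1 < z.re} := isOpen_lt continuous_const Complex.continuous_re
    filter_upwards [hopen.mem_nhds (show (2 : ℂ) ∈ {z : ℂ | 1 < z.re} by simp)] with z hz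
    exact (hZ.sum σ z hz).unique (hZ'.sum σ z hz)
  exact h1.eqOn_of_preconnected_of_eventuallyEq h2 hpre (z₀ := (2 : ℂ)) (by simp) h3 hs

/-- the order of vanishing at `0` -/
theorem PZ_ord {R : Finset (K →+* ℝ)} (h𝔪 : 𝔪 ≠ ⊤) (h0 : 𝔪 ≠ ⊥) (hc : IsClassMapR 𝔪 R c)
    {Z : G → ℂ → ℂ} (hZ : IsPZ 𝔪 c Z) : ∃ a : G → ℂ, ∀ σ, Tendsto (fun s : ℂ => Z σ s /
      s ^ (R.card + InfinitePlace.nrComplexPlaces K)) (𝓝[≠] 0) (𝓝 (a σ)) := by
  obtain ⟨Z', hZ', h1⟩ := exists_PZ_ord h𝔪 h0 hc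
  choose a ha using h1
  refine ⟨a, fun σ => (ha σ).congr' ?_⟩
  have h2 : ∀ᶠ s : ℂ in 𝓝 0, s ≠ 1 := isOpen_ne.mem_nhds (by norm_num)
  filter_upwards [h2.filter_mono nhdsWithin_le_nhds] with s hs
  rw [PZ_unique hZ' hZ σ hs]

/-- **the limit formula**, unconditionally -/
theorem main_r {R : Finset (K →+* ℝ)} (h𝔪 : 𝔪 ≠ ⊤) (h0 : 𝔪 ≠ ⊥) (hc : IsClassMapR 𝔪 R c)
    {Z : G → ℂ → ℂ} (hZ : IsPZ 𝔪 c Z) {γ : ℝ} (hγ : Real.pi / 2 < γ) :
    ∃ a : G → ℂ, (∀ σ, Tendsto (fun s : ℂ => Z σ s / s ^ (R.card + InfinitePlace.nrComplexPlaces K))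
        (𝓝[≠] 0) (𝓝 (a σ))) ∧
      (∀ σ, (fun T : ℝ => sc (Pool.Agent.W187.UR.Lam γ) (R.card + InfinitePlace.nrComplexPlaces K : ℕ) T *
        gexp (Sg 𝔪 c 0 γ T) σ - a σ) =O[atTop] (fun T : ℝ => 1 / T)) := by
  obtain ⟨a, ha⟩ := PZ_ord h𝔪 h0 hc hZ
  refine ⟨a, ha, fun σ => lead_rate h𝔪 hc.toClass hZ (s₀ := 0) (by simp) hγ
    ((R.card + InfinitePlace.nrComplexPlaces K : ℕ) : ℤ) a (fun σ => ?_) σ⟩
  simp only [sub_zero, zpow_natCast]
  exact ha σ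

/-- vanishing and derivative for one split place -/
theorem deriv_one {f : ℂ → ℂ} {a : ℂ} (hf : AnalyticAt ℂ f 0)
    (h : Tendsto (fun s : ℂ => f s / s) (𝓝[≠] 0) (𝓝 a)) : f 0 = 0 ∧ deriv f 0 = a := by
  have h1 : Tendsto (fun s : ℂ => f s / s * s) (𝓝[≠] 0) (𝓝 (a * 0)) :=
    h.mul (continuous_id.continuousAt.tendsto.mono_left nhdsWithin_le_nhds)
  have h2 : Tendsto f (𝓝[≠] 0) (𝓝 (f 0)) := hf.continuousAt.tendsto.mono_left nhdsWithin_le_nhds
  have h3 : Tendsto f (𝓝[≠] 0) (𝓝 (a * 0)) := by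
    refine h1.congr' ?_
    filter_upwards [self_mem_nhdsWithin] with s hs
    have hs0 : s ≠ 0 := hs
    field_simp
  have h4 : f 0 = 0 := by
    have := tendsto_nhds_unique h2 h3
    rwa [mul_zero] at this
  refine ⟨h4, ?_⟩
  have h5 := hf.differentiableAt.hasDerivAt.tendsto_slope
  refine tendsto_nhds_unique h5 (h.congr fun s => ?_)
  rw [slope_def_field, h4, sub_zero, sub_zero]

end Pool.Agent.X287.ST
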