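import Pool.Agent.X287.ST8
import Pool.Agent.TH119.MX.Gal

/-!
# Rationality in the group ring of a finite abelian group, and approach to the integers
-/

set_option autoImplicit false
set_option linter.unusedSectionVars false

open NumberField Filter Topology Asymptotics

namespace Pool.Agent.X287.ST

variable {G : Type} [CommGroup G] [Fintype G]

/-- the characters -/
abbrev Ch (G : Type) [CommGroup G] : Type := AddChar (Additive G) ℂ

/-- the value -/
def val (χ : Ch G) (g : G) : ℂ := χ (Additive.ofMul g)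

/-- the conjugate character -/
noncomputable def cj (σ : ℂ ≃+* ℂ) (χ : Ch G) : Ch G := (σ : ℂ →* ℂ).compAddChar χ

/-- the coefficient of `g` in `∑ A(χ) e_χ` -/
noncomputable def cf (A : Ch G → ℂ) (g : G) : ℂ := (Fintype.card G : ℂ)⁻¹ * ∑ χ : Ch G, A χ * val χ g⁻¹

theorem cf_dual (A : Ch G → ℂ) (χ : Ch G) : ∑ g, cf A g * val χ g = A χ := by
  classical
  have hc0 : (Fintype.card G : ℂ) ≠ 0 := by exact_mod_cast Fintype.card_ne_zero
  have h1 : ∀ ψ : Ch G, ∑ g : G, val ψ g⁻¹ * val χ g =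
      if χ = ψ then (Fintype.card G : ℂ) else 0 := by
    intro ψ
    have h2 := AddChar.sum_eq_ite (χ - ψ)
    have hcard : Fintype.card (Additive G) = Fintype.card G := Fintype.card_congr Additive.toMul
    rw [hcard] at h2
    have h3 : ∑ g : G, val ψ g⁻¹ * val χ g = ∑ a : Additive G, (χ - ψ) a := by
      rw [← Equiv.sum_comp Additive.ofMul (fun a => (χ - ψ) a)]
      refine Finset.sum_congr rfl fun g _ => ?_
      rw [AddChar.sub_apply, mul_comm]
      rfl
    rw [h3, h2]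
    simp only [sub_eq_zero]
  calc ∑ g, cf A g * val χ g = (Fintype.card G : ℂ)⁻¹ *
        ∑ ψ : Ch G, A ψ * ∑ g : G, val ψ g⁻¹ * val χ g := by
        unfold cf
        simp only [Finset.mul_sum, Finset.sum_mul]
        rw [Finset.sum_comm]
        refine Finset.sum_congr rfl fun ψ _ => Finset.sum_congr rfl fun g _ => by ring
    _ = A χ := by
        simp only [h1]
        rw [Finset.sum_eq_single χ]
        · rw [if_pos rfl]
          field_simp
        · intro ψ _ hψ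
          rw [if_neg (Ne.symm hψ), mul_zero]
        · intro h
          exact absurd (Finset.mem_univ _) h

/-- conjugation permutes the characters -/
noncomputable def cjEquiv (σ : ℂ ≃+* ℂ) : Ch G ≃ Ch G where
  toFun := cj σ
  invFun := cj σ.symm
  left_inv χ := by
    ext a
    show σ.symm (σ (χ a)) = χ a
    exact σ.symm_apply_apply _
  right_inv χ := by
    ext a
    show σ (σ.symm (χ a)) = χ a
    exact σ.apply_symm_apply _

lemma cj_symm (σ : ℂ ≃+* ℂ) (χ : Ch G) : cj σ.symm (cj σ χ) = χ := (cjEquiv σ).left_inv χ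

lemma val_cj (σ : ℂ ≃+* ℂ) (χ : Ch G) (g : G) : val (cj σ χ) g = σ (val χ g) := rfl

/-- complex numbers fixed by all automorphisms -/
theorem rat_of_fixed {z : ℂ} (h : ∀ σ : ℂ ≃+* ℂ, σ z = z) : ∃ q : ℚ, z = q := by
  by_contra hcon
  have hq : z ∉ (⊥ : Subfield ℂ) := by
    intro hb
    apply hcon
    have h2 : (⊥ : Subfield ℂ) ≤ (algebraMap ℚ ℂ).fieldRange := bot_le
    obtain ⟨q, hq⟩ := h2 hb
    exact ⟨q, by rw [← hq]; rfl⟩
  obtain ⟨σ, -, hσ⟩ := Pool.Agent.TH119.MX.exists_move hq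
  exact hσ (h σ)

/-- equivariance is rationality -/
theorem cf_rat_iff (A : Ch G → ℂ) :
    (∀ (σ : ℂ ≃+* ℂ) (χ : Ch G), σ (A χ) = A (cj σ χ)) ↔ ∀ g, ∃ q : ℚ, cf A g = q := by
  constructor
  · intro h g
    refine rat_of_fixed fun σ => ?_
    unfold cf
    rw [map_mul, map_inv₀, map_natCast, map_sum]
    congr 1
    rw [← Equiv.sum_comp (cjEquiv σ) (fun χ => A χ * val χ g⁻¹)]
    refine Finset.sum_congr rfl fun χ _ => ?_
    rw [map_mul, h]
    rfl
  · intro h σ χ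
    rw [← cf_dual A χ, ← cf_dual A (cj σ χ), map_sum]
    refine Finset.sum_congr rfl fun g _ => ?_
    obtain ⟨q, hq⟩ := h g
    rw [map_mul, hq, map_ratCast]
    rfl

/-- convergence of the coefficients -/
theorem cf_rate {A : Ch G → ℂ} {B : ℝ → Ch G → ℂ}
    (h : ∀ χ, (fun T : ℝ => B T χ - A χ) =O[atTop] (fun T : ℝ => 1 / T)) (g : G) :
    (fun T : ℝ => cf (B T) g - cf A g) =O[atTop] (fun T : ℝ => 1 / T) := by
  have h2 : (fun T : ℝ => ∑ χ : Ch G, val χ g⁻¹ * (B T χ - A χ))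
      =O[atTop] (fun T : ℝ => 1 / T) := IsBigO.fun_sum fun χ _ => (h χ).const_mul_left _
  refine (h2.const_mul_left (Fintype.card G : ℂ)⁻¹).congr_left fun T => ?_
  unfold cf
  rw [← mul_sub, ← Finset.sum_sub_distrib]
  congr 1
  exact Finset.sum_congr rfl fun χ _ => by ring

/-- **approach to the integers**, for any finite family of complex numbers -/
theorem int_iff {ι : Type} [Fintype ι] {a : ι → ℂ} {b : ℝ → ι → ℂ}
    (h : ∀ i, (fun T : ℝ => b T i - a i) =O[atTop] (fun T : ℝ => 1 / T)) :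
    ((∀ i, ∃ q : ℚ, a i = q) ↔ ∃ N : ℕ, 1 ≤ N ∧ ∀ ε > 0, ∀ T₀ : ℝ, ∃ T ≥ T₀, ∃ n : ι → ℤ,
      ∀ i, ‖N * b T i - n i‖ < ε) ∧
    ((∀ i, ∃ q : ℚ, a i = q) ↔ ∃ N : ℕ, 1 ≤ N ∧ ∃ n : ι → ℤ, ∀ i,
      (fun T : ℝ => N * b T i - n i) =O[atTop] (fun T : ℝ => 1 / T)) := by
  classical
  have h0T : Tendsto (fun T : ℝ => 1 / T) atTop (𝓝 (0 : ℝ)) :=
    tendsto_const_nhds.div_atTop tendsto_id
  have hN : ∀ (N : ℕ) (i : ι), (fun T : ℝ => N * b T i - N * a i) =O[atTop] (fun T : ℝ => 1 / T) := by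
    intro N i
    refine ((h i).const_mul_left (N : ℂ)).congr_left fun T => by ring
  have hbd : (∀ i, ∃ q : ℚ, a i = q) → ∃ N : ℕ, 1 ≤ N ∧ ∃ n : ι → ℤ, ∀ i,
        (fun T : ℝ => N * b T i - n i) =O[atTop] (fun T : ℝ => 1 / T) := by
    intro h
    choose q hq using h
    set N : ℕ := ∏ i, (q i).den with hNdef
    have hNpos : 1 ≤ N := Nat.one_le_iff_ne_zero.2 (Finset.prod_ne_zero_iff.2 fun i _ => (q i).den_nz)
    have hint : ∀ i, ∃ n : ℤ, (N : ℚ) * q i = n := by
      intro i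
      obtain ⟨k, hk⟩ : (q i).den ∣ N := Finset.dvd_prod_of_mem (fun i => (q i).den) (Finset.mem_univ i)
      refine ⟨k * (q i).num, ?_⟩
      rw [hk]
      push_cast
      have h3 := Rat.den_mul_eq_num (q i)
      linear_combination (k : ℚ) * h3
    choose n hn using hint
    refine ⟨N, hNpos, n, fun i => ?_⟩
    refine (hN N i).congr_left fun T => ?_
    have h4 : (N : ℂ) * a i = n i := by
      rw [hq i]
      exact_mod_cast hn i
    rw [h4]
  have hdc : ∀ N : ℕ, (∃ n : ι → ℤ, ∀ i, (fun T : ℝ => N * b T i - n i) =O[atTop] (fun T : ℝ => 1 / T)) →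
      ∀ ε > 0, ∀ T₀ : ℝ, ∃ T ≥ T₀, ∃ n : ι → ℤ, ∀ i, ‖N * b T i - n i‖ < ε := by
    rintro N ⟨n, hn⟩ ε hε T₀
    have h3 : ∀ᶠ T : ℝ in atTop, ∀ i, ‖N * b T i - n i‖ < ε := by
      rw [eventually_all]
      intro i
      have h4 := ((hn i).trans_tendsto h0T).norm
      rw [norm_zero] at h4
      exact h4.eventually_lt_const hε
    obtain ⟨T, hT1, hT2⟩ := (h3.and (eventually_ge_atTop T₀)).exists
    exact ⟨T, hT2, n, hT1⟩
  have hcb : (∃ N : ℕ, 1 ≤ N ∧ ∀ ε > 0, ∀ T₀ : ℝ, ∃ T ≥ T₀, ∃ n : ι → ℤ,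
      ∀ i, ‖N * b T i - n i‖ < ε) → ∀ i, ∃ q : ℚ, a i = q := by
    rintro ⟨N, hN1, h⟩ i
    set α : ℂ := N * a i with ha
    have hclose : ∀ δ : ℝ, 0 < δ → ∃ n : ℤ, ‖α - n‖ < δ := by
      intro δ hδ
      have h3 : ∀ᶠ T : ℝ in atTop, ‖N * b T i - α‖ < δ / 2 := by
        have h4 := ((hN N i).trans_tendsto h0T).norm
        rw [norm_zero] at h4
        exact h4.eventually_lt_const (by positivity)
      obtain ⟨T₀, hT₀⟩ := eventually_atTop.1 h3
      obtain ⟨T, hT, n, hn⟩ := h (δ / 2) (by positivity) T₀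
      refine ⟨n i, ?_⟩
      have h5 : α - n i = (N * b T i - n i) - (N * b T i - α) := by ring
      rw [h5]
      calc _ ≤ ‖N * b T i - n i‖ + ‖N * b T i - α‖ := norm_sub_le _ _
        _ < δ := by
          have := hn i
          have := hT₀ T hT
          linarith
    have hint : ∃ n : ℤ, α = n := by
      obtain ⟨n, hn⟩ := hclose (1 / 4) (by norm_num)
      refine ⟨n, ?_⟩
      by_contra hne
      have hpos : 0 < ‖α - n‖ := norm_pos_iff.2 (sub_ne_zero.2 hne)
      obtain ⟨n', hn'⟩ := hclose (min (1 / 4) ‖α - n‖) (lt_min (by norm_num) hpos)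
      have h6 : ‖((n - n' : ℤ) : ℂ)‖ < 1 := by
        have h7 : ((n - n' : ℤ) : ℂ) = (α - n') - (α - n) := by push_cast; ring
        rw [h7]
        calc _ ≤ ‖α - n'‖ + ‖α - n‖ := norm_sub_le _ _
          _ < 1 := by
            have := hn'.trans_le (min_le_left _ _)
            linarith
      rw [Complex.norm_intCast] at h6
      have h8 : n - n' = 0 := by
        have h9 : |n - n'| < 1 := by exact_mod_cast h6
        exact Int.abs_lt_one_iff.1 h9
      have h10 : n = n' := by omega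
      rw [← h10] at hn'
      exact absurd (hn'.trans_le (min_le_right _ _)) (lt_irrefl _)
    obtain ⟨n, hn⟩ := hint
    refine ⟨(n : ℚ) / N, ?_⟩
    have hN0 : (N : ℂ) ≠ 0 := by exact_mod_cast (by omega : N ≠ 0)
    push_cast
    rw [eq_div_iff hN0, ← hn, ha]
    ring
  refine ⟨⟨fun h => ?_, hcb⟩, ⟨hbd, ?_⟩⟩
  · obtain ⟨N, hN1, h2⟩ := hbd h
    exact ⟨N, hN1, hdc N h2⟩
  · rintro ⟨N, hN1, h2⟩
    exact hcb ⟨N, hN1, hdc N h2⟩

end Pool.Agent.X287.ST
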