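import Pool.Agent.X287.STO
import Pool.Agent.X287.STM

/-!
# The sign law at a real place, and fields whose roots of unity are `1` and `-1`
-/

set_option autoImplicit false
set_option linter.unusedSectionVars false

open NumberField Filter Topology Asymptotics
open IsDedekindDomain

namespace Pool.Agent.X287.ST

section sign
variable {K : Type} [Field K] [NumberField K] {G : Type} [CommGroup G] [Fintype G]

/-- **the sign law at a real place which does not split** -/
theorem real_sign {R : Finset (K →+* ℝ)} {σ₂ : K →+* ℝ} (hσ : σ₂ ∉ R)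
    (hR : 1 ≤ R.card + InfinitePlace.nrComplexPlaces K) {𝔪 : Ideal (𝓞 K)} (h0 : 𝔪 ≠ ⊥) (h1 : 𝔪 ≠ ⊤)
    {c : Ideal (𝓞 K) → G} (hcR : IsClassMapR 𝔪 R c) {Z : G → ℂ → ℂ} (hZ' : IsPZ 𝔪 c Z)
    {x : 𝓞 K} (hx0 : x ≠ 0) (hx1 : x - 1 ∈ 𝔪) (hx2 : σ₂ (x : K) < 0)
    (hx3 : ∀ σ : K →+* ℝ, σ ≠ σ₂ → σ ∉ R → 0 < σ (x : K)) :
    c (Ideal.span {x}) * c (Ideal.span {x}) = 1 ∧
      ∀ A, deriv (Z A) 0 + deriv (Z (A * c (Ideal.span {x}))) 0 = 0 := by
  classical
  have hr2 : 2 ≤ (insert σ₂ R).card + InfinitePlace.nrComplexPlaces K := by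
    rw [Finset.card_insert_of_notMem hσ]
    omega
  set ρ : G := c (Ideal.span {x}) with hρ
  have hcop : ∀ y : 𝓞 K, y - 1 ∈ 𝔪 → IsCoprime (Ideal.span {y}) 𝔪 := fun y hy => cop_span hy
  have hmul1 : ∀ y : 𝓞 K, y - 1 ∈ 𝔪 → y * x - 1 ∈ 𝔪 := by
    intro y hy
    have e : y * x - 1 = x * (y - 1) + (x - 1) := by ring
    rw [e]
    exact 𝔪.add_mem (𝔪.mul_mem_left x hy) hx1
  have hneg : ∀ y : 𝓞 K, y ≠ 0 → y - 1 ∈ 𝔪 → σ₂ (y : K) < 0 → (∀ σ : K →+* ℝ, σ ≠ σ₂ → σ ∉ R → 0 < σ (y : K)) →
      c (Ideal.span {y}) * ρ = 1 := by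
    intro y hy0 hy1 hy2 hy3
    rw [hρ, ← hcR.mul _ _ (hcop y hy1) (hcop x hx1), Ideal.span_singleton_mul_span_singleton]
    refine hcR.ray _ (mul_ne_zero hy0 hx0) (hmul1 y hy1) fun σ hσR => ?_
    have e : (((y * x : 𝓞 K)) : K) = (y : K) * (x : K) := rfl
    rw [e, map_mul]
    by_cases h : σ = σ₂
    · rw [h]
      exact mul_pos_of_neg_of_neg hy2 hx2
    · exact mul_pos (hy3 σ h hσR) (hx3 σ h hσR)
  have hρ2 : ρ * ρ = 1 := hneg x hx0 hx1 hx2 hx3
  refine ⟨hρ2, fun A => ?_⟩
  have hρinv : ρ⁻¹ = ρ := by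
    rw [inv_eq_iff_mul_eq_one]
    exact hρ2
  let N : Subgroup G := Subgroup.zpowers ρ
  have hmemN : ∀ g : G, g ∈ N ↔ g = 1 ∨ g = ρ := by
    intro g
    constructor
    · intro hg
      obtain ⟨k, rfl⟩ := Subgroup.mem_zpowers_iff.1 hg
      rcases Int.even_or_odd k with ⟨m, hm⟩ | ⟨m, hm⟩
      · left
        rw [hm, ← two_mul, zpow_mul, zpow_two, hρ2, one_zpow]
      · right
        rw [hm, zpow_add, zpow_mul, zpow_two, hρ2, one_zpow, one_mul, zpow_one]
    · rintro (rfl | rfl)
      · exact N.one_mem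
      · exact Subgroup.mem_zpowers ρ
  have h2 := push_deriv (R' := insert σ₂ R) h1 h0 hcR.toClass hr2 hZ' (G' := G ⧸ N)
    (QuotientGroup.mk' N) (fun y hy0 hy1 hy3 => by
      rw [QuotientGroup.mk'_apply, QuotientGroup.eq_one_iff, hmemN]
      have hy3' : ∀ σ : K →+* ℝ, σ ≠ σ₂ → σ ∉ R → 0 < σ (y : K) := fun σ h4 h5 => hy3 σ (by
        rw [Finset.mem_insert]
        push Not
        exact ⟨h4, h5⟩)
      have hne : σ₂ (y : K) ≠ 0 := by
        rw [_root_.map_ne_zero]
        simpa using hy0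
      rcases lt_or_gt_of_ne hne with h | h
      · right
        have h3 := hneg y hy0 hy1 h hy3'
        rw [mul_eq_one_iff_eq_inv, hρinv] at h3
        exact h3
      · left
        refine hcR.ray y hy0 hy1 fun σ hσR => ?_
        by_cases h5 : σ = σ₂
        · rw [h5]
          exact h
        · exact hy3' σ h5 hσR) (QuotientGroup.mk' N A)
  have h3 : ∀ g : G, QuotientGroup.mk' N g = QuotientGroup.mk' N A ↔ g = A ∨ g = A * ρ := by
    intro g
    rw [QuotientGroup.mk'_apply, QuotientGroup.mk'_apply, QuotientGroup.eq, hmemN]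
    constructor
    · rintro (h | h)
      · left
        rw [inv_mul_eq_one] at h
        exact h
      · right
        rw [inv_mul_eq_iff_eq_mul] at h
        rw [h, mul_assoc, hρ2, mul_one]
    · rintro (rfl | rfl)
      · left
        exact inv_mul_cancel _
      · right
        rw [mul_inv_rev, inv_mul_cancel_right, hρinv]
  by_cases hA : A = A * ρ
  · have h5 : Finset.univ.filter (fun g => QuotientGroup.mk' N g = QuotientGroup.mk' N A) = {A} := by
      ext g
      rw [Finset.mem_filter, h3, ← hA, Finset.mem_singleton]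
      simp
    rw [h5, Finset.sum_singleton] at h2
    rw [← hA, h2, add_zero]
  · have h5 : Finset.univ.filter (fun g => QuotientGroup.mk' N g = QuotientGroup.mk' N A) =
        {A, A * ρ} := by
      ext g
      rw [Finset.mem_filter, h3, Finset.mem_insert, Finset.mem_singleton]
      simp
    rw [h5, Finset.sum_pair hA] at h2
    exact h2

end sign

section pm

/-- the roots of unity of `H` are `1` and `-1` -/
def PM (H : Type) [Field H] : Prop := ∀ (x : H) (n : ℕ), 0 < n → x ^ n = 1 → x = 1 ∨ x = -1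

lemma PM.of_hom {H H' : Type} [Field H] [Field H'] (f : H →+* H') (h : PM H') : PM H := by
  intro x n hn hx
  have h1 : (f x) ^ n = 1 := by rw [← map_pow, hx, map_one]
  rcases h _ n hn h1 with h2 | h2
  · left
    apply f.injective
    rw [h2, map_one]
  · right
    apply f.injective
    rw [h2, map_neg, map_one]

lemma PM.of_real {H : Type} [Field H] {τ : H →+* ℂ} (h : ComplexEmbedding.IsReal τ) : PM H := by
  intro x n hn hx
  have h1 : starRingEnd ℂ (τ x) = τ x := by
    have h2 := congrArg (fun f : H →+* ℂ => f x) h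
    simpa [ComplexEmbedding.conjugate_coe_eq] using h2
  have h2 : ‖τ x‖ = 1 := by
    have h3 : ‖τ x‖ ^ n = 1 := by
      rw [← norm_pow, ← map_pow, hx, map_one, norm_one]
    exact (pow_eq_one_iff_of_nonneg (norm_nonneg _) hn.ne').1 h3
  have h3 : (τ x) ^ 2 = 1 := by
    have h4 := Complex.mul_conj (τ x)
    rw [h1, ← pow_two] at h4
    rw [h4, Complex.normSq_eq_norm_sq, h2]
    norm_num
  have h4 : x ^ 2 = 1 := by
    apply τ.injective
    rw [map_pow, h3, map_one]
  exact sq_eq_sq_iff_eq_or_eq_neg.1 (by rw [h4, one_pow])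

/-- no square root of `-1` -/
lemma PM.sq_ne {H : Type} [Field H] [CharZero H] (h : PM H) {x y : H} (hy : y ≠ 0) : x ^ 2 ≠ -(y ^ 2) := by
  intro hxy
  have h1 : (x / y) ^ 2 = -1 := by
    rw [div_pow, hxy, neg_div, div_self (pow_ne_zero 2 hy)]
  have h2 : (x / y) ^ 4 = 1 := by
    have e : (x / y) ^ 4 = ((x / y) ^ 2) ^ 2 := by ring
    rw [e, h1]
    norm_num
  have h3 : (x / y) ^ 2 = 1 := by
    rcases h _ 4 (by norm_num) h2 with h4 | h4 <;> rw [h4] <;> norm_num
  rw [h1] at h3
  norm_num at h3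

theorem torsionOrder_iff (H : Type) [Field H] [NumberField H] : Units.torsionOrder H = 2 ↔ PM H := by
  constructor
  · intro h x n hn hx
    have hx0 : x ≠ 0 := by
      rintro rfl
      rw [zero_pow hn.ne'] at hx
      exact zero_ne_one hx
    have hi : IsIntegral ℤ x := IsIntegral.of_pow hn (by rw [hx]; exact isIntegral_one)
    have hi2 : IsIntegral ℤ x⁻¹ := IsIntegral.of_pow hn (by rw [inv_pow, hx, inv_one]; exact isIntegral_one)
    obtain ⟨U, hU⟩ := mk_unit hx0 hi hi2
    have hUn : U ^ n = 1 := by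
      apply Units.ext
      apply RingOfIntegers.coe_injective
      rw [Units.val_pow_eq_pow_val, Units.val_one, map_pow, map_one]
      rw [← hU] at hx
      exact hx
    have hmem : U ∈ Units.torsion H := by
      rw [Units.torsion, CommGroup.mem_torsion, isOfFinOrder_iff_pow_eq_one]
      exact ⟨n, hn, hUn⟩
    have h3 : (⟨U, hmem⟩ : Units.torsion H) ^ 2 = 1 := by
      rw [← h]
      exact pow_card_eq_one'
    have h4 : U ^ 2 = 1 := congrArg Subtype.val h3
    have h5 : x ^ 2 = 1 := by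
      rw [← hU]
      have h6 := congrArg (fun V : (𝓞 H)ˣ => ((V : 𝓞 H) : H)) h4
      simpa using h6
    exact sq_eq_sq_iff_eq_or_eq_neg.1 (by rw [h5, one_pow])
  · intro h
    have hm : (-1 : (𝓞 H)ˣ) ∈ Units.torsion H := by
      rw [Units.torsion, CommGroup.mem_torsion, isOfFinOrder_iff_pow_eq_one]
      exact ⟨2, two_pos, by rw [neg_one_sq]⟩
    have hne : (1 : (𝓞 H)ˣ) ≠ -1 := by
      intro h1
      have h2 := congrArg (fun V : (𝓞 H)ˣ => ((V : 𝓞 H) : H)) h1
      have h3 : (1 : H) = -1 := by simpa using h2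
      norm_num at h3
    rw [Units.torsionOrder, Nat.card_eq_two_iff]
    refine ⟨1, ⟨-1, hm⟩, ?_, ?_⟩
    · intro h1
      exact hne (congrArg Subtype.val h1)
    · refine Set.eq_univ_of_forall ?_
      rintro ⟨U, hU⟩
      have hU' := hU
      rw [Units.torsion, CommGroup.mem_torsion, isOfFinOrder_iff_pow_eq_one] at hU'
      obtain ⟨n, hn, hUn⟩ := hU'
      have h1 : ((U : 𝓞 H) : H) ^ n = 1 := by
        have h2 := congrArg (fun V : (𝓞 H)ˣ => ((V : 𝓞 H) : H)) hUn
        simpa using h2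
      rcases h _ n hn h1 with h2 | h2
      · left
        apply Subtype.ext
        apply Units.ext
        apply RingOfIntegers.coe_injective
        simpa using h2
      · right
        apply Subtype.ext
        apply Units.ext
        apply RingOfIntegers.coe_injective
        simpa using h2

end pm

end Pool.Agent.X287.ST
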