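import Pool.Agent.X287.ST9

/-!
# The L-functions of the characters of a class map
-/

set_option autoImplicit false
set_option linter.unusedSectionVars false

open NumberField Filter Topology Asymptotics
open IsDedekindDomain

namespace Pool.Agent.X287.ST

open Pool.Agent.X287.CR

variable {K : Type} [Field K] [NumberField K] {G : Type} [CommGroup G] [Fintype G]
variable {𝔪 : Ideal (𝓞 K)} {c : Ideal (𝓞 K) → G}

/-- `Λ` is the `L`-function of `χ` -/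
structure IsLc (𝔪 : Ideal (𝓞 K)) (c : Ideal (𝓞 K) → G) (χ : Ch G) (Λ : ℂ → ℂ) : Prop where
  prod : ∀ s : ℂ, 1 < s.re → HasProd (fun v : Pl 𝔪 =>
    (1 - val χ (c v.1.asIdeal) * ((Ideal.absNorm v.1.asIdeal : ℕ) : ℂ) ^ (-s))⁻¹) (Λ s)
  an : ∀ s : ℂ, s ≠ 1 → AnalyticAt ℂ Λ s
  mer : MeromorphicAt Λ 1

/-- The term of the prime `v = x.1` and the exponent `k = x.2 + 1`. -/
noncomputable def ct (𝔪 : Ideal (𝓞 K)) (c : Ideal (𝓞 K) → G) (γ T : ℝ) (χ : Ch G)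
    (x : Pl 𝔪 × ℕ) : ℂ :=
  val χ (c x.1.1.asIdeal) ^ (x.2 + 1) *
      Complex.exp ((γ * ((x.2 + 1) * Real.log (Ideal.absNorm x.1.1.asIdeal : ℕ) / T) : ℝ) * Complex.I) /
    (((x.2 + 1) * Real.Gamma (1 + (x.2 + 1) * Real.log (Ideal.absNorm x.1.1.asIdeal : ℕ) / T) : ℝ) : ℂ)

/-- The sum `S_χ(T)`. -/
noncomputable def cS (𝔪 : Ideal (𝓞 K)) (c : Ideal (𝓞 K) → G) (γ T : ℝ) (χ : Ch G) : ℂ := ∑' x, ct 𝔪 c γ T χ x

theorem ct_eq (γ T : ℝ) (χ : Ch G) (x : Pl 𝔪 × ℕ) :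
    tm (qq 𝔪) (al 𝔪 c (chr χ)) 0 γ T x = -ct 𝔪 c γ T χ x := by
  unfold tm ct lam al qq val
  simp only [Finset.univ_unique, Finset.sum_const, Finset.card_singleton, one_smul, zero_mul, neg_zero,
    Complex.exp_zero, mul_one]
  rw [neg_mul, neg_div]
  rfl

theorem cS_eq (γ T : ℝ) (χ : Ch G) : Su (qq 𝔪) (al 𝔪 c (chr χ)) 0 γ T = -cS 𝔪 c γ T χ := by
  unfold Su cS
  rw [← tsum_neg]
  exact tsum_congr fun x => ct_eq γ T χ x

theorem fac_val (χ : Ch G) (s : ℂ) : fac (qq 𝔪) (al 𝔪 c (chr χ)) s = fun v : Pl 𝔪 =>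
    (1 - val χ (c v.1.asIdeal) * ((Ideal.absNorm v.1.asIdeal : ℕ) : ℂ) ^ (-s))⁻¹ := by
  funext v
  unfold fac al qq
  simp only [Finset.univ_unique, Finset.prod_const, Finset.card_singleton, pow_one]
  rfl

theorem ct_summable (γ : ℝ) {T : ℝ} (hT : 0 < T) (χ : Ch G) : Summable fun x => ‖ct 𝔪 c γ T χ x‖ := by
  have h2 := (csys 𝔪 c χ).tm_summable (s₀ := 0) (by simp) γ hT
  refine h2.congr fun x => ?_
  rw [ct_eq, norm_neg]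

/-- existence -/
theorem exists_Lc (h𝔪 : 𝔪 ≠ ⊤) (h0 : 𝔪 ≠ ⊥) {R : Finset (K →+* ℝ)} (hc : IsClassMapR 𝔪 R c) (χ : Ch G) :
    ∃ Λ, IsLc 𝔪 c χ Λ ∧ ∃ θ : ℂ, Tendsto (fun s : ℂ => Λ s /
      s ^ (R.card + InfinitePlace.nrComplexPlaces K)) (𝓝[≠] 0) (𝓝 θ) := by
  obtain ⟨Z, hZ, h1⟩ := exists_PZ_ord h𝔪 h0 hc
  choose a ha using h1
  refine ⟨fun s => ∑ g, chr χ g * Z g s, ⟨fun s hs => ?_, fun s hs => ?_, ?_⟩, ?_⟩
  · have h2 := hasProd_L h𝔪 hc.toClass χ hs fun σ => hZ.sum σ s hs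
    rwa [fac_val] at h2
  · exact Finset.analyticAt_fun_sum _ fun g _ => analyticAt_const.mul (hZ.an g s hs)
  · exact MeromorphicAt.fun_sum fun g _ => (MeromorphicAt.const _ _).mul (hZ.mer g)
  · refine ⟨∑ g, chr χ g * a g, ?_⟩
    have h3 := tendsto_finsetSum (Finset.univ : Finset G) fun g _ => (ha g).const_mul (chr χ g)
    refine h3.congr fun s => ?_
    rw [Finset.sum_div]
    exact Finset.sum_congr rfl fun g _ => by ring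

/-- uniqueness -/
theorem Lc_unique {χ : Ch G} {Λ Λ' : ℂ → ℂ} (h : IsLc 𝔪 c χ Λ) (h' : IsLc 𝔪 c χ Λ') {s : ℂ} (hs : s ≠ 1) :
    Λ s = Λ' s := by
  have hpre : IsPreconnected ({1}ᶜ : Set ℂ) := by
    refine (isConnected_compl_singleton_of_one_lt_rank ?_ 1).isPreconnected
    rw [Complex.rank_real_complex]
    norm_num
  have h2 : AnalyticOnNhd ℂ Λ {1}ᶜ := fun z hz => h.an z hz
  have h3 : AnalyticOnNhd ℂ Λ' {1}ᶜ := fun z hz => h'.an z hz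
  have h4 : Λ =ᶠ[𝓝 (2 : ℂ)] Λ' := by
    have hopen : IsOpen {z : ℂ | 1 < z.re} := isOpen_lt continuous_const Complex.continuous_re
    filter_upwards [hopen.mem_nhds (show (2 : ℂ) ∈ {z : ℂ | 1 < z.re} by simp)] with z hz
    exact (h.prod z hz).unique (h'.prod z hz)
  exact h2.eqOn_of_preconnected_of_eventuallyEq h3 hpre (z₀ := (2 : ℂ)) (by simp) h4 hs

/-- the law -/
theorem Lc_law {χ : Ch G} {Λ : ℂ → ℂ} (h : IsLc 𝔪 c χ Λ) {γ : ℝ} (hγ : Real.pi / 2 < γ) :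
    ∃ (m : ℤ) (ℓ : ℂ), meromorphicOrderAt Λ 0 = m ∧ meromorphicTrailingCoeffAt Λ 0 = Complex.exp ℓ ∧
      Asy (Pool.Agent.W187.UR.Lam γ) (fun T => -cS 𝔪 c γ T χ) m ℓ := by
  obtain ⟨m, ℓ, h1, h2, h3⟩ := (csys 𝔪 c χ).law (L := Λ) (s₀ := 0) (fun s hs => by
    rw [add_zero] at hs
    rw [fac_val]
    exact h.prod s hs) (by simp) (fun x _ _ => by
    by_cases hx : (0 : ℂ) + x = 1
    · rw [hx]; exact h.mer
    · exact (h.an _ hx).meromorphicAt) hγ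
  refine ⟨m, ℓ, h1, h2, ?_⟩
  simp only [cS_eq] at h3
  exact h3

/-- **the limit with the power `r`** -/
theorem Lc_lim (h𝔪 : 𝔪 ≠ ⊤) (h0 : 𝔪 ≠ ⊥) {R : Finset (K →+* ℝ)} (hc : IsClassMapR 𝔪 R c) {χ : Ch G}
    {Λ : ℂ → ℂ} (h : IsLc 𝔪 c χ Λ) {γ : ℝ} (hγ : Real.pi / 2 < γ) : ∃ θ : ℂ,
    Tendsto (fun s : ℂ => Λ s / s ^ (R.card + InfinitePlace.nrComplexPlaces K)) (𝓝[≠] 0) (𝓝 θ) ∧
    (fun T : ℝ => ((T : ℂ) * Complex.exp (-Pool.Agent.W187.UR.Lam γ)) ^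
      (R.card + InfinitePlace.nrComplexPlaces K) * Complex.exp (cS 𝔪 c γ T χ) - θ) =O[atTop]
        (fun T : ℝ => 1 / T) := by
  obtain ⟨Λ', hΛ', θ, hθ⟩ := exists_Lc h𝔪 h0 hc χ
  have h1 : Tendsto (fun s : ℂ => Λ s / s ^ (R.card + InfinitePlace.nrComplexPlaces K)) (𝓝[≠] 0) (𝓝 θ) := by
    refine hθ.congr' ?_
    have hev : ∀ᶠ s : ℂ in 𝓝 0, s ≠ 1 := isOpen_ne.mem_nhds (by norm_num)
    filter_upwards [hev.filter_mono nhdsWithin_le_nhds] with s hs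
    rw [Lc_unique hΛ' h hs]
  refine ⟨θ, h1, ?_⟩
  obtain ⟨m, ℓ, h2, h3, h4⟩ := Lc_law h hγ
  have hmer : MeromorphicAt Λ 0 := (h.an 0 (by norm_num)).meromorphicAt
  have h5 : Tendsto (fun s : ℂ => Λ s / (s - 0) ^ ((R.card + InfinitePlace.nrComplexPlaces K : ℕ) : ℤ))
      (𝓝[≠] 0) (𝓝 θ) := by
    simp only [sub_zero, zpow_natCast]
    exact h1
  rw [mero_iff hmer h2 h3, ← asy_iff h4] at h5
  refine (asy_rate h4 _ _ h5).congr_left fun T => ?_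
  unfold sc
  rw [zpow_natCast, neg_neg]

end Pool.Agent.X287.ST
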