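import Pool.Agent.X287.STT

/-!
# Squares of fields: norms and square roots
-/

set_option autoImplicit false
set_option linter.unusedSectionVars false

open NumberField Filter Topology Asymptotics
open IsDedekindDomain

namespace Pool.Agent.X287.ST

section lifts
variable {K : Type} [Field K] [NumberField K] {G : Type} [CommGroup G] [Fintype G] {G' : Type} [CommGroup G']
  [Fintype G'] {H' : Type} [Field H'] [NumberField H'] [Algebra K H'] [IsGalois K H']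

lemma lift_exists (art' : G' ≃* Gal(H'/K)) {M : Type} [Field M] [NumberField M] [Algebra H' M] [Algebra K M]
    [IsScalarTower K H' M] [IsGalois K M] (A : G') :
    ∃ g : Gal(M/K), ∀ x : H', g (algebraMap H' M x) = algebraMap H' M (art' A x) := by
  have hnorm : Normal K H' := inferInstance
  obtain ⟨g, hg⟩ := AlgEquiv.restrictNormalHom_surjective (F := K) (K₁ := H') M (art' A)
  refine ⟨g, fun x => ?_⟩
  have h1 := AlgEquiv.restrictNormal_commutes g H' x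
  have h2 : AlgEquiv.restrictNormal g H' = art' A := hg
  rw [h2] at h1
  exact h1.symm

lemma pm_of_sq {M : Type} [Field M] {x y : M} (h : x ^ 2 = y ^ 2) : ∃ e : M, (e = 1 ∨ e = -1) ∧ x = e * y := by
  rcases sq_eq_sq_iff_eq_or_eq_neg.1 h with h | h
  · exact ⟨1, Or.inl rfl, by rw [h, one_mul]⟩
  · exact ⟨-1, Or.inr rfl, by rw [h]; ring⟩

lemma pm_fix {K : Type} [Field K] {M : Type} [Field M] [Algebra K M] (k : Gal(M/K)) {e : M} (he : e = 1 ∨ e = -1) :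
    k e = e := by
  rcases he with rfl | rfl
  · exact map_one k
  · rw [map_neg, map_one]

lemma pm_even {M : Type} [Field M] {e : M} (he : e = 1 ∨ e = -1) {n : ℕ} (hn : Even n) : e ^ n = 1 := by
  rcases he with rfl | rfl
  · exact one_pow n
  · exact hn.neg_one_pow

/-- **the half norm**: `b / σ b` is the norm of `√(u / σ u)` if `b² = N(u)` -/
theorem half_norm [DecidableEq G] (art' : G' ≃* Gal(H'/K)) {π : G' →* G}
    (heven : Even (Finset.univ.filter (fun κ => π κ = 1)).card) {u : H'} (hu : u ≠ 0) {M : Type} [Field M]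
    [NumberField M] [Algebra H' M] [Algebra K M] [IsScalarTower K H' M] [IsGalois K M]
    (hcomm : ∀ a b : Gal(M/K), a * b = b * a) {α : M} (hα : α ^ 2 = algebraMap H' M u) {b : H'}
    (hb : b ^ 2 = nrm art' π u) (σ : G') :
    ∃ a : H', a ^ 2 = u / art' σ u ∧ b / art' σ b = nrm art' π a := by
  classical
  have hroot : ∃ ζ : H', IsPrimitiveRoot ζ 2 := ⟨-1, IsPrimitiveRoot.neg_one 0 (by norm_num)⟩
  have hζ1 : ∀ ζ : H', ζ ^ 2 = 1 → ∀ A, art' A ζ = ζ := by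
    intro ζ hζ A
    have h1 : ζ = 1 ∨ ζ = -1 := sq_eq_sq_iff_eq_or_eq_neg.1 (by rw [hζ, one_pow])
    exact pm_fix (art' A) h1
  have hprod : ∀ f : G' → H', (∀ A, f A ≠ 0) →
      ∏ A, f A ^ ((if A = 1 then (1 : ℤ) else 0) - (if A = σ then 1 else 0)) = f 1 / f σ := by
    intro f hf
    have h1 : ∀ A, f A ^ ((if A = 1 then (1 : ℤ) else 0) - (if A = σ then 1 else 0)) =
        (if A = 1 then f A else 1) * (if A = σ then (f A)⁻¹ else 1) := by
      intro A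
      rw [zpow_sub₀ (hf A)]
      split_ifs <;> simp [div_eq_mul_inv]
    rw [Finset.prod_congr rfl fun A _ => h1 A, Finset.prod_mul_distrib, Finset.prod_ite_eq' Finset.univ (1 : G') f,
      Finset.prod_ite_eq' Finset.univ σ (fun A => (f A)⁻¹)]
    simp [div_eq_mul_inv]
  obtain ⟨a, ha⟩ := abelian_descent art' two_pos hroot hu hcomm hα
    (fun A => (if A = 1 then (1 : ℤ) else 0) - (if A = σ then 1 else 0)) (fun ζ hζ => by
      have hζ0 : ζ ≠ 0 := by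
        rintro rfl
        rw [zero_pow two_ne_zero] at hζ
        exact zero_ne_one hζ
      rw [hprod (fun A => art' A ζ) (fun A => (map_ne_zero_iff _ (art' A).injective).2 hζ0), hζ1 ζ hζ, hζ1 ζ hζ,
        div_self hζ0])
  have ha1 : a ^ 2 = u / art' σ u := by
    have h1 := ha 1
    have h2 : ∀ x, (art' 1) x = x := by
      intro x
      rw [map_one]
      rfl
    rw [h2] at h1
    rw [h1]
    have h3 := hprod (fun A => art' (1 * A) u) (fun A => (map_ne_zero_iff _ (art' _).injective).2 hu)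
    simp only [one_mul] at h3 ⊢
    rw [h3, h2]
  refine ⟨a, ha1, ?_⟩
  choose g hg using fun A => lift_exists art' (M := M) A
  have hα0 : α ≠ 0 := by
    rintro rfl
    rw [zero_pow two_ne_zero] at hα
    exact hu ((map_eq_zero _).1 hα.symm)
  have hgα : ∀ A, g A α ≠ 0 := fun A => (map_ne_zero_iff _ (g A).injective).2 hα0
  obtain ⟨e, he, hea⟩ : ∃ e : M, (e = 1 ∨ e = -1) ∧ α / g σ α = e * algebraMap H' M a := by
    refine pm_of_sq ?_
    rw [div_pow, ← map_pow, hα, hg, ← map_pow, ha1, map_div₀]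
  set β : M := ∏ κ ∈ Finset.univ.filter (fun κ => π κ = 1), g κ α with hβ
  obtain ⟨e', he', heb⟩ : ∃ e : M, (e = 1 ∨ e = -1) ∧ β = e * algebraMap H' M b := by
    refine pm_of_sq ?_
    rw [hβ, ← Finset.prod_pow, ← map_pow, hb, nrm, map_prod]
    refine Finset.prod_congr rfl fun κ _ => ?_
    rw [← map_pow, hα, hg]
  have he0 : e' ≠ 0 := by
    rcases he' with rfl | rfl
    · exact one_ne_zero
    · exact neg_ne_zero.2 one_ne_zero
  apply (algebraMap H' M).injective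
  have h1 : algebraMap H' M (b / art' σ b) = β / g σ β := by
    rw [heb, map_mul (g σ), pm_fix (g σ) he', hg, mul_div_mul_left _ _ he0, map_div₀]
  have h2 : β / g σ β = ∏ κ ∈ Finset.univ.filter (fun κ => π κ = 1), g κ (α / g σ α) := by
    rw [hβ, map_prod, ← Finset.prod_div_distrib]
    refine Finset.prod_congr rfl fun κ _ => ?_
    rw [map_div₀]
    congr 1
    exact congrArg (fun f : Gal(M/K) => f α) (hcomm (g σ) (g κ))
  rw [h1, h2, nrm, map_prod]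
  have h3 : ∀ κ, g κ (α / g σ α) = e * algebraMap H' M (art' κ a) := by
    intro κ
    rw [hea, map_mul, pm_fix (g κ) he, hg]
  rw [Finset.prod_congr rfl fun κ _ => h3 κ, Finset.prod_mul_distrib, Finset.prod_const, pm_even he heven, one_mul]

end lifts

section square
variable {K : Type} [Field K] [NumberField K] {G : Type} [CommGroup G] [Fintype G]
  {G₁ : Type} [CommGroup G₁] [Fintype G₁] {H₁ : Type} [Field H₁] [NumberField H₁] [Algebra K H₁] [IsGalois K H₁]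
  {G₂ : Type} [CommGroup G₂] [Fintype G₂] {H₂ : Type} [Field H₂] [NumberField H₂] [Algebra K H₂] [IsGalois K H₂]
  {G₃ : Type} [CommGroup G₃] [Fintype G₃] {H₃ : Type} [Field H₃] [NumberField H₃] [Algebra K H₃] [IsGalois K H₃]

/-- the product over a kernel, through the other projection -/
lemma prod_two [DecidableEq G] [DecidableEq G₁] [DecidableEq G₂] (p₂ : G₂ →* G) (π₁ : G₃ →* G₁)
    (π₂ : G₃ →* G₂) (hker : ∀ k, π₁ k = 1 → p₂ (π₂ k) = 1) (t : G₂ → G₃)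
    (ht : ∀ j, p₂ j = 1 → π₂ (t j) = j ∧ π₁ (t j) = 1) {M : Type} [CommMonoid M] (f : G₃ → M) :
    ∏ j ∈ Finset.univ.filter (fun j => p₂ j = 1), ∏ d ∈ Finset.univ.filter (fun d => π₁ d = 1 ∧ π₂ d = 1), f (t j * d) =
      ∏ k ∈ Finset.univ.filter (fun k => π₁ k = 1), f k := by
  rw [← Finset.prod_product']
  refine Finset.prod_bij' (fun x _ => t x.1 * x.2) (fun k _ => (π₂ k, (t (π₂ k))⁻¹ * k)) ?_ ?_ ?_ ?_ ?_
  · rintro ⟨j, d⟩ hx
    obtain ⟨h1, h2⟩ := Finset.mem_product.1 hx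
    have h3 := (Finset.mem_filter.1 h1).2
    have h4 := (Finset.mem_filter.1 h2).2
    refine Finset.mem_filter.2 ⟨Finset.mem_univ _, ?_⟩
    show π₁ (t j * d) = 1
    rw [map_mul, (ht j h3).2, h4.1, one_mul]
  · intro k hk
    have h1 := (Finset.mem_filter.1 hk).2
    have h2 := ht _ (hker k h1)
    refine Finset.mem_product.2 ⟨Finset.mem_filter.2 ⟨Finset.mem_univ _, hker k h1⟩,
      Finset.mem_filter.2 ⟨Finset.mem_univ _, ?_, ?_⟩⟩
    · show π₁ ((t (π₂ k))⁻¹ * k) = 1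
      rw [map_mul, map_inv, h2.2, h1, inv_one, one_mul]
    · show π₂ ((t (π₂ k))⁻¹ * k) = 1
      rw [map_mul, map_inv, h2.1, inv_mul_cancel]
  · rintro ⟨j, d⟩ hx
    obtain ⟨h1, h2⟩ := Finset.mem_product.1 hx
    have h3 := (Finset.mem_filter.1 h1).2
    have h4 := (Finset.mem_filter.1 h2).2
    have h5 : π₂ (t j * d) = j := by
      have h6 : π₂ d = 1 := h4.2
      rw [map_mul, (ht j h3).1, h6, mul_one]
    show (π₂ (t j * d), (t (π₂ (t j * d)))⁻¹ * (t j * d)) = (j, d)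
    rw [h5, inv_mul_cancel_left]
  · intro k _
    show t (π₂ k) * ((t (π₂ k))⁻¹ * k) = k
    rw [mul_inv_cancel_left]
  · intro x _
    rfl

/-- **the two norms of the half norms of the upper field agree** -/
theorem two_norms [DecidableEq G] [DecidableEq G₁] [DecidableEq G₂] (art₁ : G₁ ≃* Gal(H₁/K)) (art₂ : G₂ ≃* Gal(H₂/K))
    (art₃ : G₃ ≃* Gal(H₃/K)) (i₁ : H₁ →ₐ[K] H₃) (i₂ : H₂ →ₐ[K] H₃) {p₁ : G₁ →* G} {p₂ : G₂ →* G} {π₁ : G₃ →* G₁}
    {π₂ : G₃ →* G₂} (hp : ∀ k, p₁ (π₁ k) = p₂ (π₂ k)) (hc₁ : ∀ g x, art₃ g (i₁ x) = i₁ (art₁ (π₁ g) x))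
    (hc₂ : ∀ g x, art₃ g (i₂ x) = i₂ (art₂ (π₂ g) x)) (hfib : ∀ g₁ g₂, p₁ g₁ = p₂ g₂ → ∃ g, π₁ g = g₁ ∧ π₂ g = g₂)
    (he₁ : Even (Finset.univ.filter (fun κ => p₁ κ = 1)).card)
    (he₂ : Even (Finset.univ.filter (fun κ => p₂ κ = 1)).card) {u : H₃} {M : Type} [Field M]
    [NumberField M] [Algebra H₃ M] [Algebra K M] [IsScalarTower K H₃ M] [IsGalois K M]
    (hcomm : ∀ a b : Gal(M/K), a * b = b * a) {α : M} (hα : α ^ 2 = algebraMap H₃ M u) {a₁ : H₁} {a₂ : H₂}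
    (ha₁ : (i₁ a₁) ^ 2 = nrm art₃ π₁ u) (ha₂ : (i₂ a₂) ^ 2 = nrm art₃ π₂ u) :
    i₁ (nrm art₁ p₁ a₁) = i₂ (nrm art₂ p₂ a₂) := by
  classical
  choose s hs using fun A => lift_exists art₃ (M := M) A
  have h1 : ∀ i : G₁, ∃ t, p₁ i = 1 → π₁ t = i ∧ π₂ t = 1 := by
    intro i
    by_cases hi : p₁ i = 1
    · obtain ⟨t, ht⟩ := hfib i 1 (by rw [hi, map_one])
      exact ⟨t, fun _ => ht⟩
    · exact ⟨1, fun h => absurd h hi⟩
  have h2 : ∀ j : G₂, ∃ t, p₂ j = 1 → π₂ t = j ∧ π₁ t = 1 := by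
    intro j
    by_cases hj : p₂ j = 1
    · obtain ⟨t, ht1, ht2⟩ := hfib 1 j (by rw [hj, map_one])
      exact ⟨t, fun _ => ⟨ht2, ht1⟩⟩
    · exact ⟨1, fun h => absurd h hj⟩
  choose t₂ ht₂ using h1
  choose t₁ ht₁ using h2
  set δ : M := ∏ d ∈ Finset.univ.filter (fun d => π₁ d = 1 ∧ π₂ d = 1), s d α with hδ
  have hδ2 : δ ^ 2 = algebraMap H₃ M (∏ d ∈ Finset.univ.filter (fun d => π₁ d = 1 ∧ π₂ d = 1), art₃ d u) := by
    rw [hδ, ← Finset.prod_pow, map_prod]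
    refine Finset.prod_congr rfl fun d _ => ?_
    rw [← map_pow, hα, hs]
  have hsδ : ∀ r, (s r δ) ^ 2 = algebraMap H₃ M
      (∏ d ∈ Finset.univ.filter (fun d => π₁ d = 1 ∧ π₂ d = 1), art₃ (r * d) u) := by
    intro r
    rw [← map_pow, hδ2, hs, map_prod]
    congr 1
    refine Finset.prod_congr rfl fun d _ => ?_
    rw [map_mul]
    rfl
  have hA₁ : (∏ j ∈ Finset.univ.filter (fun j => p₂ j = 1), s (t₁ j) δ) ^ 2 = (algebraMap H₃ M (i₁ a₁)) ^ 2 := by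
    rw [← Finset.prod_pow, Finset.prod_congr rfl fun j _ => hsδ (t₁ j), ← map_prod,
      prod_two p₂ π₁ π₂ (fun k hk => by rw [← hp, hk, map_one]) t₁ ht₁ (fun k => art₃ k u), ← map_pow, ha₁]
    rfl
  have hA₂ : (∏ i ∈ Finset.univ.filter (fun i => p₁ i = 1), s (t₂ i) δ) ^ 2 = (algebraMap H₃ M (i₂ a₂)) ^ 2 := by
    have h3 := prod_two p₁ π₂ π₁ (fun k hk => by rw [hp, hk, map_one]) t₂ ht₂ (fun k => art₃ k u)
    have h4 : Finset.univ.filter (fun d => π₂ d = 1 ∧ π₁ d = 1) = Finset.univ.filter (fun d => π₁ d = 1 ∧ π₂ d = 1) :=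
      Finset.filter_congr fun d _ => and_comm
    rw [h4] at h3
    rw [← Finset.prod_pow, Finset.prod_congr rfl fun j _ => hsδ (t₂ j), ← map_prod, h3, ← map_pow, ha₂]
    rfl
  obtain ⟨e₁, he₁', hA₁'⟩ := pm_of_sq hA₁.symm
  obtain ⟨e₂, he₂', hA₂'⟩ := pm_of_sq hA₂.symm
  apply (algebraMap H₃ M).injective
  have hn₁ : algebraMap H₃ M (i₁ (nrm art₁ p₁ a₁)) = ∏ i ∈ Finset.univ.filter (fun i => p₁ i = 1),
      ∏ j ∈ Finset.univ.filter (fun j => p₂ j = 1), s (t₂ i) (s (t₁ j) δ) := by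
    rw [nrm, map_prod, map_prod]
    have h3 : ∀ i ∈ Finset.univ.filter (fun i => p₁ i = 1), algebraMap H₃ M (i₁ (art₁ i a₁)) =
        e₁ * ∏ j ∈ Finset.univ.filter (fun j => p₂ j = 1), s (t₂ i) (s (t₁ j) δ) := by
      intro i hi
      have h4 := ht₂ i (Finset.mem_filter.1 hi).2
      rw [← map_prod, ← pm_fix (s (t₂ i)) he₁', ← map_mul, ← hA₁', hs, hc₁, h4.1]
    rw [Finset.prod_congr rfl h3, Finset.prod_mul_distrib, Finset.prod_const, pm_even he₁' he₁, one_mul]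
  have hn₂ : algebraMap H₃ M (i₂ (nrm art₂ p₂ a₂)) = ∏ j ∈ Finset.univ.filter (fun j => p₂ j = 1),
      ∏ i ∈ Finset.univ.filter (fun i => p₁ i = 1), s (t₁ j) (s (t₂ i) δ) := by
    rw [nrm, map_prod, map_prod]
    have h3 : ∀ j ∈ Finset.univ.filter (fun j => p₂ j = 1), algebraMap H₃ M (i₂ (art₂ j a₂)) =
        e₂ * ∏ i ∈ Finset.univ.filter (fun i => p₁ i = 1), s (t₁ j) (s (t₂ i) δ) := by
      intro j hj
      have h4 := ht₁ j (Finset.mem_filter.1 hj).2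
      rw [← map_prod, ← pm_fix (s (t₁ j)) he₂', ← map_mul, ← hA₂', hs, hc₂, h4.1]
    rw [Finset.prod_congr rfl h3, Finset.prod_mul_distrib, Finset.prod_const, pm_even he₂' he₂, one_mul]
  rw [hn₁, hn₂, Finset.prod_comm]
  refine Finset.prod_congr rfl fun j _ => Finset.prod_congr rfl fun i _ => ?_
  exact congrArg (fun f : Gal(M/K) => f δ) (hcomm (s (t₂ i)) (s (t₁ j)))

/-- a square root of an element of `H` in two extensions -/
theorem root_down {H : Type} [Field H] [NumberField H] [Algebra K H] [IsGalois K H] [Algebra H H₁]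
    [IsScalarTower K H H₁] [Algebra H H₂] [IsScalarTower K H H₂] (art : G ≃* Gal(H/K)) (art₁ : G₁ ≃* Gal(H₁/K))
    (art₂ : G₂ ≃* Gal(H₂/K)) (art₃ : G₃ ≃* Gal(H₃/K)) (i₁ : H₁ →ₐ[K] H₃) (i₂ : H₂ →ₐ[K] H₃) {p₁ : G₁ →* G}
    {p₂ : G₂ →* G} {π₁ : G₃ →* G₁} {π₂ : G₃ →* G₂}
    (hcp₁ : ∀ (g : G₁) (x : H), art₁ g (algebraMap H H₁ x) = algebraMap H H₁ (art (p₁ g) x))
    (hc₁ : ∀ g x, art₃ g (i₁ x) = i₁ (art₁ (π₁ g) x))
    (hc₂ : ∀ g x, art₃ g (i₂ x) = i₂ (art₂ (π₂ g) x)) (hfib : ∀ g₁ g₂, p₁ g₁ = p₂ g₂ → ∃ g, π₁ g = g₁ ∧ π₂ g = g₂)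
    (hi : ∀ x : H, i₁ (algebraMap H H₁ x) = i₂ (algebraMap H H₂ x)) {w : H} {b₁ : H₁} {b₂ : H₂}
    (hb₁ : b₁ ^ 2 = algebraMap H H₁ w) (hb₂ : b₂ ^ 2 = algebraMap H H₂ w) :
    ∃ b : H, algebraMap H H₁ b = b₁ := by
  refine mem_of_fixed art art₁ p₁ hcp₁ fun κ hκ => ?_
  obtain ⟨t, ht1, ht2⟩ := hfib κ 1 (by rw [hκ, map_one])
  obtain ⟨e, he, hee⟩ : ∃ e : H₃, (e = 1 ∨ e = -1) ∧ i₁ b₁ = e * i₂ b₂ := by
    refine pm_of_sq ?_
    rw [← map_pow, ← map_pow, hb₁, hb₂, hi]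
  apply i₁.toRingHom.injective
  show i₁ (art₁ κ b₁) = i₁ b₁
  rw [← ht1, ← hc₁, hee, map_mul, pm_fix (art₃ t) he, hc₂, ht2, map_one]
  rfl

end square

end Pool.Agent.X287.ST
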