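import Mathlib

/-!
# Polynomials whose roots are the powers of the roots of a given polynomial; roots on the unit circle
-/

set_option autoImplicit false
set_option linter.unusedSectionVars false

open Polynomial

namespace Pool.Agent.X287.ST

/-- the polynomial of the `n`-th powers of the roots -/
theorem powpoly {A : Type*} [CommRing A] (Q : A[X]) (hQ : Q.Monic) (n : ℕ) : ∃ Qn : A[X],
    ∀ (f : A →+* ℂ) (ι : Type) [Fintype ι] (y : ι → ℂ), Q.map f = ∏ i, (X - C (y i)) →
      Qn.map f = ∏ i, (X - C (y i ^ n)) := by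
  refine ⟨resultant (Q.map C) (C X - X ^ n) Q.natDegree n, fun f ι _ y hy => ?_⟩
  have h1 : (resultant (Q.map C) (C X - X ^ n) Q.natDegree n).map f =
      resultant ((Q.map C).map (mapRingHom f)) ((C X - X ^ n : A[X][X]).map (mapRingHom f))
        Q.natDegree n := by
    rw [resultant_map_map]
    rfl
  have h2 : (Q.map C).map (mapRingHom f) = ∏ i, (X - C (C (y i)) : ℂ[X][X]) := by
    rw [Polynomial.map_map]
    have e1 : (mapRingHom f).comp C = (C : ℂ →+* ℂ[X]).comp f := by
      ext a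
      simp
    rw [e1, ← Polynomial.map_map, hy, Polynomial.map_prod]
    simp
  have h3 : (C X - X ^ n : A[X][X]).map (mapRingHom f) = C X - X ^ n := by
    simp
  have hdeg : Q.natDegree = (∏ i, (X - C (C (y i)) : ℂ[X][X])).natDegree := by
    have h4 : (Q.map f).natDegree = Q.natDegree := hQ.natDegree_map f
    rw [← h4, hy, natDegree_prod_of_monic _ _ fun i _ => monic_X_sub_C _,
      natDegree_prod_of_monic _ _ fun i _ => monic_X_sub_C _]
    simp
  have hg : (C X - X ^ n : ℂ[X][X]).natDegree ≤ n := by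
    refine (natDegree_sub_le _ _).trans ?_
    rw [natDegree_C, natDegree_X_pow]
    simp
  rw [h1, h2, h3, hdeg, resultant_prod_left]
  · refine Finset.prod_congr rfl fun i _ => ?_
    rw [natDegree_X_sub_C, resultant_X_sub_C_left _ _ _ hg]
    simp
  · simp
  · exact hg

/-- coefficients of a polynomial with roots in the unit disc -/
lemma coeff_bound {ι : Type} [Fintype ι] (y : ι → ℂ) (hy : ∀ i, ‖y i‖ ≤ 1) (j : ℕ) :
    ‖(∏ i, (X - C (y i))).coeff j‖ ≤ (Fintype.card ι).choose j := by
  have hm : (∏ i, (X - C (y i))).Monic := monic_prod_of_monic _ _ fun i _ => monic_X_sub_C _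
  have hd : (∏ i, (X - C (y i))).natDegree = Fintype.card ι := by
    rw [natDegree_prod_of_monic _ _ fun i _ => monic_X_sub_C _]
    simp
  have h1 := coeff_le_of_roots_le (p := ∏ i, (X - C (y i))) (f := RingHom.id ℂ) (B := 1) j hm
    (IsAlgClosed.splits _) (fun z hz => by
      rw [Polynomial.map_id] at hz
      have hz2 := isRoot_of_mem_roots hz
      rw [IsRoot, eval_prod, Finset.prod_eq_zero_iff] at hz2
      obtain ⟨i, -, hi⟩ := hz2
      rw [eval_sub, eval_X, eval_C, sub_eq_zero] at hi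
      rw [hi]
      exact hy i)
  rw [Polynomial.map_id, hd, one_pow, one_mul] at h1
  exact h1

/-- roots of a monic polynomial with bounded coefficients -/
lemma root_bound {ι : Type} [Fintype ι] (y : ι → ℂ) {M : ℝ} (hM : 0 ≤ M)
    (h : ∀ j, ‖(∏ i, (X - C (y i))).coeff j‖ ≤ M) (i : ι) : ‖y i‖ ≤ M + 1 := by
  set p := ∏ i, (X - C (y i)) with hp
  have hm : p.Monic := monic_prod_of_monic _ _ fun i _ => monic_X_sub_C _
  have hroot : p.IsRoot (y i) := by
    rw [IsRoot, hp, eval_prod]
    exact Finset.prod_eq_zero (Finset.mem_univ i) (by simp)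
  have h1 := IsRoot.norm_lt_cauchyBound hm.ne_zero hroot
  have h2 : (cauchyBound p : ℝ) ≤ M + 1 := by
    unfold cauchyBound
    rw [hm.leadingCoeff, nnnorm_one, div_one]
    have h3 : (Finset.range p.natDegree).sup (fun i => ‖p.coeff i‖₊) ≤ (⟨M, hM⟩ : NNReal) := by
      refine Finset.sup_le fun j _ => ?_
      exact_mod_cast h j
    push_cast
    have h4 : (((Finset.range p.natDegree).sup (fun i => ‖p.coeff i‖₊) : NNReal) : ℝ) ≤ M := by
      exact_mod_cast h3
    linarith
  have h3 : ‖y i‖ < (cauchyBound p : ℝ) := by exact_mod_cast h1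
  linarith

/-- powers bounded -/
lemma le_one_of_pow {x M : ℝ} (hx : 0 ≤ x) (h : ∀ n : ℕ, 1 ≤ n → x ^ n ≤ M) : x ≤ 1 := by
  by_contra hcon
  push Not at hcon
  obtain ⟨n, hn⟩ := (tendsto_pow_atTop_atTop_of_one_lt hcon).eventually_gt_atTop M |>.exists_forall_of_atTop
  have h1 := hn (max n 1) (le_max_left _ _)
  have h2 := h (max n 1) (le_max_right _ _)
  linarith

/-- the roots of a monic polynomial over `ℂ` as a family -/
lemma exists_family (p : ℂ[X]) (hp : p.Monic) : ∃ (n : ℕ) (y : Fin n → ℂ), p = ∏ i, (X - C (y i)) := by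
  have h1 := (IsAlgClosed.splits p).eq_prod_roots_of_monic hp
  obtain ⟨l, hl⟩ : ∃ l : List ℂ, (l : Multiset ℂ) = p.roots := ⟨p.roots.toList, Multiset.coe_toList _⟩
  refine ⟨l.length, fun i => l.get i, ?_⟩
  rw [h1, ← hl, Multiset.map_coe, Multiset.prod_coe]
  have h2 : (List.ofFn fun i : Fin l.length => (X - C (l.get i))) = l.map fun a => X - C a := by
    have h3 := List.map_ofFn (f := l.get) (g := fun a : ℂ => (X - C a : ℂ[X]))
    rw [List.ofFn_get] at h3
    exact h3.symm
  rw [← h2, List.prod_ofFn]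

/-- **the criterion**: the numbers `x i` are the roots of a monic polynomial over `A` whose image under `f₂` has all its
roots on the unit circle -/
theorem circle_iff2 {A : Type*} [CommRing A] [Nontrivial A] (f₁ f₂ : A →+* ℂ) (h₁ : Function.Injective f₁) {ι : Type}
    [Fintype ι] (x : ι → ℂ) (hx : (∏ i, x i) ^ 2 = 1) :
    (∃ Q : A[X], Q.Monic ∧ Q.map f₁ = ∏ i, (X - C (x i)) ∧ ∀ y : ℂ, (Q.map f₂).eval y = 0 → ‖y‖ = 1) ↔
      ∀ n : ℕ, 1 ≤ n → ∀ j ≤ Fintype.card ι, ∃ a : A, ‖f₂ a‖ ≤ (Fintype.card ι).choose j ∧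
        f₁ a = (∏ i, (X - C (x i ^ n))).coeff j := by
  classical
  have hdeg : ∀ n : ℕ, (∏ i, (X - C (x i ^ n))).natDegree = Fintype.card ι := by
    intro n
    rw [natDegree_prod_of_monic _ _ fun i _ => monic_X_sub_C _]
    simp only [natDegree_X_sub_C, Finset.sum_const, Finset.card_univ, smul_eq_mul, mul_one]
  constructor
  · rintro ⟨Q, hQ, hQ1, hQ2⟩ n hn j hj
    obtain ⟨Qn, hQn⟩ := powpoly Q hQ n
    obtain ⟨m, y, hy⟩ := exists_family (Q.map f₂) (hQ.map f₂)
    have hy1 : ∀ i, ‖y i‖ = 1 := by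
      intro i
      apply hQ2
      rw [hy, eval_prod]
      exact Finset.prod_eq_zero (Finset.mem_univ i) (by simp)
    have hm : m = Fintype.card ι := by
      have h1 : (Q.map f₂).natDegree = Q.natDegree := hQ.natDegree_map f₂
      have h2 : (Q.map f₁).natDegree = Q.natDegree := hQ.natDegree_map f₁
      rw [hy, natDegree_prod_of_monic _ _ fun i _ => monic_X_sub_C _] at h1
      rw [hQ1, natDegree_prod_of_monic _ _ fun i _ => monic_X_sub_C _] at h2
      simp at h1 h2
      omega
    refine ⟨Qn.coeff j, ?_, ?_⟩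
    · have h3 := hQn f₂ (Fin m) y hy
      have h4 : f₂ (Qn.coeff j) = (∏ i, (X - C (y i ^ n))).coeff j := by
        rw [← h3, coeff_map]
      rw [h4]
      have h5 := coeff_bound (fun i => y i ^ n) (fun i => by rw [norm_pow, hy1, one_pow]) j
      rw [Fintype.card_fin] at h5
      refine h5.trans (le_of_eq ?_)
      rw [hm]
    · have h3 := hQn f₁ ι x hQ1
      rw [← h3, coeff_map]
  · intro h
    choose! a ha1 ha2 using h
    set N := Fintype.card ι with hN
    -- the polynomials
    set q : ℕ → A[X] := fun n => X ^ N + ∑ j ∈ Finset.range N, C (a n j) * X ^ j with hq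
    have hqm : ∀ n, (q n).Monic := by
      intro n
      refine monic_X_pow_add ?_
      refine (degree_sum_le _ _).trans_lt ?_
      refine (Finset.sup_lt_iff (by exact WithBot.bot_lt_coe N)).2 fun j hj => ?_
      refine (degree_C_mul_X_pow_le j (a n j)).trans_lt ?_
      exact_mod_cast Finset.mem_range.1 hj
    have hqc : ∀ (n : ℕ), ∀ j < N, (q n).coeff j = a n j := by
      intro n j hj
      rw [hq]
      simp only [coeff_add, coeff_X_pow, finsetSum_coeff, coeff_C_mul]
      rw [if_neg (by omega), zero_add, Finset.sum_eq_single j]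
      · simp
      · intro b _ hb
        rw [if_neg (Ne.symm hb), mul_zero]
      · intro hj'
        exact absurd (Finset.mem_range.2 hj) hj'
    have hqd : ∀ n, (q n).natDegree = N := by
      intro n
      rw [hq]
      simp only
      rw [natDegree_add_eq_left_of_degree_lt, natDegree_X_pow]
      rw [degree_X_pow]
      refine (degree_sum_le _ _).trans_lt ?_
      refine (Finset.sup_lt_iff (by exact WithBot.bot_lt_coe N)).2 fun j hj => ?_
      refine (degree_C_mul_X_pow_le j (a n j)).trans_lt ?_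
      exact_mod_cast Finset.mem_range.1 hj
    have hq1 : ∀ n, 1 ≤ n → (q n).map f₁ = ∏ i, (X - C (x i ^ n)) := by
      intro n hn
      ext j
      rw [coeff_map]
      rcases lt_trichotomy j N with hj | hj | hj
      · rw [hqc n j hj, ha2 n hn j hj.le]
      · have h1 : (q n).coeff j = 1 := by
          rw [hj, ← hqd n]
          exact (hqm n).coeff_natDegree
        have h2 : (∏ i, (X - C (x i ^ n))).coeff j = 1 := by
          rw [hj, ← hdeg n]
          exact (monic_prod_of_monic _ _ fun i _ => monic_X_sub_C _ : (∏ i, (X - C (x i ^ n))).Monic).coeff_natDegree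
        rw [h1, h2, map_one]
      · rw [coeff_eq_zero_of_natDegree_lt (by rw [hqd n]; exact hj), map_zero,
          coeff_eq_zero_of_natDegree_lt (by rw [hdeg n]; exact hj)]
    have hQ1 : (q 1).map f₁ = ∏ i, (X - C (x i)) := by
      have := hq1 1 le_rfl
      simpa using this
    refine ⟨q 1, hqm 1, hQ1, fun z hz => ?_⟩
    obtain ⟨m, y, hy⟩ := exists_family ((q 1).map f₂) ((hqm 1).map f₂)
    have hm : m = N := by
      have h1 : ((q 1).map f₂).natDegree = (q 1).natDegree := (hqm 1).natDegree_map f₂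
      rw [hy, natDegree_prod_of_monic _ _ fun i _ => monic_X_sub_C _, hqd 1] at h1
      simpa using h1
    have hle : ∀ i, ‖y i‖ ≤ 1 := by
      intro i
      refine le_one_of_pow (M := (2 : ℝ) ^ N + 1) (norm_nonneg _) fun n hn => ?_
      obtain ⟨Qn, hQn⟩ := powpoly (q 1) (hqm 1) n
      have h3 := hQn f₁ ι x hQ1
      have h4 : Qn = q n := by
        apply Polynomial.map_injective f₁ h₁
        rw [h3, hq1 n hn]
      have h5 := hQn f₂ (Fin m) y hy
      rw [h4] at h5
      rw [← norm_pow]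
      refine root_bound (fun i => y i ^ n) (by positivity) (fun j => ?_) i
      rw [← h5, coeff_map]
      rcases lt_trichotomy j N with hj | hj | hj
      · rw [hqc n j hj]
        refine (ha1 n hn j hj.le).trans ?_
        have : N.choose j ≤ 2 ^ N := Nat.choose_le_two_pow N j
        exact_mod_cast this
      · have h6 : (q n).coeff j = 1 := by
          rw [hj, ← hqd n]
          exact (hqm n).coeff_natDegree
        rw [h6, map_one, norm_one]
        exact one_le_pow₀ (by norm_num)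
      · rw [coeff_eq_zero_of_natDegree_lt (by rw [hqd n]; exact hj), map_zero, norm_zero]
        positivity
    -- the constant coefficient
    have hc1 : (q 1).coeff 0 ^ 2 = 1 := by
      apply h₁
      rw [map_pow, ← coeff_map, hQ1, coeff_zero_eq_eval_zero, eval_prod]
      simp only [eval_sub, eval_X, eval_C, zero_sub]
      rw [Finset.prod_neg, mul_pow, hx, mul_one, ← pow_mul, mul_comm, pow_mul, neg_one_sq, one_pow,
        map_one]
    have hc2 : ∏ i, ‖y i‖ = 1 := by
      have h6 : ((q 1).map f₂).coeff 0 ^ 2 = 1 := by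
        rw [coeff_map, ← map_pow, hc1, map_one]
      rw [hy, coeff_zero_eq_eval_zero, eval_prod] at h6
      simp only [eval_sub, eval_X, eval_C, zero_sub] at h6
      have h7 := congrArg norm h6
      rw [norm_pow, norm_prod, norm_one] at h7
      simp only [norm_neg] at h7
      have h8 : 0 ≤ ∏ i, ‖y i‖ := Finset.prod_nonneg fun _ _ => norm_nonneg _
      exact (pow_eq_one_iff_of_nonneg h8 two_ne_zero).1 h7
    rw [hy, eval_prod, Finset.prod_eq_zero_iff] at hz
    obtain ⟨i, -, hi⟩ := hz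
    rw [eval_sub, eval_X, eval_C, sub_eq_zero] at hi
    rw [hi]
    by_contra hne
    have hlt : ‖y i‖ < 1 := lt_of_le_of_ne (hle i) hne
    have h8 : ∏ i, ‖y i‖ < 1 := by
      rw [← Finset.mul_prod_erase Finset.univ (fun i => ‖y i‖) (Finset.mem_univ i)]
      have h9 : ∏ j ∈ Finset.univ.erase i, ‖y j‖ ≤ 1 :=
        Finset.prod_le_one (fun _ _ => norm_nonneg _) fun j _ => hle j
      have h10 : 0 ≤ ∏ j ∈ Finset.univ.erase i, ‖y j‖ := Finset.prod_nonneg fun _ _ => norm_nonneg _
      calc ‖y i‖ * ∏ j ∈ Finset.univ.erase i, ‖y j‖ ≤ ‖y i‖ * 1 := by gcongr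
        _ < 1 := by linarith
    rw [hc2] at h8
    exact lt_irrefl _ h8

/-- the case of product `1` -/
theorem circle_iff {A : Type*} [CommRing A] [Nontrivial A] (f₁ f₂ : A →+* ℂ) (h₁ : Function.Injective f₁) {ι : Type}
    [Fintype ι] (x : ι → ℂ) (hx : ∏ i, x i = 1) :
    (∃ Q : A[X], Q.Monic ∧ Q.map f₁ = ∏ i, (X - C (x i)) ∧ ∀ y : ℂ, (Q.map f₂).eval y = 0 → ‖y‖ = 1) ↔
      ∀ n : ℕ, 1 ≤ n → ∀ j ≤ Fintype.card ι, ∃ a : A, ‖f₂ a‖ ≤ (Fintype.card ι).choose j ∧
        f₁ a = (∏ i, (X - C (x i ^ n))).coeff j :=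
  circle_iff2 f₁ f₂ h₁ x (by rw [hx, one_pow])

/-- the image of a locally finite set is closed -/
lemma closed_of_finite {A : Type*} (f₁ : A → ℂ) (S : Set A) (hS : ∀ M : ℝ, {a ∈ S | ‖f₁ a‖ ≤ M}.Finite) {E : ℂ}
    (h : ∀ δ : ℝ, 0 < δ → ∃ a ∈ S, ‖E - f₁ a‖ < δ) : ∃ a ∈ S, f₁ a = E := by
  have hfin := hS (‖E‖ + 1)
  have hcl : IsClosed (f₁ '' {a ∈ S | ‖f₁ a‖ ≤ ‖E‖ + 1}) := (hfin.image f₁).isClosed
  have hmem : E ∈ closure (f₁ '' {a ∈ S | ‖f₁ a‖ ≤ ‖E‖ + 1}) := by
    rw [Metric.mem_closure_iff]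
    intro δ hδ
    obtain ⟨a, ha, h1⟩ := h (min δ 1) (lt_min hδ one_pos)
    refine ⟨f₁ a, ⟨a, ⟨ha, ?_⟩, rfl⟩, ?_⟩
    · have h2 : ‖f₁ a‖ ≤ ‖E‖ + ‖E - f₁ a‖ := by
        calc ‖f₁ a‖ = ‖E - (E - f₁ a)‖ := by congr 1; ring
          _ ≤ _ := norm_sub_le _ _
      have := h1.le.trans (min_le_right _ _)
      linarith
    · rw [dist_eq_norm]
      exact h1.trans_le (min_le_left _ _)
  rw [hcl.closure_eq] at hmem
  obtain ⟨a, ⟨ha, -⟩, ha2⟩ := hmem
  exact ⟨a, ha, ha2⟩

end Pool.Agent.X287.ST
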