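import Pool.Agent.X287.ST8
import Pool.Agent.X287.STP

/-!
# Coefficients of polynomials with converging roots; integers of real quadratic fields; descent of polynomials
-/

set_option autoImplicit false
set_option linter.unusedSectionVars false

open NumberField Polynomial Filter Topology Asymptotics

namespace Pool.Agent.X287.ST

/-- coefficients of polynomials with converging roots -/
theorem coeff_rate {ι : Type} (s : Finset ι) (u : ℝ → ι → ℂ) (x : ι → ℂ)
    (h : ∀ i, (fun T : ℝ => u T i - x i) =O[atTop] (fun T : ℝ => 1 / T)) (j : ℕ) :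
    (fun T : ℝ => (∏ i ∈ s, (X - C (u T i))).coeff j - (∏ i ∈ s, (X - C (x i))).coeff j) =O[atTop]
      (fun T : ℝ => 1 / T) := by
  classical
  have hone : (fun T : ℝ => 1 / T) =O[atTop] (fun _ : ℝ => (1 : ℝ)) := by
    refine IsBigO.of_bound 1 ?_
    filter_upwards [eventually_ge_atTop 1] with T hT
    rw [norm_one, mul_one, Real.norm_eq_abs, abs_of_nonneg (by positivity)]
    exact (div_le_one (by linarith)).2 hT
  induction s using Finset.induction_on generalizing j with
  | empty =>
    simp only [Finset.prod_empty, sub_self]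
    exact isBigO_zero _ _
  | insert i s hi ih =>
    -- the product with one more factor
    have hprod : ∀ k, (fun T : ℝ => (∏ i ∈ s, (X - C (u T i))).coeff k * u T i -
        (∏ i ∈ s, (X - C (x i))).coeff k * x i) =O[atTop] (fun T : ℝ => 1 / T) := by
      intro k
      have h1 : (fun T : ℝ => (∏ i ∈ s, (X - C (u T i))).coeff k) =O[atTop] (fun _ : ℝ => (1 : ℝ)) := by
        have h2 := ((ih k).trans hone).add
          (isBigO_const_const ((∏ i ∈ s, (X - C (x i))).coeff k) (one_ne_zero (α := ℝ)) atTop)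
        refine h2.congr_left fun T => ?_
        ring
      have h2 := h1.mul (h i)
      simp only [one_mul] at h2
      have h3 := (ih k).const_mul_left (x i)
      refine (h2.add h3).congr_left fun T => ?_
      ring
    have e : ∀ (v : ι → ℂ), ∏ i ∈ insert i s, (X - C (v i)) = (∏ i ∈ s, (X - C (v i))) * (X - C (v i)) :=
      fun v => by rw [Finset.prod_insert hi, mul_comm]
    simp only [e]
    cases j with
    | zero =>
      simp only [mul_coeff_zero, coeff_sub, coeff_X_zero, coeff_C_zero, zero_sub]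
      refine (hprod 0).neg_left.congr_left fun T => ?_
      ring
    | succ k =>
      simp only [coeff_mul_X_sub_C]
      refine ((ih k).sub (hprod (k + 1))).congr_left fun T => ?_
      ring

/-- a differentiable function along a converging family -/
theorem comp_rate {f : ℂ → ℂ} {b : ℂ} (hf : DifferentiableAt ℂ f b) {u : ℝ → ℂ}
    (h : (fun T : ℝ => u T - b) =O[atTop] (fun T : ℝ => 1 / T)) :
    (fun T : ℝ => f (u T) - f b) =O[atTop] (fun T : ℝ => 1 / T) := by
  have h0T : Tendsto (fun T : ℝ => 1 / T) atTop (𝓝 (0 : ℝ)) :=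
    tendsto_const_nhds.div_atTop tendsto_id
  have h1 : Tendsto u atTop (𝓝 b) := by
    have h2 := (h.trans_tendsto h0T).add_const b
    rw [zero_add] at h2
    exact h2.congr fun T => by ring
  exact (hf.hasDerivAt.isBigO_sub.comp_tendsto h1).trans h

section quad
variable {K : Type} [Field K] [NumberField K]

/-- the homomorphism from the integers to `ℂ` -/
noncomputable def toC (σ : K →+* ℝ) : 𝓞 K →+* ℂ := (Complex.ofRealHom.comp σ).comp (algebraMap (𝓞 K) K)

lemma toC_inj (σ : K →+* ℝ) : Function.Injective (toC σ) := by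
  intro a b h
  have h1 : ((σ (a : K) : ℝ) : ℂ) = ((σ (b : K) : ℝ) : ℂ) := h
  exact RingOfIntegers.coe_injective (σ.injective (by exact_mod_cast h1))

lemma norm_toC (σ : K →+* ℝ) (a : 𝓞 K) : ‖toC σ a‖ = |σ (a : K)| := by
  have h1 : toC σ a = ((σ (a : K) : ℝ) : ℂ) := rfl
  rw [h1, Complex.norm_real, Real.norm_eq_abs]

/-- integers of a real quadratic field -/
theorem quad_finite (hK : Module.finrank ℚ K = 2) {σ₁ σ₂ : K →+* ℝ} (hσ : σ₁ ≠ σ₂) (B M : ℝ) :
    {a ∈ {a : 𝓞 K | |σ₂ (a : K)| ≤ B} | ‖toC σ₁ a‖ ≤ M}.Finite := by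
  classical
  have huniv : ({emb σ₁, emb σ₂} : Finset (K →+* ℂ)) = Finset.univ := by
    refine Finset.eq_univ_of_card _ ?_
    rw [NumberField.Embeddings.card K ℂ, hK, Finset.card_pair (fun h => hσ (emb_inj h))]
  have hfin := NumberField.Embeddings.finite_of_norm_le K ℂ (max B M)
  refine (hfin.preimage (f := fun a : 𝓞 K => (a : K)) RingOfIntegers.coe_injective.injOn).subset ?_
  rintro a ⟨ha1, ha2⟩
  refine ⟨a.isIntegral_coe, fun φ => ?_⟩
  have h1 : φ ∈ ({emb σ₁, emb σ₂} : Finset (K →+* ℂ)) := by rw [huniv]; exact Finset.mem_univ _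
  rw [Finset.mem_insert, Finset.mem_singleton] at h1
  rcases h1 with rfl | rfl
  · have h2 : ‖emb σ₁ (a : K)‖ = ‖toC σ₁ a‖ := rfl
    rw [h2]
    exact ha2.trans (le_max_right _ _)
  · have h2 : ‖emb σ₂ (a : K)‖ = |σ₂ (a : K)| := by
      rw [← norm_toC]
      rfl
    rw [h2]
    exact (show |σ₂ (a : K)| ≤ B from ha1).trans (le_max_left _ _)

end quad

section descent
variable {K H : Type} [Field K] [NumberField K] [Field H] [NumberField H] [Algebra K H] [IsGalois K H]

/-- an orbit of integers gives a polynomial over the ground field -/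
theorem descent {G : Type} [Group G] [Fintype G] (art : G ≃* Gal(H/K)) (ε : G → 𝓞 H)
    (hε : ∀ A B, art B (ε A : H) = (ε (A * B) : H)) : ∃ Q : (𝓞 K)[X], Q.Monic ∧
      Q.map ((algebraMap K H).comp (algebraMap (𝓞 K) K)) = ∏ A, (X - C (ε A : H)) := by
  classical
  set P : H[X] := ∏ A, (X - C (ε A : H)) with hP
  have hPm : P.Monic := monic_prod_of_monic _ _ fun i _ => monic_X_sub_C _
  -- the coefficients are integral
  have hint : ∀ j, IsIntegral ℤ (P.coeff j) := by
    intro j
    have h1 : P = (∏ A, (X - C (ε A) : (𝓞 H)[X])).map (algebraMap (𝓞 H) H) := by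
      rw [Polynomial.map_prod]
      simp [hP]
    rw [h1, coeff_map]
    exact ((∏ A, (X - C (ε A) : (𝓞 H)[X])).coeff j).isIntegral_coe
  -- they are invariant
  have hinv : ∀ (σ : Gal(H/K)) (j : ℕ), σ (P.coeff j) = P.coeff j := by
    intro σ j
    obtain ⟨B, rfl⟩ := art.surjective σ
    have h1 : P.map ((art B : H ≃ₐ[K] H) : H →+* H) = P := by
      rw [hP, Polynomial.map_prod]
      rw [← Equiv.prod_comp (Equiv.mulRight B) (fun A => (X - C (ε A : H)))]
      refine Finset.prod_congr rfl fun A _ => ?_
      rw [Polynomial.map_sub, Polynomial.map_X, Polynomial.map_C]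
      congr 2
      exact hε A B
    have h2 := congrArg (fun p : H[X] => p.coeff j) h1
    simp only [coeff_map] at h2
    exact h2
  have hex : ∀ j, ∃ a : 𝓞 K, algebraMap K H (a : K) = P.coeff j := by
    intro j
    have h1 := (IsGalois.mem_bot_iff_fixed (F := K) (E := H) (P.coeff j)).2 fun σ => hinv σ j
    obtain ⟨a, ha⟩ := IntermediateField.mem_bot.1 h1
    have h2 : IsIntegral ℤ a := by
      have h3 := hint j
      rw [← ha] at h3
      exact (isIntegral_algebraMap_iff (algebraMap K H).injective).1 h3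
    exact ⟨⟨a, h2⟩, ha⟩
  choose a ha using hex
  set N := P.natDegree with hN
  set Q : (𝓞 K)[X] := X ^ N + ∑ j ∈ Finset.range N, C (a j) * X ^ j with hQ
  have hQm : Q.Monic := by
    refine monic_X_pow_add ?_
    refine (degree_sum_le _ _).trans_lt ?_
    refine (Finset.sup_lt_iff (by exact WithBot.bot_lt_coe N)).2 fun j hj => ?_
    refine (degree_C_mul_X_pow_le j (a j)).trans_lt ?_
    exact_mod_cast Finset.mem_range.1 hj
  refine ⟨Q, hQm, ?_⟩
  have h1 : P = X ^ N + ∑ j ∈ Finset.range N, C (P.coeff j) * X ^ j := by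
    have h2 := P.as_sum_range_C_mul_X_pow
    rw [← hN, Finset.sum_range_succ] at h2
    have h3 : P.coeff N = 1 := hPm.coeff_natDegree
    rw [h3, C_1, one_mul, add_comm] at h2
    exact h2
  rw [h1, hQ]
  simp only [Polynomial.map_add, Polynomial.map_pow, Polynomial.map_X, Polynomial.map_sum,
    Polynomial.map_mul, Polynomial.map_C]
  congr 1
  refine Finset.sum_congr rfl fun j _ => ?_
  congr 2
  exact ha j

end descent

end Pool.Agent.X287.ST
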