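import Pool.Agent.X287.STN

/-!
# Abelian extensions by square roots, and the sign law over real quadratic fields
-/

set_option autoImplicit false
set_option linter.unusedSectionVars false

open NumberField Filter Topology Asymptotics
open IsDedekindDomain

namespace Pool.Agent.X287.ST

section sign
variable {K : Type} [Field K] [NumberField K] {G : Type} [CommGroup G] [Fintype G]

/-- **the sign law over a real quadratic field** -/
theorem quad_sign (hK : Module.finrank ℚ K = 2) {σ₁ σ₂ : K →+* ℝ}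
    (hσ : σ₁ ≠ σ₂) {𝔪 : Ideal (𝓞 K)} (h0 : 𝔪 ≠ ⊥) (h1 : 𝔪 ≠ ⊤)
    {c : Ideal (𝓞 K) → G} (hcR : IsClassMapR 𝔪 {σ₁} c) {Z : G → ℂ → ℂ} (hZ' : IsPZ 𝔪 c Z)
    {x : 𝓞 K} (hx0 : x ≠ 0) (hx1 : x - 1 ∈ 𝔪) (hx2 : σ₂ (x : K) < 0) :
    c (Ideal.span {x}) * c (Ideal.span {x}) = 1 ∧
      ∀ A, deriv (Z A) 0 + deriv (Z (A * c (Ideal.span {x}))) 0 = 0 := by
  classical
  have hall : ∀ σ : K →+* ℝ, σ = σ₁ ∨ σ = σ₂ := by
    intro σ
    by_contra hcon
    push Not at hcon
    have h2 : Fintype.card (K →+* ℂ) = 2 := by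
      rw [NumberField.Embeddings.card, hK]
    have h3 : (({Complex.ofRealHom.comp σ, Complex.ofRealHom.comp σ₁, Complex.ofRealHom.comp σ₂} :
        Finset (K →+* ℂ))).card = 3 := by
      have hinj : ∀ a b : K →+* ℝ, Complex.ofRealHom.comp a = Complex.ofRealHom.comp b → a = b := by
        intro a b hab
        ext z
        have := congrArg (fun f : K →+* ℂ => f z) hab
        simpa using this
      rw [Finset.card_eq_three]
      refine ⟨_, _, _, fun h => hcon.1 (hinj _ _ h), fun h => hcon.2 (hinj _ _ h), fun h => hσ (hinj _ _ h), rfl⟩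
    have h4 := Finset.card_le_univ (({Complex.ofRealHom.comp σ, Complex.ofRealHom.comp σ₁,
      Complex.ofRealHom.comp σ₂} : Finset (K →+* ℂ)))
    rw [h3, h2] at h4
    omega
  have hray : ∀ y : 𝓞 K, y ≠ 0 → y - 1 ∈ 𝔪 → 0 < σ₂ (y : K) → c (Ideal.span {y}) = 1 := by
    intro y hy0 hy1 hy2
    refine hcR.ray y hy0 hy1 fun σ hσ' => ?_
    rw [Finset.mem_singleton] at hσ'
    rcases hall σ with h | h
    · exact absurd h hσ'
    · rw [h]
      exact hy2
  have hr2 : 2 ≤ ({σ₁, σ₂} : Finset (K →+* ℝ)).card + InfinitePlace.nrComplexPlaces K := by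
    rw [Finset.card_pair hσ]
    omega
  set ρ : G := c (Ideal.span {x}) with hρ
  have hcop : ∀ y : 𝓞 K, y - 1 ∈ 𝔪 → IsCoprime (Ideal.span {y}) 𝔪 := fun y hy => cop_span hy
  have hmul1 : ∀ y : 𝓞 K, y - 1 ∈ 𝔪 → y * x - 1 ∈ 𝔪 := by
    intro y hy
    have e : y * x - 1 = x * (y - 1) + (x - 1) := by ring
    rw [e]
    exact 𝔪.add_mem (𝔪.mul_mem_left x hy) hx1
  have hneg : ∀ y : 𝓞 K, y ≠ 0 → y - 1 ∈ 𝔪 → σ₂ (y : K) < 0 → c (Ideal.span {y}) * ρ = 1 := by
    intro y hy0 hy1 hy2
    rw [hρ, ← hcR.mul _ _ (hcop y hy1) (hcop x hx1), Ideal.span_singleton_mul_span_singleton]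
    refine hray _ (mul_ne_zero hy0 hx0) (hmul1 y hy1) ?_
    have e : (((y * x : 𝓞 K)) : K) = (y : K) * (x : K) := rfl
    rw [e, map_mul]
    exact mul_pos_of_neg_of_neg hy2 hx2
  have hρ2 : ρ * ρ = 1 := hneg x hx0 hx1 hx2
  refine ⟨hρ2, fun A => ?_⟩
  have hρinv : ρ⁻¹ = ρ := by
    rw [inv_eq_iff_mul_eq_one]
    exact hρ2
  let N : Subgroup G := Subgroup.zpowers ρ
  have hmemN : ∀ g : G, g ∈ N ↔ g = 1 ∨ g = ρ := by
    intro g
    constructor
    · intro hg
      obtain ⟨k, rfl⟩ := Subgroup.mem_zpowers_iff.1 hg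
      rcases Int.even_or_odd k with ⟨m, hm⟩ | ⟨m, hm⟩
      · left
        rw [hm, ← two_mul, zpow_mul, zpow_two, hρ2, one_zpow]
      · right
        rw [hm, zpow_add, zpow_mul, zpow_two, hρ2, one_zpow, one_mul, zpow_one]
    · rintro (rfl | rfl)
      · exact N.one_mem
      · exact Subgroup.mem_zpowers ρ
  have h2 := push_deriv (R' := {σ₁, σ₂}) h1 h0 hcR.toClass hr2 hZ' (G' := G ⧸ N)
    (QuotientGroup.mk' N) (fun y hy0 hy1 _ => by
      rw [QuotientGroup.mk'_apply, QuotientGroup.eq_one_iff, hmemN]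
      have hne : σ₂ (y : K) ≠ 0 := by
        rw [_root_.map_ne_zero]
        simpa using hy0
      rcases lt_or_gt_of_ne hne with h | h
      · right
        have h3 := hneg y hy0 hy1 h
        rw [mul_eq_one_iff_eq_inv, hρinv] at h3
        exact h3
      · left
        exact hray y hy0 hy1 h) (QuotientGroup.mk' N A)
  have h3 : ∀ g : G, QuotientGroup.mk' N g = QuotientGroup.mk' N A ↔ g = A ∨ g = A * ρ := by
    intro g
    rw [QuotientGroup.mk'_apply, QuotientGroup.mk'_apply, QuotientGroup.eq, hmemN]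
    constructor
    · rintro (h | h)
      · left
        rw [inv_mul_eq_one] at h
        exact h
      · right
        rw [inv_mul_eq_iff_eq_mul] at h
        rw [h, mul_assoc, hρ2, mul_one]
    · rintro (rfl | rfl)
      · left
        exact inv_mul_cancel _
      · right
        rw [mul_inv_rev, inv_mul_cancel_right, hρinv]
  by_cases hA : A = A * ρ
  · have h5 : Finset.univ.filter (fun g => QuotientGroup.mk' N g = QuotientGroup.mk' N A) = {A} := by
      ext g
      rw [Finset.mem_filter, h3, ← hA, Finset.mem_singleton]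
      simp
    rw [h5, Finset.sum_singleton] at h2
    rw [← hA, h2, add_zero]
  · have h5 : Finset.univ.filter (fun g => QuotientGroup.mk' N g = QuotientGroup.mk' N A) =
        {A, A * ρ} := by
      ext g
      rw [Finset.mem_filter, h3, Finset.mem_insert, Finset.mem_singleton]
      simp
    rw [h5, Finset.sum_pair hA] at h2
    exact h2

end sign

end Pool.Agent.X287.ST
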