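import Pool.Agent.X287.STR

/-!
# A criterion for `K(√ε)` to be abelian
-/

set_option autoImplicit false
set_option linter.unusedSectionVars false

open NumberField Filter Topology Asymptotics
open IsDedekindDomain IntermediateField

namespace Pool.Agent.X287.ST

section kummer
variable {K : Type} [Field K] [NumberField K] {G : Type} [CommGroup G] [Fintype G] {H : Type} [Field H]
  [NumberField H] [Algebra K H] [IsGalois K H]

/-- an automorphism over `K` of a field which contains `H` restricts to `H` -/
lemma res_exists (art : G ≃* Gal(H/K)) {M : Type} [Field M] [Algebra H M] [Algebra K M] [IsScalarTower K H M]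
    (g : M ≃ₐ[K] M) : ∃ A : G, ∀ x : H, g (algebraMap H M x) = algebraMap H M (art A x) := by
  have hnorm : Normal K H := inferInstance
  obtain ⟨A, hA⟩ := art.surjective (AlgEquiv.restrictNormal g H)
  refine ⟨A, fun x => ?_⟩
  have h1 := AlgEquiv.restrictNormal_commutes g H x
  rw [hA]
  exact h1.symm

/-- **`H(√ε)` is abelian over `K`** -/
theorem kummer_abelian (art : G ≃* Gal(H/K)) {ε : H} (hε : ε ≠ 0) (b : G → H)
    (hb : ∀ g, art g ε = ε * b g ^ 2) (hcomm : ∀ g h, b g * art g (b h) = b h * art h (b g)) :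
    ∃ (M : Type) (_ : Field M) (_ : NumberField M) (_ : Algebra H M) (_ : Algebra K M)
      (_ : IsScalarTower K H M) (_ : IsGalois K M) (α : M), (∀ a b : Gal(M/K), a * b = b * a) ∧
        α ^ 2 = algebraMap H M ε := by
  classical
  let Ω := AlgebraicClosure H
  obtain ⟨α, hα⟩ := IsAlgClosed.exists_pow_nat_eq (algebraMap H Ω ε) two_pos
  have hα0 : α ≠ 0 := by
    rintro rfl
    rw [zero_pow two_ne_zero] at hα
    exact hε ((map_eq_zero _).1 hα.symm)
  let M : IntermediateField H Ω := H⟮α⟯
  have hαM : α ∈ M := mem_adjoin_simple_self H α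
  have hint : IsIntegral H α := by
    refine IsIntegral.of_pow two_pos ?_
    rw [hα]
    exact isIntegral_algebraMap
  have hfin : FiniteDimensional H M := adjoin.finiteDimensional hint
  have hfinK : FiniteDimensional K H := inferInstance
  have hfinKM : FiniteDimensional K M := FiniteDimensional.trans K H M
  have hnf : NumberField M := by
    have h1 : CharZero M := charZero_of_injective_algebraMap (algebraMap H M).injective
    have h2 : FiniteDimensional ℚ M := FiniteDimensional.trans ℚ H M
    exact ⟨⟩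
  have hb0 : ∀ g, b g ≠ 0 := by
    intro g h
    have h1 := hb g
    rw [h, zero_pow two_ne_zero, mul_zero] at h1
    exact hε ((map_eq_zero_iff _ (art g).injective).1 h1)
  -- the image of `α` under an automorphism
  have key : ∀ {F : Type} [Field F] [Algebra H F] [Algebra K F] [IsScalarTower K H F] (a : F) (σ : F ≃ₐ[K] F) (A : G),
      a ^ 2 = algebraMap H F ε → (∀ x : H, σ (algebraMap H F x) = algebraMap H F (art A x)) →
      ∃ s : F, (s = 1 ∨ s = -1) ∧ σ a = s * a * algebraMap H F (b A) := by
    intro F _ _ _ _ a σ A ha hσ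
    have h1 : (σ a) ^ 2 = (a * algebraMap H F (b A)) ^ 2 := by
      rw [← map_pow, ha, hσ, hb, map_mul, map_pow, mul_pow, ha]
    rcases sq_eq_sq_iff_eq_or_eq_neg.1 h1 with h2 | h2
    · exact ⟨1, Or.inl rfl, by rw [h2, one_mul]⟩
    · exact ⟨-1, Or.inr rfl, by rw [h2]; ring⟩
  have hnormalΩ : Normal K Ω := by
    have _ : Algebra.IsAlgebraic K H := Algebra.IsAlgebraic.of_finite K H
    have _ : Algebra.IsAlgebraic K Ω := Algebra.IsAlgebraic.trans K H Ω
    have _ : IsAlgClosure K Ω := ⟨inferInstance, inferInstance⟩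
    exact IsAlgClosure.normal K Ω
  have hnormal : Normal K M := by
    have h1 : Normal K (M.restrictScalars K) := by
      rw [normal_iff_forall_map_le']
      intro σ x hx
      obtain ⟨y, hy, rfl⟩ := hx
      have hy' : y ∈ M := hy
      show (σ y) ∈ M
      obtain ⟨A, hA⟩ := res_exists art σ
      obtain ⟨s, hs, hsα⟩ := key α σ A hα hA
      have hsM : s ∈ M := by
        rcases hs with rfl | rfl
        · exact one_mem M
        · exact neg_mem (one_mem M)
      refine adjoin_induction (F := H) (s := {α}) (p := fun x _ => σ x ∈ M) ?_ ?_ ?_ ?_ ?_ hy'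
      · intro x hx
        rw [Set.mem_singleton_iff] at hx
        rw [hx, hsα]
        exact mul_mem (mul_mem hsM hαM) (M.algebraMap_mem _)
      · intro x
        rw [hA]
        exact M.algebraMap_mem _
      · intro x y _ _ h1 h2
        rw [map_add]
        exact add_mem h1 h2
      · intro x _ h1
        rw [map_inv₀]
        exact inv_mem h1
      · intro x y _ _ h1 h2
        rw [map_mul]
        exact mul_mem h1 h2
    exact h1
  have hgal : IsGalois K M := ⟨⟩
  refine ⟨M, inferInstance, hnf, inferInstance, inferInstance, inferInstance, hgal, ⟨α, hαM⟩, ?_, ?_⟩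
  · intro f g
    obtain ⟨A, hA⟩ := res_exists art f
    obtain ⟨B, hB⟩ := res_exists art g
    have hα' : (⟨α, hαM⟩ : M) ^ 2 = algebraMap H M ε := by
      apply Subtype.ext
      exact hα
    obtain ⟨s, hs, hsα⟩ := key (⟨α, hαM⟩ : M) f A hα' hA
    obtain ⟨t, ht, htα⟩ := key (⟨α, hαM⟩ : M) g B hα' hB
    have hfix : ∀ (k : M ≃ₐ[K] M) (s : M), s = 1 ∨ s = -1 → k s = s := by
      rintro k s (rfl | rfl)
      · exact map_one k
      · rw [map_neg, map_one]
    have hab : ∀ x : H, art A (art B x) = art B (art A x) := by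
      intro x
      have h1 : art A * art B = art B * art A := by rw [← map_mul, mul_comm, map_mul]
      exact congrArg (fun k : Gal(H/K) => k x) h1
    apply AlgEquiv.ext
    rintro ⟨x, hx⟩
    show f (g ⟨x, hx⟩) = g (f ⟨x, hx⟩)
    refine adjoin_induction (F := H) (s := {α}) (p := fun x hx => f (g ⟨x, hx⟩) = g (f ⟨x, hx⟩)) ?_ ?_ ?_ ?_ ?_ hx
    · intro x hx
      rw [Set.mem_singleton_iff] at hx
      subst hx
      rw [show (⟨x, _⟩ : M) = ⟨x, hαM⟩ from rfl, htα, hsα, map_mul, map_mul, map_mul, map_mul, hfix f t ht, hfix g s hs,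
        hsα, htα, hA, hB]
      have h1 : algebraMap H M (b A) * algebraMap H M (art A (b B)) =
          algebraMap H M (b B) * algebraMap H M (art B (b A)) := by
        rw [← map_mul, ← map_mul, hcomm]
      linear_combination (t * s * (⟨x, hαM⟩ : M)) * h1
    · intro x
      have h1 : (⟨algebraMap H Ω x, _⟩ : M) = algebraMap H M x := rfl
      rw [h1, hB, hA, hA, hB, hab]
    · intro x y hx hy h1 h2
      have h3 : (⟨x + y, add_mem hx hy⟩ : M) = ⟨x, hx⟩ + ⟨y, hy⟩ := rfl
      rw [h3, map_add, map_add, map_add, map_add, h1, h2]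
    · intro x hx h1
      have h3 : (⟨x⁻¹, inv_mem hx⟩ : M) = (⟨x, hx⟩ : M)⁻¹ := rfl
      rw [h3, map_inv₀, map_inv₀, map_inv₀, map_inv₀, h1]
    · intro x y hx hy h1 h2
      have h3 : (⟨x * y, mul_mem hx hy⟩ : M) = ⟨x, hx⟩ * ⟨y, hy⟩ := rfl
      rw [h3, map_mul, map_mul, map_mul, map_mul, h1, h2]
  · apply Subtype.ext
    exact hα

end kummer

end Pool.Agent.X287.ST
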