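import Pool.Agent.X287.STL

/-!
# Regulators of tuples of units and characters
-/

set_option autoImplicit false
set_option linter.unusedSectionVars false

open NumberField Filter Topology Asymptotics
open IsDedekindDomain

namespace Pool.Agent.X287.ST

section units
variable {H : Type} [Field H] [NumberField H]

/-- normalised logarithm -/
noncomputable def nl (v : InfinitePlace H) (x : H) : ℝ := v.mult * Real.log (v x)

theorem nl_coord (u : (𝓞 H)ˣ) : ∃ n : Fin (Units.rank H) → ℤ, ∀ v : InfinitePlace H,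
    nl v (u : H) = ∑ k, (n k : ℝ) * nl v (Units.fundSystem H k : H) := by
  obtain ⟨⟨ζ, n⟩, h, -⟩ := Units.exist_unique_eq_mul_prod H u
  refine ⟨n, fun v => ?_⟩
  have h0 : ∀ x : (𝓞 H)ˣ, v (x : H) ≠ 0 := fun x => by
    rw [map_ne_zero]
    exact Units.coe_ne_zero x
  have h1 : Real.log (v (u : H)) = ∑ k, (n k : ℝ) * Real.log (v (Units.fundSystem H k : H)) := by
    have h2 : (u : H) = (ζ.1 : H) * ∏ k, ((Units.fundSystem H k : H)) ^ (n k) := by
      have h3 := congrArg (fun x : (𝓞 H)ˣ => algebraMap (𝓞 H) H (x : 𝓞 H)) h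
      simp only at h3
      rw [h3, _root_.Units.val_mul, map_mul, _root_.Units.coe_prod, map_prod]
      congr 1
      refine Finset.prod_congr rfl fun k _ => ?_
      exact NumberField.Units.coe_zpow _ _
    rw [h2, map_mul, map_prod, (Units.mem_torsion H).1 ζ.2 v, one_mul, Real.log_prod]
    · refine Finset.sum_congr rfl fun k _ => ?_
      rw [map_zpow₀, Real.log_zpow]
    · intro k _
      rw [map_zpow₀]
      exact zpow_ne_zero _ (h0 _)
  unfold nl
  rw [h1, Finset.mul_sum]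
  exact Finset.sum_congr rfl fun k _ => by ring

theorem indep_real (y : Fin (Units.rank H) → ℝ)
    (h : ∀ v : InfinitePlace H, ∑ k, y k * nl v (Units.fundSystem H k : H) = 0) : y = 0 := by
  classical
  have h2 := ((Units.basisUnitLattice H).ofZLatticeBasis ℝ (Units.unitLattice H)).linearIndependent
  rw [Fintype.linearIndependent_iff] at h2
  have h3 := h2 y (by
    funext v
    simp only [Module.Basis.ofZLatticeBasis_apply, ← Units.logEmbedding_fundSystem,
      Finset.sum_apply, Pi.smul_apply, smul_eq_mul,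
      Units.dirichletUnitTheorem.logEmbedding_component, Pi.zero_apply]
    exact h v.1)
  funext k
  exact h3 k

theorem indep (x : Fin (Units.rank H) → ℂ)
    (h : ∀ v : InfinitePlace H, ∑ k, x k * (nl v (Units.fundSystem H k : H) : ℂ) = 0) : x = 0 := by
  have h1 : (fun k => (x k).re) = 0 := indep_real _ fun v => by
    have := congrArg Complex.re (h v)
    simpa using this
  have h2 : (fun k => (x k).im) = 0 := indep_real _ fun v => by
    have := congrArg Complex.im (h v)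
    simpa using this
  funext k
  exact Complex.ext (congrFun h1 k) (congrFun h2 k)

end units

section reg
variable {H : Type} [Field H] [NumberField H] {G : Type} [CommGroup G] [Fintype G]
variable (ρ : G →* (H ≃+* H)) {r : ℕ} (w : Fin r → InfinitePlace H)

/-- the sum `∑ χ(g) log|g u|_v` -/
noncomputable def lr (χ : Ch G) (v : InfinitePlace H) (u : (𝓞 H)ˣ) : ℂ :=
  ∑ g : G, val χ g * (nl v (ρ g (u : H)) : ℂ)

/-- the regulator -/
noncomputable def regu (u : Fin r → (𝓞 H)ˣ) (χ : Ch G) : ℂ :=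
  Matrix.det (Matrix.of fun i j : Fin r => lr ρ χ (w i) (u j))

/-- units which are trivial at all places not conjugate to the `w i` -/
def Sp (u : (𝓞 H)ˣ) : Prop :=
  ∀ v : InfinitePlace H, (∀ i g, v ≠ (w i).comap (ρ g : H →+* H)) → v (u : H) = 1

/-- the image of a unit -/
noncomputable def im (g : G) : (𝓞 H)ˣ → (𝓞 H)ˣ := Units.map (RingOfIntegers.mapRingEquiv (ρ g)).toMonoidHom

theorem im_coe (g : G) (u : (𝓞 H)ˣ) : ((im ρ g u : (𝓞 H)ˣ) : H) = ρ g (u : H) := rfl

theorem nl_comap (v : InfinitePlace H) (f : H ≃+* H) (x : H) : nl (v.comap (f : H →+* H)) x = nl v (f x) := by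
  have h1 : (v.comap (f : H →+* H)).mult = v.mult := by
    have h2 := InfinitePlace.isReal_comap_iff (f := f) (w := v)
    unfold InfinitePlace.mult
    by_cases hv : v.IsReal
    · rw [if_pos hv, if_pos (h2.2 hv)]
    · rw [if_neg hv, if_neg (fun h => hv (h2.1 h))]
  unfold nl
  rw [h1]
  rfl

variable {ρ w}

theorem lr_comap (χ : Ch G) (v : InfinitePlace H) (h : G) (u : (𝓞 H)ˣ) :
    lr ρ χ (v.comap (ρ h : H →+* H)) u = val χ h⁻¹ * lr ρ χ v u := by
  unfold lr
  rw [Finset.mul_sum, ← Equiv.sum_comp (Equiv.mulLeft h) (fun g => val χ h⁻¹ * (val χ g * (nl v (ρ g (u : H)) : ℂ)))]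
  refine Finset.sum_congr rfl fun g _ => ?_
  rw [nl_comap, Equiv.coe_mulLeft, map_mul, ← mul_assoc]
  congr 1
  unfold val
  rw [← AddChar.map_add_eq_mul, ← ofMul_mul, inv_mul_cancel_left]

theorem sp_zero {u : (𝓞 H)ˣ} (hu : Sp ρ w u) (χ : Ch G) {v : InfinitePlace H}
    (hv : ∀ i g, v ≠ (w i).comap (ρ g : H →+* H)) : lr ρ χ v u = 0 := by
  unfold lr
  refine Finset.sum_eq_zero fun g _ => ?_
  rw [← nl_comap v (ρ g)]
  have h1 : (v.comap (ρ g : H →+* H)) (u : H) = 1 := by
    refine hu _ fun i h he => hv i (h * g⁻¹) ?_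
    have h2 : v = (v.comap (ρ g : H →+* H)).comap (ρ g⁻¹ : H →+* H) := by
      ext x
      show v x = v (ρ g (ρ g⁻¹ x))
      rw [← RingAut.mul_apply, ← map_mul, mul_inv_cancel, map_one, RingAut.one_apply]
    rw [h2, he]
    ext x
    show (w i) (ρ h (ρ g⁻¹ x)) = (w i) (ρ (h * g⁻¹) x)
    rw [map_mul, RingAut.mul_apply]
  unfold nl
  rw [h1, Real.log_one, mul_zero, Complex.ofReal_zero, mul_zero]

/-- the coordinates of a unit -/
noncomputable def co (u : (𝓞 H)ˣ) : Fin (Units.rank H) → ℤ := (nl_coord u).choose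

theorem co_spec (u : (𝓞 H)ˣ) (v : InfinitePlace H) :
    nl v (u : H) = ∑ k, (co u k : ℝ) * nl v (Units.fundSystem H k : H) := (nl_coord u).choose_spec v

/-- the vector of `u` in the `χ`-component -/
noncomputable def Nv (ρ : G →* (H ≃+* H)) (χ : Ch G) (u : (𝓞 H)ˣ) (k : Fin (Units.rank H)) : ℂ :=
  ∑ g : G, val χ g * (co (im ρ g u) k : ℂ)

theorem Nv_log (χ : Ch G) (u : (𝓞 H)ˣ) (v : InfinitePlace H) :
    ∑ k, Nv ρ χ u k * (nl v (Units.fundSystem H k : H) : ℂ) = lr ρ χ v u := by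
  unfold Nv lr
  simp only [Finset.sum_mul]
  rw [Finset.sum_comm]
  refine Finset.sum_congr rfl fun g _ => ?_
  rw [← im_coe, co_spec]
  push_cast
  rw [Finset.mul_sum]
  exact Finset.sum_congr rfl fun k _ => by ring

theorem Nv_conj (σ : ℂ ≃+* ℂ) (χ : Ch G) (u : (𝓞 H)ˣ) (k : Fin (Units.rank H)) :
    σ (Nv ρ χ u k) = Nv ρ (cj σ χ) u k := by
  unfold Nv
  rw [map_sum]
  refine Finset.sum_congr rfl fun g _ => ?_
  rw [map_mul, map_intCast, val_cj]

/-- **relations between special units transfer to conjugate characters** -/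
theorem transfer {u : (𝓞 H)ˣ} {u₀ : Fin r → (𝓞 H)ˣ} (hu : Sp ρ w u) (hu₀ : ∀ j, Sp ρ w (u₀ j)) (χ : Ch G)
    (σ : ℂ ≃+* ℂ) (z : ℂ) (y : Fin r → ℂ)
    (h : ∀ i, z * lr ρ χ (w i) u = ∑ j, y j * lr ρ χ (w i) (u₀ j)) (v : InfinitePlace H) :
    σ z * lr ρ (cj σ χ) v u = ∑ j, σ (y j) * lr ρ (cj σ χ) v (u₀ j) := by
  classical
  have h1 : (fun k => z * Nv ρ χ u k - ∑ j, y j * Nv ρ χ (u₀ j) k) = 0 := by
    refine indep _ fun v => ?_
    have h2 : ∑ k, (z * Nv ρ χ u k - ∑ j, y j * Nv ρ χ (u₀ j) k) * (nl v (Units.fundSystem H k : H) : ℂ) =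
        z * lr ρ χ v u - ∑ j, y j * lr ρ χ v (u₀ j) := by
      simp only [← Nv_log, sub_mul, Finset.sum_sub_distrib, Finset.mul_sum, Finset.sum_mul]
      congr 1
      · exact Finset.sum_congr rfl fun k _ => by ring
      · rw [Finset.sum_comm]
        exact Finset.sum_congr rfl fun j _ => Finset.sum_congr rfl fun k _ => by ring
    rw [h2]
    by_cases hv : ∀ i g, v ≠ (w i).comap (ρ g : H →+* H)
    · rw [sp_zero hu χ hv, mul_zero, zero_sub, neg_eq_zero]
      exact Finset.sum_eq_zero fun j _ => by rw [sp_zero (hu₀ j) χ hv, mul_zero]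
    · push Not at hv
      obtain ⟨i, g, hv⟩ := hv
      rw [hv]
      simp only [lr_comap]
      have h3 := h i
      have h4 : ∑ j, y j * (val χ g⁻¹ * lr ρ χ (w i) (u₀ j)) = val χ g⁻¹ * ∑ j, y j * lr ρ χ (w i) (u₀ j) := by
        rw [Finset.mul_sum]
        exact Finset.sum_congr rfl fun j _ => by ring
      rw [h4, ← h3]
      ring
  have h2 : ∀ k, σ z * Nv ρ (cj σ χ) u k = ∑ j, σ (y j) * Nv ρ (cj σ χ) (u₀ j) k := by
    intro k
    have h3 := congrArg σ (sub_eq_zero.1 (congrFun h1 k))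
    rw [map_mul, map_sum, Nv_conj] at h3
    rw [h3]
    exact Finset.sum_congr rfl fun j _ => by rw [map_mul, Nv_conj]
  simp only [← Nv_log, Finset.mul_sum]
  rw [Finset.sum_comm]
  refine Finset.sum_congr rfl fun k _ => ?_
  rw [← mul_assoc, h2 k, Finset.sum_mul]
  exact Finset.sum_congr rfl fun j _ => by ring

theorem sp_one : Sp ρ w (1 : (𝓞 H)ˣ) := fun v _ => by simp

theorem regu_ne {u₀ : Fin r → (𝓞 H)ˣ} (hu₀ : ∀ j, Sp ρ w (u₀ j)) {χ : Ch G} (σ : ℂ ≃+* ℂ)
    (h : regu ρ w u₀ χ ≠ 0) : regu ρ w u₀ (cj σ χ) ≠ 0 := by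
  classical
  intro h0
  apply h
  unfold regu at h0 ⊢
  obtain ⟨y, hy, h1⟩ := Matrix.exists_mulVec_eq_zero_iff.2 h0
  refine Matrix.exists_mulVec_eq_zero_iff.1 ⟨fun j => σ.symm (y j), ?_, ?_⟩
  · intro h2
    apply hy
    funext j
    have h3 := congrFun h2 j
    simpa using h3
  · funext i
    have h2 := transfer sp_one hu₀ (cj σ χ) σ.symm 0 y (fun i => by
      have h3 := congrFun h1 i
      rw [Matrix.mulVec_eq_sum] at h3
      simp only [Finset.sum_apply, Pi.smul_apply, Pi.zero_apply, Matrix.transpose_apply, Matrix.of_apply,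
        MulOpposite.smul_eq_mul_unop, MulOpposite.unop_op] at h3
      rw [zero_mul, ← h3]
      exact Finset.sum_congr rfl fun j _ => mul_comm _ _) (w i)
    rw [cj_symm, map_zero, zero_mul] at h2
    rw [Pi.zero_apply, h2, Matrix.mulVec_eq_sum]
    simp only [Finset.sum_apply, Pi.smul_apply, Matrix.transpose_apply, Matrix.of_apply,
      MulOpposite.smul_eq_mul_unop, MulOpposite.unop_op]
    exact Finset.sum_congr rfl fun j _ => mul_comm _ _

/-- **the quotients of regulators are equivariant** -/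
theorem regu_conj {u₀ u : Fin r → (𝓞 H)ˣ} (hu₀ : ∀ j, Sp ρ w (u₀ j)) (hu : ∀ j, Sp ρ w (u j)) {χ : Ch G}
    (σ : ℂ ≃+* ℂ) (h : regu ρ w u₀ χ ≠ 0) :
    σ (regu ρ w u χ / regu ρ w u₀ χ) = regu ρ w u (cj σ χ) / regu ρ w u₀ (cj σ χ) := by
  classical
  have h' := regu_ne hu₀ σ h
  unfold regu at h h' ⊢
  set A := Matrix.of fun i j : Fin r => lr ρ χ (w i) (u₀ j) with hA
  set B := Matrix.of fun i j : Fin r => lr ρ χ (w i) (u j) with hB
  have hAB : B = A * (A⁻¹ * B) := by
    rw [← Matrix.mul_assoc, Matrix.mul_nonsing_inv _ (isUnit_iff_ne_zero.2 h), Matrix.one_mul]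
  set Q := A⁻¹ * B with hQ
  have h1 : Matrix.of (fun i j : Fin r => lr ρ (cj σ χ) (w i) (u j)) =
      Matrix.of (fun i j : Fin r => lr ρ (cj σ χ) (w i) (u₀ j)) * (σ : ℂ →+* ℂ).mapMatrix Q := by
    ext i l
    have h2 := transfer (hu l) hu₀ χ σ 1 (fun j => Q j l) (fun i => by
      have h3 := congrFun (congrFun hAB i) l
      rw [Matrix.mul_apply] at h3
      rw [one_mul]
      show B i l = _
      rw [h3]
      exact Finset.sum_congr rfl fun j _ => by rw [mul_comm]; rfl) (w i)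
    rw [map_one, one_mul] at h2
    rw [Matrix.mul_apply]
    show lr ρ (cj σ χ) (w i) (u l) = _
    rw [h2]
    exact Finset.sum_congr rfl fun j _ => by rw [mul_comm]; rfl
  rw [h1, Matrix.det_mul, ← RingHom.map_det, hAB, Matrix.det_mul, mul_div_cancel_left₀ _ h,
    mul_div_cancel_left₀ _ h']
  rfl

end reg

end Pool.Agent.X287.ST
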