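import Pool.Agent.X287.STU

/-!
# The field of values of a character, and the group of special units
-/

set_option autoImplicit false
set_option linter.unusedSectionVars false

open NumberField Filter Topology Asymptotics
open IsDedekindDomain

namespace Pool.Agent.X287.ST

section field
variable {G : Type} [CommGroup G] [Fintype G]

/-- the field of values -/
noncomputable def Qc (χ : Ch G) : IntermediateField ℚ ℂ := IntermediateField.adjoin ℚ (Set.range (val χ))

theorem val_mem (χ : Ch G) (g : G) : val χ g ∈ Qc χ := IntermediateField.subset_adjoin _ _ ⟨g, rfl⟩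

theorem val_mul (χ : Ch G) (g h : G) : val χ (g * h) = val χ g * val χ h := by
  unfold val
  rw [ofMul_mul, AddChar.map_add_eq_mul]

theorem val_one (χ : Ch G) : val χ 1 = 1 := by
  unfold val
  rw [ofMul_one, AddChar.map_zero_eq_one]

theorem val_inv (χ : Ch G) (g : G) : val χ g⁻¹ = (val χ g)⁻¹ := by
  have h1 : val χ g * val χ g⁻¹ = 1 := by rw [← val_mul, mul_inv_cancel, val_one]
  exact eq_inv_of_mul_eq_one_right h1

theorem val_alg (χ : Ch G) (g : G) : IsAlgebraic ℚ (val χ g) := by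
  have h1 : val χ g ^ Fintype.card G = 1 := by
    have h2 : ∀ n : ℕ, val χ g ^ n = val χ (g ^ n) := by
      intro n
      induction n with
      | zero => rw [pow_zero, pow_zero, val_one]
      | succ n ih => rw [pow_succ, pow_succ, val_mul, ih]
    rw [h2, pow_card_eq_one, val_one]
  refine ⟨Polynomial.X ^ Fintype.card G - 1, ?_, ?_⟩
  · exact (Polynomial.monic_X_pow_sub_C (1 : ℚ) Fintype.card_ne_zero).ne_zero
  · simp [h1]

/-- elements of the field of values -/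
theorem mem_Qc {χ : Ch G} {z : ℂ} (hz : z ∈ Qc χ) : ∃ q : G → ℚ, z = ∑ g, (q g : ℂ) * val χ g := by
  have h1 := IntermediateField.adjoin_toSubalgebra_of_isAlgebraic (F := ℚ) (E := ℂ) (S := Set.range (val χ))
    (by rintro _ ⟨g, rfl⟩; exact val_alg χ g)
  have h2 : z ∈ Algebra.adjoin ℚ (Set.range (val χ)) := by
    rw [← h1]
    exact hz
  let f : G →* ℂ := ⟨⟨val χ, val_one χ⟩, val_mul χ⟩
  have h3 : Set.range (val χ) = (MonoidHom.mrange f : Set ℂ) := by
    ext x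
    rfl
  rw [h3, ← Subalgebra.mem_toSubmodule, Algebra.adjoin_eq_span, Submonoid.closure_eq] at h2
  have h4 : (MonoidHom.mrange f : Set ℂ) = Set.range (val χ) := rfl
  rw [h4, Submodule.mem_span_range_iff_exists_fun] at h2
  obtain ⟨q, hq⟩ := h2
  refine ⟨q, ?_⟩
  rw [← hq]
  exact Finset.sum_congr rfl fun g _ => by rw [Rat.smul_def]

/-- descent to the field of values -/
theorem mem_Qc_of_fixed {χ : Ch G} {z : ℂ} (h : ∀ σ : ℂ ≃+* ℂ, cj σ χ = χ → σ z = z) : z ∈ Qc χ := by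
  by_contra hcon
  obtain ⟨σ, hσ1, hσ2⟩ := Pool.Agent.TH119.MX.exists_move (F := (Qc χ).toSubfield) (z := z) hcon
  refine hσ2 (h σ ?_)
  ext a
  exact hσ1 _ (val_mem χ (Additive.toMul a))

/-- **approximation by elements of `ℤ[χ]` with bounded coefficients** -/
theorem bdd_iff {χ : Ch G} {a : ℂ} {b : ℝ → ℂ} (h : (fun T : ℝ => b T - a) =O[atTop] (fun T : ℝ => 1 / T)) :
    (a ∈ Qc χ ↔ ∃ N : ℕ, 1 ≤ N ∧ ∃ B : ℕ, ∀ ε > 0, ∀ T₀ : ℝ, ∃ T ≥ T₀, ∃ n : G → ℤ, (∀ g, |n g| ≤ B) ∧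
      ‖N * b T - ∑ g, (n g : ℂ) * val χ g‖ < ε) ∧
    (a ∈ Qc χ ↔ ∃ N : ℕ, 1 ≤ N ∧ ∃ n : G → ℤ,
      (fun T : ℝ => N * b T - ∑ g, (n g : ℂ) * val χ g) =O[atTop] (fun T : ℝ => 1 / T)) := by
  classical
  have h0T : Tendsto (fun T : ℝ => 1 / T) atTop (𝓝 (0 : ℝ)) :=
    tendsto_const_nhds.div_atTop tendsto_id
  have hN : ∀ N : ℕ, (fun T : ℝ => N * b T - N * a) =O[atTop] (fun T : ℝ => 1 / T) := fun N =>
    (h.const_mul_left (N : ℂ)).congr_left fun T => by ring
  have h1 : a ∈ Qc χ → ∃ N : ℕ, 1 ≤ N ∧ ∃ n : G → ℤ,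
      (fun T : ℝ => N * b T - ∑ g, (n g : ℂ) * val χ g) =O[atTop] (fun T : ℝ => 1 / T) := by
    intro ha
    obtain ⟨q, hq⟩ := mem_Qc ha
    set N : ℕ := ∏ g, (q g).den with hNdef
    have hNpos : 1 ≤ N := Nat.one_le_iff_ne_zero.2 (Finset.prod_ne_zero_iff.2 fun g _ => (q g).den_nz)
    have hint : ∀ g, ∃ n : ℤ, (N : ℚ) * q g = n := by
      intro g
      obtain ⟨k, hk⟩ : (q g).den ∣ N := Finset.dvd_prod_of_mem (fun g => (q g).den) (Finset.mem_univ g)
      refine ⟨k * (q g).num, ?_⟩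
      rw [hk]
      push_cast
      have h3 := Rat.den_mul_eq_num (q g)
      linear_combination (k : ℚ) * h3
    choose n hn using hint
    refine ⟨N, hNpos, n, (hN N).congr_left fun T => ?_⟩
    have h4 : (N : ℂ) * a = ∑ g, (n g : ℂ) * val χ g := by
      rw [hq, Finset.mul_sum]
      refine Finset.sum_congr rfl fun g _ => ?_
      have h5 : (N : ℂ) * (q g : ℂ) = n g := by exact_mod_cast hn g
      rw [← h5]
      ring
    rw [h4]
  have h2 : (∃ N : ℕ, 1 ≤ N ∧ ∃ n : G → ℤ,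
      (fun T : ℝ => N * b T - ∑ g, (n g : ℂ) * val χ g) =O[atTop] (fun T : ℝ => 1 / T)) →
      ∃ N : ℕ, 1 ≤ N ∧ ∃ B : ℕ, ∀ ε > 0, ∀ T₀ : ℝ, ∃ T ≥ T₀, ∃ n : G → ℤ, (∀ g, |n g| ≤ B) ∧
      ‖N * b T - ∑ g, (n g : ℂ) * val χ g‖ < ε := by
    rintro ⟨N, hN1, n, hn⟩
    refine ⟨N, hN1, ∑ g, (n g).natAbs, fun ε hε T₀ => ?_⟩
    have h3 := (hn.trans_tendsto h0T).norm
    rw [norm_zero] at h3
    obtain ⟨T, hT1, hT2⟩ := ((h3.eventually_lt_const hε).and (eventually_ge_atTop T₀)).exists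
    refine ⟨T, hT2, n, fun g => ?_, hT1⟩
    have h4 : (n g).natAbs ≤ ∑ g, (n g).natAbs :=
      Finset.single_le_sum (f := fun g => (n g).natAbs) (fun _ _ => Nat.zero_le _) (Finset.mem_univ g)
    rw [Int.abs_eq_natAbs]
    exact_mod_cast h4
  have h3 : (∃ N : ℕ, 1 ≤ N ∧ ∃ B : ℕ, ∀ ε > 0, ∀ T₀ : ℝ, ∃ T ≥ T₀, ∃ n : G → ℤ, (∀ g, |n g| ≤ B) ∧
      ‖N * b T - ∑ g, (n g : ℂ) * val χ g‖ < ε) → a ∈ Qc χ := by
    rintro ⟨N, hN1, B, hB⟩
    have hfin : Set.Finite ((fun n : G → ℤ => ∑ g, (n g : ℂ) * val χ g) '' {n | ∀ g, |n g| ≤ B}) := by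
      apply Set.Finite.image
      have h4 : {n : G → ℤ | ∀ g, |n g| ≤ B} = {n : G → ℤ | ∀ g, n g ∈ Set.Icc (-(B : ℤ)) B} := by
        ext n
        simp only [Set.mem_Icc, abs_le]
      rw [h4]
      exact Set.Finite.pi' fun _ => Set.finite_Icc _ _
    have hmem : (N : ℂ) * a ∈ (fun n : G → ℤ => ∑ g, (n g : ℂ) * val χ g) '' {n | ∀ g, |n g| ≤ B} := by
      rw [← hfin.isClosed.closure_eq, Metric.mem_closure_iff]
      intro ε hε
      have h5 := ((hN N).trans_tendsto h0T).norm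
      rw [norm_zero] at h5
      obtain ⟨T₀, hT₀⟩ := eventually_atTop.1 (h5.eventually_lt_const (half_pos hε))
      obtain ⟨T, hT, n, hn1, hn2⟩ := hB (ε / 2) (half_pos hε) T₀
      refine ⟨_, ⟨n, hn1, rfl⟩, ?_⟩
      rw [dist_eq_norm]
      have h6 : (N : ℂ) * a - ∑ g, (n g : ℂ) * val χ g =
          (N * b T - ∑ g, (n g : ℂ) * val χ g) - (N * b T - N * a) := by ring
      show ‖(N : ℂ) * a - ∑ g, (n g : ℂ) * val χ g‖ < ε
      rw [h6]
      calc _ ≤ ‖N * b T - ∑ g, (n g : ℂ) * val χ g‖ + ‖N * b T - N * a‖ := norm_sub_le _ _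
        _ < ε := by
          have := hT₀ T hT
          linarith
    obtain ⟨n, -, hn⟩ := hmem
    have hN0 : (N : ℂ) ≠ 0 := by exact_mod_cast (by omega : N ≠ 0)
    have h7 : a = (N : ℂ)⁻¹ * ∑ g, (n g : ℂ) * val χ g := by
      have h8 : ∑ g, (n g : ℂ) * val χ g = N * a := hn
      rw [h8, inv_mul_cancel_left₀ hN0]
    rw [h7]
    refine (Qc χ).mul_mem ((Qc χ).inv_mem (natCast_mem _ N)) ((Qc χ).sum_mem fun g _ => ?_)
    exact (Qc χ).mul_mem (intCast_mem _ _) (val_mem χ g)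
  exact ⟨⟨fun h => h2 (h1 h), h3⟩, ⟨h1, fun h => h3 (h2 h)⟩⟩

/-- values in a discrete ring -/
def Small (χ : Ch G) : Prop := (∀ g, val χ g ^ 4 = 1) ∨ ∀ g, val χ g ^ 6 = 1

theorem small_norm {χ : Ch G} (h : Small χ) (n : G → ℤ) (hz : ∑ g, (n g : ℂ) * val χ g ≠ 0) :
    1 ≤ ‖∑ g, (n g : ℂ) * val χ g‖ := by
  classical
  -- it is enough to write the values as `a + b τ`, `τ² = p τ - q`, `conj τ = p - τ`
  have key : ∀ (τ : ℂ) (p q : ℤ), τ * τ = p * τ - q → (starRingEnd ℂ) τ = p - τ →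
      (∀ g, ∃ a b : ℤ, val χ g = a + b * τ) → 1 ≤ ‖∑ g, (n g : ℂ) * val χ g‖ := by
    intro τ p q h1 h2 h3
    choose a b hab using h3
    have h4 : ∑ g, (n g : ℂ) * val χ g = ((∑ g, n g * a g : ℤ) : ℂ) + ((∑ g, n g * b g : ℤ) : ℂ) * τ := by
      push_cast
      rw [Finset.sum_mul, ← Finset.sum_add_distrib]
      exact Finset.sum_congr rfl fun g _ => by rw [hab g]; ring
    set A : ℤ := ∑ g, n g * a g
    set B : ℤ := ∑ g, n g * b g
    have h5 : ((Complex.normSq (∑ g, (n g : ℂ) * val χ g) : ℝ) : ℂ) = ((A * A + A * B * p + B * B * q : ℤ) : ℂ) := by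
      rw [← Complex.mul_conj, h4, map_add, map_mul, h2]
      simp only [map_intCast]
      push_cast
      linear_combination -((B : ℂ) * B) * h1
    have h6 : Complex.normSq (∑ g, (n g : ℂ) * val χ g) = ((A * A + A * B * p + B * B * q : ℤ) : ℝ) := by
      exact_mod_cast h5
    have h7 : 0 < Complex.normSq (∑ g, (n g : ℂ) * val χ g) := Complex.normSq_pos.2 hz
    rw [h6] at h7
    have h8 : (1 : ℤ) ≤ A * A + A * B * p + B * B * q := by
      have : (0 : ℤ) < A * A + A * B * p + B * B * q := by exact_mod_cast h7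
      omega
    have h9 : (1 : ℝ) ≤ Complex.normSq (∑ g, (n g : ℂ) * val χ g) := by
      rw [h6]
      exact_mod_cast h8
    rw [Complex.normSq_eq_norm_sq] at h9
    nlinarith [norm_nonneg (∑ g, (n g : ℂ) * val χ g)]
  rcases h with h | h
  · refine key Complex.I 0 1 (by rw [Complex.I_mul_I]; push_cast; ring) (by rw [Complex.conj_I]; push_cast; ring)
      fun g => ?_
    have h1 := h g
    have h2 : (val χ g - 1) * ((val χ g + 1) * ((val χ g - Complex.I) * (val χ g + Complex.I))) = 0 := by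
      linear_combination h1 - (val χ g ^ 2 - 1) * Complex.I_mul_I
    rcases mul_eq_zero.1 h2 with h3 | h3
    · exact ⟨1, 0, by push_cast; linear_combination h3⟩
    rcases mul_eq_zero.1 h3 with h3 | h3
    · exact ⟨-1, 0, by push_cast; linear_combination h3⟩
    rcases mul_eq_zero.1 h3 with h3 | h3
    · exact ⟨0, 1, by push_cast; linear_combination h3⟩
    · exact ⟨0, -1, by push_cast; linear_combination h3⟩
  · set τ : ℂ := ⟨1 / 2, Real.sqrt 3 / 2⟩ with hτ
    have hs3 : Real.sqrt 3 * Real.sqrt 3 = 3 := Real.mul_self_sqrt (by norm_num)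
    have h1 : τ * τ = τ - 1 := by
      apply Complex.ext
      · simp [hτ]
        nlinarith
      · simp [hτ]
        ring
    have h2 : (starRingEnd ℂ) τ = 1 - τ := by
      apply Complex.ext
      · simp [hτ]
        norm_num
      · simp [hτ]
    refine key τ 1 1 (by push_cast; linear_combination h1) (by push_cast; exact h2) fun g => ?_
    have h3 := h g
    have h4 : (val χ g - 1) * ((val χ g + 1) * ((val χ g - τ) * ((val χ g - (1 - τ)) *
        ((val χ g + τ) * (val χ g + (1 - τ)))))) = 0 := by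
      have e1 : (val χ g - τ) * (val χ g - (1 - τ)) = val χ g ^ 2 - val χ g + 1 := by
        linear_combination -h1
      have e2 : (val χ g + τ) * (val χ g + (1 - τ)) = val χ g ^ 2 + val χ g + 1 := by
        linear_combination -h1
      calc _ = (val χ g - 1) * (val χ g + 1) * (((val χ g - τ) * (val χ g - (1 - τ))) *
            ((val χ g + τ) * (val χ g + (1 - τ)))) := by ring
        _ = val χ g ^ 6 - 1 := by rw [e1, e2]; ring
        _ = 0 := by rw [h3, sub_self]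
    rcases mul_eq_zero.1 h4 with h5 | h4
    · exact ⟨1, 0, by push_cast; linear_combination h5⟩
    rcases mul_eq_zero.1 h4 with h5 | h4
    · exact ⟨-1, 0, by push_cast; linear_combination h5⟩
    rcases mul_eq_zero.1 h4 with h5 | h4
    · exact ⟨0, 1, by push_cast; linear_combination h5⟩
    rcases mul_eq_zero.1 h4 with h5 | h4
    · exact ⟨1, -1, by push_cast; linear_combination h5⟩
    rcases mul_eq_zero.1 h4 with h5 | h5
    · exact ⟨0, -1, by push_cast; linear_combination h5⟩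
    · exact ⟨-1, 1, by push_cast; linear_combination h5⟩

/-- for characters of order dividing `4` or `6` no bound is needed -/
theorem small_iff {χ : Ch G} (hs : Small χ) {a : ℂ} {b : ℝ → ℂ}
    (h : (fun T : ℝ => b T - a) =O[atTop] (fun T : ℝ => 1 / T)) :
    a ∈ Qc χ ↔ ∃ N : ℕ, 1 ≤ N ∧ ∀ ε > 0, ∀ T₀ : ℝ, ∃ T ≥ T₀, ∃ n : G → ℤ,
      ‖N * b T - ∑ g, (n g : ℂ) * val χ g‖ < ε := by
  classical
  constructor
  · intro ha
    obtain ⟨N, hN, B, hB⟩ := (bdd_iff h).1.1 ha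
    refine ⟨N, hN, fun ε hε T₀ => ?_⟩
    obtain ⟨T, hT, n, -, hn⟩ := hB ε hε T₀
    exact ⟨T, hT, n, hn⟩
  · rintro ⟨N, hN1, hap⟩
    have h0T : Tendsto (fun T : ℝ => 1 / T) atTop (𝓝 (0 : ℝ)) :=
      tendsto_const_nhds.div_atTop tendsto_id
    have hN : (fun T : ℝ => N * b T - N * a) =O[atTop] (fun T : ℝ => 1 / T) :=
      (h.const_mul_left (N : ℂ)).congr_left fun T => by ring
    have hclose : ∀ δ : ℝ, 0 < δ → ∃ n : G → ℤ, ‖(N : ℂ) * a - ∑ g, (n g : ℂ) * val χ g‖ < δ := by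
      intro δ hδ
      have h5 := (hN.trans_tendsto h0T).norm
      rw [norm_zero] at h5
      obtain ⟨T₀, hT₀⟩ := eventually_atTop.1 (h5.eventually_lt_const (half_pos hδ))
      obtain ⟨T, hT, n, hn⟩ := hap (δ / 2) (half_pos hδ) T₀
      refine ⟨n, ?_⟩
      have h6 : (N : ℂ) * a - ∑ g, (n g : ℂ) * val χ g =
          (N * b T - ∑ g, (n g : ℂ) * val χ g) - (N * b T - N * a) := by ring
      rw [h6]
      calc _ ≤ ‖N * b T - ∑ g, (n g : ℂ) * val χ g‖ + ‖N * b T - N * a‖ := norm_sub_le _ _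
        _ < δ := by
          have := hT₀ T hT
          linarith
    obtain ⟨n, hn⟩ := hclose (1 / 2) (by norm_num)
    have heq : (N : ℂ) * a = ∑ g, (n g : ℂ) * val χ g := by
      by_contra hne
      have hpos : 0 < ‖(N : ℂ) * a - ∑ g, (n g : ℂ) * val χ g‖ := norm_pos_iff.2 (sub_ne_zero.2 hne)
      obtain ⟨n', hn'⟩ := hclose (min (1 / 2) ‖(N : ℂ) * a - ∑ g, (n g : ℂ) * val χ g‖)
        (lt_min (by norm_num) hpos)
      have h7 : ∑ g, ((n g - n' g : ℤ) : ℂ) * val χ g =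
          ((N : ℂ) * a - ∑ g, (n' g : ℂ) * val χ g) - ((N : ℂ) * a - ∑ g, (n g : ℂ) * val χ g) := by
        push_cast
        simp only [sub_mul, Finset.sum_sub_distrib]
        ring
      by_cases h8 : ∑ g, ((n g - n' g : ℤ) : ℂ) * val χ g = 0
      · have h9 : (N : ℂ) * a - ∑ g, (n' g : ℂ) * val χ g = (N : ℂ) * a - ∑ g, (n g : ℂ) * val χ g := by
          rw [h8] at h7
          exact (sub_eq_zero.1 h7.symm)
        rw [h9] at hn'
        exact absurd (hn'.trans_le (min_le_right _ _)) (lt_irrefl _)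
      · have h9 := small_norm hs (fun g => n g - n' g) h8
        rw [h7] at h9
        have h10 := norm_sub_le ((N : ℂ) * a - ∑ g, (n' g : ℂ) * val χ g)
          ((N : ℂ) * a - ∑ g, (n g : ℂ) * val χ g)
        have h11 := hn'.trans_le (min_le_left _ _)
        linarith
    have hN0 : (N : ℂ) ≠ 0 := by exact_mod_cast (by omega : N ≠ 0)
    have h12 : a = (N : ℂ)⁻¹ * ∑ g, (n g : ℂ) * val χ g := by
      rw [← heq, inv_mul_cancel_left₀ hN0]
    rw [h12]
    refine (Qc χ).mul_mem ((Qc χ).inv_mem (natCast_mem _ N)) ((Qc χ).sum_mem fun g _ => ?_)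
    exact (Qc χ).mul_mem (intCast_mem _ _) (val_mem χ g)

end field

section one
variable {H : Type} [Field H] [NumberField H] {G : Type} [CommGroup G] [Fintype G]

/-- quotients of the logarithmic sums lie in the field of values -/
theorem quot_mem {ρ : G →* (H ≃+* H)} {w : InfinitePlace H} {u u₀ : (𝓞 H)ˣ} (hu : Sp ρ (fun _ : Fin 1 => w) u)
    (hu₀ : Sp ρ (fun _ : Fin 1 => w) u₀) {χ : Ch G} (h : lr ρ χ w u₀ ≠ 0) :
    lr ρ χ w u / lr ρ χ w u₀ ∈ Qc χ := by
  refine mem_Qc_of_fixed fun σ hσ => ?_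
  have h1 := transfer (w := fun _ : Fin 1 => w) (u₀ := fun _ => u₀) hu (fun _ => hu₀) χ σ 1
    (fun _ => lr ρ χ w u / lr ρ χ w u₀) (fun i => by
      rw [one_mul, Finset.univ_unique, Finset.sum_singleton, div_mul_cancel₀ _ h]) w
  rw [hσ, map_one, one_mul, Finset.univ_unique, Finset.sum_singleton] at h1
  rw [eq_div_iff h]
  exact h1.symm

end one

end Pool.Agent.X287.ST
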