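import Pool.Agent.X287.STQ

/-!
# Sign classes: elements with prescribed signs, and the sign law for the derivatives at `0`
-/

set_option autoImplicit false
set_option linter.unusedSectionVars false

open NumberField Filter Topology Asymptotics
open IsDedekindDomain

namespace Pool.Agent.X287.ST

variable {K : Type} [Field K] [NumberField K]

/-- weak approximation at the infinite places -/
theorem exists_near (a : InfinitePlace K → K) : ∃ x : K, ∀ v : InfinitePlace K, v (x - a v) < 1 / 2 := by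
  have h1 := InfinitePlace.denseRange_algebraMap_pi K
  set f : (v : InfinitePlace K) → WithAbs v.1 := fun v => algebraMap K (WithAbs v.1) (a v) with hf
  obtain ⟨x, hx⟩ := h1.exists_dist_lt f (show (0 : ℝ) < 1 / 2 by norm_num)
  refine ⟨x, fun v => ?_⟩
  have h2 : dist (f v) ((algebraMap K ((v : InfinitePlace K) → WithAbs v.1) x) v) < 1 / 2 :=
    (dist_le_pi_dist _ _ v).trans_lt hx
  rw [dist_comm, dist_eq_norm] at h2
  have h3 : ‖(algebraMap K ((v : InfinitePlace K) → WithAbs v.1) x) v - f v‖ = v (x - a v) := by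
    have h4 : (algebraMap K ((v : InfinitePlace K) → WithAbs v.1) x) v - f v = algebraMap K (WithAbs v.1) (x - a v) := by
      rw [map_sub]
      rfl
    rw [h4]
    rfl
  rw [h3] at h2
  exact h2

/-- integers with one negative real embedding -/
theorem exists_sign (τ : K →+* ℝ) : ∃ y : 𝓞 K, τ (y : K) < 0 ∧ ∀ τ' : K →+* ℝ, τ' ≠ τ → 0 < τ' (y : K) := by
  classical
  obtain ⟨x, hx⟩ := exists_near (K := K) (fun v => if v = InfinitePlace.mk (emb τ) then -1 else 1)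
  have hval : ∀ σ : K →+* ℝ, |σ x - (if InfinitePlace.mk (emb σ) = InfinitePlace.mk (emb τ) then -1 else 1)| < 1 / 2 := by
    intro σ
    have h1 := hx (InfinitePlace.mk (emb σ))
    rw [InfinitePlace.apply] at h1
    have h2 : emb σ (x - if InfinitePlace.mk (emb σ) = InfinitePlace.mk (emb τ) then -1 else 1) =
        ((σ x - (if InfinitePlace.mk (emb σ) = InfinitePlace.mk (emb τ) then -1 else 1) : ℝ) : ℂ) := by
      show ((σ _ : ℝ) : ℂ) = _
      rw [map_sub]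
      split_ifs
      · rw [map_neg, map_one]
      · rw [map_one]
    rw [h2, Complex.norm_real, Real.norm_eq_abs] at h1
    exact h1
  have h1 : τ x < 0 := by
    have h2 := hval τ
    rw [if_pos rfl, abs_lt] at h2
    linarith [h2.2]
  have h2 : ∀ τ' : K →+* ℝ, τ' ≠ τ → 0 < τ' x := by
    intro τ' hτ'
    have h3 := hval τ'
    have h4 : InfinitePlace.mk (emb τ') ≠ InfinitePlace.mk (emb τ) := by
      intro h5
      exact hτ' (mk_inj h5)
    rw [if_neg h4, abs_lt] at h3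
    linarith [h3.1]
  -- clear the denominator
  obtain ⟨d, hd0, hd⟩ := exists_integral_multiples ℤ ℚ (L := K) {x}
  have h3 := hd x (Finset.mem_singleton_self x)
  have h4 : IsIntegral ℤ ((d : K) * ((d : K) * x)) := by
    have h5 : IsIntegral ℤ (d : K) := isIntegral_algebraMap (R := ℤ) (x := d)
    refine h5.mul ?_
    have h6 : (d : K) * x = d • x := by rw [zsmul_eq_mul]
    rw [h6]
    exact h3
  refine ⟨⟨(d : K) * ((d : K) * x), h4⟩, ?_, fun τ' hτ' => ?_⟩
  · show τ ((d : K) * ((d : K) * x)) < 0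
    rw [map_mul, map_mul, map_intCast, ← mul_assoc]
    have : 0 < (d : ℝ) * (d : ℝ) := by
      have h7 : (d : ℝ) ≠ 0 := by exact_mod_cast hd0
      exact mul_self_pos.2 h7
    nlinarith
  · show 0 < τ' ((d : K) * ((d : K) * x))
    rw [map_mul, map_mul, map_intCast, ← mul_assoc]
    have : 0 < (d : ℝ) * (d : ℝ) := by
      have h7 : (d : ℝ) ≠ 0 := by exact_mod_cast hd0
      exact mul_self_pos.2 h7
    exact mul_pos this (h2 τ' hτ')

/-- the same in the class of `1` modulo `𝔪` -/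
theorem exists_sign_mod {𝔪 : Ideal (𝓞 K)} (h0 : 𝔪 ≠ ⊥) (τ : K →+* ℝ) : ∃ x : 𝓞 K, x ≠ 0 ∧ x - 1 ∈ 𝔪 ∧
    τ (x : K) < 0 ∧ ∀ τ' : K →+* ℝ, τ' ≠ τ → 0 < τ' (x : K) := by
  obtain ⟨y, hy1, hy2⟩ := exists_sign τ
  set N : ℕ := Ideal.absNorm 𝔪 with hN
  have hN0 : N ≠ 0 := Ideal.absNorm_eq_zero_iff.not.2 h0
  have hNm : ((N : ℕ) : 𝓞 K) ∈ 𝔪 := Ideal.absNorm_mem 𝔪
  obtain ⟨M, hM⟩ := exists_nat_gt (1 / (-τ (y : K)))
  have hcoe : ∀ σ : K →+* ℝ, σ ((1 + (N : 𝓞 K) * ((M : 𝓞 K) * y) : 𝓞 K) : K) = 1 + N * (M * σ (y : K)) := by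
    intro σ
    have h1 : ((1 + (N : 𝓞 K) * ((M : 𝓞 K) * y) : 𝓞 K) : K) = 1 + (N : K) * ((M : K) * (y : K)) := by
      push_cast
      rfl
    rw [h1, map_add, map_one, map_mul, map_mul, map_natCast, map_natCast]
  have h2 : τ ((1 + (N : 𝓞 K) * ((M : 𝓞 K) * y) : 𝓞 K) : K) < 0 := by
    rw [hcoe]
    have h3 : 1 < M * (-τ (y : K)) := by
      rwa [div_lt_iff₀ (by linarith)] at hM
    have h4 : (1 : ℝ) ≤ N := by exact_mod_cast Nat.one_le_iff_ne_zero.2 hN0
    nlinarith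
  refine ⟨1 + (N : 𝓞 K) * ((M : 𝓞 K) * y), fun h => ?_, ?_, h2, fun τ' hτ' => ?_⟩
  · rw [h] at h2
    simp at h2
  · have h3 : (1 + (N : 𝓞 K) * ((M : 𝓞 K) * y) : 𝓞 K) - 1 = ((M : 𝓞 K) * y) * (N : 𝓞 K) := by ring
    rw [h3]
    exact 𝔪.mul_mem_left _ hNm
  · rw [hcoe]
    have h3 := hy2 τ' hτ'
    positivity

section law
variable {G : Type} [CommGroup G] [Fintype G] {𝔪 : Ideal (𝓞 K)} {c : Ideal (𝓞 K) → G}

/-- the derivatives change sign under the class of an element which is negative at one real place only -/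
theorem sign_one (h𝔪 : 𝔪 ≠ ⊤) (h0 : 𝔪 ≠ ⊥) (hc : IsClassMap 𝔪 c) (hR : 1 ≤ InfinitePlace.nrComplexPlaces K)
    {Z : G → ℂ → ℂ} (hZ : IsPZ 𝔪 c Z) {τ : K →+* ℝ} {x : 𝓞 K} (hx0 : x ≠ 0) (hx1 : x - 1 ∈ 𝔪) (hx2 : τ (x : K) < 0)
    (hx3 : ∀ τ' : K →+* ℝ, τ' ≠ τ → 0 < τ' (x : K)) (A : G) :
    deriv (Z A) 0 + deriv (Z (A * c (Ideal.span {x}))) 0 = 0 ∧ c (Ideal.span {x}) * c (Ideal.span {x}) = 1 := by
  classical
  set ρ : G := c (Ideal.span {x}) with hρ
  have hcop : ∀ y : 𝓞 K, y - 1 ∈ 𝔪 → IsCoprime (Ideal.span {y}) 𝔪 := fun y hy => cop_span hy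
  have hmul1 : ∀ y : 𝓞 K, y - 1 ∈ 𝔪 → y * x - 1 ∈ 𝔪 := by
    intro y hy
    have e : y * x - 1 = x * (y - 1) + (x - 1) := by ring
    rw [e]
    exact 𝔪.add_mem (𝔪.mul_mem_left x hy) hx1
  have hneg : ∀ y : 𝓞 K, y ≠ 0 → y - 1 ∈ 𝔪 → τ (y : K) < 0 → (∀ τ' : K →+* ℝ, τ' ≠ τ → 0 < τ' (y : K)) →
      c (Ideal.span {y}) * ρ = 1 := by
    intro y hy0 hy1 hy2 hy3
    rw [hρ, ← hc.mul _ _ (hcop y hy1) (hcop x hx1), Ideal.span_singleton_mul_span_singleton]
    refine hc.ray _ (mul_ne_zero hy0 hx0) (hmul1 y hy1) fun τ' => ?_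
    have e : (((y * x : 𝓞 K)) : K) = (y : K) * (x : K) := rfl
    rw [e, map_mul]
    by_cases h : τ' = τ
    · rw [h]
      exact mul_pos_of_neg_of_neg hy2 hx2
    · exact mul_pos (hy3 τ' h) (hx3 τ' h)
  have hρ2 : ρ * ρ = 1 := hneg x hx0 hx1 hx2 hx3
  refine ⟨?_, hρ2⟩
  have hρinv : ρ⁻¹ = ρ := by
    rw [inv_eq_iff_mul_eq_one]
    exact hρ2
  let N : Subgroup G := Subgroup.zpowers ρ
  have hmemN : ∀ g : G, g ∈ N ↔ g = 1 ∨ g = ρ := by
    intro g
    constructor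
    · intro hg
      obtain ⟨k, rfl⟩ := Subgroup.mem_zpowers_iff.1 hg
      rcases Int.even_or_odd k with ⟨m, hm⟩ | ⟨m, hm⟩
      · left
        rw [hm, ← two_mul, zpow_mul, zpow_two, hρ2, one_zpow]
      · right
        rw [hm, zpow_add, zpow_mul, zpow_two, hρ2, one_zpow, one_mul, zpow_one]
    · rintro (rfl | rfl)
      · exact N.one_mem
      · exact Subgroup.mem_zpowers ρ
  have h2 := push_deriv (R' := {τ}) h𝔪 h0 hc (by rw [Finset.card_singleton]; omega) hZ (G' := G ⧸ N)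
    (QuotientGroup.mk' N) (fun y hy0 hy1 hy2 => by
      rw [QuotientGroup.mk'_apply, QuotientGroup.eq_one_iff, hmemN]
      have hpos : ∀ τ' : K →+* ℝ, τ' ≠ τ → 0 < τ' (y : K) := fun τ' h => hy2 τ' (by rwa [Finset.mem_singleton])
      have hne : τ (y : K) ≠ 0 := by
        rw [_root_.map_ne_zero]
        simpa using hy0
      rcases lt_or_gt_of_ne hne with h | h
      · right
        have h3 := hneg y hy0 hy1 h hpos
        rw [mul_eq_one_iff_eq_inv, hρinv] at h3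
        exact h3
      · left
        refine hc.ray y hy0 hy1 fun τ' => ?_
        by_cases h4 : τ' = τ
        · rw [h4]
          exact h
        · exact hpos τ' h4) (QuotientGroup.mk' N A)
  have h3 : ∀ g : G, QuotientGroup.mk' N g = QuotientGroup.mk' N A ↔ g = A ∨ g = A * ρ := by
    intro g
    rw [QuotientGroup.mk'_apply, QuotientGroup.mk'_apply, QuotientGroup.eq, hmemN]
    constructor
    · rintro (h | h)
      · left
        rw [inv_mul_eq_one] at h
        exact h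
      · right
        rw [inv_mul_eq_iff_eq_mul] at h
        rw [h, mul_assoc, hρ2, mul_one]
    · rintro (rfl | rfl)
      · left
        exact inv_mul_cancel _
      · right
        rw [mul_inv_rev, inv_mul_cancel_right, hρinv]
  by_cases hA : A = A * ρ
  · have h5 : Finset.univ.filter (fun g => QuotientGroup.mk' N g = QuotientGroup.mk' N A) = {A} := by
      ext g
      rw [Finset.mem_filter, h3, ← hA, Finset.mem_singleton]
      simp
    rw [h5, Finset.sum_singleton] at h2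
    rw [← hA, h2, add_zero]
  · have h5 : Finset.univ.filter (fun g => QuotientGroup.mk' N g = QuotientGroup.mk' N A) =
        {A, A * ρ} := by
      ext g
      rw [Finset.mem_filter, h3, Finset.mem_insert, Finset.mem_singleton]
      simp
    rw [h5, Finset.sum_pair hA] at h2
    exact h2

open Classical in
/-- **the sign law** -/
theorem sign_law (h𝔪 : 𝔪 ≠ ⊤) (h0 : 𝔪 ≠ ⊥) (hc : IsClassMap 𝔪 c) (hR : 1 ≤ InfinitePlace.nrComplexPlaces K)
    {Z : G → ℂ → ℂ} (hZ : IsPZ 𝔪 c Z) {x : 𝓞 K} (hx0 : x ≠ 0) (hx1 : x - 1 ∈ 𝔪) (A : G) :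
    deriv (Z (A * c (Ideal.span {x}))) 0 =
      (-1) ^ (Finset.univ.filter fun τ : K →+* ℝ => τ (x : K) < 0).card * deriv (Z A) 0 := by
  choose y hy0 hy1 hy2 hy3 using fun τ : K →+* ℝ => exists_sign_mod (𝔪 := 𝔪) h0 τ
  have hcop : ∀ y : 𝓞 K, y - 1 ∈ 𝔪 → IsCoprime (Ideal.span {y}) 𝔪 := fun y hy => cop_span hy
  -- products
  have hprod1 : ∀ J : Finset (K →+* ℝ), (∏ τ ∈ J, y τ) - 1 ∈ 𝔪 := by
    intro J
    induction J using Finset.induction_on with
    | empty => simp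
    | insert τ J hτ ih =>
      rw [Finset.prod_insert hτ]
      have e : y τ * ∏ τ ∈ J, y τ - 1 = y τ * ((∏ τ ∈ J, y τ) - 1) + (y τ - 1) := by ring
      rw [e]
      exact 𝔪.add_mem (𝔪.mul_mem_left _ ih) (hy1 τ)
  have hprodc : ∀ J : Finset (K →+* ℝ), c (Ideal.span {∏ τ ∈ J, y τ}) = ∏ τ ∈ J, c (Ideal.span {y τ}) := by
    intro J
    induction J using Finset.induction_on with
    | empty =>
      rw [Finset.prod_empty, Finset.prod_empty]
      exact hc.ray 1 one_ne_zero (by rw [sub_self]; exact 𝔪.zero_mem) fun σ => by simp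
    | insert τ J hτ ih =>
      rw [Finset.prod_insert hτ, Finset.prod_insert hτ, ← Ideal.span_singleton_mul_span_singleton,
        hc.mul _ _ (hcop _ (hy1 τ)) (hcop _ (hprod1 J)), ih]
  have hderiv : ∀ (J : Finset (K →+* ℝ)) (A : G), deriv (Z (A * ∏ τ ∈ J, c (Ideal.span {y τ}))) 0 =
      (-1) ^ J.card * deriv (Z A) 0 := by
    intro J
    induction J using Finset.induction_on with
    | empty =>
      intro A
      rw [Finset.prod_empty, mul_one, Finset.card_empty, pow_zero, one_mul]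
    | insert τ J hτ ih =>
      intro A
      rw [Finset.prod_insert hτ, ← mul_assoc, ih, Finset.card_insert_of_notMem hτ, pow_succ]
      have h1 := (sign_one h𝔪 h0 hc hR hZ (hy0 τ) (hy1 τ) (hy2 τ) (hy3 τ) A).1
      have h2 : deriv (Z (A * c (Ideal.span {y τ}))) 0 = -deriv (Z A) 0 := by linear_combination h1
      rw [h2]
      ring
  set J := Finset.univ.filter fun τ : K →+* ℝ => τ (x : K) < 0 with hJ
  -- the class of `x`
  have hsq : ∀ J : Finset (K →+* ℝ), (∏ τ ∈ J, c (Ideal.span {y τ})) * (∏ τ ∈ J, c (Ideal.span {y τ})) = 1 := by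
    intro J
    rw [← Finset.prod_mul_distrib]
    exact Finset.prod_eq_one fun τ _ => (sign_one h𝔪 h0 hc hR hZ (hy0 τ) (hy1 τ) (hy2 τ) (hy3 τ) 1).2
  have hpos : ∀ σ : K →+* ℝ, 0 < σ ((x * ∏ τ ∈ J, y τ : 𝓞 K) : K) := by
    intro σ
    have e : ((x * ∏ τ ∈ J, y τ : 𝓞 K) : K) = (x : K) * ∏ τ ∈ J, (y τ : K) := by
      show algebraMap (𝓞 K) K (x * ∏ τ ∈ J, y τ) = algebraMap (𝓞 K) K x * ∏ τ ∈ J, algebraMap (𝓞 K) K (y τ)
      rw [map_mul, map_prod]
    rw [e, map_mul, map_prod]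
    have hne : σ (x : K) ≠ 0 := by
      rw [_root_.map_ne_zero]
      simpa using hx0
    by_cases hσ : σ ∈ J
    · have h1 : σ (x : K) < 0 := (Finset.mem_filter.1 hσ).2
      rw [← Finset.mul_prod_erase J _ hσ]
      have h2 : 0 < ∏ τ ∈ J.erase σ, σ (y τ : K) :=
        Finset.prod_pos fun τ hτ => hy3 τ σ (Finset.ne_of_mem_erase hτ).symm
      rw [← mul_assoc]
      exact mul_pos (mul_pos_of_neg_of_neg h1 (hy2 σ)) h2
    · have h1 : 0 < σ (x : K) := by
        rcases lt_or_gt_of_ne hne with h | h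
        · exact absurd (show σ ∈ J from Finset.mem_filter.2 ⟨Finset.mem_univ _, h⟩) hσ
        · exact h
      refine mul_pos h1 (Finset.prod_pos fun τ hτ => hy3 τ σ ?_)
      rintro rfl
      exact hσ hτ
  have hcx : c (Ideal.span {x}) = ∏ τ ∈ J, c (Ideal.span {y τ}) := by
    have h1 := hc.ray (x * ∏ τ ∈ J, y τ) (mul_ne_zero hx0 (Finset.prod_ne_zero_iff.2 fun τ _ => hy0 τ)) (by
      have e : x * ∏ τ ∈ J, y τ - 1 = x * ((∏ τ ∈ J, y τ) - 1) + (x - 1) := by ring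
      rw [e]
      exact 𝔪.add_mem (𝔪.mul_mem_left _ (hprod1 J)) hx1) hpos
    rw [← Ideal.span_singleton_mul_span_singleton, hc.mul _ _ (hcop _ hx1) (hcop _ (hprod1 J)), hprodc] at h1
    rw [mul_eq_one_iff_eq_inv] at h1
    rw [h1, inv_eq_iff_mul_eq_one]
    exact hsq J
  rw [hcx, hderiv]

/-- an element of the class `1` with an odd number of negative conjugates -/
theorem deriv_zero_of_odd (h𝔪 : 𝔪 ≠ ⊤) (h0 : 𝔪 ≠ ⊥) (hc : IsClassMap 𝔪 c) (hR : 1 ≤ InfinitePlace.nrComplexPlaces K)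
    {Z : G → ℂ → ℂ} (hZ : IsPZ 𝔪 c Z) {x : 𝓞 K} (hx0 : x ≠ 0) (hx1 : x - 1 ∈ 𝔪) (hcx : c (Ideal.span {x}) = 1)
    (hodd : ∀ [DecidablePred fun τ : K →+* ℝ => τ (x : K) < 0],
      Odd (Finset.univ.filter fun τ : K →+* ℝ => τ (x : K) < 0).card) (A : G) : deriv (Z A) 0 = 0 := by
  classical
  have h1 := sign_law h𝔪 h0 hc hR hZ hx0 hx1 A
  rw [hcx, mul_one, hodd.neg_one_pow] at h1
  have h2 : 2 * deriv (Z A) 0 = 0 := by linear_combination h1
  simpa using h2

end law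

end Pool.Agent.X287.ST
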