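import Pool.Agent.X287.STW

/-!
# Polynomials over the integers of a field with one complex place, with roots on the unit circle at the real places
-/

set_option autoImplicit false
set_option linter.unusedSectionVars false

open NumberField Filter Topology Asymptotics Polynomial
open IsDedekindDomain

namespace Pool.Agent.X287.ST

variable {K : Type} [Field K] [NumberField K]

lemma coeff_bound_gen {ι : Type} [Fintype ι] (y : ι → ℂ) {B : ℝ} (hB : 1 ≤ B) (hy : ∀ i, ‖y i‖ ≤ B) (j : ℕ) :
    ‖(∏ i, (X - C (y i))).coeff j‖ ≤ B ^ (Fintype.card ι) * 2 ^ (Fintype.card ι) := by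
  have hm : (∏ i, (X - C (y i))).Monic := monic_prod_of_monic _ _ fun i _ => monic_X_sub_C _
  have hd : (∏ i, (X - C (y i))).natDegree = Fintype.card ι := by
    rw [natDegree_prod_of_monic _ _ fun i _ => monic_X_sub_C _]
    simp
  have h1 := coeff_le_of_roots_le (p := ∏ i, (X - C (y i))) (f := RingHom.id ℂ) (B := B) j hm
    (IsAlgClosed.splits _) (fun z hz => by
      rw [Polynomial.map_id] at hz
      have hz2 := isRoot_of_mem_roots hz
      rw [IsRoot, eval_prod, Finset.prod_eq_zero_iff] at hz2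
      obtain ⟨i, -, hi⟩ := hz2
      rw [eval_sub, eval_X, eval_C, sub_eq_zero] at hi
      rw [hi]
      exact hy i)
  rw [Polynomial.map_id, hd] at h1
  refine h1.trans ?_
  have h2 : B ^ (Fintype.card ι - j) ≤ B ^ (Fintype.card ι) := pow_le_pow_right₀ hB (Nat.sub_le _ _)
  have h3 : ((Fintype.card ι).choose j : ℝ) ≤ 2 ^ (Fintype.card ι) := by
    exact_mod_cast Nat.choose_le_two_pow _ _
  have h4 : (0 : ℝ) ≤ B ^ (Fintype.card ι - j) := by positivity
  have h5 : (0 : ℝ) ≤ ((Fintype.card ι).choose j : ℝ) := by positivity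
  exact mul_le_mul h2 h3 h5 (h4.trans h2)

/-- finitely many polynomials with bounded conjugates of the coefficients -/
lemma poly_finite (n : ℕ) (B : ℝ) :
    {Q : (𝓞 K)[X] | Q.natDegree ≤ n ∧ ∀ (j : ℕ) (φ : K →+* ℂ), ‖φ (Q.coeff j : K)‖ ≤ B}.Finite := by
  classical
  have hF : {a : 𝓞 K | ∀ φ : K →+* ℂ, ‖φ (a : K)‖ ≤ B}.Finite := by
    have hfin := NumberField.Embeddings.finite_of_norm_le K ℂ B
    refine (hfin.preimage (f := fun a : 𝓞 K => (a : K)) RingOfIntegers.coe_injective.injOn).subset ?_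
    intro a ha
    exact ⟨a.2, ha⟩
  have hpi : {f : Fin (n + 1) → 𝓞 K | ∀ i, f i ∈ {a : 𝓞 K | ∀ φ : K →+* ℂ, ‖φ (a : K)‖ ≤ B}}.Finite :=
    Set.Finite.pi' fun _ => hF
  refine Set.Finite.of_finite_image (f := fun Q : (𝓞 K)[X] => fun i : Fin (n + 1) => Q.coeff i)
    (hpi.subset ?_) ?_
  · rintro _ ⟨Q, hQ, rfl⟩ i
    exact hQ.2 i
  · intro P hP Q hQ h
    ext j
    by_cases hj : j < n + 1
    · have h1 := congrFun h ⟨j, hj⟩
      simp only at h1
      rw [h1]
    · rw [coeff_eq_zero_of_natDegree_lt (hP.1.trans_lt (by omega)),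
        coeff_eq_zero_of_natDegree_lt (hQ.1.trans_lt (by omega))]

/-- the homomorphism to `ℂ` -/
noncomputable def toCC (φ : K →+* ℂ) : 𝓞 K →+* ℂ := φ.comp (algebraMap (𝓞 K) K)

/-- the embeddings of a field with one complex place -/
lemma emb_cases (hK : InfinitePlace.nrComplexPlaces K = 1) {ι : K →+* ℂ} (hι : ¬ComplexEmbedding.IsReal ι)
    (φ : K →+* ℂ) : (∃ τ : K →+* ℝ, φ = emb τ) ∨ φ = ι ∨ φ = ComplexEmbedding.conjugate ι := by
  classical
  by_cases hφ : ComplexEmbedding.IsReal φ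
  · left
    refine ⟨hφ.embedding, ?_⟩
    ext x
    exact (hφ.coe_embedding_apply x).symm
  · right
    have h1 : (InfinitePlace.mk φ).IsComplex := InfinitePlace.isComplex_mk_iff.2 hφ
    have h2 : (InfinitePlace.mk ι).IsComplex := InfinitePlace.isComplex_mk_iff.2 hι
    have h3 : Subsingleton {w : InfinitePlace K // w.IsComplex} := by
      rw [← Fintype.card_le_one_iff_subsingleton]
      unfold InfinitePlace.nrComplexPlaces at hK
      rw [← hK]
    have h4 : InfinitePlace.mk φ = InfinitePlace.mk ι := by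
      have := h3.elim ⟨_, h1⟩ ⟨_, h2⟩
      exact congrArg Subtype.val this
    rcases InfinitePlace.mk_eq_iff.1 h4 with h5 | h5
    · exact Or.inl h5
    · right
      rw [← h5, ComplexEmbedding.conjugate, ComplexEmbedding.conjugate, star_star]

/-- a monic polynomial whose images at the real places have their roots on the unit circle, and with the numbers `v g` as the
squares of the absolute values of the roots at the complex place -/
def CirclePoly {G : Type} [Fintype G] (ι : K →+* ℂ) (v : G → ℝ) : Prop :=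
  ∃ (Q : (𝓞 K)[X]) (z : G → ℂ), Q.Monic ∧ Q.map (toCC ι) = ∏ g, (X - C (z g)) ∧ (∀ g, v g = ‖z g‖ ^ 2) ∧
    ∀ (τ : K →+* ℝ) (y : ℂ), (Q.map (toC τ)).eval y = 0 → ‖y‖ = 1

theorem circlePoly_finite {G : Type} [Fintype G] (hK : InfinitePlace.nrComplexPlaces K = 1) {ι : K →+* ℂ}
    (hι : ¬ComplexEmbedding.IsReal ι) (B : ℝ) : {v : G → ℝ | CirclePoly ι v ∧ ∀ g, v g ≤ B}.Finite := by
  classical
  set n := Fintype.card G with hn
  set M : ℝ := max 1 B with hM
  have hM1 : 1 ≤ M := le_max_left _ _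
  have hfin := poly_finite (K := K) n (M ^ n * 2 ^ n)
  refine (hfin.biUnion (t := fun Q => (fun (z : G → ℂ) (g : G) => ‖z g‖ ^ 2) ''
    {z : G → ℂ | ∀ g, z g ∈ ((Q.map (toCC ι)).roots.toFinset : Set ℂ)}) fun Q _ =>
    (Set.Finite.pi' fun _ => Finset.finite_toSet _).image _).subset ?_
  rintro v ⟨⟨Q, z, hQm, hQ, hv, hcirc⟩, hB⟩
  have hdeg : Q.natDegree = n := by
    have h1 : (Q.map (toCC ι)).natDegree = Q.natDegree := hQm.natDegree_map _
    rw [← h1, hQ, natDegree_prod_of_monic _ _ fun i _ => monic_X_sub_C _]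
    simp [hn]
  have hcz : ∀ j, ‖toCC ι (Q.coeff j)‖ ≤ M ^ n * 2 ^ n := by
    intro j
    rw [← coeff_map, hQ]
    refine coeff_bound_gen z hM1 (fun g => ?_) j
    have h1 : ‖z g‖ ^ 2 ≤ M := by
      rw [← hv]
      exact (hB g).trans (le_max_right _ _)
    by_contra hcon
    push Not at hcon
    nlinarith
  simp only [Set.mem_iUnion]
  refine ⟨Q, ⟨hdeg.le, fun j φ => ?_⟩, z, fun g => ?_, ?_⟩
  · rcases emb_cases hK hι φ with ⟨τ, rfl⟩ | rfl | rfl
    · have h1 : emb τ (Q.coeff j : K) = (Q.map (toC τ)).coeff j := by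
        rw [coeff_map]
        rfl
      rw [h1]
      obtain ⟨m, y, hy⟩ := exists_family (Q.map (toC τ)) (hQm.map _)
      have hm : m = n := by
        have h2 : (Q.map (toC τ)).natDegree = Q.natDegree := hQm.natDegree_map _
        rw [← hdeg, ← h2, hy, natDegree_prod_of_monic _ _ fun i _ => monic_X_sub_C _]
        simp
      have h3 : ∀ i, ‖y i‖ ≤ 1 := by
        intro i
        refine (hcirc τ (y i) ?_).le
        rw [hy, eval_prod]
        exact Finset.prod_eq_zero (Finset.mem_univ i) (by simp)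
      rw [hy]
      have h4 := coeff_bound_gen y le_rfl h3 j
      rw [Fintype.card_fin, one_pow, one_mul] at h4
      refine h4.trans ?_
      rw [hm]
      have h5 : (1 : ℝ) ≤ M ^ n := one_le_pow₀ hM1
      have h6 : (0 : ℝ) < 2 ^ n := by positivity
      nlinarith
    · exact hcz j
    · rw [ComplexEmbedding.conjugate_coe_eq, Complex.norm_conj]
      exact hcz j
  · rw [Finset.mem_coe, Multiset.mem_toFinset, mem_roots (hQm.map _).ne_zero, IsRoot, hQ, eval_prod]
    exact Finset.prod_eq_zero (Finset.mem_univ g) (by simp)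
  · funext g
    exact (hv g).symm

/-- **approximate solutions at all precisions give an exact one** -/
theorem circlePoly_closed {G : Type} [Fintype G] (hK : InfinitePlace.nrComplexPlaces K = 1) {ι : K →+* ℂ}
    (hι : ¬ComplexEmbedding.IsReal ι) {x : G → ℝ}
    (h : ∀ δ : ℝ, 0 < δ → ∃ v : G → ℝ, CirclePoly ι v ∧ ∀ g, |v g - x g| < δ) : CirclePoly ι x := by
  classical
  obtain ⟨B, hB⟩ : ∃ B : ℝ, ∀ g, x g + 1 ≤ B := by
    refine ⟨∑ g, |x g| + 1, fun g => ?_⟩
    have h1 : |x g| ≤ ∑ g, |x g| :=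
      Finset.single_le_sum (f := fun g => |x g|) (fun _ _ => abs_nonneg _) (Finset.mem_univ g)
    have h2 := le_abs_self (x g)
    linarith
  have hfin := circlePoly_finite (G := G) hK hι B
  have hmem : x ∈ closure {v : G → ℝ | CirclePoly ι v ∧ ∀ g, v g ≤ B} := by
    rw [Metric.mem_closure_iff]
    intro ε hε
    obtain ⟨v, hv, h1⟩ := h (min (ε / 2) 1) (lt_min (half_pos hε) one_pos)
    refine ⟨v, ⟨hv, fun g => ?_⟩, ?_⟩
    · have h2 := (abs_lt.1 ((h1 g).trans_le (min_le_right _ _))).2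
      linarith [hB g]
    · refine lt_of_le_of_lt ((dist_pi_le_iff (half_pos hε).le).2 fun g => ?_) (half_lt_self hε)
      rw [dist_comm, Real.dist_eq]
      exact ((h1 g).trans_le (min_le_left _ _)).le
  rw [hfin.isClosed.closure_eq] at hmem
  exact hmem.1

end Pool.Agent.X287.ST
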