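import Pool.Agent.X287.STX

/-!
# Units from the abelian condition: elements of the annihilator of the roots of unity
-/

set_option autoImplicit false
set_option linter.unusedSectionVars false

open NumberField Filter Topology Asymptotics Polynomial
open IsDedekindDomain

namespace Pool.Agent.X287.ST

variable {K : Type} [Field K] [NumberField K] {G : Type} [CommGroup G] [Fintype G] {H : Type} [Field H]
  [NumberField H] [Algebra K H] [IsGalois K H]

/-- **the abelian condition**: `u^θ` is an `e`-th power for `θ` in the annihilator of the roots of unity -/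
theorem abelian_descent (art : G ≃* Gal(H/K)) {e : ℕ} (he : 0 < e) (hroot : ∃ ζ : H, IsPrimitiveRoot ζ e) {u : H}
    (hu : u ≠ 0) {M : Type} [Field M] [NumberField M] [Algebra H M] [Algebra K M] [IsScalarTower K H M] [IsGalois K M]
    (hcomm : ∀ a b : Gal(M/K), a * b = b * a) {α : M} (hα : α ^ e = algebraMap H M u) (n : G → ℤ)
    (hn : ∀ ζ : H, ζ ^ e = 1 → ∏ A, (art A ζ) ^ (n A) = 1) :
    ∃ b : H, ∀ B, (art B b) ^ e = ∏ A, (art (B * A) u) ^ (n A) := by
  classical
  have _ : Algebra.IsAlgebraic K H := Algebra.IsAlgebraic.of_finite K H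
  have _ : IsGalois H M := IsGalois.tower_top_of_isGalois K H M
  have hlift : ∀ A : G, ∃ g : Gal(M/K), ∀ x : H, g (algebraMap H M x) = algebraMap H M (art A x) := by
    intro A
    have hnorm : Normal K H := inferInstance
    obtain ⟨g, hg⟩ := AlgEquiv.restrictNormalHom_surjective (F := K) (K₁ := H) M (art A)
    refine ⟨g, fun x => ?_⟩
    have h1 := AlgEquiv.restrictNormal_commutes g H x
    have h2 : AlgEquiv.restrictNormal g H = art A := hg
    rw [h2] at h1
    exact h1.symm
  choose g hg using hlift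
  have hα0 : α ≠ 0 := by
    intro h
    rw [h, zero_pow he.ne'] at hα
    exact hu ((map_eq_zero _).1 hα.symm)
  set β : M := ∏ A, (g A α) ^ (n A) with hβ
  have hβH : ∃ b : H, algebraMap H M b = β := by
    have h1 : ∀ t : Gal(M/H), t β = β := by
      intro t
      -- the root of unity
      obtain ⟨ζ₀, hζ₀⟩ := hroot
      have h2 : (t α / α) ^ e = 1 := by
        rw [div_pow, ← map_pow, hα, t.commutes, div_self]
        rw [← hα]
        exact pow_ne_zero _ hα0
      have h3 : IsPrimitiveRoot (algebraMap H M ζ₀) e := hζ₀.map_of_injective (algebraMap H M).injective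
      have _ : NeZero e := ⟨he.ne'⟩
      obtain ⟨i, -, hi⟩ := h3.eq_pow_of_pow_eq_one h2
      set ζ : H := ζ₀ ^ i with hζ
      have hζe : ζ ^ e = 1 := by
        rw [hζ, ← pow_mul, mul_comm, pow_mul, hζ₀.pow_eq_one, one_pow]
      have h4 : t α = algebraMap H M ζ * α := by
        rw [hζ, map_pow, hi, div_mul_cancel₀ _ hα0]
      have h5 : ∀ A, t (g A α) = algebraMap H M (art A ζ) * g A α := by
        intro A
        have h6 := hcomm (t.restrictScalars K) (g A)
        have h7 := congrArg (fun f : Gal(M/K) => f α) h6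
        have h8 : t (g A α) = g A (t α) := h7
        rw [h8, h4, map_mul, hg]
      rw [hβ, map_prod]
      have h6 : ∀ A, t ((g A α) ^ (n A)) = algebraMap H M ((art A ζ) ^ (n A)) * (g A α) ^ (n A) := by
        intro A
        rw [map_zpow₀, h5, mul_zpow, map_zpow₀]
      rw [Finset.prod_congr rfl fun A _ => h6 A, Finset.prod_mul_distrib, ← map_prod, hn ζ hζe, map_one, one_mul]
    obtain ⟨b, hb⟩ := IntermediateField.mem_bot.1 ((IsGalois.mem_bot_iff_fixed (F := H) (E := M) β).2 h1)
    exact ⟨b, hb⟩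
  obtain ⟨b, hb⟩ := hβH
  refine ⟨b, fun B => ?_⟩
  apply (algebraMap H M).injective
  rw [map_pow, ← hg B b, hb, hβ, map_prod, ← Finset.prod_pow, map_prod]
  refine Finset.prod_congr rfl fun A _ => ?_
  rw [map_zpow₀, map_zpow₀, ← zpow_natCast, ← zpow_mul, mul_comm (n A), zpow_mul, zpow_natCast, ← map_pow, ← map_pow,
    hα, hg, hg, map_mul]
  rfl

/-- the polynomial of a unit of `H` whose conjugates at the real places have absolute value one -/
theorem circlePoly_of_unit {ι : K →+* ℂ} (art : G ≃* Gal(H/K)) {τ : H →+* ℂ} (hτ : τ.comp (algebraMap K H) = ι)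
    {b : H} (hb : IsIntegral ℤ b)
    (hcirc : ∀ (φ : H →+* ℂ) (σ : K →+* ℝ), φ.comp (algebraMap K H) = Complex.ofRealHom.comp σ → ∀ A, ‖φ (art A b)‖ = 1) :
    CirclePoly ι (fun A => ‖τ (art A b)‖ ^ 2) := by
  classical
  have hint : ∀ A, IsIntegral ℤ (art A b) := fun A => hb.map ((art A : H ≃ₐ[K] H) : H →+* H).toIntAlgHom
  set ω : G → 𝓞 H := fun A => ⟨art A b, hint A⟩ with hω
  obtain ⟨Q, hQm, hQ⟩ := descent art ω (fun A B => by
    show art B (art A b) = art (A * B) b
    rw [mul_comm A B, map_mul]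
    rfl)
  have hext : ∀ φ : H →+* ℂ, Q.map (φ.comp ((algebraMap K H).comp (algebraMap (𝓞 K) K))) =
      ∏ A, (X - C (φ (art A b))) := by
    intro φ
    have h2 := congrArg (Polynomial.map φ) hQ
    rw [Polynomial.map_map, Polynomial.map_prod] at h2
    rw [h2]
    refine Finset.prod_congr rfl fun A _ => ?_
    rw [Polynomial.map_sub, Polynomial.map_X, Polynomial.map_C]
    rfl
  refine ⟨Q, fun A => τ (art A b), hQm, ?_, fun _ => rfl, fun σ y hy => ?_⟩
  · rw [← hext τ, ← RingHom.comp_assoc, hτ]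
    rfl
  · let _ : Algebra K ℂ := (Complex.ofRealHom.comp σ).toAlgebra
    have _ : Algebra.IsAlgebraic K H := Algebra.IsAlgebraic.of_finite K H
    let φ : H →ₐ[K] ℂ := IsAlgClosed.lift
    have hφ : (φ : H →+* ℂ).comp (algebraMap K H) = Complex.ofRealHom.comp σ := by
      ext a
      exact φ.commutes a
    have h2 := hext φ
    rw [← RingHom.comp_assoc, hφ] at h2
    have h3 : Q.map (toC σ) = ∏ A, (X - C ((φ : H →+* ℂ) (art A b))) := h2
    rw [h3, eval_prod, Finset.prod_eq_zero_iff] at hy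
    obtain ⟨A, -, hA⟩ := hy
    rw [eval_sub, eval_X, eval_C, sub_eq_zero] at hA
    rw [hA]
    exact hcirc φ σ hφ A

/-- **Stark's unit and the abelian condition** give circle polynomials for the annihilator of the roots of unity -/
theorem circlePoly_twist {ι : K →+* ℂ} (art : G ≃* Gal(H/K)) {τ : H →+* ℂ} (hτ : τ.comp (algebraMap K H) = ι)
    {e : ℕ} (he : 0 < e) (hroot : ∃ ζ : H, IsPrimitiveRoot ζ e) (u : (𝓞 H)ˣ) {d : G → ℝ}
    (hval : ∀ A, ‖τ (art A ((u : 𝓞 H) : H))‖ ^ 2 = Real.exp (-(e * d A)))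
    (hcirc : ∀ (φ : H →+* ℂ) (σ : K →+* ℝ), φ.comp (algebraMap K H) = Complex.ofRealHom.comp σ →
      ‖φ ((u : 𝓞 H) : H)‖ = 1)
    {M : Type} [Field M] [NumberField M] [Algebra H M] [Algebra K M] [IsScalarTower K H M] [IsGalois K M]
    (hcomm : ∀ a b : Gal(M/K), a * b = b * a) {α : M} (hα : α ^ e = algebraMap H M ((u : 𝓞 H) : H)) (n : G → ℤ)
    (hn : ∀ ζ : H, ζ ^ e = 1 → ∏ A, (art A ζ) ^ (n A) = 1) :
    CirclePoly ι (fun B => Real.exp (-∑ A, n A * d (B * A))) := by
  classical
  set w : H := ((u : 𝓞 H) : H) with hw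
  have hw0 : w ≠ 0 := by
    rw [hw]
    simp
  have hwi : IsIntegral ℤ w := (u : 𝓞 H).isIntegral_coe
  have hwinv : IsIntegral ℤ w⁻¹ := by
    have h1 : w⁻¹ = (((u⁻¹ : (𝓞 H)ˣ) : 𝓞 H) : H) := by
      refine inv_eq_of_mul_eq_one_right ?_
      rw [hw, ← map_mul, ← Units.val_mul, mul_inv_cancel, Units.val_one, map_one]
    rw [h1]
    exact ((u⁻¹ : (𝓞 H)ˣ) : 𝓞 H).isIntegral_coe
  obtain ⟨b, hb⟩ := abelian_descent art he hroot hw0 hcomm hα n hn
  have hb1 : b ^ e = ∏ A, (art A w) ^ (n A) := by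
    have h1 := hb 1
    simpa using h1
  have hzint : ∀ (A : G) (k : ℤ), IsIntegral ℤ ((art A w) ^ k) := by
    intro A k
    have h1 : IsIntegral ℤ (art A w) := hwi.map ((art A : H ≃ₐ[K] H) : H →+* H).toIntAlgHom
    have h2 : IsIntegral ℤ (art A w)⁻¹ := by
      rw [← map_inv₀]
      exact hwinv.map ((art A : H ≃ₐ[K] H) : H →+* H).toIntAlgHom
    obtain ⟨m, rfl | rfl⟩ := k.eq_nat_or_neg
    · rw [zpow_natCast]
      exact h1.pow m
    · rw [zpow_neg, zpow_natCast, ← inv_pow]
      exact h2.pow m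
  have hbint : IsIntegral ℤ b := by
    refine IsIntegral.of_pow he ?_
    rw [hb1]
    exact IsIntegral.prod _ fun A _ => hzint A _
  have h1 := circlePoly_of_unit art hτ hbint (fun φ σ hφ B => by
    have h2 : ‖φ (art B b)‖ ^ e = 1 := by
      rw [← norm_pow, ← map_pow, hb, map_prod, norm_prod]
      refine Finset.prod_eq_one fun A _ => ?_
      rw [map_zpow₀, norm_zpow]
      have h3 : (φ.comp ((art (B * A) : H ≃ₐ[K] H) : H →+* H)).comp (algebraMap K H) = Complex.ofRealHom.comp σ := by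
        rw [← hφ]
        ext a
        simp
      have h4 := hcirc _ σ h3
      have h5 : ‖φ (art (B * A) w)‖ = 1 := h4
      rw [h5, one_zpow]
    exact (pow_eq_one_iff_of_nonneg (norm_nonneg _) he.ne').1 h2)
  have h2 : (fun B => Real.exp (-∑ A, n A * d (B * A))) = fun B => ‖τ (art B b)‖ ^ 2 := by
    funext B
    have h3 : (‖τ (art B b)‖ ^ 2) ^ e = (Real.exp (-∑ A, n A * d (B * A))) ^ e := by
      rw [← pow_mul, mul_comm, pow_mul, ← norm_pow, ← map_pow, hb, map_prod, norm_prod, ← Finset.prod_pow,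
        ← Real.exp_nat_mul]
      have h4 : ∀ A, ‖τ ((art (B * A) w) ^ (n A))‖ ^ 2 = Real.exp (-(e * (n A * d (B * A)))) := by
        intro A
        rw [map_zpow₀, norm_zpow, ← zpow_natCast, ← zpow_mul, mul_comm (n A), zpow_mul, zpow_natCast, hval,
          ← Real.rpow_intCast, ← Real.exp_mul]
        congr 1
        ring
      rw [Finset.prod_congr rfl fun A _ => h4 A, ← Real.exp_sum]
      congr 1
      rw [Finset.sum_neg_distrib, mul_neg, Finset.mul_sum]
    exact ((pow_left_inj₀ (by positivity) (by positivity) he.ne').1 h3).symm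
  rw [h2]
  exact h1

end Pool.Agent.X287.ST
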