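import Pool.Agent.TH942.SL.Level
import Pool.Agent.TH942.OS.Up

/-!
# One-sided bounds for the sectorial means (part 1)
-/

set_option autoImplicit false

open MeasureTheory Filter Topology Set Complex
open Pool.Agent.TH942.LS (Dat P P_le Cont Qf)
open Pool.Agent.TH942.SL
open Pool.Agent.W263.BSD (LInt lap)

namespace Pool.Agent.X287.Sect

variable {α : ℝ} {lam c : ℕ → ℝ} {δ σ : ℝ} {Ψ Kf : ℂ → ℂ}

/-- the function `y M(y)` and its Laplace transform -/
structure Fn (lam c : ℕ → ℝ) (σ α x₀ K : ℝ) (f : ℝ → ℝ) : Prop where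
  one : 1 ≤ x₀
  far : ∀ z : ℂ, 0 < z.re → x₀ ≤ ‖z‖ → σ + 1 ≤ kap α * ‖z‖ ^ α
  K0 : 0 ≤ K
  cont : Continuous f
  eq : ∀ y, 0 < y → f y = y * M lam c α y
  bd : ∀ y, |f y| ≤ K * Real.exp (x₀ * y)
  lap : ∀ s : ℂ, x₀ < s.re → ∫ y in Ioi (0 : ℝ), exp (-(s * y)) * (f y : ℂ) =
    hh (f₀ lam c α) (f₁ lam c α) s

theorem exists_fn (D : Dat lam c δ σ) (h0 : 0 < α) (h1 : α < 1) :
    ∃ (x₀ K : ℝ) (f : ℝ → ℝ), Fn lam c σ α x₀ K f := by
  obtain ⟨x₀, hx1, hx₀⟩ := exists_abscissa h0 h1 σ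
  obtain ⟨g, K, hK, hgc, hneg, hgpos, hgb, hinv⟩ := lines D h0 h1 hx1 hx₀
  refine ⟨x₀, K, fun y => (g y).re, hx1, hx₀, hK, Complex.continuous_re.comp hgc, fun y hy => ?_,
    fun y => (Complex.abs_re_le_norm _).trans (hgb y), fun s hs => ?_⟩
  · rw [hgpos y hy, Complex.ofReal_re]
  · have e1 := hinv s.re hs s.im
    rw [Complex.re_add_im] at e1
    rw [← e1, ← integral_indicator measurableSet_Ioi]
    refine integral_congr_ae ?_
    have e2 : ∀ᵐ y : ℝ, y ≠ 0 := by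
      rw [ae_iff]
      simp
    filter_upwards [e2] with y hy
    by_cases hy2 : y ∈ Ioi (0 : ℝ)
    · rw [indicator_of_mem hy2]
      have hy3 : 0 < y := hy2
      rw [hgpos y hy3, Complex.ofReal_re]
    · rw [indicator_of_notMem hy2]
      have : y < 0 := lt_of_le_of_ne (not_lt.1 hy2) hy
      rw [hneg y this, mul_zero]

/-- **convergence of the Laplace integral implies a zero-free region** -/
theorem down_int (D : Dat lam c δ σ) (H : Cont lam c σ 0 Ψ Kf) (h0 : 0 < α) (h1 : α < 1)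
    {x₀ K : ℝ} {f : ℝ → ℝ} (hf : Fn lam c σ α x₀ K f)
    {a : ℝ} (ha : 0 ≤ a) (hI : ∀ x : ℝ, a < x → LInt f x) {v₀ : ℂ}
    (hv₀ : a < v₀.re) : Ψ (v₀ ^ (α : ℂ)) ≠ 0 := by
  have hx₀ := hf.far
  set x₁ : ℝ := max x₀ a with hx₁
  have hx01 : x₀ ≤ x₁ := le_max_left _ _
  have hax1 : a ≤ x₁ := le_max_right _ _
  set U : Set ℂ := {v | a < v.re} with hU
  have hUo : IsOpen U := isOpen_lt continuous_const Complex.continuous_re
  have hUc : Convex ℝ U := convex_halfSpace_re_gt a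
  set W : Set ℂ := {v | x₁ < v.re} with hW
  have hWo : IsOpen W := isOpen_lt continuous_const Complex.continuous_re
  have hWc : Convex ℝ W := convex_halfSpace_re_gt x₁
  have hWU : W ⊆ U := fun v hv => lt_of_le_of_lt hax1 hv
  have hUpos : ∀ v ∈ U, 0 < v.re := fun v hv => lt_of_le_of_lt ha hv
  -- the Laplace transform
  set G : ℂ → ℂ := fun v => ∫ y in Ioi (0 : ℝ), exp (-(v * y)) * (f y : ℂ) with hG
  have hGW : ∀ v ∈ W, G v = hh (f₀ lam c α) (f₁ lam c α) v := fun v hv =>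
    hf.lap v (lt_of_le_of_lt hx01 hv)
  have hGd : DifferentiableOn ℂ G U := fun t ht =>
    (Pool.Agent.TH942.OS.lap_diff hf.cont.aestronglyMeasurable hI ht).differentiableWithinAt
  -- a primitive
  obtain ⟨GG, hGG⟩ := convex_primitive hUo hUc hGd
  have hWx : ∀ v ∈ W, 0 < v.re ∧ σ + 1 ≤ kap α * ‖v‖ ^ α ∧ σ < (v ^ (α : ℂ)).re := by
    intro v hv
    have e1 : 0 < v.re := hUpos v (hWU hv)
    have e2 : x₀ ≤ ‖v‖ := (hx01.trans (le_of_lt hv)).trans (re_le_norm v)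
    have e3 := hx₀ v e1 e2
    have e4 := re_pow_ge h0 h1 e1
    exact ⟨e1, e3, by linarith⟩
  set w₀ : ℂ := ((x₁ + 1 : ℝ) : ℂ) with hw₀
  have hw₀W : w₀ ∈ W := by
    change x₁ < w₀.re
    rw [hw₀, Complex.ofReal_re]
    linarith
  set k : ℂ := f₀ lam c α w₀ / w₀ + GG w₀ with hk
  have hconst : ∀ v ∈ W, f₀ lam c α v / v + GG v = k := by
    have hd : ∀ v ∈ W, HasDerivAt (fun v => f₀ lam c α v / v + GG v) 0 v := by
      intro v hv
      obtain ⟨e1, e2, e3⟩ := hWx v hv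
      have e4 := (f₀_deriv D e1 e3).div (hasDerivAt_id v) (ne_zero' e1)
      refine (e4.add (hGG v (hWU hv))).congr_deriv ?_
      rw [hGW v hv]
      have := ne_zero' e1
      simp only [hh, id]
      field_simp
      ring
    intro v hv
    refine hWc.is_const_of_fderivWithin_eq_zero (𝕜 := ℂ)
      (fun z hz => (hd z hz).differentiableAt.differentiableWithinAt) (fun z hz => ?_) hv hw₀W
    rw [fderivWithin_of_isOpen hWo hz]
    ext
    simp [(hd z hz).deriv]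
  -- the continuation of `f₀`
  set fh : ℂ → ℂ := fun v => v * (k - GG v) with hfh
  set fh' : ℂ → ℂ := fun v => (k - GG v) - v * G v with hfh'
  have hfhd : ∀ v ∈ U, HasDerivAt fh (fh' v) v := by
    intro v hv
    have e1 : HasDerivAt (fun v => k - GG v) (-G v) v := (hGG v hv).const_sub k
    refine ((hasDerivAt_id v).mul e1).congr_deriv ?_
    rw [hfh']
    simp only [id]
    ring
  have hfW : ∀ v ∈ W, fh v = f₀ lam c α v := by
    intro v hv
    have e1 := ne_zero' (hWx v hv).1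
    rw [hfh]
    simp only
    rw [← hconst v hv]
    field_simp
    ring
  have hfW' : ∀ v ∈ W, fh' v = f₁ lam c α v := by
    intro v hv
    obtain ⟨e1, e2, e3⟩ := hWx v hv
    have e4 : fh =ᶠ[𝓝 v] f₀ lam c α := by
      filter_upwards [hWo.mem_nhds hv] with z hz
      exact hfW z hz
    exact ((hfhd v (hWU hv)).congr_of_eventuallyEq e4.symm).unique (f₀_deriv D e1 e3)
  -- the differential equation
  have hUre : ∀ v ∈ U, 0 < (v ^ (α : ℂ)).re := fun v hv => re_pow_pos h0 h1 (hUpos v hv)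
  set A : ℂ → ℂ := fun v => α * v ^ ((α : ℂ) - 1) * Kf (v ^ (α : ℂ)) - fh' v with hA
  have hpd : ∀ v ∈ U, DifferentiableAt ℂ (fun v : ℂ => v ^ (α : ℂ)) v := fun v hv =>
    (pow_deriv (slit (hUpos v hv))).differentiableAt
  have hAd : DifferentiableOn ℂ A U := by
    intro v hv
    have e1 : DifferentiableAt ℂ (fun v : ℂ => v ^ ((α : ℂ) - 1)) v :=
      differentiableAt_id.cpow_const (slit (hUpos v hv))
    have e2 : DifferentiableAt ℂ (fun v : ℂ => Kf (v ^ (α : ℂ))) v :=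
      DifferentiableAt.comp (f := fun v : ℂ => v ^ (α : ℂ)) v (H.Kd _ (hUre v hv)) (hpd v hv)
    have e3 : DifferentiableAt ℂ fh' v := by
      have e4 : DifferentiableAt ℂ G v := (hGd v hv).differentiableAt (hUo.mem_nhds hv)
      exact ((differentiableAt_const k).sub (hGG v hv).differentiableAt).sub
        (differentiableAt_id.mul e4)
    exact (((e1.const_mul (α : ℂ)).mul e2).sub e3).differentiableWithinAt
  obtain ⟨AA, hAA⟩ := convex_primitive hUo hUc hAd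
  set χ : ℂ → ℂ := fun v => Ψ (v ^ (α : ℂ)) * exp (-AA v) with hχ
  have hχd : ∀ v ∈ U, DifferentiableAt ℂ χ v := by
    intro v hv
    have e2 : DifferentiableAt ℂ (fun v : ℂ => Ψ (v ^ (α : ℂ))) v :=
      DifferentiableAt.comp (f := fun v : ℂ => v ^ (α : ℂ)) v (H.Ψd _ (hUre v hv)) (hpd v hv)
    exact e2.mul (hAA v hv).differentiableAt.neg.cexp
  have hχW : ∀ v ∈ W, HasDerivAt χ 0 v := by
    intro v hv
    obtain ⟨e1, e2, e3⟩ := hWx v hv
    have e4 : HasDerivAt (fun v : ℂ => Ψ (v ^ (α : ℂ)))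
        (deriv Ψ (v ^ (α : ℂ)) * (α * v ^ ((α : ℂ) - 1))) v :=
      HasDerivAt.comp (h := fun v : ℂ => v ^ (α : ℂ)) v
        (H.Ψd _ (hUre v (hWU hv))).hasDerivAt (pow_deriv (slit e1))
    have e5 : HasDerivAt (fun v => exp (-AA v)) (exp (-AA v) * (-A v)) v :=
      (hAA v (hWU hv)).neg.cexp
    refine (e4.mul e5).congr_deriv ?_
    have e6 : A v = α * v ^ ((α : ℂ) - 1) * (deriv Ψ (v ^ (α : ℂ)) / Ψ (v ^ (α : ℂ))) := by
      rw [hA]
      simp only
      rw [hfW' v hv]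
      unfold f₁
      rw [H.eq _ e3]
      ring
    have e7 : Ψ (v ^ (α : ℂ)) ≠ 0 := H.ne _ e3
    rw [e6]
    field_simp
    ring
  have hχc : ∀ v ∈ W, χ v = χ w₀ := by
    intro v hv
    refine hWc.is_const_of_fderivWithin_eq_zero (𝕜 := ℂ)
      (fun z hz => (hχW z hz).differentiableAt.differentiableWithinAt) (fun z hz => ?_) hv hw₀W
    rw [fderivWithin_of_isOpen hWo hz]
    ext
    simp [(hχW z hz).deriv]
  have hw0ne : χ w₀ ≠ 0 := by
    rw [hχ]
    exact mul_ne_zero (H.ne _ (hWx w₀ hw₀W).2.2) (Complex.exp_ne_zero _)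
  have a1 : AnalyticOnNhd ℂ χ U :=
    DifferentiableOn.analyticOnNhd (fun v hv => (hχd v hv).differentiableWithinAt) hUo
  have a2 : AnalyticOnNhd ℂ (fun _ : ℂ => χ w₀) U := analyticOnNhd_const
  have a3 := a1.eqOn_of_preconnected_of_eventuallyEq a2 hUc.isPreconnected (hWU hw₀W) (by
    filter_upwards [hWo.mem_nhds hw₀W] with v hv
    exact hχc v hv)
  have a4 := a3 (show v₀ ∈ U from hv₀)
  simp only at a4
  intro h2
  rw [hχ] at a4
  simp only at a4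
  rw [h2, zero_mul] at a4
  exact hw0ne a4.symm


/-- `qf` is analytic where `Ψ(v^α)` does not vanish -/
theorem qf_analytic (H : Cont lam c σ 0 Ψ Kf) (h0 : 0 < α) (h1 : α < 1) {v : ℂ} (hv : 0 < v.re)
    (hne : Ψ (v ^ (α : ℂ)) ≠ 0) : AnalyticAt ℂ (qf Ψ Kf α) v := by
  rw [Complex.analyticAt_iff_eventually_differentiableAt]
  have hc : ContinuousAt (fun v : ℂ => Ψ (v ^ (α : ℂ))) v :=
    ContinuousAt.comp (f := fun v : ℂ => v ^ (α : ℂ)) (H.Ψd _ (re_pow_pos h0 h1 hv)).continuousAt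
      (pow_deriv (slit hv)).continuousAt
  have ho : IsOpen {z : ℂ | 0 < z.re} := isOpen_lt continuous_const Complex.continuous_re
  filter_upwards [hc.eventually_ne hne, ho.mem_nhds hv] with z h2 h3
  exact qf_diff_a H h0 h1 h3 h2

/-- a real primitive of `qf` -/
noncomputable def fr (lam c : ℕ → ℝ) (Ψ Kf : ℂ → ℂ) (α x₃ s : ℝ) : ℂ :=
  f₀ lam c α x₃ + ∫ t in x₃..s, qf Ψ Kf α t

theorem fr_deriv (H : Cont lam c σ 0 Ψ Kf) (h0 : 0 < α) (h1 : α < 1) {ξ : ℝ} (hξ : 0 ≤ ξ)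
    (hne : ∀ v : ℝ, ξ < v → Ψ ((v : ℂ) ^ (α : ℂ)) ≠ 0) {x₃ : ℝ} (hx₃ : ξ < x₃) {s : ℝ} (hs : ξ < s) :
    HasDerivAt (fr lam c Ψ Kf α x₃) (qf Ψ Kf α s) s := by
  have hc : ContinuousOn (fun t : ℝ => qf Ψ Kf α t) (Ioi ξ) := by
    intro t ht
    have ht' : ξ < t := ht
    have h2 : ContinuousAt (qf Ψ Kf α) (t : ℂ) :=
      (qf_analytic H h0 h1 (v := (t : ℂ)) (by simpa using lt_of_le_of_lt hξ ht') (hne t ht')).continuousAt
    exact (ContinuousAt.comp (f := fun t : ℝ => (t : ℂ)) h2 (by fun_prop)).continuousWithinAt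
  have hsub : uIcc x₃ s ⊆ Ioi ξ := by
    intro t ht
    have := ht.1
    exact lt_of_lt_of_le (lt_min hx₃ hs) this
  have h2 : IntervalIntegrable (fun t : ℝ => qf Ψ Kf α t) volume x₃ s :=
    (hc.mono hsub).intervalIntegrable
  have h3 := intervalIntegral.integral_hasDerivAt_right h2
    (hc.stronglyMeasurableAtFilter isOpen_Ioi s hs) (hc.continuousAt (isOpen_Ioi.mem_nhds hs))
  exact h3.const_add _

/-- the real primitive is locally the restriction of an analytic function -/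
theorem fr_local (H : Cont lam c σ 0 Ψ Kf) (h0 : 0 < α) (h1 : α < 1) {ξ : ℝ} (hξ : 0 ≤ ξ)
    (hne : ∀ v : ℝ, ξ < v → Ψ ((v : ℂ) ^ (α : ℂ)) ≠ 0) {x₃ : ℝ} (hx₃ : ξ < x₃) {s : ℝ} (hs : ξ < s) :
    ∃ G : ℂ → ℂ, AnalyticAt ℂ G s ∧ ∀ᶠ t : ℝ in 𝓝 s, fr lam c Ψ Kf α x₃ t = G t := by
  have h2 := qf_analytic H h0 h1 (v := (s : ℂ)) (by simpa using lt_of_le_of_lt hξ hs) (hne s hs)
  obtain ⟨r, hr, hball⟩ := Metric.eventually_nhds_iff_ball.1
    (Complex.analyticAt_iff_eventually_differentiableAt.1 h2)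
  obtain ⟨G, hG⟩ := convex_primitive Metric.isOpen_ball (convex_ball (s : ℂ) r) (f := qf Ψ Kf α)
    fun v hv => (hball v hv).differentiableWithinAt
  set ε : ℝ := min r (s - ξ) with hε
  have hε0 : 0 < ε := lt_min hr (by linarith)
  set J : Set ℝ := Ioo (s - ε) (s + ε) with hJ
  have hJo : IsOpen J := isOpen_Ioo
  have hJc : Convex ℝ J := convex_Ioo _ _
  have hsJ : s ∈ J := ⟨by linarith, by linarith⟩
  have hJ1 : ∀ t ∈ J, ξ < t ∧ (t : ℂ) ∈ Metric.ball (s : ℂ) r := by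
    intro t ht
    have e1 : ε ≤ s - ξ := min_le_right _ _
    have e2 : ε ≤ r := min_le_left _ _
    refine ⟨by linarith [ht.1], ?_⟩
    rw [Metric.mem_ball, Complex.dist_eq, ← Complex.ofReal_sub, Complex.norm_real, Real.norm_eq_abs,
      abs_lt]
    constructor <;> linarith [ht.1, ht.2]
  have hd : ∀ t ∈ J, HasDerivAt (fun t : ℝ => fr lam c Ψ Kf α x₃ t - G t) 0 t := by
    intro t ht
    obtain ⟨e1, e2⟩ := hJ1 t ht
    have e3 : HasDerivAt (fun t : ℝ => G t) (qf Ψ Kf α t) t := (hG _ e2).comp_ofReal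
    exact ((fr_deriv H h0 h1 hξ hne hx₃ e1).sub e3).congr_deriv (sub_self _)
  have hconst : ∀ t ∈ J, fr lam c Ψ Kf α x₃ t - G t = fr lam c Ψ Kf α x₃ s - G s := by
    intro t ht
    refine hJc.is_const_of_fderivWithin_eq_zero (𝕜 := ℝ)
      (f := fun t : ℝ => fr lam c Ψ Kf α x₃ t - G t)
      (fun z hz => (hd z hz).differentiableAt.differentiableWithinAt) (fun z hz => ?_) ht hsJ
    rw [fderivWithin_of_isOpen hJo hz]
    ext
    simp [(hd z hz).deriv]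
  refine ⟨fun v => G v + (fr lam c Ψ Kf α x₃ s - G s), ?_, ?_⟩
  · have e1 : AnalyticAt ℂ G s := by
      rw [Complex.analyticAt_iff_eventually_differentiableAt]
      filter_upwards [Metric.ball_mem_nhds (s : ℂ) hr] with z hz
      exact (hG z hz).differentiableAt
    exact e1.add analyticAt_const
  · filter_upwards [hJo.mem_nhds hsJ] with t ht
    have := hconst t ht
    rw [← this]
    ring

/-- far to the right the primitive is the series -/
theorem fr_far (D : Dat lam c δ σ) (H : Cont lam c σ 0 Ψ Kf) (h0 : 0 < α) (h1 : α < 1)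
    {x₀ K : ℝ} {f : ℝ → ℝ} (hf : Fn lam c σ α x₀ K f) {ξ : ℝ} (hξ : 0 ≤ ξ)
    (hne : ∀ v : ℝ, ξ < v → Ψ ((v : ℂ) ^ (α : ℂ)) ≠ 0) {x₃ : ℝ} (hx₃ : ξ < x₃) (hx₃' : x₀ < x₃)
    {s : ℝ} (hs : x₃ ≤ s) : fr lam c Ψ Kf α x₃ s = f₀ lam c α s := by
  set J : Set ℝ := Ioi (max ξ x₀) with hJ
  have hJo : IsOpen J := isOpen_Ioi
  have hJc : Convex ℝ J := convex_Ioi _
  have hd : ∀ t ∈ J, HasDerivAt (fun t : ℝ => fr lam c Ψ Kf α x₃ t - f₀ lam c α t) 0 t := by
    intro t ht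
    have e1 : ξ < t := (le_max_left _ _).trans_lt ht
    have e2 : x₀ < t := (le_max_right _ _).trans_lt ht
    have e3 : 0 < (t : ℂ).re := by simpa using lt_of_le_of_lt hξ e1
    have e4 : x₀ ≤ ‖(t : ℂ)‖ := by
      rw [Complex.norm_real, Real.norm_eq_abs]
      exact e2.le.trans (le_abs_self _)
    have e5 := hf.far _ e3 e4
    have e6 := re_pow_ge h0 h1 e3
    have e7 : HasDerivAt (fun t : ℝ => f₀ lam c α t) (f₁ lam c α t) t :=
      (f₀_deriv D e3 (by linarith)).comp_ofReal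
    refine ((fr_deriv H h0 h1 hξ hne hx₃ e1).sub e7).congr_deriv ?_
    rw [qf_far H h0 h1 e3 e5, sub_self]
  have h3 : x₃ ∈ J := max_lt hx₃ hx₃'
  have h4 : s ∈ J := lt_of_lt_of_le h3 hs
  have h5 : fr lam c Ψ Kf α x₃ s - f₀ lam c α s = fr lam c Ψ Kf α x₃ x₃ - f₀ lam c α x₃ := by
    refine hJc.is_const_of_fderivWithin_eq_zero (𝕜 := ℝ)
      (f := fun t : ℝ => fr lam c Ψ Kf α x₃ t - f₀ lam c α t)
      (fun z hz => (hd z hz).differentiableAt.differentiableWithinAt) (fun z hz => ?_) h4 h3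
    rw [fderivWithin_of_isOpen hJo hz]
    ext
    simp [(hd z hz).deriv]
  have h6 : fr lam c Ψ Kf α x₃ x₃ = f₀ lam c α x₃ := by
    unfold fr
    rw [intervalIntegral.integral_same, add_zero]
  rw [h6, sub_self] at h5
  exact sub_eq_zero.1 h5

/-- the exponential of the primitive -/
theorem fr_exp (H : Cont lam c σ 0 Ψ Kf) (h0 : 0 < α) (h1 : α < 1) {ξ : ℝ} (hξ : 0 ≤ ξ)
    (hne : ∀ v : ℝ, ξ < v → Ψ ((v : ℂ) ^ (α : ℂ)) ≠ 0) {x₃ : ℝ} (hx₃ : ξ < x₃) :
    ∃ (k : ℂ) (GK : ℂ → ℂ), k ≠ 0 ∧ (∀ v : ℂ, 0 < v.re → DifferentiableAt ℂ GK v) ∧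
      ∀ s : ℝ, ξ < s → Ψ ((s : ℂ) ^ (α : ℂ)) *
        exp (fr lam c Ψ Kf α x₃ s - GK ((s : ℂ) ^ (α : ℂ))) = k := by
  have ho : IsOpen {z : ℂ | 0 < z.re} := isOpen_lt continuous_const Complex.continuous_re
  obtain ⟨GK, hGK⟩ := convex_primitive ho (convex_halfSpace_re_gt 0) (f := Kf)
    fun v hv => (H.Kd v hv).differentiableWithinAt
  set E : ℝ → ℂ := fun s => Ψ ((s : ℂ) ^ (α : ℂ)) *
    exp (fr lam c Ψ Kf α x₃ s - GK ((s : ℂ) ^ (α : ℂ))) with hE
  have hd : ∀ s ∈ Ioi ξ, HasDerivAt E 0 s := by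
    intro s hs
    have hs' : ξ < s := hs
    have e1 : 0 < (s : ℂ).re := by simpa using lt_of_le_of_lt hξ hs'
    have e2 := re_pow_pos h0 h1 e1
    have hp := pow_deriv (α := α) (slit e1)
    have d1 : HasDerivAt (fun s : ℝ => Ψ ((s : ℂ) ^ (α : ℂ)))
        (deriv Ψ ((s : ℂ) ^ (α : ℂ)) * (α * (s : ℂ) ^ ((α : ℂ) - 1))) s :=
      (HasDerivAt.comp (h := fun v : ℂ => v ^ (α : ℂ)) (s : ℂ)
        (H.Ψd _ e2).hasDerivAt hp).comp_ofReal
    have d2 : HasDerivAt (fun s : ℝ => GK ((s : ℂ) ^ (α : ℂ)))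
        (Kf ((s : ℂ) ^ (α : ℂ)) * (α * (s : ℂ) ^ ((α : ℂ) - 1))) s :=
      (HasDerivAt.comp (h := fun v : ℂ => v ^ (α : ℂ)) (s : ℂ) (hGK _ e2) hp).comp_ofReal
    have d3 := (fr_deriv H h0 h1 hξ hne hx₃ hs').sub d2
    have d4 := d1.mul d3.cexp
    refine d4.congr_deriv ?_
    have e3 := hne s hs'
    unfold qf Qf
    simp only [Pi.sub_apply]
    field_simp
    ring
  refine ⟨E x₃, GK, ?_, fun v hv => (hGK v hv).differentiableAt, fun s hs => ?_⟩
  · rw [hE]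
    exact mul_ne_zero (hne x₃ hx₃) (Complex.exp_ne_zero _)
  · refine (convex_Ioi ξ).is_const_of_fderivWithin_eq_zero (𝕜 := ℝ) (f := E)
      (fun z hz => (hd z hz).differentiableAt.differentiableWithinAt) (fun z hz => ?_) hs hx₃
    rw [fderivWithin_of_isOpen isOpen_Ioi hz]
    ext
    simp [(hd z hz).deriv]

end Pool.Agent.X287.Sect
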