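import Pool.Agent.X287.SectUp

/-!
# One-sided bounds for the sectorial means (part 2)
-/

set_option autoImplicit false

open MeasureTheory Filter Topology Set Complex
open Pool.Agent.TH942.LS (Dat P P_le Cont Qf)
open Pool.Agent.TH942.SL
open Pool.Agent.W263.BSD (LInt lap)

namespace Pool.Agent.X287.Sect

variable {α : ℝ} {lam c : ℕ → ℝ} {δ σ : ℝ} {Ψ Kf : ℂ → ℂ} {x₀ K : ℝ} {f : ℝ → ℝ}


theorem upper_all (hf : Fn lam c σ α x₀ K f) {a C y₀ : ℝ}
    (hM : ∀ y, y₀ ≤ y → M lam c α y ≤ C * Real.exp (a * y)) {a' : ℝ} (haa : a < a')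
    (ha' : 0 < a') : ∃ A, 0 ≤ A ∧ ∀ y, 0 < y → f y ≤ A * Real.exp (a' * y) := by
  have hK := hf.K0
  have h1 := hf.one
  set ε : ℝ := a' - a with hε
  have hε0 : 0 < ε := by rw [hε]; linarith
  refine ⟨K * Real.exp (x₀ * |y₀|) + |C| / ε, by positivity, fun y hy => ?_⟩
  have e0 : 1 ≤ Real.exp (a' * y) := Real.one_le_exp (by positivity)
  rcases le_total y₀ y with h | h
  · rw [hf.eq y hy]
    have e1 := hM y h
    have e2 : y ≤ Real.exp (ε * y) / ε := by
      rw [le_div_iff₀ hε0]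
      have := Real.add_one_le_exp (ε * y)
      linarith
    have e3 : C * Real.exp (a * y) ≤ |C| * Real.exp (a * y) :=
      mul_le_mul_of_nonneg_right (le_abs_self C) (Real.exp_pos _).le
    calc y * M lam c α y ≤ y * (|C| * Real.exp (a * y)) :=
          mul_le_mul_of_nonneg_left (e1.trans e3) hy.le
      _ ≤ (Real.exp (ε * y) / ε) * (|C| * Real.exp (a * y)) :=
          mul_le_mul_of_nonneg_right e2 (by positivity)
      _ = |C| / ε * (Real.exp (a * y) * Real.exp (ε * y)) := by ring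
      _ = |C| / ε * Real.exp (a' * y) := by
        rw [← Real.exp_add]
        congr 2
        rw [hε]
        ring
      _ ≤ (K * Real.exp (x₀ * |y₀|) + |C| / ε) * Real.exp (a' * y) := by
        refine mul_le_mul_of_nonneg_right ?_ (Real.exp_pos _).le
        have : 0 ≤ K * Real.exp (x₀ * |y₀|) := by positivity
        linarith
  · have e1 := (le_abs_self _).trans (hf.bd y)
    have e2 : Real.exp (x₀ * y) ≤ Real.exp (x₀ * |y₀|) := by
      apply Real.exp_le_exp.2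
      exact mul_le_mul_of_nonneg_left (h.trans (le_abs_self y₀)) (by linarith)
    calc f y ≤ K * Real.exp (x₀ * |y₀|) := e1.trans (mul_le_mul_of_nonneg_left e2 hK)
      _ ≤ K * Real.exp (x₀ * |y₀|) + |C| / ε := by
        have : 0 ≤ |C| / ε := by positivity
        linarith
      _ ≤ _ := le_mul_of_one_le_right (by positivity) e0

theorem f_LInt (hf : Fn lam c σ α x₀ K f) {s : ℝ} (hs : x₀ < s) : LInt f s := by
  unfold LInt
  have h1 : IntegrableOn (fun y : ℝ => K * Real.exp ((x₀ - s) * y)) (Ioi 0) :=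
    (integrableOn_exp_mul_Ioi (by linarith) 0).const_mul K
  refine Integrable.mono' h1 ?_ ?_
  · exact (hf.cont.mul (by fun_prop)).aestronglyMeasurable
  · refine ae_of_all _ fun y => ?_
    rw [Real.norm_eq_abs, abs_mul, abs_of_pos (Real.exp_pos _)]
    calc |f y| * Real.exp (-(s * y)) ≤ (K * Real.exp (x₀ * y)) * Real.exp (-(s * y)) :=
          mul_le_mul_of_nonneg_right (hf.bd y) (Real.exp_pos _).le
      _ = _ := by
        rw [mul_assoc, ← Real.exp_add]
        congr 2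
        ring

theorem f_lap (hf : Fn lam c σ α x₀ K f) {s : ℝ} (hs : x₀ < s) :
    lap f s = (hh (f₀ lam c α) (f₁ lam c α) s).re := by
  rw [← hf.lap s (by simpa using hs)]
  unfold Pool.Agent.W263.BSD.lap
  have h3 : ∀ y : ℝ, Complex.exp (-((s : ℂ) * y)) * (f y : ℂ) =
      ((f y * Real.exp (-(s * y)) : ℝ) : ℂ) := fun y => by push_cast; ring
  simp only [h3]
  rw [integral_complex_ofReal, Complex.ofReal_re]

/-- **Landau's theorem for the means** -/
theorem landau (D : Dat lam c δ σ) (H : Cont lam c σ 0 Ψ Kf) (h0 : 0 < α) (h1 : α < 1)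
    (hf : Fn lam c σ α x₀ K f) {ξ : ℝ} (hξ : 0 ≤ ξ)
    (hne : ∀ v : ℝ, ξ < v → Ψ ((v : ℂ) ^ (α : ℂ)) ≠ 0) {x₃ : ℝ} (hx₃ : ξ < x₃) (hx₃' : x₀ < x₃)
    {a' A : ℝ} (hA : ∀ y, 0 < y → f y ≤ A * Real.exp (a' * y)) :
    (∀ s > max a' ξ, LInt (fun y => A * Real.exp (a' * y) - f y) s) ∧
    ∀ s > max a' ξ, lap (fun y => A * Real.exp (a' * y) - f y) s =
      A / (s - a') - (fr lam c Ψ Kf α x₃ s / s ^ 2 - qf Ψ Kf α s / s).re := by
  refine Pool.Agent.TH988.RB.landau_lap (w1 := max x₃ a') ?_ (fun y hy => ?_) (fun s hs => ?_)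
    (fun s hs => ?_) fun s hs _ => ?_
  · exact ((by fun_prop : Measurable fun y : ℝ => A * Real.exp (a' * y))).sub hf.cont.measurable
  · linarith [hA y hy]
  · have hs1 : x₃ < s := (le_max_left _ _).trans_lt hs
    have hs2 : a' < s := (le_max_right _ _).trans_lt hs
    exact ((Pool.Agent.TH942.OS.exp_L hs2).1.const_mul A).sub (f_LInt hf (hx₃'.trans hs1))
  · have hs1 : a' < s := (le_max_left _ _).trans_lt hs
    have hs2 : ξ < s := (le_max_right _ _).trans_lt hs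
    have hs0 : 0 < s := lt_of_le_of_lt hξ hs2
    have hsc : (s : ℂ) ≠ 0 := by exact_mod_cast hs0.ne'
    obtain ⟨G, hG, hGe⟩ := fr_local (lam := lam) (c := c) H h0 h1 hξ hne hx₃ hs2
    have hq := qf_analytic H h0 h1 (v := (s : ℂ)) (by simpa using hs0) (hne s hs2)
    have h2 : AnalyticAt ℂ (fun v : ℂ => G v / v ^ 2 - qf Ψ Kf α v / v) (s : ℂ) :=
      (hG.div (analyticAt_id.pow 2) (pow_ne_zero 2 hsc)).sub (hq.div analyticAt_id hsc)
    have h3 := Pool.Agent.TH942.OS.re_analytic h2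
    have h4 : AnalyticAt ℝ (fun s : ℝ => A / (s - a')) s :=
      analyticAt_const.div (analyticAt_id.sub analyticAt_const) (by
        have : s - a' ≠ 0 := by linarith
        exact this)
    refine (h4.sub h3).congr ?_
    filter_upwards [hGe] with t ht
    rw [ht]
    rfl
  · have hs1 : x₃ < s := (le_max_left _ _).trans_lt hs
    have hs2 : a' < s := (le_max_right _ _).trans_lt hs
    have i1 : LInt (fun y => A * Real.exp (a' * y)) s :=
      (Pool.Agent.TH942.OS.exp_L hs2).1.const_mul A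
    have i2 := f_LInt hf (hx₃'.trans hs1)
    rw [Pool.Agent.W263.BSD.lap_sub i1 i2, f_lap hf (hx₃'.trans hs1)]
    have e3 : lap (fun T => A * Real.exp (a' * T)) s = A / (s - a') := by
      have : lap (fun T => A * Real.exp (a' * T)) s = A * lap (fun T => Real.exp (a' * T)) s := by
        unfold Pool.Agent.W263.BSD.lap
        rw [← integral_const_mul]
        refine setIntegral_congr_fun measurableSet_Ioi fun T _ => ?_
        ring
      rw [this, (Pool.Agent.TH942.OS.exp_L hs2).2]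
      ring
    rw [e3, fr_far D H h0 h1 hf hξ hne hx₃ hx₃' hs1.le]
    have e4 : 0 < (s : ℂ).re := by
      rw [Complex.ofReal_re]
      linarith [hf.one]
    have e5 : x₀ ≤ ‖(s : ℂ)‖ := by
      rw [Complex.norm_real, Real.norm_eq_abs]
      exact (hx₃'.trans hs1).le.trans (le_abs_self _)
    rw [qf_far H h0 h1 e4 (hf.far _ e4 e5)]
    rfl

theorem no_real (D : Dat lam c δ σ) (H : Cont lam c σ 0 Ψ Kf) (h0 : 0 < α) (h1 : α < 1)
    (hf : Fn lam c σ α x₀ K f) {a C y₀ : ℝ} (ha : 0 ≤ a)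
    (hM : ∀ y, y₀ ≤ y → M lam c α y ≤ C * Real.exp (a * y)) {x : ℝ} (hx : a < x) :
    Ψ ((x : ℂ) ^ (α : ℂ)) ≠ 0 := by
  intro hx0
  set a' : ℝ := (a + x) / 2 with ha'
  have haa : a < a' := by rw [ha']; linarith
  have ha'x : a' < x := by rw [ha']; linarith
  have ha'0 : 0 < a' := lt_of_le_of_lt ha haa
  have hxp : 0 < x := ha'0.trans ha'x
  obtain ⟨A, hA, hAf⟩ := upper_all hf hM haa ha'0
  -- the outermost real zero
  set X₁ : ℝ := max x x₀ with hX₁
  have hcont : ContinuousOn (fun t : ℝ => Ψ ((t : ℂ) ^ (α : ℂ))) (Ioi 0) := by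
    intro t ht
    have ht' : 0 < (t : ℂ).re := by simpa using ht
    have hc : ContinuousAt (fun v : ℂ => Ψ (v ^ (α : ℂ))) (t : ℂ) :=
      ContinuousAt.comp (f := fun v : ℂ => v ^ (α : ℂ)) (H.Ψd _ (re_pow_pos h0 h1 ht')).continuousAt
        (pow_deriv (slit ht')).continuousAt
    exact (ContinuousAt.comp (f := fun t : ℝ => (t : ℂ)) hc (by fun_prop)).continuousWithinAt
  have hsub : Icc x X₁ ⊆ Ioi 0 := fun t ht => lt_of_lt_of_le hxp ht.1
  have hZc : IsClosed (Icc x X₁ ∩ (fun t : ℝ => Ψ ((t : ℂ) ^ (α : ℂ))) ⁻¹' {0}) :=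
    (hcont.mono hsub).preimage_isClosed_of_isClosed isClosed_Icc isClosed_singleton
  have hZk : IsCompact (Icc x X₁ ∩ (fun t : ℝ => Ψ ((t : ℂ) ^ (α : ℂ))) ⁻¹' {0}) :=
    isCompact_Icc.of_isClosed_subset hZc inter_subset_left
  obtain ⟨ξ, ⟨hξ1, hξ2⟩, hξ3⟩ := hZk.exists_isGreatest ⟨x, ⟨le_rfl, le_max_left _ _⟩, hx0⟩
  have hξx : x ≤ ξ := hξ1.1
  have hξp : 0 < ξ := hxp.trans_le hξx
  have hne : ∀ v : ℝ, ξ < v → Ψ ((v : ℂ) ^ (α : ℂ)) ≠ 0 := by
    intro v hv h
    rcases le_or_gt v X₁ with h2 | h2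
    · exact absurd (hξ3 ⟨⟨hξx.trans hv.le, h2⟩, h⟩) (not_le.2 hv)
    · have e1 : 0 < (v : ℂ).re := by simpa using hξp.trans hv
      have e2 : x₀ ≤ ‖(v : ℂ)‖ := by
        rw [Complex.norm_real, Real.norm_eq_abs]
        exact ((le_max_right x x₀).trans h2.le).trans (le_abs_self _)
      have e3 := hf.far _ e1 e2
      have e4 := re_pow_ge h0 h1 e1
      exact H.ne _ (by linarith) h
  set x₃ : ℝ := max ξ x₀ + 1 with hx₃
  have g1 : ξ < x₃ := by
    rw [hx₃]
    linarith [le_max_left ξ x₀]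
  have g2 : x₀ < x₃ := by
    rw [hx₃]
    linarith [le_max_right ξ x₀]
  obtain ⟨-, hlap⟩ := landau D H h0 h1 hf hξp.le hne g1 g2 hAf
  have hmax : max a' ξ = ξ := max_eq_right (by linarith)
  rw [hmax] at hlap
  -- the derivative is nonnegative
  set φ : ℝ → ℂ := fr lam c Ψ Kf α x₃ with hφ
  set ψ : ℝ → ℝ := fun s => A * Real.log (s - a') + (φ s).re / s with hψ
  have hder : ∀ s, ξ < s → HasDerivAt ψ (A / (s - a') - (φ s / s ^ 2 - qf Ψ Kf α s / s).re) s := by
    intro s hs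
    have hs0 : 0 < s := hξp.trans hs
    have hsa : 0 < s - a' := by linarith
    have d1 : HasDerivAt (fun s : ℝ => A * Real.log (s - a')) (A * (1 / (s - a'))) s :=
      (((hasDerivAt_id s).sub_const a').log hsa.ne').const_mul A
    have d2 : HasDerivAt (fun s => (φ s).re) ((qf Ψ Kf α s).re) s := by
      have d3 := fr_deriv (lam := lam) (c := c) H h0 h1 hξp.le hne g1 hs
      have := (Complex.reCLM.hasFDerivAt (x := φ s)).comp_hasDerivAt s d3
      exact this
    have d3 := d1.add (d2.div (hasDerivAt_id s) hs0.ne')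
    refine d3.congr_deriv ?_
    have e1 : (φ s / (s : ℂ) ^ 2 - qf Ψ Kf α s / s).re = (φ s).re / s ^ 2 - (qf Ψ Kf α s).re / s := by
      rw [Complex.sub_re, Complex.div_ofReal_re, ← Complex.ofReal_pow, Complex.div_ofReal_re]
    rw [e1]
    simp only [id]
    field_simp
    ring
  have hmono : MonotoneOn ψ (Ioi ξ) := by
    refine monotoneOn_of_deriv_nonneg (convex_Ioi ξ)
      (fun s hs => (hder s hs).continuousAt.continuousWithinAt) ?_ ?_
    · rw [interior_Ioi]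
      exact fun s hs => (hder s hs).differentiableAt.differentiableWithinAt
    · rw [interior_Ioi]
      intro s hs
      rw [(hder s hs).deriv, ← hlap s hs]
      unfold Pool.Agent.W263.BSD.lap
      refine setIntegral_nonneg measurableSet_Ioi fun y hy => ?_
      exact mul_nonneg (by linarith [hAf y hy]) (Real.exp_pos _).le
  -- the primitive is bounded above near the zero
  set s₂ : ℝ := ξ + 1 with hs₂
  set B : ℝ := s₂ * (|ψ s₂| + |A * Real.log (ξ - a')|) with hB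
  have hbound : ∀ s, ξ < s → s ≤ s₂ → (φ s).re ≤ B := by
    intro s hs hs'
    have hs0 : 0 < s := hξp.trans hs
    have e1 : ψ s ≤ ψ s₂ := hmono hs (show ξ < s₂ by rw [hs₂]; linarith) hs'
    have e2 : A * Real.log (ξ - a') ≤ A * Real.log (s - a') :=
      mul_le_mul_of_nonneg_left (Real.log_le_log (by linarith) (by linarith)) hA
    have e3 : (φ s).re / s ≤ |ψ s₂| + |A * Real.log (ξ - a')| := by
      have e4 : ψ s = A * Real.log (s - a') + (φ s).re / s := rfl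
      have := le_abs_self (ψ s₂)
      have := neg_abs_le (A * Real.log (ξ - a'))
      linarith
    rw [div_le_iff₀ hs0] at e3
    refine e3.trans ?_
    rw [hB, mul_comm]
    exact mul_le_mul_of_nonneg_right hs' (by positivity)
  obtain ⟨k, GK, hk, hGK, hE⟩ := fr_exp (lam := lam) (c := c) H h0 h1 hξp.le hne g1
  have hξre : 0 < (ξ : ℂ).re := by simpa using hξp
  have hpow : ContinuousAt (fun s : ℝ => (s : ℂ) ^ (α : ℂ)) ξ :=
    ContinuousAt.comp (f := fun t : ℝ => (t : ℂ)) (pow_deriv (slit hξre)).continuousAt (by fun_prop)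
  have hGKc : ContinuousAt (fun s : ℝ => GK ((s : ℂ) ^ (α : ℂ))) ξ :=
    ContinuousAt.comp (f := fun s : ℝ => (s : ℂ) ^ (α : ℂ))
      (hGK _ (re_pow_pos h0 h1 hξre)).continuousAt hpow
  have hΨc : Tendsto (fun s : ℝ => ‖Ψ ((s : ℂ) ^ (α : ℂ))‖ *
      Real.exp (B + (‖GK ((ξ : ℂ) ^ (α : ℂ))‖ + 1))) (𝓝[>] ξ) (𝓝 0) := by
    have e1 : ContinuousAt (fun s : ℝ => Ψ ((s : ℂ) ^ (α : ℂ))) ξ := hcont.continuousAt
      (isOpen_Ioi.mem_nhds hξp)
    have e2 := (e1.norm.tendsto.mono_left (nhdsWithin_le_nhds (s := Ioi ξ))).mul_const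
      (Real.exp (B + (‖GK ((ξ : ℂ) ^ (α : ℂ))‖ + 1)))
    have e3 : Ψ ((ξ : ℂ) ^ (α : ℂ)) = 0 := hξ2
    rw [e3, norm_zero, zero_mul] at e2
    exact e2
  have hlow : ∀ᶠ s : ℝ in 𝓝[>] ξ, ‖k‖ ≤ ‖Ψ ((s : ℂ) ^ (α : ℂ))‖ *
      Real.exp (B + (‖GK ((ξ : ℂ) ^ (α : ℂ))‖ + 1)) := by
    have e1 : ∀ᶠ s : ℝ in 𝓝[>] ξ, ‖GK ((s : ℂ) ^ (α : ℂ))‖ < ‖GK ((ξ : ℂ) ^ (α : ℂ))‖ + 1 :=
      nhdsWithin_le_nhds (hGKc.norm.eventually (gt_mem_nhds (lt_add_one _)))
    have e2 : ∀ᶠ s : ℝ in 𝓝[>] ξ, s < s₂ :=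
      nhdsWithin_le_nhds (gt_mem_nhds (by rw [hs₂]; linarith))
    filter_upwards [e1, e2, self_mem_nhdsWithin] with s f1 f2 f3
    have f3' : ξ < s := f3
    rw [← hE s f3', norm_mul, Complex.norm_exp]
    refine mul_le_mul_of_nonneg_left (Real.exp_le_exp.2 ?_) (norm_nonneg _)
    rw [Complex.sub_re]
    have f4 := hbound s f3' f2.le
    have f5 := (neg_le_abs _).trans (Complex.abs_re_le_norm (GK ((s : ℂ) ^ (α : ℂ))))
    have f6 : (fr lam c Ψ Kf α x₃ s).re ≤ B := f4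
    linarith
  have hfin := ge_of_tendsto hΨc hlow
  exact hk (norm_le_zero_iff.1 hfin)

/-- **One-sided bounds for the sectorial means imply zero-free regions.** -/
theorem one_sided (D : Dat lam c δ σ) (H : Cont lam c σ 0 Ψ Kf) (h0 : 0 < α) (h1 : α < 1)
    {a C y₀ : ℝ} (ha : 0 ≤ a) (hM : ∀ y, y₀ ≤ y → M lam c α y ≤ C * Real.exp (a * y)) {v₀ : ℂ}
    (hv₀ : a < v₀.re) : Ψ (v₀ ^ (α : ℂ)) ≠ 0 := by
  obtain ⟨x₀, K, f, hf⟩ := exists_fn D h0 h1
  refine down_int D H h0 h1 hf ha (fun x hx => ?_) hv₀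
  set a' : ℝ := (a + x) / 2 with ha'
  have haa : a < a' := by rw [ha']; linarith
  have ha'x : a' < x := by rw [ha']; linarith
  have ha'0 : 0 < a' := lt_of_le_of_lt ha haa
  obtain ⟨A, hA, hAf⟩ := upper_all hf hM haa ha'0
  have hne : ∀ v : ℝ, a < v → Ψ ((v : ℂ) ^ (α : ℂ)) ≠ 0 := fun v hv => no_real D H h0 h1 hf ha hM hv
  obtain ⟨hL, -⟩ := landau D H h0 h1 hf ha hne (x₃ := max a x₀ + 1)
    (by linarith [le_max_left a x₀]) (by linarith [le_max_right a x₀]) hAf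
  have h2 := hL x (max_lt ha'x hx)
  have h3 : LInt (fun y => A * Real.exp (a' * y)) x :=
    (Pool.Agent.TH942.OS.exp_L ha'x).1.const_mul A
  have h4 := h3.sub h2
  refine h4.congr_fun (fun y _ => ?_) measurableSet_Ioi
  simp only
  ring

end Pool.Agent.X287.Sect
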